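import Pool.Agent.Y148.OD.Term

/-!
# Zero-cycles on varieties of arbitrary dimension: the dichotomy
-/

set_option autoImplicit false

namespace Pool.Agent.Y148.OD

open MvPolynomial

variable {Ω : Type} [Field Ω] {τ : Type} {A : Type} [AddCommGroup A]

/-- If generic zero-cycles on `D` move and the zero-cycles on a hyperplane section of `D` are bounded,
then the zero-cycles on `D` are bounded. -/
theorem bdd_of_section [IsAlgClosed Ω] [Uncountable Ω] [Fintype τ] {k K : Subfield Ω}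
    (hkK : k ≤ K) {V D : Set (τ → Ω)} {cl : (τ → Ω) → A} (hc : Cls k V cl) (hDV : D ⊆ V) {m : ℕ}
    (hD : Setup k D m) (hsm : ∀ (c : Ω) (v : τ → Ω), c ≠ 0 → v ∈ D → c • v ∈ D) {p : ℕ}
    (hgen : GenMove k D m cl p) {l : τ → Ω} (hl : ∀ a, l a ∈ k) {q : ℕ}
    (hB : Bdd K V (Sec D l) cl q) : Bdd K V D cl (q + m * p) := by
  classical
  have hcD : Cls k D cl := hc.sub hDV hD.closed hsm
  have hsec := eff_section (eff_move hD hcD hgen l hl)
  intro ι _ b hb
  by_cases hn : Fintype.card ι < p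
  · refine ⟨b, fun i => hDV (hb i), rfl, ?_⟩
    refine (rk_anti hkK _).trans ((rk_coords_le hD hb).trans ?_)
    have := Nat.mul_le_mul_left m hn.le
    exact_mod_cast this.trans (Nat.le_add_left _ _)
  · obtain ⟨s, hs⟩ : ∃ s, Fintype.card ι = s + p := ⟨Fintype.card ι - p, by omega⟩
    have h1 : ∑ i, cl (b i) ∈ Eff D cl (s + p) := by
      rw [← hs]
      exact eff_sum hb
    obtain ⟨b₁, ⟨x, hx, rfl⟩, b₂, ⟨w, hw, rfl⟩, hsum⟩ := hsec s _ h1
    obtain ⟨x', hx', hxs', hxr'⟩ := hB (Fin s) x hx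
    let e : ι ≃ Fin s ⊕ Fin p := (Fintype.equivFinOfCardEq hs).trans finSumFinEquiv.symm
    have hut : ∀ i, Sum.elim x' w i ∈ V := by
      rintro (i | i)
      · exact hx' i
      · exact hDV (hw i)
    refine ⟨fun i => Sum.elim x' w (e i), fun i => hut _, ?_, ?_⟩
    · rw [Equiv.sum_comp e (fun i => cl (Sum.elim x' w i)), Fintype.sum_sum_type, hsum]
      simp only [Sum.elim_inl, Sum.elim_inr]
      rw [hxs']
    · rw [coords_comp_equiv, coords_sum_elim]
      refine (rk_union_le _ _ _).trans ?_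
      have h2 := (rk_anti hkK _).trans (rk_coords_le hD hw)
      rw [Fintype.card_fin] at h2
      exact_mod_cast add_le_add hxr' h2

theorem exists_coord {D : Set (τ → Ω)} {v : τ → Ω} (hv : v ∈ D) (h0 : ∀ v ∈ D, v ≠ 0) :
    ∃ a, v a ≠ 0 := by
  by_contra hcon
  push Not at hcon
  exact h0 v hv (funext hcon)

theorem sum_single [Fintype τ] [DecidableEq τ] (a₁ : τ) (v : τ → Ω) :
    ∑ a, (Pi.single a₁ (1 : Ω) : τ → Ω) a * v a = v a₁ := by
  rw [Finset.sum_eq_single a₁]
  · simp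
  · intro b _ hb
    simp [Pi.single_eq_of_ne hb]
  · intro h
    exact absurd (Finset.mem_univ _) h

theorem single_mem [DecidableEq τ] (k : Subfield Ω) (a₁ a : τ) :
    (Pi.single a₁ (1 : Ω) : τ → Ω) a ∈ k := by
  by_cases h : a = a₁
  · rw [h, Pi.single_eq_same]
    exact one_mem k
  · rw [Pi.single_eq_of_ne h]
    exact zero_mem k

/-- **Dichotomy.** The zero-cycles on a subvariety are bounded, or there is a terminal subvariety of
dimension at least two. -/
theorem dichotomy (hComp : StmComp) (hCurve : StmCurve) [IsAlgClosed Ω] [Uncountable Ω]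
    [CharZero Ω] [Fintype τ] {k : Subfield Ω} {V : Set (τ → Ω)} {M : ℕ} (h : Setup k V M)
    {cl : (τ → Ω) → A} (hc : Cls k V cl)
    (hrat : ∀ (n : ℕ) (x y : Fin n → V), ∑ i, FreeAbelianGroup.of (x i) -
        ∑ i, FreeAbelianGroup.of (y i) ∈ ratSub (vlin V) → ∑ i, cl (x i) = ∑ i, cl (y i)) :
    ∀ (m : ℕ) (k₀ : Subfield Ω) (D : Set (τ → Ω)), k ≤ k₀ → D ⊆ V → Setup k₀ D m →
      (∀ (c : Ω) (v : τ → Ω), c ≠ 0 → v ∈ D → c • v ∈ D) →
      (∃ (k' : Subfield Ω) (q : ℕ), Countable k' ∧ k₀ ≤ k' ∧ Bdd k' V D cl q) ∨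
      (∃ (k' : Subfield Ω) (E : Set (τ → Ω)) (m' : ℕ), Countable k' ∧ k₀ ≤ k' ∧ 3 ≤ m' ∧
        Terminal k' V E m' cl) := by
  classical
  intro m
  induction m using Nat.strong_induction_on with
  | _ m ih =>
    intro k₀ D hk₀ hDV hD hsm
    have hk₀c := hD.countable
    have hc₀ : Cls k₀ V cl := hc.mono hk₀
    have hD0 : ∀ v ∈ D, v ≠ 0 := fun v hv => hc.ne_zero v (hDV hv)
    by_cases hm1 : m ≤ 1
    · left
      refine ⟨k₀, 0, hk₀c, le_rfl, bdd_of_rk_le_one hk₀c hc₀ hDV hsm fun v hv => ?_⟩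
      exact ((hD.point le_rfl hk₀c).1 v hv).trans (by exact_mod_cast hm1)
    by_cases hm2 : m = 2
    · left
      subst hm2
      obtain ⟨k', N, D', m', hk'c, hk'a, hkk', -⟩ := hComp Ω τ D k₀ hk₀c hD.closed hsm
      have hD' : Setup k' D 2 := hD.mono hkk' hk'c
      have hc' : Cls k' V cl := hc₀.mono hkk'
      obtain ⟨p, hp⟩ := hCurve Ω τ V D k' hk'c hk'a (closed_mono (hk₀.trans hkk') h.closed)
        hc.smul_mem hDV hD' hsm A cl hc.smul_cl hrat
      exact ⟨k', 2 * p, hk'c, hkk', bdd_of_genMove hc' hDV hD' hsm hp⟩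
    have hm3 : 3 ≤ m := by omega
    by_cases hmove : ∃ p, GenMove k₀ D m cl p
    · obtain ⟨p, hp⟩ := hmove
      obtain ⟨w₀, hw₀⟩ := hD.nonempty
      obtain ⟨a₁, ha₁⟩ := exists_coord hw₀ hD0
      set l : τ → Ω := Pi.single a₁ 1 with hl
      have hlv : ∀ v : τ → Ω, ∑ a, l a * v a = v a₁ := sum_single a₁
      have hlk : ∀ a, l a ∈ k₀ := single_mem k₀ a₁
      obtain ⟨k', N, D', m', hk'c, hk'a, hkk', hset, hDW, hDsm, hDcov⟩ :=
        hComp Ω τ (Sec D l) k₀ hk₀c
        (by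
          obtain ⟨S, hS⟩ := hD.closed
          refine ⟨S ∪ {X a₁}, fun v => ?_⟩
          constructor
          · rintro ⟨hv, hv0⟩
            obtain ⟨hv1, hv2⟩ := (hS v).mp hv
            refine ⟨hv1, ?_⟩
            rintro P (hP | hP)
            · exact hv2 P hP
            · rw [Set.mem_singleton_iff.mp hP, aeval_X]
              rw [hlv] at hv0
              exact hv0
          · rintro ⟨hv1, hv2⟩
            refine ⟨(hS v).mpr ⟨hv1, fun P hP => hv2 P (Or.inl hP)⟩, ?_⟩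
            rw [hlv]
            have := hv2 _ (Or.inr rfl)
            rwa [aeval_X] at this)
        (by
          rintro c v h0 ⟨hv, hv0⟩
          refine ⟨hsm c v h0 hv, ?_⟩
          rw [hlv] at hv0 ⊢
          simp [hv0])
      have hD'' : Setup k' D m := hD.mono hkk' hk'c
      have hm : ∀ i, m' i < m := by
        intro i
        by_contra hcon
        rw [not_lt] at hcon
        obtain ⟨v, hv, hvr⟩ := (hset i).lower k' hk'c
        obtain ⟨hvD, hv0⟩ := hDW i hv
        rw [hlv] at hv0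
        have h1 : (m : ℕ∞) ≤ rk k' (Set.range v) := le_trans (by exact_mod_cast hcon) hvr
        have h2 := (hD''.point le_rfl hk'c).2 v hvD h1 (X a₁) (by rw [aeval_X]; exact hv0) w₀ hw₀
        rw [aeval_X] at h2
        exact ha₁ h2
      by_cases hright : ∃ _i : Fin N, ∃ (k'' : Subfield Ω) (E : Set (τ → Ω)) (m'' : ℕ), Countable k'' ∧
          k' ≤ k'' ∧ 3 ≤ m'' ∧ Terminal k'' V E m'' cl
      · obtain ⟨i, k'', E, m'', h1, h2, h3, h4⟩ := hright
        exact Or.inr ⟨k'', E, m'', h1, hkk'.trans h2, h3, h4⟩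
      · left
        have hbdd : ∀ i, ∃ (k'' : Subfield Ω) (q : ℕ), Countable k'' ∧ k' ≤ k'' ∧
            Bdd k'' V (D' i) cl q := by
          intro i
          rcases ih (m' i) (hm i) k' (D' i) (hk₀.trans hkk') (fun v hv => hDV (hDW i hv).1)
            (hset i) (hDsm i) with h1 | h1
          · exact h1
          · exact absurd ⟨i, h1⟩ hright
        choose f q hfc hfk hfB using hbdd
        set K := adj k' (⋃ i, (f i : Set Ω)) with hK
        have hKc : Countable K := countable_adj (Set.countable_iUnion fun i =>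
          Set.countable_coe_iff.mp (hfc i))
        have hfK : ∀ i, f i ≤ K := fun i x hx => subset_adj _ _ (Set.mem_iUnion.mpr ⟨i, hx⟩)
        have hkK : k₀ ≤ K := hkk'.trans (le_adj_left _ _)
        have hS : Bdd K V (Sec D l) cl (∑ i, q i) :=
          bdd_union (fun i => (hfB i).mono (hfK i)) hDcov
        exact ⟨K, ∑ i, q i + m * p, hKc, hkK, bdd_of_section hkK hc₀ hDV hD hsm hp hlk hS⟩
    · right
      push Not at hmove
      exact ⟨k₀, D, m, hk₀c, le_rfl, hm3, hDV, hD, hsm, hmove⟩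

/-- If the zero-cycles on `V` are bounded, all orbits are large. -/
theorem big_of_bdd [IsAlgClosed Ω] [Uncountable Ω] [Fintype τ] {k : Subfield Ω}
    {V : Set (τ → Ω)} {M : ℕ} (h : Setup k V M) (hM : 2 ≤ M) {cl : (τ → Ω) → A}
    (hc : Cls k V cl) {q : ℕ} (hB : Bdd k V V cl q) (m : ℕ) {z₀ : Fin m → τ → Ω}
    (hz₀ : ∀ i, z₀ i ∈ V) : Big V cl z₀ (M * m - M * q) := by
  classical
  by_cases hmq : m ≤ q
  · intro L hL
    refine ⟨z₀, hz₀, rfl, ?_⟩
    rw [Nat.sub_eq_zero_of_le (Nat.mul_le_mul_left M hmq)]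
    simp
  obtain ⟨z, hz, hzr⟩ := h.exists_family h.countable m
  obtain ⟨u, hu, hus, hur⟩ := hB (Fin m) z hz
  have hkc := h.countable
  set K := adj k (coords u) with hK
  have hKc : Countable K := countable_adj (countable_coords u)
  set L := adj K (coords z) with hL
  have hLc : Countable L := countable_adj (countable_coords z)
  have hrz : ((M * m - q : ℕ) : ℕ∞) ≤ rk K (coords z) := by
    have h1 : ((M * m : ℕ) : ℕ∞) ≤ rk k (coords u) + rk K (coords z) := by
      rw [hK, ← rk_adj_union]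
      exact hzr.trans (rk_mono _ Set.subset_union_right)
    have h2 : q ≤ M * m := by nlinarith
    refine cancel_aux (p := q) ?_ hur
    rw [Nat.add_sub_cancel' h2]
    exact h1
  obtain ⟨y, hy, -, hysum, hyr⟩ := hc.orbit_ext (κ := Fin m)
    (ι := Fin m) rfl (le_adj_left k (coords u)) (le_adj_left K (coords z))
    hLc hu (fun i a => subset_adj _ _ ⟨i, a, rfl⟩) hz Set.univ
    (fun i hi => absurd (Set.mem_univ i) hi) hus
  rw [cof_univ, cof_univ] at hyr
  have h1 : ((M * m - q : ℕ) : ℕ∞) ≤ rk (adj k (coords z)) (coords y) :=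
    hrz.trans (hyr.trans (rk_anti (adj_le ((le_adj_left k (coords u)).trans
      (le_adj_left K (coords z))) (subset_adj _ _)) _))
  have h2 : M * m - q = (M * m - q - m) + m := by
    have : 2 * m ≤ M * m := Nat.mul_le_mul_right _ hM
    omega
  rw [h2] at h1
  have h3 := semicont h hc hz hy hysum.symm hzr h1 hz₀
  intro L' hL'
  obtain ⟨y', hy', hys', hyr'⟩ := h3 L' hL'
  refine ⟨y', hy', hys', le_trans ?_ hyr'⟩
  rw [← h2]
  have : q ≤ M * q := by nlinarith
  exact_mod_cast (by omega : M * m - M * q ≤ M * m - q)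

/-- **The equivalences in all dimensions.** -/
theorem general_tfae (hComp : StmComp) (hCurve : StmCurve) [IsAlgClosed Ω] [Uncountable Ω]
    [CharZero Ω] [Fintype τ] {k : Subfield Ω} {V : Set (τ → Ω)} {M : ℕ} (h : Setup k V M)
    (hM : 2 ≤ M) {cl : (τ → Ω) → A} (hc : Cls k V cl)
    (hrat : ∀ (n : ℕ) (x y : Fin n → V), ∑ i, FreeAbelianGroup.of (x i) -
        ∑ i, FreeAbelianGroup.of (y i) ∈ ratSub (vlin V) → ∑ i, cl (x i) = ∑ i, cl (y i)) :
    List.TFAE
      [∃ c : ℕ, ∀ (m : ℕ) (z : Fin m → τ → Ω), (∀ i, z i ∈ V) → Big V cl z (M * m - c),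
       ∃ m : ℕ, ∀ z : Fin m → τ → Ω, (∀ i, z i ∈ V) → Big V cl z ((M - 2) * m + 1),
       ∃ (m : ℕ) (z : Fin m → τ → Ω), (∀ i, z i ∈ V) ∧ Big V cl z ((M - 1) * m + 1)] := by
  have hkc := h.countable
  have key : (∃ c : ℕ, ∀ (m : ℕ) (z : Fin m → τ → Ω), (∀ i, z i ∈ V) →
      Big V cl z (M * m - c)) ∨ ∃ (k' : Subfield Ω) (E : Set (τ → Ω)) (m' : ℕ), Countable k' ∧
        k ≤ k' ∧ 3 ≤ m' ∧ Terminal k' V E m' cl := by
    rcases dichotomy hComp hCurve h hc hrat M k V le_rfl subset_rfl h hc.smul_mem with h1 | h1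
    · left
      obtain ⟨k', q, hk'c, hkk', hB⟩ := h1
      exact ⟨M * q, fun m z hz => big_of_bdd (h.mono hkk' hk'c) hM (hc.mono hkk') hB m hz⟩
    · exact Or.inr h1
  tfae_have 1 → 3 := by
    rintro ⟨c, hc'⟩
    obtain ⟨z, hz, -⟩ := h.exists_family hkc (c + 1)
    refine ⟨c + 1, z, hz, fun L hL => ?_⟩
    obtain ⟨y, hy, hys, hyr⟩ := hc' (c + 1) z hz L hL
    refine ⟨y, hy, hys, le_trans ?_ hyr⟩
    have : (M - 1) * (c + 1) + 1 ≤ M * (c + 1) - c := by
      obtain ⟨q, rfl⟩ : ∃ q, M = q + 1 := ⟨M - 1, by omega⟩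
      have : (q + 1) * (c + 1) = q * (c + 1) + (c + 1) := by ring
      simp only [Nat.add_sub_cancel]
      omega
    exact_mod_cast this
  tfae_have 3 → 1 := by
    rintro ⟨n, z, hz, hn⟩
    rcases key with h1 | ⟨k', E, m', hk'c, hkk', hm', hE⟩
    · exact h1
    · exact absurd hn (hE.not_big (h.mono hkk' hk'c) (hc.mono hkk') hm' hz)
  tfae_have 1 → 2 := by
    rintro ⟨c, hc'⟩
    refine ⟨c + 1, fun z hz L hL => ?_⟩
    obtain ⟨y, hy, hys, hyr⟩ := hc' (c + 1) z hz L hL
    refine ⟨y, hy, hys, le_trans ?_ hyr⟩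
    have : (M - 2) * (c + 1) + 1 ≤ M * (c + 1) - c := by
      obtain ⟨q, rfl⟩ : ∃ q, M = q + 2 := ⟨M - 2, by omega⟩
      have : (q + 2) * (c + 1) = q * (c + 1) + 2 * (c + 1) := by ring
      simp only [Nat.add_sub_cancel]
      omega
    exact_mod_cast this
  tfae_have 2 → 1 := by
    rintro ⟨n, hn⟩
    rcases key with h1 | ⟨k', E, m', hk'c, hkk', hm', hE⟩
    · exact h1
    · exfalso
      have h' := h.mono hkk' hk'c
      obtain ⟨z, hz, hzr⟩ := h'.exists_family hk'c n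
      obtain ⟨y, hy, hys, hyr⟩ := hn z hz (adj k' (coords z)) (countable_adj (countable_coords z))
      have h1 := hE.orbit_le h' (hc.mono hkk') hz hy hys.symm hzr
      obtain ⟨Y, hY⟩ := exists_nat_rk h' (le_adj_left k' (coords z)) hy
      rw [← hY] at h1 hyr
      have h2 : Y + m' * n ≤ (M + 1) * n := by exact_mod_cast h1
      have h3 : (M - 2) * n + 1 ≤ Y := by exact_mod_cast hyr
      have h4 : 3 * n ≤ m' * n := Nat.mul_le_mul_right _ hm'
      obtain ⟨x, rfl⟩ : ∃ x, M = x + 2 := ⟨M - 2, by omega⟩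
      have e2 : x + 2 - 2 = x := by omega
      rw [e2] at h3
      nlinarith
  tfae_finish

end Pool.Agent.Y148.OD
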