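import Pool.Agent.Y148.OD.Trans
import Pool.Agent.Y148.OD.Gen

/-!
# Zero-cycles on projective varieties of arbitrary dimension
-/

set_option autoImplicit false

namespace Pool.Agent.Y148.OD

open MvPolynomial

variable {r : ℕ} {X : Set (Pt r)}

/-- Translation of the equivalences. -/
theorem tfae_ofN {N : ℕ} (hN : 1 ≤ N) (hX : X.Nonempty)
    (h : List.TFAE
      [∃ c : ℕ, ∀ (m : ℕ) (z : Fin m → Fin (r + 1) → ℂ), (∀ i, z i ∈ cone X) →
          Big (cone X) (cl X) z ((N + 1) * m - c),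
       ∃ m : ℕ, ∀ z : Fin m → Fin (r + 1) → ℂ, (∀ i, z i ∈ cone X) →
          Big (cone X) (cl X) z ((N + 1 - 2) * m + 1),
       ∃ (m : ℕ) (z : Fin m → Fin (r + 1) → ℂ), (∀ i, z i ∈ cone X) ∧
          Big (cone X) (cl X) z ((N + 1 - 1) * m + 1)]) :
    List.TFAE [∃ c, ∀ n, dn X N n ≤ c, ∃ n, dn X N n < 2 * n,
      ∃ (n : ℕ) (x : Fin n → X), (N - 1) * n < dim (fibre X x)] := by
  have hz : ∀ {n : ℕ} (z : Fin n → Fin (r + 1) → ℂ) (hz : ∀ i, z i ∈ cone X),
      ∑ i, cl X (z i) = γ X fun i => pt ⟨z i, hz i⟩ := fun z hz =>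
    (γ_pt fun i => ⟨z i, hz i⟩).symm
  have hx : ∀ {n : ℕ} (x : Fin n → X), ∑ i, cl X (vec (x i)) = γ X x := by
    intro n x
    rw [← γ_pt]
    simp only [pt_vec]
  have key : ∀ (n s : ℕ), s ≤ sInf {d | ∃ x : Fin n → X, d = dim (fibre X x)} ↔
      ∀ z : Fin n → Fin (r + 1) → ℂ, (∀ i, z i ∈ cone X) → Big (cone X) (cl X) z (s + n) := by
    intro n s
    rw [le_sInf_iff hX]
    constructor
    · intro h z hzc
      exact (big_iff (hz z hzc) s).mpr (h _)
    · intro h x
      exact (big_iff (hx x) s).mp (h _ fun i => (vec (x i)).2)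
  have e1 : ∀ n, (N + 1) * n = N * n + n := fun n => by ring
  have h11 : (∃ c, ∀ n, dn X N n ≤ c) ↔ ∃ c : ℕ, ∀ (m : ℕ) (z : Fin m → Fin (r + 1) → ℂ),
      (∀ i, z i ∈ cone X) → Big (cone X) (cl X) z ((N + 1) * m - c) := by
    constructor
    · rintro ⟨c, hc⟩
      refine ⟨c, fun m z hzc => ?_⟩
      have h3 := (key m (N * m - c)).mp (by
        have := hc m
        rw [dn] at this
        omega) z hzc
      refine h3.mono ?_
      rw [e1]
      omega
    · rintro ⟨c, hc⟩
      refine ⟨c, fun m => ?_⟩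
      have h1 := (key m (N * m - c)).mpr (fun z hzc => by
        by_cases h2 : N * m ≤ c
        · rw [Nat.sub_eq_zero_of_le h2]
          exact (big_iff (hz z hzc) 0).mpr (Nat.zero_le _)
        · refine (hc m z hzc).mono ?_
          rw [e1]
          omega)
      rw [dn]
      omega
  have h22 : (∃ n, dn X N n < 2 * n) ↔ ∃ m : ℕ, ∀ z : Fin m → Fin (r + 1) → ℂ,
      (∀ i, z i ∈ cone X) → Big (cone X) (cl X) z ((N + 1 - 2) * m + 1) := by
    by_cases hN1 : N = 1
    · subst hN1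
      constructor
      · rintro -
        refine ⟨1, fun z hzc => ?_⟩
        exact ((big_iff (hz z hzc) 0).mpr (Nat.zero_le _)).mono (by omega)
      · rintro -
        refine ⟨1, ?_⟩
        rw [dn]
        omega
    · obtain ⟨N', rfl⟩ : ∃ N', N = N' + 2 := ⟨N - 2, by omega⟩
      have e2 : ∀ n, (N' + 2) * n = N' * n + 2 * n := fun n => by ring
      have e3 : ∀ n, (N' + 2 + 1 - 2) * n + 1 = (N' * n + 1) + n := fun n => by
        have : N' + 2 + 1 - 2 = N' + 1 := by omega
        rw [this]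
        ring
      constructor
      · rintro ⟨n, hn⟩
        refine ⟨n, fun z hzc => ?_⟩
        rw [e3]
        refine (key n (N' * n + 1)).mp ?_ z hzc
        rw [dn, e2] at hn
        omega
      · rintro ⟨m, hm⟩
        have h1 := (key m (N' * m + 1)).mpr (fun z hzc => by
          rw [← e3]
          exact hm z hzc)
        refine ⟨m, ?_⟩
        have h2 : m ≠ 0 := by
          rintro rfl
          obtain ⟨x₀, hx₀⟩ := hX
          have h3 := (le_sInf_iff ⟨x₀, hx₀⟩ (N' * 0 + 1)).mp h1 (fun _ => ⟨x₀, hx₀⟩)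
          have h4 := ((le_dim_iff (fibre_nonempty _) _).mp h3).le
          simp at h4
        rw [dn, e2]
        omega
  have h33 : (∃ (n : ℕ) (x : Fin n → X), (N - 1) * n < dim (fibre X x)) ↔
      ∃ (m : ℕ) (z : Fin m → Fin (r + 1) → ℂ), (∀ i, z i ∈ cone X) ∧
          Big (cone X) (cl X) z ((N + 1 - 1) * m + 1) := by
    obtain ⟨N', rfl⟩ : ∃ N', N = N' + 1 := ⟨N - 1, by omega⟩
    have e3 : ∀ n, (N' + 1 + 1 - 1) * n + 1 = (N' * n + 1) + n := fun n => by
      have : N' + 1 + 1 - 1 = N' + 1 := by omega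
      rw [this]
      ring
    constructor
    · rintro ⟨n, x, hn⟩
      refine ⟨n, fun i => vec (x i), fun i => (vec (x i)).2, ?_⟩
      rw [e3]
      refine (big_iff (hx x) _).mpr ?_
      simpa using hn
    · rintro ⟨m, z, hzc, hb⟩
      rw [e3] at hb
      have h1 := (big_iff (hz z hzc) _).mp hb
      refine ⟨m, fun i => pt ⟨z i, hzc i⟩, ?_⟩
      simp only [Nat.add_sub_cancel]
      exact h1
  rw [h11, h22, h33]
  exact h

/-- **The criteria in all dimensions.** -/
theorem variety_tfae (hComp : StmComp) (hCurve : StmCurve) (hStab : StmStab) {N : ℕ} (hN : 1 ≤ N)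
    (hX : IsVariety X N) :
    List.TFAE [∃ c, ∀ n, dn X N n ≤ c, ∃ n, dn X N n < 2 * n,
      ∃ (n : ℕ) (x : Fin n → X), (N - 1) * n < dim (fibre X x)] := by
  have := uncountable_complex
  obtain ⟨k, hk⟩ := setup_cone hX
  have hc := cls_cone hStab hk
  exact tfae_ofN hN hX.irred.1 (general_tfae hComp hCurve hk (by omega) hc
    (fun n x y h => cl_eq_of_rat x y h))

end Pool.Agent.Y148.OD
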