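import Pool.Agent.Y148.OD.Corr

/-!
# Homomorphisms of groups of zero-cycles given by families of zero-cycles, second part
-/

set_option autoImplicit false

namespace Pool.Agent.Y148.OD

open MvPolynomial

/-- The zero-cycles of a family at a point and at its specialisation: the points of the cycle `f(x)`
specialise to the points of a cycle rationally equivalent to `f(x')`. -/
theorem family_spec {r s m : ℕ} {X : Set (Pt r)} {Y : Set (Pt s)} {f : X → Fin m → Y}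
    {S : Finset (MvPolynomial (Fin (r + 1)) (MvPolynomial (Fin (s + 1)) ℂ))}
    (hS1 : ∀ G ∈ S, ∃ d : ℕ, G.IsHomogeneous d)
    (hS2 : ∀ x : X, ∀ G ∈ S, ∃ c : ℂ,
      value G (x : Pt r).rep = C c * chowForm fun i => (f x i : Pt s))
    (hS3 : ∀ x : X, ∃ G ∈ S, value G (x : Pt r).rep ≠ 0) {k : Subfield ℂ}
    (hk : ∀ G ∈ S, ∃ G' : MvPolynomial (Fin (r + 1)) (MvPolynomial (Fin (s + 1)) k),
      MvPolynomial.map (MvPolynomial.map (algebraMap k ℂ)) G' = G) {σ ρ : Type}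
    {v v' : σ → Fin (r + 1) → ℂ} (hv : ∀ i, v i ∈ cone X) (hv' : ∀ i, v' i ∈ cone X)
    {W W' : ρ → Fin (s + 1) → ℂ} (hW : ∀ i, W i ≠ 0) (hW' : ∀ i, W' i ∈ cone Y)
    (hrel : ∀ P : MvPolynomial ((σ × Fin (r + 1)) ⊕ (ρ × Fin (s + 1))) k,
      aeval (Sum.elim (fun p => v p.1 p.2) fun p => W p.1 p.2) P = 0 →
      aeval (Sum.elim (fun p => v' p.1 p.2) fun p => W' p.1 p.2) P = 0)
    (i : σ) (q : Fin m → ρ) {c : ℂ} (hc : c ≠ 0)
    (h : (chowForm fun j => (f (pt ⟨v i, hv i⟩) j : Pt s)) = C c * ∏ j, lin (W (q j))) :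
    ∑ j, cl Y (W' (q j)) = γ Y (f (pt ⟨v' i, hv' i⟩)) := by
  obtain ⟨G, hGS, hG0⟩ := hS3 (pt ⟨v' i, hv' i⟩)
  obtain ⟨d, hGd⟩ := hS1 G hGS
  obtain ⟨G', hG'⟩ := hk G hGS
  have hW'0 : ∀ i, W' i ≠ 0 := fun i => (hW' i).choose
  -- values at the vectors and at the representatives
  have hval : ∀ (u : Fin (r + 1) → ℂ) (hu : u ∈ cone X), ∃ a : ℂ, a ≠ 0 ∧
      value G u = C a * value G ((pt ⟨u, hu⟩ : X) : Pt r).rep := by
    intro u hu
    obtain ⟨a, ha, hau⟩ := exists_rep u hu.choose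
    refine ⟨(a⁻¹) ^ d, pow_ne_zero _ (inv_ne_zero ha), ?_⟩
    have h1 : u = a⁻¹ • ((pt ⟨u, hu⟩ : X) : Pt r).rep := by
      have h2 : ((pt ⟨u, hu⟩ : X) : Pt r).rep = a • u := hau
      rw [h2, smul_smul, inv_mul_cancel₀ ha, one_smul]
    conv_lhs => rw [h1]
    exact value_smul hGd _ _
  obtain ⟨a, ha, hva⟩ := hval (v i) (hv i)
  obtain ⟨a', ha', hva'⟩ := hval (v' i) (hv' i)
  obtain ⟨e, he⟩ := hS2 (pt ⟨v i, hv i⟩) G hGS
  obtain ⟨e', he'⟩ := hS2 (pt ⟨v' i, hv' i⟩) G hGS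
  obtain ⟨c', hc'⟩ := prop_transfer (m := m) (a := fun p => v p.1 p.2)
    (a' := fun p => v' p.1 p.2) hW'0 hrel hG' i q (c := a * (e * c)) (by
      show value G (v i) = _
      rw [hva, he, h, C_mul, C_mul]
      ring)
  have hc'2 : value G (v' i) = C c' * ∏ j, lin (W' (q j)) := hc'
  rw [hva', he'] at hc'2
  have he'0 : e' ≠ 0 := by
    rintro rfl
    apply hG0
    rw [he', C_0, zero_mul]
  have hchow0 : (chowForm fun j => (f (pt ⟨v' i, hv' i⟩) j : Pt s)) ≠ 0 := by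
    intro h0
    apply hG0
    rw [he', h0, mul_zero]
  have hc'0 : c' ≠ 0 := by
    rintro rfl
    rw [C_0, zero_mul] at hc'2
    have h1 : (C a' : MvPolynomial (Fin (s + 1)) ℂ) ≠ 0 := by
      rw [Ne, C_eq_zero]
      exact ha'
    have h2 : (C e' : MvPolynomial (Fin (s + 1)) ℂ) ≠ 0 := by
      rw [Ne, C_eq_zero]
      exact he'0
    exact mul_ne_zero h1 (mul_ne_zero h2 hchow0) hc'2
  refine class_of_prop (fun j => hW' (q j)) _ (c := (a' * e')⁻¹ * c')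
    (mul_ne_zero (inv_ne_zero (mul_ne_zero ha' he'0)) hc'0) ?_
  have h3 : (chowForm fun j => (f (pt ⟨v' i, hv' i⟩) j : Pt s)) =
      C (a' * e')⁻¹ * (C a' * (C e' * chowForm fun j => (f (pt ⟨v' i, hv' i⟩) j : Pt s))) := by
    rw [← mul_assoc (C a'), ← C_mul, ← mul_assoc, ← C_mul,
      inv_mul_cancel₀ (mul_ne_zero ha' he'0), C_1, one_mul]
  rw [h3, hc'2, ← mul_assoc, ← C_mul]

/-- **Homomorphisms given by families are compatible with specialisation.** -/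
theorem cls_hom (hStab : StmStab) {r s : ℕ} {X : Set (Pt r)} {Y : Set (Pt s)}
    (hY : IsClosedSet Y) {φ : B X →+ B Y} (hφ : IsAlgebraicHom X Y φ) {k₀ : Subfield ℂ} {N : ℕ}
    (hk₀ : Setup k₀ (cone X) N) :
    ∃ k : Subfield ℂ, k₀ ≤ k ∧ Countable k ∧ Cls k (cone X) (fun v => φ (cl X v)) := by
  classical
  have hunc := uncountable_complex
  obtain ⟨m, m', f, g, ⟨Sf, hf1, hf2, hf3⟩, ⟨Sg, hg1, hg2, hg3⟩, hfg⟩ := hφ
  obtain ⟨kY, hkYc, hYcl⟩ := cone_closed hY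
  obtain ⟨kf, hkfc, hkf⟩ := exists_field2 Sf
  obtain ⟨kg, hkgc, hkg⟩ := exists_field2 Sg
  have hk₀c := hk₀.countable
  set k := adj k₀ ((kY : Set ℂ) ∪ ((kf : Set ℂ) ∪ (kg : Set ℂ))) with hkdef
  have hkc : Countable k := countable_adj ((Set.countable_coe_iff.mp hkYc).union
    ((Set.countable_coe_iff.mp hkfc).union (Set.countable_coe_iff.mp hkgc)))
  have hk0k : k₀ ≤ k := le_adj_left _ _
  have hkYk : kY ≤ k := fun x hx => subset_adj _ _ (Or.inl hx)
  have hkfk : kf ≤ k := fun x hx => subset_adj _ _ (Or.inr (Or.inl hx))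
  have hkgk : kg ≤ k := fun x hx => subset_adj _ _ (Or.inr (Or.inr hx))
  have hlift : ∀ (k₁ : Subfield ℂ) (_ : k₁ ≤ k)
      (G : MvPolynomial (Fin (r + 1)) (MvPolynomial (Fin (s + 1)) ℂ)),
      (∃ G' : MvPolynomial (Fin (r + 1)) (MvPolynomial (Fin (s + 1)) k₁),
        MvPolynomial.map (MvPolynomial.map (algebraMap k₁ ℂ)) G' = G) →
      ∃ G' : MvPolynomial (Fin (r + 1)) (MvPolynomial (Fin (s + 1)) k),
        MvPolynomial.map (MvPolynomial.map (algebraMap k ℂ)) G' = G := by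
    rintro k₁ hk₁ G ⟨G', hG'⟩
    refine ⟨MvPolynomial.map (MvPolynomial.map (Subfield.inclusion hk₁)) G', ?_⟩
    rw [MvPolynomial.map_map, ← hG']
    congr 2
    refine RingHom.ext fun y => ?_
    show MvPolynomial.map (algebraMap k ℂ) (MvPolynomial.map (Subfield.inclusion hk₁) y) =
      MvPolynomial.map (algebraMap k₁ ℂ) y
    rw [MvPolynomial.map_map]
    congr 2
  have hkf' : ∀ G ∈ Sf, _ := fun G hG => hlift kf hkfk G (hkf G hG)
  have hkg' : ∀ G ∈ Sg, _ := fun G hG => hlift kg hkgk G (hkg G hG)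
  have hXcl := closed_mono hk0k hk₀.closed
  have hYcl' := closed_mono hkYk hYcl
  have hcX := cls_closed (X := X) hStab hkc hXcl
  have hcY := cls_closed (X := Y) hStab hkc hYcl'
  refine ⟨k, hk0k, hkc, hcX.ne_zero, hcX.smul_mem,
    fun c v hc hv => by rw [hcX.smul_cl c v hc hv], ?_⟩
  intro κ ι _ _ hcard z y z' y' hz hy hs hz' hy' hP
  set v : κ ⊕ ι → Fin (r + 1) → ℂ := Sum.elim z y with hvdef
  set v' : κ ⊕ ι → Fin (r + 1) → ℂ := Sum.elim z' y' with hv'def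
  have hv : ∀ i, v i ∈ cone X := by
    rintro (i | i)
    · exact hz i
    · exact hy i
  have hv'0 : ∀ i, v' i ≠ 0 := by
    rintro (i | i)
    · exact hz' i
    · exact hy' i
  have hv' : ∀ i, v' i ∈ cone X := by
    intro i
    refine mem_of_rel hXcl (hv i) (hv'0 i) fun P hP0 => ?_
    have h1 := hP (rename (fun a => (i, a)) P)
    rw [aeval_rename, aeval_rename] at h1
    exact h1 hP0
  let ρ : Type := (κ ⊕ ι) × (Fin m ⊕ Fin m')
  let W₀ : ρ → Fin (s + 1) → ℂ := fun q => Sum.elim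
    (fun j => ((f (pt ⟨v q.1, hv q.1⟩) j : Y) : Pt s).rep)
    (fun j => ((g (pt ⟨v q.1, hv q.1⟩) j : Y) : Pt s).rep) q.2
  have hW₀ : ∀ q, W₀ q ∈ cone Y := by
    rintro ⟨i, j | j⟩
    · exact rep_mem_cone (f (pt ⟨v i, hv i⟩) j).2
    · exact rep_mem_cone (g (pt ⟨v i, hv i⟩) j).2
  obtain ⟨c, W', hc, hW'0, hrel⟩ := extend_spec hkc (fun p : (κ ⊕ ι) × Fin (r + 1) => v p.1 p.2)
    (fun p => v' p.1 p.2) hP W₀ (fun q => (hW₀ q).choose)
  set W : ρ → Fin (s + 1) → ℂ := fun q => c q • W₀ q with hWdef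
  have hW : ∀ q, W q ∈ cone Y := fun q => smul_mem_cone (hc q) (hW₀ q)
  have hrel' : ∀ P : MvPolynomial (((κ ⊕ ι) × Fin (r + 1)) ⊕ (ρ × Fin (s + 1))) k,
      aeval (Sum.elim (fun p => v p.1 p.2) fun p => W p.1 p.2) P = 0 →
      aeval (Sum.elim (fun p => v' p.1 p.2) fun p => W' p.1 p.2) P = 0 := hrel
  have hrelW : ∀ P : MvPolynomial (ρ × Fin (s + 1)) k,
      aeval (fun p => W p.1 p.2) P = 0 → aeval (fun p => W' p.1 p.2) P = 0 := by
    intro P hP0
    have h1 := hrel' (rename Sum.inr P)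
    rw [aeval_rename, aeval_rename] at h1
    exact h1 hP0
  have hW' : ∀ q, W' q ∈ cone Y := by
    intro q
    refine mem_of_rel hYcl' (hW q) (hW'0 q) fun P hP0 => ?_
    have h1 := hrelW (rename (fun a => (q, a)) P)
    rw [aeval_rename, aeval_rename] at h1
    exact h1 hP0
  -- the Chow forms of the original cycles
  have hchf : ∀ i : κ ⊕ ι, ∃ e : ℂ, e ≠ 0 ∧
      (chowForm fun j => (f (pt ⟨v i, hv i⟩) j : Pt s)) =
        C e * ∏ j, lin (W (i, Sum.inl j)) := by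
    intro i
    refine ⟨(∏ j, c (i, Sum.inl j))⁻¹, inv_ne_zero (Finset.prod_ne_zero_iff.mpr fun j _ =>
      hc _), ?_⟩
    have h1 : ∏ j : Fin m, lin (W (i, Sum.inl j)) =
        C (∏ j, c (i, Sum.inl j)) * chowForm fun j => (f (pt ⟨v i, hv i⟩) j : Pt s) := by
      rw [map_prod, chowForm, ← Finset.prod_mul_distrib]
      refine Finset.prod_congr rfl fun j _ => ?_
      exact Pool.Agent.Y737.OD.lin_smul _ _
    rw [h1, ← mul_assoc, ← C_mul, inv_mul_cancel₀ (Finset.prod_ne_zero_iff.mpr fun j _ => hc _),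
      C_1, one_mul]
  have hchg : ∀ i : κ ⊕ ι, ∃ e : ℂ, e ≠ 0 ∧
      (chowForm fun j => (g (pt ⟨v i, hv i⟩) j : Pt s)) =
        C e * ∏ j, lin (W (i, Sum.inr j)) := by
    intro i
    refine ⟨(∏ j, c (i, Sum.inr j))⁻¹, inv_ne_zero (Finset.prod_ne_zero_iff.mpr fun j _ =>
      hc _), ?_⟩
    have h1 : ∏ j : Fin m', lin (W (i, Sum.inr j)) =
        C (∏ j, c (i, Sum.inr j)) * chowForm fun j => (g (pt ⟨v i, hv i⟩) j : Pt s) := by
      rw [map_prod, chowForm, ← Finset.prod_mul_distrib]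
      refine Finset.prod_congr rfl fun j _ => ?_
      exact Pool.Agent.Y737.OD.lin_smul _ _
    rw [h1, ← mul_assoc, ← C_mul, inv_mul_cancel₀ (Finset.prod_ne_zero_iff.mpr fun j _ => hc _),
      C_1, one_mul]
  have hF0 : ∀ i, ∑ j, cl Y (W (i, Sum.inl j)) = γ Y (f (pt ⟨v i, hv i⟩)) := by
    intro i
    obtain ⟨e, he, h1⟩ := hchf i
    exact class_of_prop (fun j => hW _) _ he h1
  have hG0 : ∀ i, ∑ j, cl Y (W (i, Sum.inr j)) = γ Y (g (pt ⟨v i, hv i⟩)) := by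
    intro i
    obtain ⟨e, he, h1⟩ := hchg i
    exact class_of_prop (fun j => hW _) _ he h1
  have hF1 : ∀ i, ∑ j, cl Y (W' (i, Sum.inl j)) = γ Y (f (pt ⟨v' i, hv' i⟩)) := by
    intro i
    obtain ⟨e, he, h1⟩ := hchf i
    exact family_spec hf1 hf2 hf3 hkf' hv hv' (fun q => (hW q).choose) hW' hrel' i
      (fun j => (i, Sum.inl j)) he h1
  have hG1 : ∀ i, ∑ j, cl Y (W' (i, Sum.inr j)) = γ Y (g (pt ⟨v' i, hv' i⟩)) := by
    intro i
    obtain ⟨e, he, h1⟩ := hchg i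
    exact family_spec hg1 hg2 hg3 hkg' hv hv' (fun q => (hW q).choose) hW' hrel' i
      (fun j => (i, Sum.inr j)) he h1
  -- the classes
  have hcl : ∀ (u : Fin (r + 1) → ℂ) (hu : u ∈ cone X),
      φ (cl X u) = γ Y (f (pt ⟨u, hu⟩)) - γ Y (g (pt ⟨u, hu⟩)) := by
    intro u hu
    rw [← hfg, γ_pt (fun _ : Fin 1 => ⟨u, hu⟩)]
    simp
  have hφ0 : ∀ i, φ (cl X (v i)) = ∑ j, cl Y (W (i, Sum.inl j)) -
      ∑ j, cl Y (W (i, Sum.inr j)) := by
    intro i
    rw [hcl (v i) (hv i), hF0, hG0]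
  have hφ1 : ∀ i, φ (cl X (v' i)) = ∑ j, cl Y (W' (i, Sum.inl j)) -
      ∑ j, cl Y (W' (i, Sum.inr j)) := by
    intro i
    rw [hcl (v' i) (hv' i), hF1, hG1]
  refine ⟨fun i => hv' (Sum.inl i), fun i => hv' (Sum.inr i), ?_⟩
  -- the two zero-cycles on `Y`
  let α : Type := (κ × Fin m) ⊕ (ι × Fin m')
  let β : Type := (ι × Fin m) ⊕ (κ × Fin m')
  let qα : α → ρ := Sum.elim (fun p => (Sum.inl p.1, Sum.inl p.2))
    (fun p => (Sum.inr p.1, Sum.inr p.2))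
  let qβ : β → ρ := Sum.elim (fun p => (Sum.inr p.1, Sum.inl p.2))
    (fun p => (Sum.inl p.1, Sum.inr p.2))
  have hαβ : Fintype.card α = Fintype.card β := by
    simp only [α, β, Fintype.card_sum, Fintype.card_prod, hcard]
  have hsumα : ∀ U : ρ → Fin (s + 1) → ℂ, ∑ t, cl Y (U (qα t)) =
      ∑ i, ∑ j, cl Y (U (Sum.inl i, Sum.inl j)) + ∑ i, ∑ j, cl Y (U (Sum.inr i, Sum.inr j)) := by
    intro U
    rw [Fintype.sum_sum_type, Fintype.sum_prod_type, Fintype.sum_prod_type]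
    rfl
  have hsumβ : ∀ U : ρ → Fin (s + 1) → ℂ, ∑ t, cl Y (U (qβ t)) =
      ∑ i, ∑ j, cl Y (U (Sum.inr i, Sum.inl j)) + ∑ i, ∑ j, cl Y (U (Sum.inl i, Sum.inr j)) := by
    intro U
    rw [Fintype.sum_sum_type, Fintype.sum_prod_type, Fintype.sum_prod_type]
    rfl
  have hs0 : ∑ i : κ, φ (cl X (v (Sum.inl i))) = ∑ i : ι, φ (cl X (v (Sum.inr i))) := hs
  simp only [hφ0, Finset.sum_sub_distrib] at hs0
  obtain ⟨-, -, h3⟩ := hcY.stab α β hαβ (fun t => W (qα t)) (fun t => W (qβ t))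
    (fun t => W' (qα t)) (fun t => W' (qβ t)) (fun t => hW _) (fun t => hW _)
    (by
      rw [hsumα W, hsumβ W]
      rw [sub_eq_sub_iff_add_eq_add] at hs0
      exact hs0)
    (fun t => hW'0 _) (fun t => hW'0 _) (fun P hP0 => by
      have h1 := hrelW (rename (Prod.map (Sum.elim qα qβ) id) P)
      rw [aeval_rename, aeval_rename] at h1
      have h2 := h1 (by
        rw [← hP0]
        congr 1
        congr 1
        funext p
        obtain ⟨i | i, a⟩ := p <;> rfl)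
      rw [← h2]
      congr 1
      congr 1
      funext p
      obtain ⟨i | i, a⟩ := p <;> rfl)
  rw [hsumα W', hsumβ W', ← sub_eq_sub_iff_add_eq_add] at h3
  show ∑ i : κ, φ (cl X (v' (Sum.inl i))) = ∑ i : ι, φ (cl X (v' (Sum.inr i)))
  simp only [hφ1, Finset.sum_sub_distrib]
  exact h3

theorem hasVec_fibreHom {r s : ℕ} {X : Set (Pt r)} {Y : Set (Pt s)} (φ : B X →+ B Y) {n : ℕ}
    (x : Fin n → X) (v : Fin n → Fin (r + 1) → ℂ) :
    HasVec (fibreHom φ x) v ↔ (∀ i, v i ∈ cone X) ∧ ∑ i, φ (cl X (v i)) = φ (γ X x) := by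
  constructor
  · rintro ⟨hv, hy, h⟩
    have hvc : ∀ i, v i ∈ cone X := fun i => ⟨hv i, hy i⟩
    refine ⟨hvc, ?_⟩
    rw [← h, ← map_sum]
    congr 1
    exact (γ_pt fun i => ⟨v i, hvc i⟩).symm
  · rintro ⟨hv, h⟩
    refine ⟨fun i => (hv i).choose, fun i => (hv i).choose_spec, ?_⟩
    rw [← h, ← map_sum]
    congr 1
    exact γ_pt fun i => ⟨v i, hv i⟩

theorem fibreHom_nonempty {r s : ℕ} {X : Set (Pt r)} {Y : Set (Pt s)} (φ : B X →+ B Y) {n : ℕ}
    (x : Fin n → X) : (fibreHom φ x).Nonempty :=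
  ⟨fun i => (x i : Pt r), fun i => (x i).2, rfl⟩

theorem big_iffHom {r s : ℕ} {X : Set (Pt r)} {Y : Set (Pt s)} (φ : B X →+ B Y) {n : ℕ}
    {z : Fin n → Fin (r + 1) → ℂ} {x : Fin n → X}
    (h : ∑ i, φ (cl X (z i)) = φ (γ X x)) (d : ℕ) :
    Big (cone X) (fun v => φ (cl X v)) z (d + n) ↔ d ≤ dim (fibreHom φ x) := by
  rw [le_dim_iff (fibreHom_nonempty φ x), dimGE_iff]
  refine forall₂_congr fun L _ => exists_congr fun v => ?_
  rw [hasVec_fibreHom, h, Fintype.card_fin, and_assoc]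

/-- **The criteria for homomorphisms given by families of zero-cycles.** -/
theorem hom_tfae (hComp : StmComp) (hCurve : StmCurve) (hStab : StmStab) {r s N : ℕ}
    (hN : 2 ≤ N) {X : Set (Pt r)} (hX : IsVariety X N) {Y : Set (Pt s)} (hY : IsClosedSet Y)
    {φ : B X →+ B Y} (hφ : IsAlgebraicHom X Y φ) :
    List.TFAE [∃ c : ℕ, ∀ (n : ℕ) (x : Fin n → X), N * n ≤ dim (fibreHom φ x) + c,
      ∃ n : ℕ, ∀ x : Fin n → X, (N - 2) * n < dim (fibreHom φ x),
      ∃ (n : ℕ) (x : Fin n → X), (N - 1) * n < dim (fibreHom φ x)] := by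
  have := uncountable_complex
  obtain ⟨k₀, hk₀⟩ := setup_cone hX
  obtain ⟨k, hk0k, hkc, hc⟩ := cls_hom hStab hY hφ hk₀
  have hk := hk₀.mono hk0k hkc
  have h := general_tfae hComp hCurve hk (by omega) hc (fun n x y h => by
    rw [← map_sum, ← map_sum, cl_eq_of_rat x y h])
  have hz : ∀ {n : ℕ} (z : Fin n → Fin (r + 1) → ℂ) (hz : ∀ i, z i ∈ cone X),
      ∑ i, φ (cl X (z i)) = φ (γ X fun i => pt ⟨z i, hz i⟩) := fun z hz => by
    rw [← map_sum]
    congr 1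
    exact (γ_pt fun i => ⟨z i, hz i⟩).symm
  have hx : ∀ {n : ℕ} (x : Fin n → X), ∑ i, φ (cl X (vec (x i))) = φ (γ X x) := by
    intro n x
    rw [← map_sum]
    congr 1
    rw [← γ_pt]
    simp only [pt_vec]
  have key : ∀ (n s : ℕ), (∀ x : Fin n → X, s ≤ dim (fibreHom φ x)) ↔
      ∀ z : Fin n → Fin (r + 1) → ℂ, (∀ i, z i ∈ cone X) →
        Big (cone X) (fun v => φ (cl X v)) z (s + n) := by
    intro n s
    constructor
    · intro h z hzc
      exact (big_iffHom φ (hz z hzc) s).mpr (h _)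
    · intro h x
      exact (big_iffHom φ (hx x) s).mp (h _ fun i => (vec (x i)).2)
  obtain ⟨N', rfl⟩ : ∃ N', N = N' + 2 := ⟨N - 2, by omega⟩
  have e0 : ∀ n, (N' + 2 + 1) * n = (N' + 2) * n + n := fun n => by ring
  have e1 : ∀ n, (N' + 2 + 1 - 1) * n + 1 = ((N' + 1) * n + 1) + n := fun n => by
    have : N' + 2 + 1 - 1 = N' + 2 := by omega
    rw [this]
    ring
  have e2 : ∀ n, (N' + 2 + 1 - 2) * n + 1 = (N' * n + 1) + n := fun n => by
    have : N' + 2 + 1 - 2 = N' + 1 := by omega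
    rw [this]
    ring
  have e3 : N' + 2 - 1 = N' + 1 := by omega
  have e4 : N' + 2 - 2 = N' := by omega
  have h11 : (∃ c : ℕ, ∀ (n : ℕ) (x : Fin n → X), (N' + 2) * n ≤ dim (fibreHom φ x) + c) ↔
      ∃ c : ℕ, ∀ (m : ℕ) (z : Fin m → Fin (r + 1) → ℂ), (∀ i, z i ∈ cone X) →
        Big (cone X) (fun v => φ (cl X v)) z ((N' + 2 + 1) * m - c) := by
    constructor
    · rintro ⟨c, hc⟩
      refine ⟨c, fun m z hzc => ?_⟩
      have h3 := (key m ((N' + 2) * m - c)).mp (fun x => by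
        have := hc m x
        omega) z hzc
      refine h3.mono ?_
      rw [e0]
      omega
    · rintro ⟨c, hc⟩
      refine ⟨c, fun m x => ?_⟩
      have h1 := (key m ((N' + 2) * m - c)).mpr (fun z hzc => by
        by_cases h2 : (N' + 2) * m ≤ c
        · rw [Nat.sub_eq_zero_of_le h2]
          exact (big_iffHom φ (hz z hzc) 0).mpr (Nat.zero_le _)
        · refine (hc m z hzc).mono ?_
          rw [e0]
          omega) x
      omega
  have h22 : (∃ n : ℕ, ∀ x : Fin n → X, (N' + 2 - 2) * n < dim (fibreHom φ x)) ↔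
      ∃ m : ℕ, ∀ z : Fin m → Fin (r + 1) → ℂ, (∀ i, z i ∈ cone X) →
        Big (cone X) (fun v => φ (cl X v)) z ((N' + 2 + 1 - 2) * m + 1) := by
    refine exists_congr fun n => ?_
    simp only [e2, e4]
    rw [← key]
    exact Iff.rfl
  have h33 : (∃ (n : ℕ) (x : Fin n → X), (N' + 2 - 1) * n < dim (fibreHom φ x)) ↔
      ∃ (m : ℕ) (z : Fin m → Fin (r + 1) → ℂ), (∀ i, z i ∈ cone X) ∧
        Big (cone X) (fun v => φ (cl X v)) z ((N' + 2 + 1 - 1) * m + 1) := by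
    constructor
    · rintro ⟨n, x, hn⟩
      refine ⟨n, fun i => vec (x i), fun i => (vec (x i)).2, ?_⟩
      rw [e1]
      refine (big_iffHom φ (hx x) _).mpr ?_
      rw [e3] at hn
      exact hn
    · rintro ⟨m, z, hzc, hb⟩
      rw [e1] at hb
      have h1 := (big_iffHom φ (hz z hzc) _).mp hb
      refine ⟨m, fun i => pt ⟨z i, hzc i⟩, ?_⟩
      rw [e3]
      exact h1
  rw [h11, h22, h33]
  exact h

end Pool.Agent.Y148.OD
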