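import Pool.Agent.Y148.OD.CorrDefs

/-!
# Pairs of zero-cycles with the same class: the definitions
-/

set_option autoImplicit false

namespace Pool.Agent.Y148.OD

/-- The fibre over `b` of the map `(x, y) ↦ γ(x) - γ(y)` from `Xⁿ × Xᵐ` to `B(X)`; the points of
`Xⁿ × Xᵐ` are families of points of `X` with index set `Fin n ⊕ Fin m`. -/
def diffFibre {r : ℕ} (X : Set (Pt r)) (n m : ℕ) (b : B X) : Set (Fin n ⊕ Fin m → Pt r) :=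
  {p | ∃ hp : ∀ i, p i ∈ X, γ X (fun i => ⟨p (Sum.inl i), hp (Sum.inl i)⟩) -
    γ X (fun i => ⟨p (Sum.inr i), hp (Sum.inr i)⟩) = b}

/-- The set `R_n` of the pairs `(x, y)` in `Xⁿ × Xⁿ` with `γ(x) = γ(y)`. -/
def equivPairs {r : ℕ} (X : Set (Pt r)) (n : ℕ) : Set (Fin n ⊕ Fin n → Pt r) :=
  {p | ∃ hp : ∀ i, p i ∈ X, γ X (fun i => ⟨p (Sum.inl i), hp (Sum.inl i)⟩) =
    γ X (fun i => ⟨p (Sum.inr i), hp (Sum.inr i)⟩)}

/-- The set of the points `x` of `Xⁿ` such that the fibre of `γ` through `x` has dimension at least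
`i`. -/
def largeLocus {r : ℕ} (X : Set (Pt r)) (n i : ℕ) : Set (Fin n → Pt r) :=
  {y | ∃ hy : ∀ j, y j ∈ X, i ≤ dim (fibre X fun j => ⟨y j, hy j⟩)}

/-- The fibre over `b` of the map `(x, y) ↦ φ(γ(x)) - φ(γ(y))` from `Xⁿ × Xᵐ` to `B(Y)`. -/
def diffFibreHom {r s : ℕ} {X : Set (Pt r)} {Y : Set (Pt s)} (φ : B X →+ B Y) (n m : ℕ)
    (b : B Y) : Set (Fin n ⊕ Fin m → Pt r) :=
  {p | ∃ hp : ∀ i, p i ∈ X, φ (γ X fun i => ⟨p (Sum.inl i), hp (Sum.inl i)⟩) -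
    φ (γ X fun i => ⟨p (Sum.inr i), hp (Sum.inr i)⟩) = b}

/-- The set of the pairs `(x, y)` in `Xⁿ × Xⁿ` with `φ(γ(x)) = φ(γ(y))`. -/
def equivPairsHom {r s : ℕ} {X : Set (Pt r)} {Y : Set (Pt s)} (φ : B X →+ B Y) (n : ℕ) :
    Set (Fin n ⊕ Fin n → Pt r) :=
  {p | ∃ hp : ∀ i, p i ∈ X, φ (γ X fun i => ⟨p (Sum.inl i), hp (Sum.inl i)⟩) =
    φ (γ X fun i => ⟨p (Sum.inr i), hp (Sum.inr i)⟩)}

/-- The set of the points `x` of `Xⁿ` such that the fibre of `φ ∘ γ` through `x` has dimension at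
least `i`. -/
def largeLocusHom {r s : ℕ} {X : Set (Pt r)} {Y : Set (Pt s)} (φ : B X →+ B Y) (n i : ℕ) :
    Set (Fin n → Pt r) :=
  {y | ∃ hy : ∀ j, y j ∈ X, i ≤ dim (fibreHom φ fun j => ⟨y j, hy j⟩)}

end Pool.Agent.Y148.OD
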