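import Pool.Agent.Y148.OD.Pair4
import Pool.Agent.Y148.OD.PairDefs
import Pool.Agent.Y148.OD.Corr2

/-!
# Pairs of zero-cycles with the same class: the translation to projective varieties
-/

set_option autoImplicit false

namespace Pool.Agent.Y148.OD

open MvPolynomial

variable {r : ℕ} {X : Set (Pt r)} {A : Type} [AddCommGroup A] (φ : B X →+ A)

/-- the fibre of `φ ∘ γ` through `x` -/
def fibreOf {n : ℕ} (x : Fin n → X) : Set (Fin n → Pt r) :=
  {y | ∃ hy : ∀ i, y i ∈ X, φ (γ X fun i => ⟨y i, hy i⟩) = φ (γ X x)}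

/-- the fibre of the difference map over `b` -/
def diffOf (n m : ℕ) (b : A) : Set (Fin n ⊕ Fin m → Pt r) :=
  {p | ∃ hp : ∀ i, p i ∈ X, φ (γ X fun i => ⟨p (Sum.inl i), hp (Sum.inl i)⟩) -
    φ (γ X fun i => ⟨p (Sum.inr i), hp (Sum.inr i)⟩) = b}

/-- the pairs -/
def pairsOf (n : ℕ) : Set (Fin n ⊕ Fin n → Pt r) :=
  {p | ∃ hp : ∀ i, p i ∈ X, φ (γ X fun i => ⟨p (Sum.inl i), hp (Sum.inl i)⟩) =
    φ (γ X fun i => ⟨p (Sum.inr i), hp (Sum.inr i)⟩)}

/-- the locus of large fibres -/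
def locusOf (n i : ℕ) : Set (Fin n → Pt r) :=
  {y | ∃ hy : ∀ j, y j ∈ X, i ≤ dim (fibreOf φ fun j => ⟨y j, hy j⟩)}

theorem not_dimGE_of_empty {ι : Type} {F : Set (ι → Pt r)} (h : ¬ F.Nonempty) (d : ℕ) :
    ¬ DimGE F d := by
  intro hd
  obtain ⟨x, hx, -⟩ := hd (adj ⊥ ∅) (by
    have : Countable (⊥ : Subfield ℂ) := by
      have h2 := Subfield.cardinalMk_closure_le_max (∅ : Set ℂ)
      rw [Subfield.closure_empty] at h2
      rw [← Cardinal.mk_le_aleph0_iff]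
      refine h2.trans ?_
      simp
    exact countable_adj Set.countable_empty)
  exact h ⟨x, hx⟩

theorem lt_dim_iff {ι : Type} [Fintype ι] (F : Set (ι → Pt r)) (d : ℕ) :
    d < dim F ↔ DimGE F (d + 1) := by
  by_cases h : F.Nonempty
  · exact le_dim_iff h (d + 1)
  · constructor
    · intro hd
      exfalso
      have : dim F = 0 := by
        have e : {d | DimGE F d} = ∅ := by
          ext d
          simp only [Set.mem_ofPred_eq, Set.mem_empty_iff_false, iff_false]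
          exact not_dimGE_of_empty h d
        rw [dim, e, csSup_empty]
        rfl
      omega
    · intro hd
      exact absurd hd (not_dimGE_of_empty h _)

theorem sum_φ {n : ℕ} (z : Fin n → Fin (r + 1) → ℂ) (hz : ∀ i, z i ∈ cone X) :
    ∑ i, φ (cl X (z i)) = φ (γ X fun i => pt ⟨z i, hz i⟩) := by
  rw [← map_sum]
  congr 1
  exact (γ_pt fun i => ⟨z i, hz i⟩).symm

theorem sum_φ_vec {n : ℕ} (x : Fin n → X) : ∑ i, φ (cl X (vec (x i))) = φ (γ X x) := by
  rw [← map_sum]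
  congr 1
  rw [← γ_pt]
  simp only [pt_vec]

theorem hasVec_fibreOf {n : ℕ} (x : Fin n → X) (v : Fin n → Fin (r + 1) → ℂ) :
    HasVec (fibreOf φ x) v ↔ (∀ i, v i ∈ cone X) ∧ ∑ i, φ (cl X (v i)) = φ (γ X x) := by
  constructor
  · rintro ⟨hv, hy, h⟩
    have hvc : ∀ i, v i ∈ cone X := fun i => ⟨hv i, hy i⟩
    exact ⟨hvc, by rw [← h, sum_φ φ v hvc]; rfl⟩
  · rintro ⟨hv, h⟩
    exact ⟨fun i => (hv i).choose, fun i => (hv i).choose_spec, by rw [← h, sum_φ φ v hv]; rfl⟩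

theorem hasVec_diffOf {n m : ℕ} (b : A) (v : Fin n ⊕ Fin m → Fin (r + 1) → ℂ) :
    HasVec (diffOf φ n m b) v ↔ (∀ i, v i ∈ cone X) ∧
      ∑ i, φ (cl X (v (Sum.inl i))) - ∑ i, φ (cl X (v (Sum.inr i))) = b := by
  constructor
  · rintro ⟨hv, hy, h⟩
    have hvc : ∀ i, v i ∈ cone X := fun i => ⟨hv i, hy i⟩
    refine ⟨hvc, ?_⟩
    rw [← h, sum_φ φ (fun i => v (Sum.inl i)) (fun i => hvc _),
      sum_φ φ (fun i => v (Sum.inr i)) (fun i => hvc _)]
    rfl
  · rintro ⟨hv, h⟩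
    refine ⟨fun i => (hv i).choose, fun i => (hv i).choose_spec, ?_⟩
    rw [← h, sum_φ φ (fun i => v (Sum.inl i)) (fun i => hv _),
      sum_φ φ (fun i => v (Sum.inr i)) (fun i => hv _)]
    rfl

theorem hasVec_pairsOf {n : ℕ} (v : Fin n ⊕ Fin n → Fin (r + 1) → ℂ) :
    HasVec (pairsOf φ n) v ↔ (∀ i, v i ∈ cone X) ∧
      ∑ i, φ (cl X (v (Sum.inl i))) = ∑ i, φ (cl X (v (Sum.inr i))) := by
  constructor
  · rintro ⟨hv, hy, h⟩
    have hvc : ∀ i, v i ∈ cone X := fun i => ⟨hv i, hy i⟩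
    refine ⟨hvc, ?_⟩
    rw [sum_φ φ (fun i => v (Sum.inl i)) (fun i => hvc _),
      sum_φ φ (fun i => v (Sum.inr i)) (fun i => hvc _)]
    exact h
  · rintro ⟨hv, h⟩
    refine ⟨fun i => (hv i).choose, fun i => (hv i).choose_spec, ?_⟩
    rw [sum_φ φ (fun i => v (Sum.inl i)) (fun i => hv _),
      sum_φ φ (fun i => v (Sum.inr i)) (fun i => hv _)] at h
    exact h

theorem fibreOf_nonempty {n : ℕ} (x : Fin n → X) : (fibreOf φ x).Nonempty :=
  ⟨fun i => (x i : Pt r), fun i => (x i).2, rfl⟩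

theorem big_iffOf {n : ℕ} {z : Fin n → Fin (r + 1) → ℂ} {x : Fin n → X}
    (h : ∑ i, φ (cl X (z i)) = φ (γ X x)) (d : ℕ) :
    Big (cone X) (fun v => φ (cl X v)) z (d + n) ↔ d ≤ dim (fibreOf φ x) := by
  rw [le_dim_iff (fibreOf_nonempty φ x), dimGE_iff]
  refine forall₂_congr fun L _ => exists_congr fun v => ?_
  rw [hasVec_fibreOf, h, Fintype.card_fin, and_assoc]

theorem hasVec_locusOf {n : ℕ} (i : ℕ) (v : Fin n → Fin (r + 1) → ℂ) :
    HasVec (locusOf φ n i) v ↔ (∀ i, v i ∈ cone X) ∧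
      Big (cone X) (fun v => φ (cl X v)) v (i + n) := by
  constructor
  · rintro ⟨hv, hy, h⟩
    have hvc : ∀ i, v i ∈ cone X := fun i => ⟨hv i, hy i⟩
    exact ⟨hvc, (big_iffOf φ (sum_φ φ v hvc) i).mpr h⟩
  · rintro ⟨hv, h⟩
    exact ⟨fun i => (hv i).choose, fun i => (hv i).choose_spec,
      (big_iffOf φ (sum_φ φ v hv) i).mp h⟩

/-- **The equivalences with pairs** for projective surfaces. -/
theorem pairs_tfae (hComp : StmComp) (hCurve : StmCurve) (hDist : StmDist)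
    {k : Subfield ℂ} (h : Setup k (cone X) 3) (hc : Cls k (cone X) fun v => φ (cl X v)) :
    List.TFAE [∃ c : ℕ, ∀ (n : ℕ) (x : Fin n → X), 2 * n ≤ dim (fibreOf φ x) + c,
      ∃ n : ℕ, ∀ x : Fin n → X, 0 < dim (fibreOf φ x),
      ∃ (n : ℕ) (x : Fin n → X), n < dim (fibreOf φ x),
      ∃ (n m : ℕ) (b : A), n + m < dim (diffOf φ n m b),
      ∃ n : ℕ, 2 * n < dim (pairsOf φ n),
      ∃ n i : ℕ, 2 * n - i < dim (locusOf φ n i)] := by
  have := uncountable_complex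
  have hrat : ∀ (n : ℕ) (x y : Fin n → cone X), ∑ i, FreeAbelianGroup.of (x i) -
      ∑ i, FreeAbelianGroup.of (y i) ∈ ratSub (vlin (cone X)) →
        ∑ i, φ (cl X (x i)) = ∑ i, φ (cl X (y i)) := fun n x y h => by
    rw [← map_sum, ← map_sum, cl_eq_of_rat x y h]
  have hT := pair_tfae hComp hCurve hDist h hc hrat
  have hG := general_tfae hComp hCurve h (by omega) hc hrat
  have key : ∀ (n s : ℕ), (∀ x : Fin n → X, s ≤ dim (fibreOf φ x)) ↔
      ∀ z : Fin n → Fin (r + 1) → ℂ, (∀ i, z i ∈ cone X) →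
        Big (cone X) (fun v => φ (cl X v)) z (s + n) := by
    intro n s
    constructor
    · intro h z hzc
      exact (big_iffOf φ (sum_φ φ z hzc) s).mpr (h _)
    · intro h x
      exact (big_iffOf φ (sum_φ_vec φ x) s).mp (h _ fun i => (vec (x i)).2)
  have h11 : (∃ c : ℕ, ∀ (n : ℕ) (x : Fin n → X), 2 * n ≤ dim (fibreOf φ x) + c) ↔
      ∃ c : ℕ, ∀ (m : ℕ) (z : Fin m → Fin (r + 1) → ℂ), (∀ i, z i ∈ cone X) →
        Big (cone X) (fun v => φ (cl X v)) z (3 * m - c) := by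
    constructor
    · rintro ⟨c, hc⟩
      refine ⟨c, fun m z hzc => ?_⟩
      have h3 := (key m (2 * m - c)).mp (fun x => by
        have := hc m x
        omega) z hzc
      refine h3.mono ?_
      omega
    · rintro ⟨c, hc⟩
      refine ⟨c, fun m x => ?_⟩
      have h1 := (key m (2 * m - c)).mpr (fun z hzc => by
        by_cases h2 : 2 * m ≤ c
        · rw [Nat.sub_eq_zero_of_le h2]
          exact (big_iffOf φ (sum_φ φ z hzc) 0).mpr (Nat.zero_le _)
        · refine (hc m z hzc).mono ?_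
          omega) x
      omega
  have h22 : (∃ n : ℕ, ∀ x : Fin n → X, 0 < dim (fibreOf φ x)) ↔
      ∃ m : ℕ, ∀ z : Fin m → Fin (r + 1) → ℂ, (∀ i, z i ∈ cone X) →
        Big (cone X) (fun v => φ (cl X v)) z (m + 1) := by
    refine exists_congr fun n => ?_
    have h1 := key n 1
    rw [add_comm 1 n] at h1
    exact h1
  have h33 : (∃ (n : ℕ) (x : Fin n → X), n < dim (fibreOf φ x)) ↔
      ∃ (m : ℕ) (z : Fin m → Fin (r + 1) → ℂ), (∀ i, z i ∈ cone X) ∧
        Big (cone X) (fun v => φ (cl X v)) z ((3 - 1) * m + 1) := by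
    have e : ∀ n, (3 - 1) * n + 1 = (n + 1) + n := fun n => by omega
    constructor
    · rintro ⟨n, x, hn⟩
      refine ⟨n, fun i => vec (x i), fun i => (vec (x i)).2, ?_⟩
      rw [e]
      exact (big_iffOf φ (sum_φ_vec φ x) _).mpr hn
    · rintro ⟨m, z, hzc, hb⟩
      rw [e] at hb
      exact ⟨m, fun i => pt ⟨z i, hzc i⟩, (big_iffOf φ (sum_φ φ z hzc) _).mp hb⟩
  have h44 : (∃ (n m : ℕ) (b : A), n + m < dim (diffOf φ n m b)) ↔
      ∃ (n m : ℕ) (x : Fin n → Fin (r + 1) → ℂ) (y : Fin m → Fin (r + 1) → ℂ),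
        (∀ i, x i ∈ cone X) ∧ (∀ i, y i ∈ cone X) ∧
        BigDiff (cone X) (fun v => φ (cl X v)) x y (2 * (n + m) + 1) := by
    constructor
    · rintro ⟨n, m, b, hb⟩
      rw [lt_dim_iff, dimGE_iff] at hb
      have e : n + m + 1 + Fintype.card (Fin n ⊕ Fin m) = 2 * (n + m) + 1 := by
        rw [Fintype.card_sum, Fintype.card_fin, Fintype.card_fin]
        omega
      rw [e] at hb
      obtain ⟨v, hv, -⟩ := hb k h.countable
      rw [hasVec_diffOf] at hv
      refine ⟨n, m, fun i => v (Sum.inl i), fun i => v (Sum.inr i), fun i => hv.1 _,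
        fun i => hv.1 _, fun L hL => ?_⟩
      obtain ⟨w, hw, hwr⟩ := hb L hL
      rw [hasVec_diffOf] at hw
      refine ⟨fun i => w (Sum.inl i), fun i => w (Sum.inr i), fun i => hw.1 _, fun i => hw.1 _,
        by rw [hv.2, hw.2], ?_⟩
      rw [← coords_sum_elim]
      have e2 : Sum.elim (fun i => w (Sum.inl i)) (fun i => w (Sum.inr i)) = w := by
        funext i
        obtain i | i := i <;> rfl
      rw [e2]
      exact hwr
    · rintro ⟨n, m, x, y, hx, hy, hd⟩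
      refine ⟨n, m, ∑ i, φ (cl X (x i)) - ∑ i, φ (cl X (y i)), ?_⟩
      rw [lt_dim_iff, dimGE_iff]
      intro L hL
      obtain ⟨x', y', hx', hy', hs, hr⟩ := hd L hL
      refine ⟨Sum.elim x' y', (hasVec_diffOf φ _ _).mpr ⟨?_, ?_⟩, ?_⟩
      · rintro (i | i)
        · exact hx' i
        · exact hy' i
      · exact hs
      · rw [coords_sum_elim, Fintype.card_sum, Fintype.card_fin, Fintype.card_fin]
        refine le_trans ?_ hr
        exact_mod_cast (by omega : n + m + 1 + (n + m) ≤ 2 * (n + m) + 1)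
  have h55 : (∃ n : ℕ, 2 * n < dim (pairsOf φ n)) ↔
      ∃ n : ℕ, BigPair (cone X) (fun v => φ (cl X v)) n (4 * n + 1) := by
    refine exists_congr fun n => ?_
    rw [lt_dim_iff, dimGE_iff]
    have e : 2 * n + 1 + Fintype.card (Fin n ⊕ Fin n) = 4 * n + 1 := by
      rw [Fintype.card_sum, Fintype.card_fin]
      omega
    rw [e]
    refine forall₂_congr fun L _ => ?_
    constructor
    · rintro ⟨v, hv, hr⟩
      rw [hasVec_pairsOf] at hv
      refine ⟨fun i => v (Sum.inl i), fun i => v (Sum.inr i), fun i => hv.1 _, fun i => hv.1 _,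
        hv.2, ?_⟩
      rw [← coords_sum_elim]
      have e2 : Sum.elim (fun i => v (Sum.inl i)) (fun i => v (Sum.inr i)) = v := by
        funext i
        obtain i | i := i <;> rfl
      rw [e2]
      exact hr
    · rintro ⟨Z, Y, hZ, hY, hs, hr⟩
      refine ⟨Sum.elim Z Y, (hasVec_pairsOf φ _).mpr ⟨?_, hs⟩, ?_⟩
      · rintro (i | i)
        · exact hZ i
        · exact hY i
      · rw [coords_sum_elim]
        exact hr
  have h66 : (∃ n i : ℕ, 2 * n - i < dim (locusOf φ n i)) ↔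
      ∃ n i : ℕ, BigLocus (cone X) (fun v => φ (cl X v)) n (i + n) (2 * n - i + 1 + n) := by
    refine exists_congr fun n => exists_congr fun i => ?_
    rw [lt_dim_iff, dimGE_iff, Fintype.card_fin]
    refine forall₂_congr fun L _ => exists_congr fun v => ?_
    rw [hasVec_locusOf, and_assoc]
  rw [h11, h22, h33, h44, h55, h66]
  tfae_have 1 ↔ 2 := hT.out 0 1
  tfae_have 1 ↔ 3 := hG.out 0 2
  tfae_have 1 ↔ 4 := hT.out 0 2
  tfae_have 1 ↔ 5 := hT.out 0 3
  tfae_have 1 ↔ 6 := hT.out 0 4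
  tfae_finish

/-- **The criteria for homomorphisms given by families of zero-cycles.** -/
theorem pairs_hom_tfae (hComp : StmComp) (hCurve : StmCurve) (hStab : StmStab)
    (hDist : StmDist) {s : ℕ} (hX : IsVariety X 2) {Y : Set (Pt s)} (hY : IsClosedSet Y)
    {φ : B X →+ B Y} (hφ : IsAlgebraicHom X Y φ) :
    List.TFAE [∃ c : ℕ, ∀ (n : ℕ) (x : Fin n → X), 2 * n ≤ dim (fibreHom φ x) + c,
      ∃ n : ℕ, ∀ x : Fin n → X, 0 < dim (fibreHom φ x),
      ∃ (n m : ℕ) (b : B Y), n + m < dim (diffFibreHom φ n m b),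
      ∃ n : ℕ, 2 * n < dim (equivPairsHom φ n),
      ∃ n i : ℕ, 2 * n - i < dim (largeLocusHom φ n i)] := by
  obtain ⟨k₀, hk₀⟩ := setup_cone hX
  obtain ⟨k, hk0k, hkc, hc⟩ := cls_hom hStab hY hφ hk₀
  have h := pairs_tfae φ hComp hCurve hDist (hk₀.mono hk0k hkc) hc
  tfae_have 1 ↔ 2 := h.out 0 1
  tfae_have 1 ↔ 3 := h.out 0 3
  tfae_have 1 ↔ 4 := h.out 0 4
  tfae_have 1 ↔ 5 := h.out 0 5
  tfae_finish

/-- **The criteria for surfaces.** -/
theorem pairs_surface_tfae (hComp : StmComp) (hCurve : StmCurve) (hStab : StmStab)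
    (hDist : StmDist) (hX : IsVariety X 2) :
    List.TFAE [∃ c : ℕ, ∀ n : ℕ, dn X 2 n ≤ c,
      ∃ n : ℕ, dn X 2 n < 2 * n,
      ∃ (n m : ℕ) (b : B X), n + m < dim (diffFibre X n m b),
      ∃ n : ℕ, 2 * n < dim (equivPairs X n),
      ∃ n i : ℕ, 2 * n - i < dim (largeLocus X n i)] := by
  obtain ⟨k, hk⟩ := setup_cone hX
  have h := pairs_tfae (AddMonoidHom.id (B X)) hComp hCurve hDist hk (cls_cone hStab hk)
  have hs := surface_tfae hComp hCurve hStab hX
  tfae_have 1 ↔ 2 := hs.out 0 1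
  have h13 : (∃ c : ℕ, ∀ n : ℕ, dn X 2 n ≤ c) ↔
    ∃ (n : ℕ) (x : Fin n → X), n < dim (fibreOf (AddMonoidHom.id (B X)) x) := hs.out 0 2
  tfae_have 1 ↔ 3 := h13.trans (h.out 2 3)
  tfae_have 1 ↔ 4 := h13.trans (h.out 2 4)
  tfae_have 1 ↔ 5 := h13.trans (h.out 2 5)
  tfae_finish

end Pool.Agent.Y148.OD
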