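import Pool.Agent.Y148.OD.Jobs

/-!
# Basic properties of `rk`
-/

set_option autoImplicit false

namespace Pool.Agent.Y148.OD

open MvPolynomial

variable {Ω : Type} [Field Ω]

theorem rk_mono (K : Subfield Ω) {S T : Set Ω} (h : S ⊆ T) : rk K S ≤ rk K T :=
  Matroid.eRk_mono _ h

theorem rk_union (K : Subfield Ω) (S T : Set Ω) : rk K (S ∪ T) = rk K T + rk (adj K T) S :=
  stmUnion Ω K S T

theorem rk_le_encard (K : Subfield Ω) (S : Set Ω) : rk K S ≤ S.encard :=
  Matroid.eRk_le_encard _ _

/-- algebraic independence over a bigger subfield implies it over a smaller one -/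
theorem indep_anti {K L : Subfield Ω} (h : K ≤ L) {I : Set Ω}
    (hI : AlgebraicIndepOn L id I) : AlgebraicIndepOn K id I := by
  let _ : Algebra K L := (Subfield.inclusion h).toAlgebra
  have : IsScalarTower K L Ω := IsScalarTower.of_algebraMap_eq fun x => rfl
  exact AlgebraicIndependent.restrictScalars (R := K) (K := L)
    (Subfield.inclusion h).injective hI

theorem rk_anti {K L : Subfield Ω} (h : K ≤ L) (S : Set Ω) : rk L S ≤ rk K S := by
  unfold rk
  rw [Matroid.eRk_le_iff]
  intro I hIS hI
  have h1 : (AlgebraicIndependent.matroid K Ω).Indep I :=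
    AlgebraicIndependent.matroid_indep_iff.mpr
      (indep_anti h (AlgebraicIndependent.matroid_indep_iff.mp hI))
  exact h1.encard_le_eRk_of_subset hIS

theorem le_rk_iff {K : Subfield Ω} {S : Set Ω} {n : ℕ∞} :
    n ≤ rk K S ↔ ∃ I, I ⊆ S ∧ AlgebraicIndepOn K id I ∧ I.encard = n := by
  unfold rk
  rw [Matroid.le_eRk_iff]
  rfl

theorem le_adj_left (K : Subfield Ω) (T : Set Ω) : K ≤ adj K T := by
  intro x hx
  exact Subfield.subset_closure (Or.inl hx)

theorem subset_adj (K : Subfield Ω) (T : Set Ω) : T ⊆ adj K T := by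
  intro x hx
  exact Subfield.subset_closure (Or.inr hx)

theorem adj_le {K L : Subfield Ω} {T : Set Ω} (h : K ≤ L) (hT : T ⊆ L) : adj K T ≤ L := by
  rw [adj, Subfield.closure_le]
  exact Set.union_subset h hT

theorem adj_adj (K : Subfield Ω) (S T : Set Ω) : adj (adj K S) T = adj K (S ∪ T) := by
  apply le_antisymm
  · refine adj_le (adj_le (le_adj_left _ _) ?_) ?_
    · exact Set.subset_union_left.trans (subset_adj _ _)
    · exact Set.subset_union_right.trans (subset_adj _ _)
  · refine adj_le ((le_adj_left _ _).trans (le_adj_left _ _)) (Set.union_subset ?_ (subset_adj _ _))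
    exact (subset_adj K S).trans (le_adj_left _ _)

theorem rk_union_le (K : Subfield Ω) (S T : Set Ω) : rk K (S ∪ T) ≤ rk K S + rk K T :=
  Matroid.eRk_union_le_eRk_add_eRk _ _ _

theorem rk_adj_union (K : Subfield Ω) (S T : Set Ω) : rk K (S ∪ T) = rk K S + rk (adj K S) T := by
  rw [Set.union_comm, rk_union]

theorem countable_adj {K : Subfield Ω} [Countable K] {T : Set Ω} (hT : T.Countable) :
    Countable (adj K T) := by
  have h : ((K : Set Ω) ∪ T).Countable := (Set.countable_coe_iff.mp ‹_›).union hT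
  have : Countable ((K : Set Ω) ∪ T : Set Ω) := h.to_subtype
  have h2 := Subfield.cardinalMk_closure_le_max ((K : Set Ω) ∪ T : Set Ω)
  rw [← Cardinal.mk_le_aleph0_iff]
  refine h2.trans ?_
  simp

omit [Field Ω] in
theorem countable_coords {ι τ : Type} [Countable ι] [Countable τ] (y : ι → τ → Ω) :
    (coords y).Countable := by
  have : coords y = Set.range (fun p : ι × τ => y p.1 p.2) := by
    ext c
    simp only [coords, Set.mem_ofPred_eq, Set.mem_range, Prod.exists]
    exact ⟨fun ⟨i, a, h⟩ => ⟨i, a, h.symm⟩, fun ⟨i, a, h⟩ => ⟨i, a, h.symm⟩⟩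
  rw [this]
  exact Set.countable_range _

end Pool.Agent.Y148.OD
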