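import Pool.Agent.Y148.OD.Defs

/-!
# Chow forms and rational equivalence of zero-cycles

A zero-cycle `∑ [x_i]` of degree `n` in projective space is given by its Chow form
`∏ (∑_a x_{i,a} U_a)`, up to a nonzero scalar.  A morphism from the projective line to the symmetric
product is given by a polynomial `F` in one variable `s` with coefficients forms.
-/

set_option autoImplicit false

namespace Pool.Agent.Y148.OD

open MvPolynomial

variable {Ω : Type} [Field Ω] {τ : Type} [Fintype τ]

/-- The linear form with the coefficients `v`. -/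
noncomputable def lin (v : τ → Ω) : MvPolynomial τ Ω := ∑ a, C (v a) * X a

/-- The Chow form of the zero-cycle `∑ [x i]`; the point `p` has the linear form `ℓ p`. -/
noncomputable def chow {P : Type} (ℓ : P → MvPolynomial τ Ω) {n : ℕ} (x : Fin n → P) :
    MvPolynomial τ Ω := ∏ i, ℓ (x i)

/-- The multiples of Chow forms of zero-cycles of degree `n`. -/
def IsCyc {P : Type} (ℓ : P → MvPolynomial τ Ω) (n : ℕ) (f : MvPolynomial τ Ω) : Prop :=
  ∃ (c : Ω) (z : Fin n → P), f = C c * chow ℓ z

/-- The forms `f` and `g` are the values at `0` and `∞` of a family, parametrised by the projective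
line, of Chow forms (or `0`). -/
def Link {P : Type} (ℓ : P → MvPolynomial τ Ω) (n : ℕ) (f g : MvPolynomial τ Ω) : Prop :=
  ∃ F : Polynomial (MvPolynomial τ Ω), F.coeff 0 = f ∧ F.leadingCoeff = g ∧
    ∀ s : Ω, IsCyc ℓ n (F.eval (C s))

/-- The zero-cycles `∑ [x i]` and `∑ [y i]` are the values at `0` and `∞` of a morphism from the
projective line to the symmetric product. -/
def RatStep {P : Type} (ℓ : P → MvPolynomial τ Ω) (n : ℕ) (x y : Fin n → P) : Prop :=
  ∃ c c' : Ω, c ≠ 0 ∧ c' ≠ 0 ∧ Link ℓ n (C c * chow ℓ x) (C c' * chow ℓ y)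

/-- The subgroup of the group of zero-cycles generated by the differences of such zero-cycles. -/
def ratSub {P : Type} (ℓ : P → MvPolynomial τ Ω) : AddSubgroup (FreeAbelianGroup P) :=
  AddSubgroup.closure {e | ∃ (n : ℕ) (x y : Fin n → P), RatStep ℓ n x y ∧
    e = ∑ i, FreeAbelianGroup.of (x i) - ∑ i, FreeAbelianGroup.of (y i)}

/-- The linear form of a vector in `V`. -/
noncomputable def vlin (V : Set (τ → Ω)) (v : V) : MvPolynomial τ Ω := lin (v : τ → Ω)

end Pool.Agent.Y148.OD
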