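import Pool.Agent.Y148.OD.Core2
import Pool.Agent.Y148.OD.Chow

/-!
# Statements of the lemmas (jobs) of project OD, third part: curves
-/

set_option autoImplicit false

namespace Pool.Agent.Y148.OD

open MvPolynomial

/-- OD-12. Linear disjointness of algebraically independent families over an algebraically closed
field. -/
def StmLD : Prop := ∀ (Ω : Type) [Field Ω] [IsAlgClosed Ω] [Uncountable Ω] (n : ℕ)
  (k : Subfield Ω), Countable k → IsAlgClosed k → ∀ (a p : Fin n → Ω),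
    rk k (Set.range a ∪ Set.range p) = rk k (Set.range a) + rk k (Set.range p) →
    LinearIndependent k p → ∑ i, a i * p i = 0 → ∀ i, a i = 0

/-- OD-13. A bound for the number of the first coordinates of the common zeros of a fixed polynomial
`f` in two variables and a generic polynomial of degrees at most `D` and `d - 1`. -/
def StmRes : Prop := ∀ (Ω : Type) [Field Ω] (k : Subfield Ω) (f : Polynomial (Polynomial k))
  (d δ D : ℕ), f.natDegree = d → 1 ≤ d → (∀ b, (f.coeff b).natDegree ≤ δ) →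
    ∀ g : Fin (D + 1) × Fin d → Ω,
      (∀ (m : ℕ) (Φ : MvPolynomial (Fin (D + 1) × Fin d) k), Φ.IsHomogeneous m → Φ ≠ 0 →
        aeval g Φ ≠ 0) →
      Set.encard {x₀ : Ω | ∃ y₀ : Ω,
        (f.map (Polynomial.mapRingHom (algebraMap k Ω))).evalEval x₀ y₀ = 0 ∧
          ∑ q, g q * x₀ ^ (q.1 : ℕ) * y₀ ^ (q.2 : ℕ) = 0} ≤ ((d * D + (d - 1) * δ : ℕ) : ℕ∞)

/-- OD-14. Large spaces of functions on a curve with few zeros: the zeros of a generic member of the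
space spanned by the `ℓ i` are at most `h - 1 + β` embeddings of the function field `E`. -/
def StmSpace : Prop := ∀ (Ω : Type) [Field Ω] [IsAlgClosed Ω] [CharZero Ω] (k : Subfield Ω),
  Countable k → IsAlgClosed k → ∀ (E : Type) [Field E] [Algebra k E],
    (⊤ : IntermediateField k E).FG → Algebra.trdeg k E = 1 →
    ∃ β : ℕ, ∀ N : ℕ, ∃ h : ℕ, N ≤ h ∧ ∃ ℓ : Fin h → E, LinearIndependent k ℓ ∧
      ∀ g : Fin h → Ω,
        (∀ (m : ℕ) (Φ : MvPolynomial (Fin h) k), Φ.IsHomogeneous m → Φ ≠ 0 → aeval g Φ ≠ 0) →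
        Set.encard {τ : E →ₐ[k] Ω | ∑ i, g i * τ (ℓ i) = 0} ≤ ((h - 1 + β : ℕ) : ℕ∞)

/-- OD-15. A finite set of algebraically independent embeddings of the function field of a curve
which is stable under conjugation over a field `k₁(t)`, `t` transcendental over `k₁`. -/
def StmMoving : Prop := ∀ (Ω : Type) [Field Ω] [IsAlgClosed Ω] [Uncountable Ω] [CharZero Ω]
  (k : Subfield Ω), Countable k → IsAlgClosed k → ∀ (E : Type) [Field E] [Algebra k E],
    (⊤ : IntermediateField k E).FG → Algebra.trdeg k E = 1 →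
    ∃ (e : ℕ) (τ : Fin (e + 1) → (E →ₐ[k] Ω)) (k₁ : Subfield Ω) (t : Ω), Countable k₁ ∧ k ≤ k₁ ∧
      Transcendental k₁ t ∧ Function.Injective τ ∧
      ((e + 1 : ℕ) : ℕ∞) ≤ rk k (⋃ i, Set.range (τ i)) ∧
      (∀ i, t ∈ adj k₁ (Set.range (τ i))) ∧
      ∀ (F : Subfield Ω), k₁ ≤ F → t ∈ F → (∀ i x, τ i x ∈ F) → ∀ σ : F →+* Ω,
        (∀ x : F, (x : Ω) ∈ k₁ → σ x = x) → (∀ x : F, (x : Ω) = t → σ x = x) →
        ∀ i, ∃ j, ∀ (x : E) (y : F), (y : Ω) = τ i x → σ y = τ j x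

/-- OD-16. Generic zero-cycles of large degree on a curve `C` in `V` move. -/
def StmCurve : Prop := ∀ (Ω : Type) [Field Ω] [IsAlgClosed Ω] [Uncountable Ω] [CharZero Ω]
  (τ : Type) [Fintype τ] (V C : Set (τ → Ω)) (k : Subfield Ω), Countable k → IsAlgClosed k →
    (∃ S : Set (MvPolynomial τ k), ∀ v : τ → Ω, v ∈ V ↔ v ≠ 0 ∧ ∀ P ∈ S, aeval v P = 0) →
    (∀ (c : Ω) (v : τ → Ω), c ≠ 0 → v ∈ V → c • v ∈ V) →
    C ⊆ V → Setup k C 2 → (∀ (c : Ω) (v : τ → Ω), c ≠ 0 → v ∈ C → c • v ∈ C) →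
    ∀ (A : Type) [AddCommGroup A] (cl : (τ → Ω) → A),
      (∀ (c : Ω) (v : τ → Ω), c ≠ 0 → v ∈ V → cl (c • v) = cl v) →
      (∀ (n : ℕ) (x y : Fin n → V), ∑ i, FreeAbelianGroup.of (x i) -
        ∑ i, FreeAbelianGroup.of (y i) ∈ ratSub (vlin V) → ∑ i, cl (x i) = ∑ i, cl (y i)) →
      ∃ p, GenMove k C 2 cl p

/-- OD-17. Decomposition of a closed cone `W` over `k` into irreducible closed cones over a countable
algebraically closed field `k'`. -/
def StmComp : Prop := ∀ (Ω : Type) [Field Ω] [IsAlgClosed Ω] [Uncountable Ω] (τ : Type)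
  [Fintype τ] (W : Set (τ → Ω)) (k : Subfield Ω), Countable k →
    (∃ S : Set (MvPolynomial τ k), ∀ v : τ → Ω, v ∈ W ↔ v ≠ 0 ∧ ∀ P ∈ S, aeval v P = 0) →
    (∀ (c : Ω) (v : τ → Ω), c ≠ 0 → v ∈ W → c • v ∈ W) →
    ∃ (k' : Subfield Ω) (N : ℕ) (D : Fin N → Set (τ → Ω)) (m : Fin N → ℕ), Countable k' ∧
      IsAlgClosed k' ∧ k ≤ k' ∧ (∀ i, Setup k' (D i) (m i)) ∧ (∀ i, D i ⊆ W) ∧
      (∀ i (c : Ω) (v : τ → Ω), c ≠ 0 → v ∈ D i → c • v ∈ D i) ∧ ∀ v ∈ W, ∃ i, v ∈ D i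

end Pool.Agent.Y148.OD
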