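import Pool.Agent.Y148.OD.Core4
import Pool.Agent.Y148.OD.Stm3

/-!
# The zero-cycles on a hyperplane section of a surface are bounded
-/

set_option autoImplicit false

namespace Pool.Agent.Y148.OD

open MvPolynomial

variable {Ω : Type} [Field Ω] {τ : Type} {A : Type} [AddCommGroup A]

theorem closed_mono {k K : Subfield Ω} (h : k ≤ K) {V : Set (τ → Ω)}
    (hV : ∃ S : Set (MvPolynomial τ k), ∀ v : τ → Ω, v ∈ V ↔ v ≠ 0 ∧ ∀ P ∈ S, aeval v P = 0) :
    ∃ S : Set (MvPolynomial τ K), ∀ v : τ → Ω, v ∈ V ↔ v ≠ 0 ∧ ∀ P ∈ S, aeval v P = 0 := by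
  obtain ⟨S, hS⟩ := hV
  refine ⟨MvPolynomial.map (Subfield.inclusion h) '' S, fun v => ?_⟩
  rw [hS]
  refine and_congr_right fun _ => ?_
  rw [Set.forall_mem_image]
  refine forall₂_congr fun P _ => ?_
  rw [aeval_def, aeval_def, eval₂_map]
  rfl

theorem Setup.mono {k K : Subfield Ω} (h : k ≤ K) (hK : Countable K) {V : Set (τ → Ω)} {M : ℕ}
    (hV : Setup k V M) : Setup K V M where
  countable := hK
  closed := closed_mono h hV.closed
  prime := hV.prime
  upper := hV.upper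
  lower := hV.lower

theorem rel_mono {k K : Subfield Ω} (h : k ≤ K) {σ : Type} {x y : σ → Ω}
    (hP : ∀ P : MvPolynomial σ K, aeval x P = 0 → aeval y P = 0) (P : MvPolynomial σ k)
    (h0 : aeval x P = 0) : aeval y P = 0 := by
  have h1 := hP (MvPolynomial.map (Subfield.inclusion h) P)
  rw [aeval_def, aeval_def, eval₂_map, eval₂_map] at h1
  exact h1 h0

theorem Cls.mono {k K : Subfield Ω} (h : k ≤ K) {V : Set (τ → Ω)} {cl : (τ → Ω) → A}
    (hc : Cls k V cl) : Cls K V cl where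
  ne_zero := hc.ne_zero
  smul_mem := hc.smul_mem
  smul_cl := hc.smul_cl
  stab := fun κ ι _ _ hcard z y z' y' hz hy hs hz' hy' hP =>
    hc.stab κ ι hcard z y z' y' hz hy hs hz' hy' (rel_mono h hP)

/-- The class map of a closed subcone. -/
theorem Cls.sub {k : Subfield Ω} {V D : Set (τ → Ω)} {cl : (τ → Ω) → A} (hc : Cls k V cl)
    (hDV : D ⊆ V)
    (hD : ∃ S : Set (MvPolynomial τ k), ∀ v : τ → Ω, v ∈ D ↔ v ≠ 0 ∧ ∀ P ∈ S, aeval v P = 0)
    (hsm : ∀ (c : Ω) (v : τ → Ω), c ≠ 0 → v ∈ D → c • v ∈ D) : Cls k D cl where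
  ne_zero := fun v hv => hc.ne_zero v (hDV hv)
  smul_mem := hsm
  smul_cl := fun c v h0 hv => hc.smul_cl c v h0 (hDV hv)
  stab := by
    intro κ ι _ _ hcard z y z' y' hz hy hs hz' hy' hP
    obtain ⟨-, -, h3⟩ := hc.stab κ ι hcard z y z' y' (fun i => hDV (hz i)) (fun i => hDV (hy i))
      hs hz' hy' hP
    obtain ⟨S, hS⟩ := hD
    refine ⟨fun i => ?_, fun i => ?_, h3⟩
    · rw [hS]
      refine ⟨hz' i, fun P hPS => ?_⟩
      have h1 := hP (rename (fun a => (Sum.inl i, a)) P)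
      rw [aeval_rename, aeval_rename] at h1
      exact h1 (((hS _).mp (hz i)).2 P hPS)
    · rw [hS]
      refine ⟨hy' i, fun P hPS => ?_⟩
      have h1 := hP (rename (fun a => (Sum.inr i, a)) P)
      rw [aeval_rename, aeval_rename] at h1
      exact h1 (((hS _).mp (hy i)).2 P hPS)

theorem rk_le_of_alg {K : Subfield Ω} {S T : Set Ω} (h : ∀ x ∈ S, IsAlgebraic (adj K T) x) :
    rk K S ≤ rk K T := by
  have h1 : S ⊆ (AlgebraicIndependent.matroid K Ω).closure T := fun x hx =>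
    (Pool.Agent.Y255.OD.mem_cl K T x).mpr (h x hx)
  calc rk K S ≤ (AlgebraicIndependent.matroid K Ω).eRk
        ((AlgebraicIndependent.matroid K Ω).closure T) := Matroid.eRk_mono _ h1
    _ = rk K T := Matroid.eRk_closure_eq _ _

theorem rk_le_of_mem {K : Subfield Ω} {S T : Set Ω} (h : ∀ x ∈ S, x ∈ adj K T) :
    rk K S ≤ rk K T :=
  rk_le_of_alg fun x hx => isAlgebraic_algebraMap (⟨x, h x hx⟩ : adj K T)

/-- the rank of a generic multiple of a vector -/
theorem rk_smul_ge {K : Subfield Ω} {v : τ → Ω} {b : τ} (hb : v b ≠ 0) {c : Ω} (hc : c ≠ 0)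
    (htr : (1 : ℕ∞) ≤ rk (adj K (Set.range fun a => v a / v b)) {c}) :
    rk K (Set.range fun a => v a / v b) + 1 ≤ rk K (Set.range ((c / v b) • v)) := by
  set R := Set.range fun a => v a / v b with hR
  set S := Set.range ((c / v b) • v) with hS
  have hcS : c ∈ S := ⟨b, by simp [div_mul_cancel₀ _ hb]⟩
  have h1 : rk K R + 1 ≤ rk K (R ∪ {c}) := by
    rw [rk_adj_union]
    exact add_le_add le_rfl htr
  refine h1.trans (rk_le_of_mem ?_)
  rintro x (⟨a, rfl⟩ | hx)
  · have h2 : v a / v b = ((c / v b) • v) a / c := by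
      simp only [Pi.smul_apply, smul_eq_mul]
      field_simp
    show v a / v b ∈ _
    rw [h2]
    exact div_mem (subset_adj K S ⟨a, rfl⟩) (subset_adj K S hcS)
  · rw [Set.mem_singleton_iff.mp hx]
    exact subset_adj K S hcS

/-- Elements independent of a countable field. -/
theorem exists_indep [IsAlgClosed Ω] [Uncountable Ω] (ι : Type) [Fintype ι] {K : Subfield Ω}
    (hK : Countable K) : ∃ c : ι → Ω, (Fintype.card ι : ℕ∞) ≤ rk K (Set.range c) := by
  obtain ⟨c, hc⟩ := Pool.Agent.Y141.OD.exists_indep K hK ι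
  refine ⟨c, le_rk_iff.mpr ⟨Set.range c, subset_rfl, hc.to_subtype_range, ?_⟩⟩
  rw [← Set.image_univ, Function.Injective.encard_image hc.injective, Set.encard_univ,
    ENat.card_eq_coe_fintype_card]

theorem exists_transc [IsAlgClosed Ω] [Uncountable Ω] {K : Subfield Ω} (hK : Countable K) :
    ∃ c : Ω, c ≠ 0 ∧ (1 : ℕ∞) ≤ rk K {c} := by
  obtain ⟨c, hc⟩ := exists_indep Unit hK
  have h1 : Set.range c = {c ()} := by
    ext x
    constructor
    · rintro ⟨y, rfl⟩
      rfl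
    · intro hx
      exact ⟨(), (Set.mem_singleton_iff.mp hx).symm⟩
  rw [h1] at hc
  refine ⟨c (), ?_, by simpa using hc⟩
  intro h0
  rw [h0, rk_eq_zero (S := {(0 : Ω)}) (by simp)] at hc
  simp at hc

/-- In a scale-invariant set whose vectors have rank at most one the ratios of the coordinates have
rank zero. -/
theorem rk_ratio_eq_zero [IsAlgClosed Ω] [Uncountable Ω] [Countable τ] {K : Subfield Ω}
    (hK : Countable K) {D : Set (τ → Ω)}
    (hsm : ∀ (c : Ω) (v : τ → Ω), c ≠ 0 → v ∈ D → c • v ∈ D)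
    (hr : ∀ v ∈ D, rk K (Set.range v) ≤ 1) {v : τ → Ω} (hv : v ∈ D) {b : τ} (hb : v b ≠ 0) :
    rk K (Set.range fun a => v a / v b) = 0 := by
  have hc : Countable (adj K (Set.range fun a => v a / v b)) :=
    countable_adj (Set.countable_range _)
  obtain ⟨c, hc0, hc1⟩ := exists_transc hc
  have h1 := (rk_smul_ge hb hc0 hc1).trans (hr _ (hsm (c / v b) v (div_ne_zero hc0 hb) hv))
  have h2 : rk K (Set.range fun a => v a / v b) + 1 ≤ 0 + 1 := by simpa using h1
  have h3 := (ENat.add_le_add_iff_right (by simp)).mp h2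
  exact le_antisymm h3 zero_le

theorem rk_coords_le_of {ι : Type} [Fintype ι] {K : Subfield Ω} {y : ι → τ → Ω} {b : ℕ}
    (h : ∀ i, rk K (Set.range (y i)) ≤ b) : rk K (coords y) ≤ ((b * Fintype.card ι : ℕ) : ℕ∞) := by
  classical
  rw [← cof_univ, ← Finset.coe_univ]
  have h1 := rk_cof_le (K := K) (y := y) (b := b) Finset.univ (fun i _ => h i)
  rwa [Finset.card_univ] at h1

/-- normalising vectors of rank at most one -/
theorem exists_normal [IsAlgClosed Ω] [Uncountable Ω] [Countable τ] {k : Subfield Ω}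
    (hk : Countable k) {V D : Set (τ → Ω)} {cl : (τ → Ω) → A} (hc : Cls k V cl) (hDV : D ⊆ V)
    (hsm : ∀ (c : Ω) (v : τ → Ω), c ≠ 0 → v ∈ D → c • v ∈ D)
    (hr : ∀ v ∈ D, rk k (Set.range v) ≤ 1) {ι : Type} [Fintype ι] {x : ι → τ → Ω}
    (hx : ∀ i, x i ∈ D) : ∃ u : ι → τ → Ω, (∀ i, u i ∈ D) ∧
      ∑ i, cl (u i) = ∑ i, cl (x i) ∧ rk k (coords u) = 0 := by
  have hne : ∀ i, ∃ b, x i b ≠ 0 := by
    intro i
    by_contra hcon
    push Not at hcon
    exact hc.ne_zero _ (hDV (hx i)) (funext hcon)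
  choose b hb using hne
  refine ⟨fun i => (x i (b i))⁻¹ • x i, fun i => hsm _ _ (inv_ne_zero (hb i)) (hx i), ?_, ?_⟩
  · exact Finset.sum_congr rfl fun i _ => hc.smul_cl _ _ (inv_ne_zero (hb i)) (hDV (hx i))
  · have h1 := rk_coords_le_of (K := k) (y := fun i => (x i (b i))⁻¹ • x i) (b := 0) (fun i => by
      have h2 := rk_ratio_eq_zero hk hsm hr (hx i) (hb i)
      have h3 : Set.range ((x i (b i))⁻¹ • x i) = Set.range fun a => x i a / x i (b i) := by
        congr 1
        funext a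
        simp only [Pi.smul_apply, smul_eq_mul]
        rw [div_eq_inv_mul]
      rw [h3, h2]
      simp)
    rw [zero_mul] at h1
    exact le_antisymm (by simpa using h1) zero_le

theorem bdd_of_rk_le_one [IsAlgClosed Ω] [Uncountable Ω] [Countable τ] {k : Subfield Ω}
    (hk : Countable k) {V D : Set (τ → Ω)} {cl : (τ → Ω) → A} (hc : Cls k V cl) (hDV : D ⊆ V)
    (hsm : ∀ (c : Ω) (v : τ → Ω), c ≠ 0 → v ∈ D → c • v ∈ D)
    (hr : ∀ v ∈ D, rk k (Set.range v) ≤ 1) : Bdd k V D cl 0 := by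
  intro ι _ b hb
  obtain ⟨u, hu, hus, hur⟩ := exists_normal hk hc hDV hsm hr hb
  exact ⟨u, fun i => hDV (hu i), hus, by rw [hur]; simp⟩

/-- The zero-cycles on a curve are bounded if a generic zero-cycle of some degree moves. -/
theorem bdd_of_genMove [IsAlgClosed Ω] [Uncountable Ω] [Fintype τ] {k : Subfield Ω}
    {V D : Set (τ → Ω)} {cl : (τ → Ω) → A} (hc : Cls k V cl) (hDV : D ⊆ V)
    (hD : Setup k D 2) (hsm : ∀ (c : Ω) (v : τ → Ω), c ≠ 0 → v ∈ D → c • v ∈ D) {p : ℕ}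
    (hgen : GenMove k D 2 cl p) : Bdd k V D cl (2 * p) := by
  classical
  have hk := hD.countable
  have hcD : Cls k D cl := hc.sub hDV hD.closed hsm
  obtain ⟨w₀, hw₀⟩ := hD.nonempty
  obtain ⟨a₁, ha₁⟩ : ∃ a, w₀ a ≠ 0 := by
    by_contra hcon
    push Not at hcon
    exact hcD.ne_zero _ hw₀ (funext hcon)
  set l : τ → Ω := Pi.single a₁ 1 with hl
  have hlv : ∀ v : τ → Ω, ∑ a, l a * v a = v a₁ := by
    intro v
    rw [Finset.sum_eq_single a₁]
    · simp [hl]
    · intro b _ hb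
      simp [hl, Pi.single_eq_of_ne hb]
    · intro h
      exact absurd (Finset.mem_univ _) h
  have hlk : ∀ a, l a ∈ k := by
    intro a
    by_cases h : a = a₁
    · rw [h, hl, Pi.single_eq_same]
      exact one_mem k
    · rw [hl, Pi.single_eq_of_ne h]
      exact zero_mem k
  have hsec := eff_section (eff_move hD hcD hgen l hlk)
  have hSsm : ∀ (c : Ω) (v : τ → Ω), c ≠ 0 → v ∈ Sec D l → c • v ∈ Sec D l := by
    rintro c v h0 ⟨hv, hv0⟩
    refine ⟨hsm c v h0 hv, ?_⟩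
    rw [hlv] at hv0 ⊢
    simp [hv0]
  have hSr : ∀ v ∈ Sec D l, rk k (Set.range v) ≤ 1 := by
    rintro v ⟨hv, hv0⟩
    rw [hlv] at hv0
    by_contra hcon
    rw [not_le] at hcon
    have h2 : ((2 : ℕ) : ℕ∞) ≤ rk k (Set.range v) := by
      have := Order.add_one_le_of_lt hcon
      have e : (1 : ℕ∞) + 1 = ((2 : ℕ) : ℕ∞) := by norm_num
      rwa [e] at this
    have h3 := (hD.point le_rfl hk).2 v hv h2 (X a₁) (by rw [aeval_X]; exact hv0) w₀ hw₀
    rw [aeval_X] at h3
    exact ha₁ h3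
  intro ι _ b hb
  by_cases hn : Fintype.card ι < p
  · refine ⟨b, fun i => hDV (hb i), rfl, ?_⟩
    refine (rk_coords_le hD hb).trans ?_
    exact_mod_cast Nat.mul_le_mul_left 2 hn.le
  · obtain ⟨s, hs⟩ : ∃ s, Fintype.card ι = s + p := ⟨Fintype.card ι - p, by omega⟩
    have h1 : ∑ i, cl (b i) ∈ Eff D cl (s + p) := by
      rw [← hs]
      exact eff_sum hb
    obtain ⟨b₁, ⟨x, hx, rfl⟩, b₂, ⟨w, hw, rfl⟩, hsum⟩ := hsec s _ h1
    obtain ⟨x', hx', hxs', hxr'⟩ := exists_normal hk hc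
      (fun v hv => hDV hv.1 : Sec D l ⊆ V) hSsm hSr hx
    let e : ι ≃ Fin s ⊕ Fin p := (Fintype.equivFinOfCardEq hs).trans finSumFinEquiv.symm
    have hut : ∀ i, Sum.elim x' w i ∈ V := by
      rintro (i | i)
      · exact hDV (hx' i).1
      · exact hDV (hw i)
    refine ⟨fun i => Sum.elim x' w (e i), fun i => hut _, ?_, ?_⟩
    · rw [Equiv.sum_comp e (fun i => cl (Sum.elim x' w i)), Fintype.sum_sum_type, hsum]
      simp only [Sum.elim_inl, Sum.elim_inr]
      rw [hxs']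
    · rw [coords_comp_equiv, coords_sum_elim]
      refine (rk_union_le _ _ _).trans ?_
      rw [hxr', zero_add]
      have h2 := rk_coords_le hD hw
      rwa [Fintype.card_fin] at h2

theorem rk_iUnion_le {ι : Type} [DecidableEq ι] {K : Subfield Ω} {S : ι → Set Ω} {q : ι → ℕ}
    (J : Finset ι) (h : ∀ i ∈ J, rk K (S i) ≤ q i) :
    rk K (⋃ i ∈ J, S i) ≤ ((∑ i ∈ J, q i : ℕ) : ℕ∞) := by
  induction J using Finset.induction_on with
  | empty => simp [rk_empty]
  | insert i J hi ih =>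
    rw [Finset.sum_insert hi, Finset.set_biUnion_insert]
    refine (rk_union_le _ _ _).trans ?_
    have h1 := h i (Finset.mem_insert_self _ _)
    have h2 := ih fun j hj => h j (Finset.mem_insert_of_mem hj)
    exact_mod_cast add_le_add h1 h2

theorem bdd_union {k : Subfield Ω} {V W : Set (τ → Ω)} {cl : (τ → Ω) → A} {N : ℕ}
    {D : Fin N → Set (τ → Ω)} {q : Fin N → ℕ} (h : ∀ i, Bdd k V (D i) cl (q i))
    (hW : ∀ v ∈ W, ∃ i, v ∈ D i) : Bdd k V W cl (∑ i, q i) := by
  classical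
  intro ι _ b hb
  choose f hf using fun i => hW (b i) (hb i)
  choose u hu hus hur using fun j : Fin N => h j {i : ι // f i = j} (fun i => b i)
    (fun i => by
      have := hf i
      rw [i.2] at this
      exact this)
  refine ⟨fun i => u (f i) ⟨i, rfl⟩, fun i => hu _ _, ?_, ?_⟩
  · rw [← Equiv.sum_comp (Equiv.sigmaFiberEquiv f) (fun i => cl (u (f i) ⟨i, rfl⟩)),
      ← Equiv.sum_comp (Equiv.sigmaFiberEquiv f) (fun i => cl (b i)), Fintype.sum_sigma,
      Fintype.sum_sigma]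
    refine Finset.sum_congr rfl fun j _ => ?_
    refine Eq.trans ?_ (hus j)
    refine Finset.sum_congr rfl fun i _ => ?_
    obtain ⟨i, rfl⟩ := i
    rfl
  · refine le_trans (rk_mono _ ?_) (rk_iUnion_le (S := fun j => coords (u j)) Finset.univ
      (fun j _ => hur j))
    rintro c ⟨i, a, rfl⟩
    simp only [Finset.mem_univ, Set.iUnion_true, Set.mem_iUnion]
    exact ⟨f i, ⟨i, rfl⟩, a, rfl⟩

/-- **The zero-cycles on a hyperplane section of a surface are bounded.** -/
theorem exists_bdd (hComp : StmComp) (hCurve : StmCurve) [IsAlgClosed Ω] [Uncountable Ω]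
    [CharZero Ω] [Fintype τ] {k : Subfield Ω} {V : Set (τ → Ω)} (h : Setup k V 3)
    {cl : (τ → Ω) → A} (hc : Cls k V cl)
    (hrat : ∀ (n : ℕ) (x y : Fin n → V), ∑ i, FreeAbelianGroup.of (x i) -
        ∑ i, FreeAbelianGroup.of (y i) ∈ ratSub (vlin V) → ∑ i, cl (x i) = ∑ i, cl (y i))
    {l : τ → Ω} (hl : ∀ a, l a ∈ k) (hlV : ∃ v ∈ V, ∑ a, l a * v a ≠ 0) :
    ∃ (k' : Subfield Ω) (q : ℕ), Countable k' ∧ k ≤ k' ∧ Bdd k' V (Sec V l) cl q := by
  have hk := h.countable
  obtain ⟨k', N, D, m, hk'c, hk'a, hkk', hset, hDW, hDsm, hDcov⟩ := hComp Ω τ (Sec V l) k hk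
    (by
      obtain ⟨S, hS⟩ := h.closed
      refine ⟨S ∪ {∑ a, C (⟨l a, hl a⟩ : k) * X a}, fun v => ?_⟩
      have h1 : aeval v (∑ a, C (⟨l a, hl a⟩ : k) * X a : MvPolynomial τ k) =
          ∑ a, l a * v a := by
        rw [map_sum]
        refine Finset.sum_congr rfl fun a _ => ?_
        rw [map_mul, aeval_C, aeval_X]
        rfl
      constructor
      · rintro ⟨hv, hv0⟩
        obtain ⟨hv1, hv2⟩ := (hS v).mp hv
        refine ⟨hv1, ?_⟩
        rintro P (hP | hP)
        · exact hv2 P hP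
        · rw [Set.mem_singleton_iff.mp hP, h1]
          exact hv0
      · rintro ⟨hv1, hv2⟩
        refine ⟨(hS v).mpr ⟨hv1, fun P hP => hv2 P (Or.inl hP)⟩, ?_⟩
        rw [← h1]
        exact hv2 _ (Or.inr rfl))
    (by
      rintro c v h0 ⟨hv, hv0⟩
      refine ⟨hc.smul_mem c v h0 hv, ?_⟩
      have : ∑ a, l a * (c • v) a = c * ∑ a, l a * v a := by
        rw [Finset.mul_sum]
        refine Finset.sum_congr rfl fun a _ => ?_
        simp only [Pi.smul_apply, smul_eq_mul]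
        ring
      rw [this, hv0, mul_zero])
  have hV' : Setup k' V 3 := h.mono hkk' hk'c
  have hc' : Cls k' V cl := hc.mono hkk'
  have hDV : ∀ i, D i ⊆ V := fun i v hv => (hDW i hv).1
  -- the rank drops on the section
  have hrW : ∀ v ∈ Sec V l, rk k' (Set.range v) ≤ 2 := by
    rintro v ⟨hv, hv0⟩
    by_contra hcon
    rw [not_le] at hcon
    have h3 : ((3 : ℕ) : ℕ∞) ≤ rk k' (Set.range v) := by
      have := Order.add_one_le_of_lt hcon
      have e : (2 : ℕ∞) + 1 = ((3 : ℕ) : ℕ∞) := by norm_num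
      rwa [e] at this
    obtain ⟨w, hw, hw0⟩ := hlV
    have h4 := (hV'.point le_rfl hk'c).2 v hv h3 (∑ a, C (⟨l a, hkk' (hl a)⟩ : k') * X a) (by
      rw [map_sum, ← hv0]
      refine Finset.sum_congr rfl fun a _ => ?_
      rw [map_mul, aeval_C, aeval_X]
      rfl) w hw
    apply hw0
    rw [← h4, map_sum]
    refine Finset.sum_congr rfl fun a _ => ?_
    rw [map_mul, aeval_C, aeval_X]
    rfl
  have hm : ∀ i, m i ≤ 2 := by
    intro i
    obtain ⟨v, hv, hvr⟩ := (hset i).lower k' hk'c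
    have h1 := hvr.trans (hrW v (hDW i hv))
    exact_mod_cast h1
  have hbdd : ∀ i, ∃ q, Bdd k' V (D i) cl q := by
    intro i
    by_cases h2 : m i = 2
    · have hset2 : Setup k' (D i) 2 := h2 ▸ hset i
      obtain ⟨p, hp⟩ := hCurve Ω τ V (D i) k' hk'c hk'a hV'.closed hc'.smul_mem (hDV i) hset2
        (hDsm i) A cl hc'.smul_cl hrat
      exact ⟨2 * p, bdd_of_genMove hc' (hDV i) hset2 (hDsm i) hp⟩
    · refine ⟨0, bdd_of_rk_le_one hk'c hc' (hDV i) (hDsm i) fun v hv => ?_⟩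
      have h3 := ((hset i).point le_rfl hk'c).1 v hv
      have h4 : m i ≤ 1 := by
        have := hm i
        omega
      exact h3.trans (by exact_mod_cast h4)
  choose q hq using hbdd
  exact ⟨k', ∑ i, q i, hk'c, hkk', bdd_union hq hDcov⟩

end Pool.Agent.Y148.OD
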