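import Pool.Agent.Y148.OD.SurfDefs
import Pool.Agent.Y148.OD.Section

/-!
# Projective varieties and their cones
-/

set_option autoImplicit false

namespace Pool.Agent.Y148.OD

open MvPolynomial

/-- The cone over `X` without its vertex. -/
def cone {r : ℕ} (X : Set (Pt r)) : Set (Fin (r + 1) → ℂ) :=
  {v | ∃ h : v ≠ 0, Projectivization.mk ℂ v h ∈ X}

theorem eval_smul_hom {σ : Type} [Fintype σ] {P : MvPolynomial σ ℂ} {d : ℕ}
    (hP : P.IsHomogeneous d) (c : ℂ) (v : σ → ℂ) : eval (c • v) P = c ^ d * eval v P := by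
  rw [eval_eq', eval_eq', Finset.mul_sum]
  refine Finset.sum_congr rfl fun m hm => ?_
  have h1 : ∏ i, (c • v) i ^ m i = c ^ d * ∏ i, v i ^ m i := by
    have h2 : m.degree = d := by
      rw [← hP (mem_support_iff.mp hm)]
      exact DFunLike.congr_fun Finsupp.degree_eq_weight_one m
    rw [← h2, Finsupp.degree_eq_sum, ← Finset.prod_pow_eq_pow_sum, ← Finset.prod_mul_distrib]
    refine Finset.prod_congr rfl fun i _ => ?_
    simp [mul_pow]
  rw [h1]
  ring

theorem exists_rep {r : ℕ} (v : Fin (r + 1) → ℂ) (hv : v ≠ 0) :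
    ∃ c : ℂ, c ≠ 0 ∧ (Projectivization.mk ℂ v hv).rep = c • v := by
  obtain ⟨a, ha⟩ := Projectivization.exists_smul_eq_mk_rep ℂ v hv
  exact ⟨a, a.ne_zero, ha.symm⟩

theorem eval_rep_iff {r : ℕ} {P : MvPolynomial (Fin (r + 1)) ℂ} {d : ℕ} (hP : P.IsHomogeneous d)
    (v : Fin (r + 1) → ℂ) (hv : v ≠ 0) :
    eval (Projectivization.mk ℂ v hv).rep P = 0 ↔ eval v P = 0 := by
  obtain ⟨c, hc, h⟩ := exists_rep v hv
  rw [h, eval_smul_hom hP]
  simp [hc]

theorem mk_smul {r : ℕ} (v : Fin (r + 1) → ℂ) (hv : v ≠ 0) (c : ℂ) (_hc : c ≠ 0)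
    (hcv : c • v ≠ 0) : Projectivization.mk ℂ (c • v) hcv = Projectivization.mk ℂ v hv := by
  rw [Projectivization.mk_eq_mk_iff']
  exact ⟨c, rfl⟩

theorem smul_mem_cone {r : ℕ} {X : Set (Pt r)} {v : Fin (r + 1) → ℂ} {c : ℂ} (hc : c ≠ 0)
    (hv : v ∈ cone X) : c • v ∈ cone X := by
  obtain ⟨h, hX⟩ := hv
  have hcv : c • v ≠ 0 := smul_ne_zero hc h
  exact ⟨hcv, by rw [mk_smul v h c hc hcv]; exact hX⟩

theorem rep_mem_cone {r : ℕ} {X : Set (Pt r)} {x : Pt r} (hx : x ∈ X) : x.rep ∈ cone X :=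
  ⟨x.rep_nonzero, by rw [Projectivization.mk_rep]; exact hx⟩

/-- lifting polynomials whose coefficients are in a subfield -/
theorem exists_lift {σ : Type} {K : Subfield ℂ} {P : MvPolynomial σ ℂ}
    (h : ∀ m, P.coeff m ∈ K) : ∃ Q : MvPolynomial σ K, MvPolynomial.map (algebraMap K ℂ) Q = P := by
  classical
  refine ⟨∑ m ∈ P.support, monomial m (⟨P.coeff m, h m⟩ : K), ?_⟩
  rw [map_sum]
  conv_rhs => rw [P.as_sum]
  refine Finset.sum_congr rfl fun m _ => ?_
  rw [map_monomial]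
  rfl

/-- the coefficient field of a finite set of polynomials -/
theorem exists_field {σ : Type} [Countable σ] (S : Finset (MvPolynomial σ ℂ)) :
    ∃ k : Subfield ℂ, Countable k ∧ ∀ P ∈ S, ∀ m, P.coeff m ∈ k := by
  classical
  set T : Set ℂ := ⋃ P ∈ S, ((P.coeffs : Finset ℂ) : Set ℂ) with hT
  have hTc : T.Countable := by
    refine Set.Countable.biUnion S.countable_toSet fun P _ => P.coeffs.countable_toSet
  have : Countable (⊥ : Subfield ℂ) := by
    have h2 := Subfield.cardinalMk_closure_le_max (∅ : Set ℂ)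
    rw [Subfield.closure_empty] at h2
    rw [← Cardinal.mk_le_aleph0_iff]
    refine h2.trans ?_
    simp
  refine ⟨adj ⊥ T, countable_adj hTc, fun P hP m => ?_⟩
  by_cases h0 : P.coeff m = 0
  · rw [h0]
    exact zero_mem _
  · refine subset_adj _ _ ?_
    rw [hT]
    simp only [Set.mem_iUnion]
    exact ⟨P, hP, coeff_mem_coeffs m h0⟩

theorem eval_eq_sum_comp {σ : Type} [Fintype σ] (P : MvPolynomial σ ℂ) (c : ℂ) (v : σ → ℂ) :
    eval (c • v) P = ∑ i ∈ Finset.range (P.totalDegree + 1),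
      c ^ i * eval v (homogeneousComponent i P) := by
  conv_lhs => rw [← sum_homogeneousComponent P, map_sum]
  exact Finset.sum_congr rfl fun i _ => eval_smul_hom (homogeneousComponent_isHomogeneous i P) c v

/-- polynomials vanishing on a cone: components -/
theorem comp_eq_zero {σ : Type} [Fintype σ] (P Q : MvPolynomial σ ℂ) (v : σ → ℂ)
    (h : ∀ c : ℂ, c ≠ 0 → eval (c • v) P * eval (c • v) Q = 0) :
    (∀ i ∈ Finset.range (P.totalDegree + 1), eval v (homogeneousComponent i P) = 0) ∨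
    (∀ i ∈ Finset.range (Q.totalDegree + 1), eval v (homogeneousComponent i Q) = 0) := by
  classical
  have key : ∀ R : MvPolynomial σ ℂ, ∃ p : Polynomial ℂ, (∀ c, p.eval c = eval (c • v) R) ∧
      (p = 0 → ∀ i ∈ Finset.range (R.totalDegree + 1),
        eval v (homogeneousComponent i R) = 0) := by
    intro R
    refine ⟨∑ i ∈ Finset.range (R.totalDegree + 1),
      Polynomial.C (eval v (homogeneousComponent i R)) * Polynomial.X ^ i, fun c => ?_,
      fun h0 i hi => ?_⟩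
    · rw [Polynomial.eval_finsetSum, eval_eq_sum_comp]
      refine Finset.sum_congr rfl fun i _ => ?_
      rw [Polynomial.eval_mul, Polynomial.eval_C, Polynomial.eval_pow, Polynomial.eval_X]
      exact mul_comm _ _
    · have h1 := congrArg (fun p => Polynomial.coeff p i) h0
      simp only [Polynomial.finsetSum_coeff, Polynomial.coeff_C_mul, Polynomial.coeff_X_pow,
        Polynomial.coeff_zero, mul_ite, mul_one, mul_zero] at h1
      rw [Finset.sum_ite_eq] at h1
      rwa [if_pos hi] at h1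
  obtain ⟨p, hp1, hp2⟩ := key P
  obtain ⟨q, hq1, hq2⟩ := key Q
  have hpq : p * q * Polynomial.X = 0 := by
    apply Polynomial.funext
    intro c
    by_cases hc : c = 0
    · simp [hc]
    · rw [Polynomial.eval_mul, Polynomial.eval_mul, hp1, hq1, h c hc]
      simp
  rcases mul_eq_zero.mp hpq with h1 | h1
  · rcases mul_eq_zero.mp h1 with h2 | h2
    · exact Or.inl (hp2 h2)
    · exact Or.inr (hq2 h2)
  · exact absurd h1 Polynomial.X_ne_zero

theorem cone_prime {r : ℕ} {X : Set (Pt r)} (hX : IsIrred X)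
    (P Q : MvPolynomial (Fin (r + 1)) ℂ) (h : ∀ v ∈ cone X, eval v P * eval v Q = 0) :
    (∀ v ∈ cone X, eval v P = 0) ∨ (∀ v ∈ cone X, eval v Q = 0) := by
  classical
  have key : ∀ R : MvPolynomial (Fin (r + 1)) ℂ, ∃ Y : Set (Pt r), IsClosedSet Y ∧
      (∀ x : Pt r, x ∈ Y ↔ ∀ i ∈ Finset.range (R.totalDegree + 1),
        eval x.rep (homogeneousComponent i R) = 0) := by
    intro R
    refine ⟨{x | ∀ i ∈ Finset.range (R.totalDegree + 1),
      eval x.rep (homogeneousComponent i R) = 0},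
      ⟨(Finset.range (R.totalDegree + 1)).image (fun i => homogeneousComponent i R), ?_, ?_⟩,
      fun x => Iff.rfl⟩
    · intro P hP
      rw [Finset.mem_image] at hP
      obtain ⟨i, -, rfl⟩ := hP
      exact ⟨i, homogeneousComponent_isHomogeneous i R⟩
    · intro x
      rw [Finset.forall_mem_image]
      rfl
  obtain ⟨Y, hYc, hY⟩ := key P
  obtain ⟨Z, hZc, hZ⟩ := key Q
  have hsub : X ⊆ Y ∪ Z := by
    intro x hx
    have h1 := comp_eq_zero P Q x.rep (fun c hc => h _ (smul_mem_cone hc (rep_mem_cone hx)))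
    rcases h1 with h1 | h1
    · exact Or.inl ((hY x).mpr h1)
    · exact Or.inr ((hZ x).mpr h1)
  have fin : ∀ (R : MvPolynomial (Fin (r + 1)) ℂ) (Y : Set (Pt r)),
      (∀ x : Pt r, x ∈ Y ↔ ∀ i ∈ Finset.range (R.totalDegree + 1),
        eval x.rep (homogeneousComponent i R) = 0) → X ⊆ Y → ∀ v ∈ cone X, eval v R = 0 := by
    rintro R Y hY hXY v ⟨hv, hvX⟩
    have h1 := (hY _).mp (hXY hvX)
    rw [← sum_homogeneousComponent R, map_sum]
    refine Finset.sum_eq_zero fun i hi => ?_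
    exact (eval_rep_iff (homogeneousComponent_isHomogeneous i R) v hv).mp (h1 i hi)
  rcases hX.2 Y Z hYc hZc hsub with h1 | h1
  · exact Or.inl (fin P Y hY h1)
  · exact Or.inr (fin Q Z hZ h1)

/-- The cone over a closed set is closed over a countable field. -/
theorem cone_closed {r : ℕ} {X : Set (Pt r)} (hX : IsClosedSet X) :
    ∃ k : Subfield ℂ, Countable k ∧ ∃ S : Set (MvPolynomial (Fin (r + 1)) k),
      ∀ v : Fin (r + 1) → ℂ, v ∈ cone X ↔ v ≠ 0 ∧ ∀ P ∈ S, aeval v P = 0 := by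
  obtain ⟨S, hS, hXS⟩ := hX
  obtain ⟨k, hk, hkS⟩ := exists_field S
  refine ⟨k, hk, {Q | MvPolynomial.map (algebraMap k ℂ) Q ∈ S}, fun v => ?_⟩
  have haev : ∀ Q : MvPolynomial (Fin (r + 1)) k,
      aeval v Q = eval v (MvPolynomial.map (algebraMap k ℂ) Q) := by
    intro Q
    rw [eval_map, aeval_def]
  constructor
  · rintro ⟨hv, hvX⟩
    refine ⟨hv, fun Q hQ => ?_⟩
    rw [haev]
    obtain ⟨d, hd⟩ := hS _ hQ
    exact (eval_rep_iff hd v hv).mp ((hXS _).mp hvX _ hQ)
  · rintro ⟨hv, hvS⟩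
    refine ⟨hv, (hXS _).mpr fun P hP => ?_⟩
    obtain ⟨d, hd⟩ := hS P hP
    rw [eval_rep_iff hd v hv]
    obtain ⟨Q, rfl⟩ := exists_lift (hkS P hP)
    rw [← haev]
    exact hvS Q hP

end Pool.Agent.Y148.OD
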