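import Pool.Agent.Y148.OD.Match

/-!
# Zero-cycles: orbits of generic families and the hyperplane section
-/

set_option autoImplicit false

namespace Pool.Agent.Y148.OD

open MvPolynomial

variable {Ω : Type} [Field Ω] {τ : Type} {A : Type} [AddCommGroup A]

/-- The class `cl v` of the point with the coordinate vector `v`: it does not depend on the
coordinate vector, and having the same sum of classes is stable under specialisation over `k`. -/
structure Cls (k : Subfield Ω) (V : Set (τ → Ω)) (cl : (τ → Ω) → A) : Prop where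
  ne_zero : ∀ v ∈ V, v ≠ 0
  smul_mem : ∀ (c : Ω) (v : τ → Ω), c ≠ 0 → v ∈ V → c • v ∈ V
  smul_cl : ∀ (c : Ω) (v : τ → Ω), c ≠ 0 → v ∈ V → cl (c • v) = cl v
  stab : ∀ (κ ι : Type) [Fintype κ] [Fintype ι], Fintype.card κ = Fintype.card ι →
    ∀ (z : κ → τ → Ω) (y : ι → τ → Ω) (z' : κ → τ → Ω) (y' : ι → τ → Ω),
      (∀ i, z i ∈ V) → (∀ i, y i ∈ V) → ∑ i, cl (z i) = ∑ i, cl (y i) →
      (∀ i, z' i ≠ 0) → (∀ i, y' i ≠ 0) →
      (∀ P : MvPolynomial ((κ ⊕ ι) × τ) k, aeval (fun p => Sum.elim z y p.1 p.2) P = 0 →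
        aeval (fun p => Sum.elim z' y' p.1 p.2) P = 0) →
      (∀ i, z' i ∈ V) ∧ (∀ i, y' i ∈ V) ∧ ∑ i, cl (z' i) = ∑ i, cl (y' i)

theorem rk_eq_zero {K : Subfield Ω} {S : Set Ω} (h : S ⊆ (K : Set Ω)) : rk K S = 0 := by
  have h1 : rk K S ≤ rk K ∅ := rk_le_of_isAlgebraic fun x hx =>
    (isAlgebraic_algebraMap (R := K) (A := Ω) ⟨x, h hx⟩).extendScalars
      (FaithfulSMul.algebraMap_injective K _)
  rw [rk_empty] at h1
  exact le_antisymm h1 zero_le

theorem countable_of_le {K L : Subfield Ω} (h : K ≤ L) (hL : Countable L) : Countable K :=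
  Function.Injective.countable (Subfield.inclusion h).injective

/-- Realising an orbit generically over a bigger field; the members outside `J` stay fixed. -/
theorem Cls.orbit_ext [IsAlgClosed Ω] [Uncountable Ω] [Finite τ] {k : Subfield Ω}
    {V : Set (τ → Ω)} {cl : (τ → Ω) → A} (hc : Cls k V cl) {κ ι : Type} [Fintype κ] [Fintype ι]
    (hcard : Fintype.card κ = Fintype.card ι) {K L : Subfield Ω} (hk : k ≤ K) (hKL : K ≤ L)
    (hL : Countable L) {u : κ → τ → Ω} (hu : ∀ i, u i ∈ V) (huK : ∀ i a, u i a ∈ K)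
    {y : ι → τ → Ω} (hy : ∀ i, y i ∈ V) (J : Set ι) (hyK : ∀ i ∉ J, ∀ a, y i a ∈ K)
    (hcl : ∑ i, cl (u i) = ∑ i, cl (y i)) :
    ∃ y' : ι → τ → Ω, (∀ i, y' i ∈ V) ∧ (∀ i ∉ J, y' i = y i) ∧
      ∑ i, cl (y' i) = ∑ i, cl (y i) ∧ rk K (cof J y) ≤ rk L (cof J y') := by
  obtain ⟨x, hx1, hx2⟩ := stmGeneric Ω (ι × τ) K L hKL hL (fun p => y p.1 p.2)
  set y' : ι → τ → Ω := fun i a => x (i, a) with hy'
  have hxy : x = fun p : ι × τ => y' p.1 p.2 := rfl
  have hout : ∀ i ∉ J, y' i = y i := by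
    intro i hi
    funext a
    have h1 := (hx1 (X (i, a) - C (⟨y i a, hyK i hi a⟩ : K))).mp (by
      rw [map_sub, aeval_X, aeval_C]
      exact sub_self _)
    rw [map_sub, aeval_X, aeval_C, sub_eq_zero] at h1
    exact h1
  have hne : ∀ i, y' i ≠ 0 := by
    intro i h0
    apply hc.ne_zero _ (hy i)
    funext a
    have h1 := (hx1 (X (i, a))).mpr (by
      rw [aeval_X]
      exact congrFun h0 a)
    rw [aeval_X] at h1
    exact h1
  obtain ⟨-, hV, hsum⟩ := hc.stab κ ι hcard u y u y' hu hy hcl (fun i => hc.ne_zero _ (hu i)) hne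
    (fun P hP => by
      obtain ⟨Q, hQ⟩ := exists_subst hk P (fun p : (κ ⊕ ι) × τ => match p.1 with
        | Sum.inl i => (Sum.inr ⟨u i p.2, huK i p.2⟩ : (ι × τ) ⊕ K)
        | Sum.inr i => Sum.inl (i, p.2))
      have h1 := (hx1 Q).mp (by
        rw [hQ, ← hP]
        congr 1
        congr 1
        funext p
        obtain ⟨i | i, a⟩ := p <;> rfl)
      rw [hQ] at h1
      rw [← h1]
      congr 1
      congr 1
      funext p
      obtain ⟨i | i, a⟩ := p <;> rfl)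
  refine ⟨y', hV, hout, by rw [← hsum, hcl], ?_⟩
  calc rk K (cof J y) ≤ rk K (coords y) := rk_mono _ (cof_subset_coords _ _)
    _ = rk L (coords y') := by rw [coords_eq_range y', ← hxy, hx2, ← coords_eq_range y]
    _ = rk L (cof (J ∪ Jᶜ) y') := by rw [Set.union_compl_self, cof_univ]
    _ ≤ rk L (cof J y') + rk L (cof Jᶜ y') := by
        rw [cof_union]
        exact rk_union_le _ _ _
    _ = rk L (cof J y') := by
        rw [rk_eq_zero (S := cof Jᶜ y'), add_zero]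
        rintro c ⟨i, hi, a, rfl⟩
        rw [hout i hi]
        exact hKL (hyK i hi a)

/-- **Moving a point of every zero-cycle onto a hyperplane section**, if the orbit of a generic
zero-cycle is positive-dimensional. -/
theorem exists_section_point [IsAlgClosed Ω] [Uncountable Ω] [Fintype τ] {k : Subfield Ω}
    {V : Set (τ → Ω)} {M : ℕ} (h : Setup k V M) {cl : (τ → Ω) → A} (hc : Cls k V cl) {ι : Type}
    [Fintype ι] {z y : ι → τ → Ω} (hz : ∀ i, z i ∈ V) (hy : ∀ i, y i ∈ V)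
    (hgen : ((M * Fintype.card ι : ℕ) : ℕ∞) ≤ rk k (coords z))
    (hcl : ∑ i, cl (z i) = ∑ i, cl (y i))
    (hr : (Fintype.card ι : ℕ∞) < rk (adj k (coords z)) (coords y)) (l : τ → Ω)
    (hl : ∀ a, l a ∈ k) {z₀ : ι → τ → Ω} (hz₀ : ∀ i, z₀ i ∈ V) :
    ∃ (i₀ : ι) (y₀ : ι → τ → Ω), (∀ i, y₀ i ∈ V) ∧ ∑ i, cl (z₀ i) = ∑ i, cl (y₀ i) ∧
      ∑ a, l a * y₀ i₀ a = 0 := by
  have hkc := h.countable
  set K := adj k (coords z) with hK
  have hKc : Countable K := countable_adj (countable_coords z)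
  have hkK : k ≤ K := le_adj_left _ _
  obtain ⟨i₀, c, y', hc0, hy'0, hrel, hl0⟩ := exists_move hKc (fun i => hc.ne_zero _ (hy i)) hr
    (fun a => ⟨l a, hkK (hl a)⟩)
  have hcy : ∀ i, (fun a => c i * y i a) ∈ V := fun i => hc.smul_mem (c i) (y i) (hc0 i) (hy i)
  have hclcy : ∀ i, cl (fun a => c i * y i a) = cl (y i) :=
    fun i => hc.smul_cl (c i) (y i) (hc0 i) (hy i)
  obtain ⟨-, hV, hsum⟩ := hc.stab ι ι rfl z (fun i a => c i * y i a) z y' hz hcy
    (by rw [hcl]; exact Finset.sum_congr rfl fun i _ => (hclcy i).symm)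
    (fun i => hc.ne_zero _ (hz i)) hy'0 (fun P hP => by
      obtain ⟨Q, hQ⟩ := exists_subst hkK P (fun p : (ι ⊕ ι) × τ => match p.1 with
        | Sum.inl i => (Sum.inr ⟨z i p.2, subset_adj _ _ ⟨i, p.2, rfl⟩⟩ : (ι × τ) ⊕ K)
        | Sum.inr i => Sum.inl (i, p.2))
      have h1 := hrel Q (by
        rw [hQ, ← hP]
        congr 1
        congr 1
        funext p
        obtain ⟨i | i, a⟩ := p <;> rfl)
      rw [hQ] at h1
      rw [← h1]
      congr 1
      congr 1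
      funext p
      obtain ⟨i | i, a⟩ := p <;> rfl)
  obtain ⟨y₀, hy₀0, hW⟩ := h.specialise
    (fun (z y : ι → τ → Ω) => (∀ i, z i ∈ V) ∧ (∀ i, y i ∈ V) ∧
      ∑ i, cl (z i) = ∑ i, cl (y i) ∧ ∑ a, l a * y i₀ a = 0)
    (fun z y z' y' hzy hz' hy' hP => by
      obtain ⟨h1, h2, h3, h4⟩ := hzy
      obtain ⟨e1, e2, e3⟩ := hc.stab ι ι rfl z y z' y' h1 h2 h3 hz' hy' hP
      refine ⟨e1, e2, e3, ?_⟩
      have h5 := hP (∑ a, C (⟨l a, hl a⟩ : k) * X (Sum.inr i₀, a)) (by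
        rw [map_sum, ← h4]
        refine Finset.sum_congr rfl fun a _ => ?_
        rw [map_mul, aeval_C, aeval_X]
        rfl)
      rw [map_sum] at h5
      rw [← h5]
      refine Finset.sum_congr rfl fun a _ => ?_
      rw [map_mul, aeval_C, aeval_X]
      rfl)
    (fun z y c hc' hzy => by
      obtain ⟨h1, h2, h3, h4⟩ := hzy
      refine ⟨h1, fun i => hc.smul_mem (c i) (y i) (hc' i) (h2 i), ?_, ?_⟩
      · rw [h3]
        exact Finset.sum_congr rfl fun i _ => (hc.smul_cl (c i) (y i) (hc' i) (h2 i)).symm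
      · have : ∑ a, l a * (c i₀ * y i₀ a) = c i₀ * ∑ a, l a * y i₀ a := by
          rw [Finset.mul_sum]
          exact Finset.sum_congr rfl fun a _ => by ring
        rw [this, h4, mul_zero])
    hz hgen hy'0 ⟨hz, hV, hsum, hl0⟩ hz₀
  exact ⟨i₀, y₀, hW.2.1, hW.2.2.1, hW.2.2.2⟩

/-- The classes of the effective zero-cycles of degree `n` on `V`. -/
def Eff (V : Set (τ → Ω)) (cl : (τ → Ω) → A) (n : ℕ) : Set A :=
  {a | ∃ z : Fin n → τ → Ω, (∀ i, z i ∈ V) ∧ a = ∑ i, cl (z i)}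

/-- The hyperplane section `l = 0` of `V`. -/
def Sec [Fintype τ] (V : Set (τ → Ω)) (l : τ → Ω) : Set (τ → Ω) :=
  {v | v ∈ V ∧ ∑ a, l a * v a = 0}

theorem eff_add {V : Set (τ → Ω)} {cl : (τ → Ω) → A} {m n : ℕ} {a b : A} (ha : a ∈ Eff V cl m)
    (hb : b ∈ Eff V cl n) : a + b ∈ Eff V cl (m + n) := by
  obtain ⟨z, hz, rfl⟩ := ha
  obtain ⟨y, hy, rfl⟩ := hb
  refine ⟨Fin.append z y, fun i => ?_, ?_⟩
  · refine Fin.addCases (fun i => ?_) (fun i => ?_) i
    · rw [Fin.append_left]; exact hz i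
    · rw [Fin.append_right]; exact hy i
  · rw [Fin.sum_univ_add]
    simp

theorem eff_one {V : Set (τ → Ω)} {cl : (τ → Ω) → A} {v : τ → Ω} (hv : v ∈ V) :
    cl v ∈ Eff V cl 1 := ⟨fun _ => v, fun _ => hv, by simp⟩

theorem eff_succ {V : Set (τ → Ω)} {cl : (τ → Ω) → A} {n : ℕ} {a : A}
    (ha : a ∈ Eff V cl (n + 1)) : ∃ v ∈ V, ∃ b ∈ Eff V cl n, a = cl v + b := by
  obtain ⟨z, hz, rfl⟩ := ha
  exact ⟨z 0, hz 0, ∑ i : Fin n, cl (z i.succ), ⟨fun i => z i.succ, fun i => hz _, rfl⟩,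
    Fin.sum_univ_succ _⟩

theorem eff_sum {V : Set (τ → Ω)} {cl : (τ → Ω) → A} {ι : Type} [Fintype ι] {z : ι → τ → Ω}
    (hz : ∀ i, z i ∈ V) : ∑ i, cl (z i) ∈ Eff V cl (Fintype.card ι) := by
  refine ⟨fun i => z ((Fintype.equivFin ι).symm i), fun i => hz _, ?_⟩
  exact (Equiv.sum_comp (Fintype.equivFin ι).symm (fun i => cl (z i))).symm

/-- Iterated moving of points onto the hyperplane section. -/
theorem eff_section [Fintype τ] {V : Set (τ → Ω)} {cl : (τ → Ω) → A} {l : τ → Ω} {p : ℕ}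
    (h : ∀ a ∈ Eff V cl (p + 1), ∃ v ∈ Sec V l, ∃ b ∈ Eff V cl p, a = cl v + b) (s : ℕ) :
    ∀ a ∈ Eff V cl (s + p), ∃ b ∈ Eff (Sec V l) cl s, ∃ b' ∈ Eff V cl p, a = b + b' := by
  induction s with
  | zero =>
    intro a ha
    rw [zero_add] at ha
    exact ⟨0, ⟨Fin.elim0, fun i => i.elim0, by simp⟩, a, ha, (zero_add a).symm⟩
  | succ s ih =>
    intro a ha
    have e : s + 1 + p = s + p + 1 := by omega
    rw [e] at ha
    obtain ⟨v, hv, b, hb, rfl⟩ := eff_succ ha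
    obtain ⟨b₁, hb₁, b₂, hb₂, rfl⟩ := ih b hb
    have h1 : cl v + b₂ ∈ Eff V cl (p + 1) := by
      rw [add_comm p 1]
      exact eff_add (eff_one hv) hb₂
    obtain ⟨w, hw, b₃, hb₃, h2⟩ := h _ h1
    refine ⟨b₁ + cl w, eff_add hb₁ (eff_one hw), b₃, hb₃, ?_⟩
    calc cl v + (b₁ + b₂) = b₁ + (cl v + b₂) := by abel
      _ = b₁ + (cl w + b₃) := by rw [h2]
      _ = b₁ + cl w + b₃ := by abel

end Pool.Agent.Y148.OD
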