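import Pool.Agent.Y148.OD.Core

/-!
# Zero-cycles: finite-dimensionality from one moving generic zero-cycle
-/

set_option autoImplicit false

namespace Pool.Agent.Y148.OD

open MvPolynomial

variable {Ω : Type} [Field Ω] {τ : Type} {A : Type} [AddCommGroup A]

/-- A generic zero-cycle moves in a positive-dimensional family of effective zero-cycles of the same
class. -/
def GenMove (k : Subfield Ω) (V : Set (τ → Ω)) (M : ℕ) (cl : (τ → Ω) → A) (p : ℕ) : Prop :=
  ∃ z y : Fin (p + 1) → τ → Ω, (∀ i, z i ∈ V) ∧ (∀ i, y i ∈ V) ∧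
    ∑ i, cl (z i) = ∑ i, cl (y i) ∧ ((M * (p + 1) : ℕ) : ℕ∞) ≤ rk k (coords z) ∧
    ((p + 1 : ℕ) : ℕ∞) < rk (adj k (coords z)) (coords y)

/-- Existence of generic families. -/
theorem Setup.exists_family {k : Subfield Ω} {V : Set (τ → Ω)} {M : ℕ} (h : Setup k V M)
    [Countable τ] {L : Subfield Ω} (hL : Countable L) (n : ℕ) :
    ∃ z : Fin n → τ → Ω, (∀ i, z i ∈ V) ∧ ((M * n : ℕ) : ℕ∞) ≤ rk L (coords z) := by
  induction n with
  | zero => exact ⟨Fin.elim0, fun i => i.elim0, by simp⟩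
  | succ n ih =>
    obtain ⟨z, hz, hr⟩ := ih
    have hLc : Countable (adj L (coords z)) := countable_adj (countable_coords z)
    obtain ⟨v, hv, hvr⟩ := h.lower _ hLc
    refine ⟨Fin.cons v z, fun i => ?_, ?_⟩
    · refine Fin.cases ?_ (fun i => ?_) i
      · exact hv
      · exact hz i
    · have h1 : coords (Fin.cons v z : Fin (n + 1) → τ → Ω) = Set.range v ∪ coords z := by
        ext c
        constructor
        · rintro ⟨i, a, ha⟩
          revert ha
          refine Fin.cases (fun ha => ?_) (fun i ha => ?_) i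
          · exact Or.inl ⟨a, ha.symm⟩
          · exact Or.inr ⟨i, a, ha⟩
        · rintro (⟨a, ha⟩ | ⟨i, a, ha⟩)
          · exact ⟨0, a, ha.symm⟩
          · exact ⟨i.succ, a, ha⟩
      rw [h1, rk_union]
      calc ((M * (n + 1) : ℕ) : ℕ∞) = ((M * n : ℕ) : ℕ∞) + (M : ℕ∞) := by
            push_cast
            ring
        _ ≤ _ := add_le_add hr hvr

theorem coords_comp_equiv {κ ι : Type} (e : κ ≃ ι) (y : ι → τ → Ω) :
    coords (fun i => y (e i)) = coords y := by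
  ext c
  constructor
  · rintro ⟨i, a, ha⟩
    exact ⟨e i, a, ha⟩
  · rintro ⟨i, a, ha⟩
    exact ⟨e.symm i, a, by simpa using ha⟩

theorem coords_sum_elim {κ ι : Type} (z : κ → τ → Ω) (y : ι → τ → Ω) :
    coords (Sum.elim z y) = coords z ∪ coords y := by
  ext c
  constructor
  · rintro ⟨i | i, a, ha⟩
    · exact Or.inl ⟨i, a, ha⟩
    · exact Or.inr ⟨i, a, ha⟩
  · rintro (⟨i, a, ha⟩ | ⟨i, a, ha⟩)
    · exact ⟨Sum.inl i, a, ha⟩
    · exact ⟨Sum.inr i, a, ha⟩

theorem rk_coords_le [IsAlgClosed Ω] [Uncountable Ω] [Finite τ] {k : Subfield Ω}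
    {V : Set (τ → Ω)} {M : ℕ} (h : Setup k V M) {ι : Type} [Fintype ι] {y : ι → τ → Ω}
    (hy : ∀ i, y i ∈ V) : rk k (coords y) ≤ ((M * Fintype.card ι : ℕ) : ℕ∞) := by
  classical
  rw [← cof_univ, ← Finset.coe_univ]
  have h1 := rk_cof_le (K := k) (y := y) (b := M) Finset.univ
    (fun i _ => (h.point le_rfl h.countable).1 _ (hy i))
  rwa [Finset.card_univ] at h1

/-- Effective zero-cycles of degree `p + 1` can be moved so that a point is on a given hyperplane
section. -/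
theorem eff_move [IsAlgClosed Ω] [Uncountable Ω] [Fintype τ] {k : Subfield Ω}
    {V : Set (τ → Ω)} {M : ℕ} (h : Setup k V M) {cl : (τ → Ω) → A} (hc : Cls k V cl) {p : ℕ}
    (hgen : GenMove k V M cl p) (l : τ → Ω) (hl : ∀ a, l a ∈ k) :
    ∀ a ∈ Eff V cl (p + 1), ∃ v ∈ Sec V l, ∃ b ∈ Eff V cl p, a = cl v + b := by
  rintro a ⟨z₀, hz₀, rfl⟩
  obtain ⟨z, y, hz, hy, hcl, hr1, hr2⟩ := hgen
  obtain ⟨i₀, y₀, hy₀, hsum, hl0⟩ := exists_section_point h hc hz hy (by simpa using hr1) hcl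
    (by simpa using hr2) l hl hz₀
  refine ⟨y₀ i₀, ⟨hy₀ i₀, hl0⟩, ∑ j, cl (y₀ (i₀.succAbove j)), ⟨fun j => y₀ (i₀.succAbove j),
    fun j => hy₀ _, rfl⟩, ?_⟩
  rw [hsum]
  exact Fin.sum_univ_succAbove _ i₀

/-- Generic zero-cycles of large degree move in families of almost maximal dimension, if the class
group of the hyperplane section `l = 0` is finite-dimensional. -/
theorem exists_big_orbit [IsAlgClosed Ω] [Uncountable Ω] [Fintype τ] {k : Subfield Ω}
    {V : Set (τ → Ω)} {M : ℕ} (h : Setup k V M) {cl : (τ → Ω) → A} (hc : Cls k V cl) {p : ℕ}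
    (hgen : GenMove k V M cl p) {l : τ → Ω} (hl : ∀ a, l a ∈ k) {o : τ → Ω} (ho : o ∈ V)
    (hok : ∀ a, o a ∈ k) {g : ℕ}
    (hRR : ∀ n, ∀ b ∈ Eff (Sec V l) cl n, ∃ b' ∈ Eff V cl g, b + g • cl o = b' + n • cl o)
    {m : ℕ} (hm : g + p ≤ m) {z : Fin m → τ → Ω} (hz : ∀ i, z i ∈ V)
    (hzr : ((M * m : ℕ) : ℕ∞) ≤ rk k (coords z)) :
    ∃ y : Fin m → τ → Ω, (∀ i, y i ∈ V) ∧ ∑ i, cl (y i) = ∑ i, cl (z i) ∧
      ((M * (m - (g + p)) : ℕ) : ℕ∞) ≤ rk (adj k (coords z)) (coords y) := by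
  classical
  obtain ⟨d, rfl⟩ : ∃ d, m = (g + d) + p := ⟨m - (g + p), by omega⟩
  obtain ⟨b, hb, a', ha', hsum⟩ := eff_section (eff_move h hc hgen l hl) (g + d) _
    ⟨z, hz, rfl⟩
  obtain ⟨b', hb', hbb⟩ := hRR _ b hb
  have hb2 : b = b' + d • cl o := by
    have : b + g • cl o = (b' + d • cl o) + g • cl o := by
      rw [hbb, add_smul]
      abel
    exact add_right_cancel this
  obtain ⟨x, hx, rfl⟩ := hb'
  obtain ⟨w, hw, rfl⟩ := ha'
  set u : (Fin g ⊕ Fin p) ⊕ Fin d → τ → Ω := Sum.elim (Sum.elim x w) (fun _ => o) with hu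
  have huV : ∀ i, u i ∈ V := by
    rintro ((i | i) | i)
    · exact hx i
    · exact hw i
    · exact ho
  have hxwV : ∀ i, (Sum.elim x w : Fin g ⊕ Fin p → τ → Ω) i ∈ V := by
    rintro (i | i)
    · exact hx i
    · exact hw i
  have husum : ∑ i, cl (u i) = ∑ i, cl (z i) := by
    rw [hsum, hb2, Fintype.sum_sum_type, Fintype.sum_sum_type]
    simp only [hu, Sum.elim_inl, Sum.elim_inr, Finset.sum_const, Finset.card_univ,
      Fintype.card_fin]
    abel
  have hkc := h.countable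
  set K := adj k (coords u) with hK
  have hKc : Countable K := countable_adj (countable_coords u)
  set L := adj K (coords z) with hL
  have hLc : Countable L := countable_adj (countable_coords z)
  have hru : rk k (coords u) ≤ ((M * (g + p) : ℕ) : ℕ∞) := by
    rw [hu, coords_sum_elim]
    refine (rk_union_le _ _ _).trans ?_
    rw [rk_eq_zero (S := coords (fun _ : Fin d => o)), add_zero]
    · refine (rk_coords_le h hxwV).trans ?_
      simp
    · rintro c ⟨i, a, rfl⟩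
      exact hok a
  have hrz : ((M * d : ℕ) : ℕ∞) ≤ rk K (coords z) := by
    have h1 : ((M * (g + d + p) : ℕ) : ℕ∞) ≤ rk k (coords u) + rk K (coords z) := by
      rw [hK, ← rk_adj_union]
      exact hzr.trans (rk_mono _ Set.subset_union_right)
    refine cancel_aux (p := M * (g + p)) ?_ hru
    have : M * (g + p) + M * d = M * (g + d + p) := by ring
    rw [this]
    exact h1
  obtain ⟨y, hy, -, hysum, hyr⟩ := hc.orbit_ext (κ := (Fin g ⊕ Fin p) ⊕ Fin d)
    (ι := Fin (g + d + p)) (by simp; omega) (le_adj_left k (coords u)) (le_adj_left K (coords z))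
    hLc huV (fun i a => subset_adj _ _ ⟨i, a, rfl⟩) hz Set.univ
    (fun i hi => absurd (Set.mem_univ i) hi) husum
  refine ⟨y, hy, hysum, ?_⟩
  have e : g + d + p - (g + p) = d := by omega
  rw [e]
  rw [cof_univ, cof_univ] at hyr
  refine hrz.trans (hyr.trans (rk_anti ?_ _))
  exact adj_le ((le_adj_left k (coords u)).trans (le_adj_left K (coords z))) (subset_adj _ _)

/-- **Every zero-cycle of large degree moves in a family of almost maximal dimension.** -/
theorem exists_big_fibre [IsAlgClosed Ω] [Uncountable Ω] [Fintype τ] {k : Subfield Ω}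
    {V : Set (τ → Ω)} {M : ℕ} (h : Setup k V M) (hM : 1 ≤ M) {cl : (τ → Ω) → A}
    (hc : Cls k V cl) {p : ℕ}
    (hgen : GenMove k V M cl p) {l : τ → Ω} (hl : ∀ a, l a ∈ k) {o : τ → Ω} (ho : o ∈ V)
    (hok : ∀ a, o a ∈ k) {g : ℕ}
    (hRR : ∀ n, ∀ b ∈ Eff (Sec V l) cl n, ∃ b' ∈ Eff V cl g, b + g • cl o = b' + n • cl o)
    {m : ℕ} (hm : g + p ≤ m) {z₀ : Fin m → τ → Ω} (hz₀ : ∀ i, z₀ i ∈ V) {L : Subfield Ω}
    (hL : Countable L) :
    ∃ y : Fin m → τ → Ω, (∀ i, y i ∈ V) ∧ ∑ i, cl (y i) = ∑ i, cl (z₀ i) ∧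
      ((M * m : ℕ) : ℕ∞) ≤ rk L (coords y) + ((M * (M * (g + p)) : ℕ) : ℕ∞) := by
  classical
  obtain ⟨z, hz, hzr⟩ := h.exists_family h.countable m
  obtain ⟨y, hy, hysum, hyr⟩ := exists_big_orbit h hc hgen hl ho hok hRR hm hz hzr
  have hkc := h.countable
  set K := adj k (coords z) with hK
  have hKc : Countable K := countable_adj (countable_coords z)
  obtain ⟨J, -, hJ1, -, hJ2⟩ := exists_max h hM (le_adj_left k (coords z)) hKc hy Finset.univ
  have hJcard : m ≤ M * (g + p) + J.card := by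
    rw [Finset.coe_univ, cof_univ, Finset.card_univ, Fintype.card_fin] at hJ2
    have h1 : ((M * (m - (g + p)) : ℕ) : ℕ∞) ≤ (((M - 1) * m + J.card : ℕ) : ℕ∞) :=
      hyr.trans hJ2
    have h2 : M * (m - (g + p)) ≤ (M - 1) * m + J.card := by exact_mod_cast h1
    obtain ⟨q, rfl⟩ : ∃ q, M = q + 1 := ⟨M - 1, by omega⟩
    obtain ⟨d, rfl⟩ : ∃ d, m = g + p + d := ⟨m - (g + p), by omega⟩
    simp only [Nat.add_sub_cancel_left, Nat.add_sub_cancel] at h2
    nlinarith
  -- specialise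
  let κ : Type := Fin m ⊕ {i : Fin m // i ∈ J}
  let ι : Type := {i : Fin m // ¬ i ∈ J}
  let e : {i : Fin m // i ∈ J} ⊕ {i : Fin m // ¬ i ∈ J} ≃ Fin m := Equiv.sumCompl (· ∈ J)
  let W : (κ → τ → Ω) → (ι → τ → Ω) → Prop := fun zu t =>
    (∀ i, zu i ∈ V) ∧ (∀ i, t i ∈ V) ∧
      ∑ i : Fin m, cl (zu (Sum.inl i)) =
        ∑ i, cl ((Sum.elim (fun i => zu (Sum.inr i)) t :
          {i : Fin m // i ∈ J} ⊕ {i : Fin m // ¬ i ∈ J} → τ → Ω) i)
  have hcardJ : Fintype.card {i : Fin m // i ∈ J} = J.card := Fintype.card_coe J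
  have hWst : ∀ (zu : κ → τ → Ω) (t : ι → τ → Ω) (zu' : κ → τ → Ω) (t' : ι → τ → Ω), W zu t →
      (∀ i, zu' i ≠ 0) → (∀ i, t' i ≠ 0) →
      (∀ P : MvPolynomial ((κ ⊕ ι) × τ) k, aeval (fun p => Sum.elim zu t p.1 p.2) P = 0 →
        aeval (fun p => Sum.elim zu' t' p.1 p.2) P = 0) → W zu' t' := by
    rintro zu t zu' t' ⟨h1, h2, h3⟩ h4 h5 h6
    obtain ⟨e1, e2, e3⟩ := hc.stab (Fin m) ({i : Fin m // i ∈ J} ⊕ {i : Fin m // ¬ i ∈ J})
      (Fintype.card_congr e.symm) (fun i => zu (Sum.inl i))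
      (Sum.elim (fun i => zu (Sum.inr i)) t) (fun i => zu' (Sum.inl i))
      (Sum.elim (fun i => zu' (Sum.inr i)) t') (fun i => h1 _)
      (by rintro (i | i); exacts [h1 _, h2 _]) h3 (fun i => h4 _)
      (by rintro (i | i); exacts [h4 _, h5 _])
      (fun P hP => by
        have h7 := h6 (rename (fun q : (Fin m ⊕ ({i : Fin m // i ∈ J} ⊕
            {i : Fin m // ¬ i ∈ J})) × τ => (((Equiv.sumAssoc _ _ _).symm q.1 : κ ⊕ ι), q.2)) P)
        rw [aeval_rename, aeval_rename] at h7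
        have h8 := h7 (by
          rw [← hP]
          congr 1
          congr 1
          funext q
          obtain ⟨i | i | i, a⟩ := q <;> rfl)
        rw [← h8]
        congr 1
        congr 1
        funext q
        obtain ⟨i | i | i, a⟩ := q <;> rfl)
    refine ⟨?_, fun i => e2 (Sum.inr i), e3⟩
    rintro (i | i)
    · exact e1 i
    · exact e2 (Sum.inl i)
  have hWsc : ∀ (zu : κ → τ → Ω) (t : ι → τ → Ω) (c : ι → Ω), (∀ i, c i ≠ 0) → W zu t →
      W zu (fun i a => c i * t i a) := by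
    rintro zu t c hc0 ⟨h1, h2, h3⟩
    refine ⟨h1, fun i => hc.smul_mem (c i) (t i) (hc0 i) (h2 i), ?_⟩
    rw [h3, Fintype.sum_sum_type, Fintype.sum_sum_type]
    congr 1
    exact Finset.sum_congr rfl fun i _ => (hc.smul_cl (c i) (t i) (hc0 i) (h2 i)).symm
  obtain ⟨n₀, hn₀⟩ : ∃ n₀, n₀ = J.card := ⟨_, rfl⟩
  obtain ⟨u₁, hu₁, hu₁r⟩ := h.exists_family hL J.card
  let e' : {i : Fin m // i ∈ J} ≃ Fin J.card :=
    (Fintype.equivFin _).trans (finCongr hcardJ)
  let u₀ : {i : Fin m // i ∈ J} → τ → Ω := fun i => u₁ (e' i)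
  have hgenr : ((M * Fintype.card κ : ℕ) : ℕ∞) ≤
      rk k (coords (Sum.elim z (fun i : {i : Fin m // i ∈ J} => y i) : κ → τ → Ω)) := by
    rw [coords_sum_elim, rk_adj_union]
    have h1 : Fintype.card κ = m + J.card := by
      rw [Fintype.card_sum, Fintype.card_fin, hcardJ]
    have h2 : coords (fun i : {i : Fin m // i ∈ J} => y i) = cof (J : Set (Fin m)) y := by
      ext c
      constructor
      · rintro ⟨i, a, ha⟩
        exact ⟨i, i.2, a, ha⟩
      · rintro ⟨i, hi, a, ha⟩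
        exact ⟨⟨i, hi⟩, a, ha⟩
    rw [h1, h2]
    calc ((M * (m + J.card) : ℕ) : ℕ∞) = ((M * m : ℕ) : ℕ∞) + ((M * J.card : ℕ) : ℕ∞) := by
          push_cast
          ring
      _ ≤ _ := add_le_add hzr hJ1
  obtain ⟨t₀, -, ht₀⟩ := h.specialise W hWst hWsc
    (z := Sum.elim z (fun i : {i : Fin m // i ∈ J} => y i))
    (by rintro (i | i); exacts [hz i, hy i]) hgenr
    (y := fun i : {i : Fin m // ¬ i ∈ J} => y i) (fun i => hc.ne_zero _ (hy i))
    ⟨by rintro (i | i); exacts [hz i, hy i], fun i => hy i, by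
      show ∑ i : Fin m, cl (z i) = _
      rw [← hysum, ← Equiv.sum_comp e (fun i => cl (y i))]
      refine Finset.sum_congr rfl fun i _ => ?_
      rcases i with i | i <;> rfl⟩
    (z₀ := Sum.elim z₀ u₀) (by rintro (i | i); exacts [hz₀ i, hu₁ _])
  obtain ⟨h1, h2, h3⟩ := ht₀
  have hut : ∀ i, Sum.elim u₀ t₀ i ∈ V := by
    rintro (i | i)
    · exact hu₁ _
    · exact h2 i
  refine ⟨fun i => Sum.elim u₀ t₀ (e.symm i), fun i => hut _, ?_, ?_⟩
  · rw [Equiv.sum_comp e.symm (fun i => cl (Sum.elim u₀ t₀ i))]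
    exact h3.symm
  · rw [coords_comp_equiv, coords_sum_elim]
    have h4 : ((M * J.card : ℕ) : ℕ∞) ≤ rk L (coords u₀ ∪ coords t₀) := by
      refine le_trans ?_ (rk_mono _ Set.subset_union_left)
      have : coords u₀ = coords u₁ := coords_comp_equiv e' u₁
      rw [this]
      exact hu₁r
    calc ((M * m : ℕ) : ℕ∞) ≤ ((M * (J.card) + M * (M * (g + p)) : ℕ) : ℕ∞) := by
          have : M * m ≤ M * J.card + M * (M * (g + p)) := by
            have := Nat.mul_le_mul_left M hJcard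
            linarith
          exact_mod_cast this
      _ = ((M * J.card : ℕ) : ℕ∞) + ((M * (M * (g + p)) : ℕ) : ℕ∞) := by push_cast; rfl
      _ ≤ _ := add_le_add h4 le_rfl

end Pool.Agent.Y148.OD
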