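import Pool.Agent.Y148.OD.Core2

/-!
# Zero-cycles: the equivalences
-/

set_option autoImplicit false

namespace Pool.Agent.Y148.OD

open MvPolynomial

variable {Ω : Type} [Field Ω] {τ : Type} {A : Type} [AddCommGroup A]

/-- The set of the families in `V` with the same sum of classes as `z` contains, over each countable
field, a family of transcendence degree at least `r`. -/
def Big (V : Set (τ → Ω)) (cl : (τ → Ω) → A) {m : ℕ} (z : Fin m → τ → Ω) (r : ℕ) : Prop :=
  ∀ L : Subfield Ω, Countable L → ∃ y : Fin m → τ → Ω, (∀ i, y i ∈ V) ∧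
    ∑ i, cl (y i) = ∑ i, cl (z i) ∧ (r : ℕ∞) ≤ rk L (coords y)

/-- A large orbit gives a moving generic zero-cycle. -/
theorem genMove_of_large [IsAlgClosed Ω] [Uncountable Ω] [Finite τ] {k : Subfield Ω}
    {V : Set (τ → Ω)} {M : ℕ} (h : Setup k V M) (hM : 3 ≤ M) {cl : (τ → Ω) → A}
    (hc : Cls k V cl) {n : ℕ} {z : Fin n → τ → Ω} (hz : ∀ i, z i ∈ V)
    (hbig : Big V cl z ((M - 1) * n + 1)) : ∃ p, GenMove k V M cl p := by
  classical
  have hkc := h.countable
  set K := adj k (coords z) with hK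
  have hKc : Countable K := countable_adj (countable_coords z)
  have hkK : k ≤ K := le_adj_left _ _
  obtain ⟨y, hy, hysum, hyr⟩ := hbig K hKc
  obtain ⟨J, hJ1, hJ2⟩ := exists_moving h hM hkK hKc hy (by simpa using hyr)
  set K' := adj K (cof ((Jᶜ : Finset (Fin n)) : Set (Fin n)) y) with hK'
  have hK'c : Countable K' := countable_adj ((countable_coords y).mono (cof_subset_coords _ _))
  set L := adj K' (coords y) with hL
  have hLc : Countable L := countable_adj (countable_coords y)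
  have hKK' : K ≤ K' := le_adj_left _ _
  have hK'L : K' ≤ L := le_adj_left _ _
  obtain ⟨y', hy', hout, hsum', hr'⟩ := hc.orbit_ext (κ := Fin n) (ι := Fin n) rfl
    (hkK.trans hKK') hK'L hLc hz (fun i a => hKK' (subset_adj _ _ ⟨i, a, rfl⟩)) hy
    (J : Set (Fin n)) (fun i hi a => subset_adj _ _ ⟨i, by
      rw [Finset.mem_coe, Finset.mem_compl]
      exact hi, a, rfl⟩) hysum.symm
  have hJ0 : J.card ≠ 0 := by
    intro h0
    rw [Finset.card_eq_zero] at h0
    rw [h0] at hJ2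
    rw [Finset.coe_empty, cof_empty, rk_empty] at hJ2
    simp at hJ2
  obtain ⟨p, hp⟩ : ∃ p, J.card = p + 1 := ⟨J.card - 1, by omega⟩
  have hcardJ : Fintype.card {i : Fin n // i ∈ J} = J.card := Fintype.card_coe J
  let e : Fin (p + 1) ≃ {i : Fin n // i ∈ J} :=
    ((Fintype.equivFin _).trans (finCongr (hcardJ.trans hp))).symm
  have hcof : ∀ x : Fin n → τ → Ω, coords (fun i => x (e i)) = cof (J : Set (Fin n)) x := by
    intro x
    rw [coords_comp_equiv e (fun i => x i)]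
    ext c
    constructor
    · rintro ⟨i, a, ha⟩
      exact ⟨i, i.2, a, ha⟩
    · rintro ⟨i, hi, a, ha⟩
      exact ⟨⟨i, hi⟩, a, ha⟩
  have hsumJ : ∀ x : Fin n → τ → Ω, ∑ i, cl (x (e i)) = ∑ i ∈ J, cl (x i) := by
    intro x
    rw [Equiv.sum_comp e (fun i => cl (x i))]
    exact Finset.sum_coe_sort J (fun i => cl (x i))
  refine ⟨p, fun i => y (e i), fun i => y' (e i), fun i => hy _, fun i => hy' _, ?_, ?_, ?_⟩
  · rw [hsumJ, hsumJ]
    have h1 : ∑ i ∈ J, cl (y' i) + ∑ i ∈ Jᶜ, cl (y' i) = ∑ i ∈ J, cl (y i) +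
        ∑ i ∈ Jᶜ, cl (y i) := by
      rw [Finset.sum_add_sum_compl, Finset.sum_add_sum_compl, hsum']
    have h2 : ∑ i ∈ Jᶜ, cl (y' i) = ∑ i ∈ Jᶜ, cl (y i) := by
      refine Finset.sum_congr rfl fun i hi => ?_
      rw [hout i (by rw [Finset.mem_compl] at hi; exact hi)]
    rw [h2] at h1
    exact (add_right_cancel h1).symm
  · rw [hcof, ← hp]
    exact hJ1.trans (rk_anti hkK _)
  · rw [hcof, hcof]
    have h1 : ((J.card + 1 : ℕ) : ℕ∞) ≤ rk (adj k (cof (J : Set (Fin n)) y))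
        (cof (J : Set (Fin n)) y') := by
      refine hJ2.trans (hr'.trans (rk_anti ?_ _))
      exact adj_le ((hkK.trans hKK').trans hK'L)
        ((cof_subset_coords _ _).trans (subset_adj _ _))
    rw [hp] at h1
    refine lt_of_lt_of_le ?_ h1
    exact_mod_cast Nat.lt_succ_self _

/-- If every zero-cycle of degree `n` moves, then a generic one moves. -/
theorem genMove_of_all {k : Subfield Ω} [Countable τ]
    {V : Set (τ → Ω)} {M : ℕ} (h : Setup k V M) {cl : (τ → Ω) → A} {n : ℕ}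
    (hbig : ∀ z : Fin n → τ → Ω, (∀ i, z i ∈ V) → Big V cl z (n + 1)) :
    ∃ p, GenMove k V M cl p := by
  have hkc := h.countable
  obtain ⟨z, hz, hzr⟩ := h.exists_family hkc n
  have hKc : Countable (adj k (coords z)) := countable_adj (countable_coords z)
  obtain ⟨y, hy, hysum, hyr⟩ := hbig z hz (adj k (coords z)) hKc
  rcases n with _ | p
  · exfalso
    have h1 : coords y = ∅ := by
      ext c
      constructor
      · rintro ⟨i, -⟩
        exact i.elim0
      · intro hc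
        exact hc.elim
    rw [h1, rk_empty] at hyr
    simp at hyr
  · refine ⟨p, z, y, hz, hy, hysum.symm, hzr, ?_⟩
    refine lt_of_lt_of_le ?_ hyr
    exact_mod_cast Nat.lt_succ_self _

/-- **The equivalences.** -/
theorem main_tfae [IsAlgClosed Ω] [Uncountable Ω] [Fintype τ] {k : Subfield Ω}
    {V : Set (τ → Ω)} {M : ℕ} (h : Setup k V M) (hM : 3 ≤ M) {cl : (τ → Ω) → A}
    (hc : Cls k V cl) {l : τ → Ω} (hl : ∀ a, l a ∈ k) {o : τ → Ω} (ho : o ∈ V)
    (hok : ∀ a, o a ∈ k) {g : ℕ}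
    (hRR : ∀ n, ∀ b ∈ Eff (Sec V l) cl n, ∃ b' ∈ Eff V cl g, b + g • cl o = b' + n • cl o) :
    List.TFAE
      [∃ c : ℕ, ∀ (m : ℕ) (z : Fin m → τ → Ω), (∀ i, z i ∈ V) → Big V cl z (M * m - c),
       ∃ m : ℕ, ∀ z : Fin m → τ → Ω, (∀ i, z i ∈ V) → Big V cl z (m + 1),
       ∃ (m : ℕ) (z : Fin m → τ → Ω), (∀ i, z i ∈ V) ∧ Big V cl z ((M - 1) * m + 1)] := by
  have hkc := h.countable
  have key : (∃ p, GenMove k V M cl p) →
      ∃ c : ℕ, ∀ (m : ℕ) (z : Fin m → τ → Ω), (∀ i, z i ∈ V) → Big V cl z (M * m - c) := by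
    rintro ⟨p, hgen⟩
    refine ⟨M * (M * (g + p)), fun m z hz L hL => ?_⟩
    by_cases hm : g + p ≤ m
    · obtain ⟨y, hy, hys, hyr⟩ := exists_big_fibre h (by omega) hc hgen hl ho hok hRR hm hz hL
      refine ⟨y, hy, hys, ?_⟩
      by_cases h0 : M * m ≤ M * (M * (g + p))
      · rw [Nat.sub_eq_zero_of_le h0]
        simp
      · have h1 : (((M * m - M * (M * (g + p))) + M * (M * (g + p)) : ℕ) : ℕ∞) ≤
            rk L (coords y) + ((M * (M * (g + p)) : ℕ) : ℕ∞) := by
          rw [Nat.sub_add_cancel (by omega)]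
          exact hyr
        push_cast at h1 ⊢
        exact (ENat.add_le_add_iff_right (by exact_mod_cast ENat.natCast_ne_top _)).mp h1
    · refine ⟨z, hz, rfl, ?_⟩
      have h1 : M * m ≤ M * (M * (g + p)) := by
        have : m ≤ M * (g + p) := by nlinarith
        exact Nat.mul_le_mul_left M this
      rw [Nat.sub_eq_zero_of_le h1]
      simp
  tfae_have 1 → 2 := by
    rintro ⟨c, hc'⟩
    refine ⟨c + 1, fun z hz L hL => ?_⟩
    obtain ⟨y, hy, hys, hyr⟩ := hc' (c + 1) z hz L hL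
    refine ⟨y, hy, hys, le_trans ?_ hyr⟩
    have : c + 1 + 1 ≤ M * (c + 1) - c := by
      have : 3 * (c + 1) ≤ M * (c + 1) := Nat.mul_le_mul_right _ hM
      omega
    exact_mod_cast this
  tfae_have 2 → 1 := by
    rintro ⟨n, hn⟩
    exact key (genMove_of_all h hn)
  tfae_have 1 → 3 := by
    rintro ⟨c, hc'⟩
    obtain ⟨z, hz, -⟩ := h.exists_family hkc (c + 1)
    refine ⟨c + 1, z, hz, fun L hL => ?_⟩
    obtain ⟨y, hy, hys, hyr⟩ := hc' (c + 1) z hz L hL
    refine ⟨y, hy, hys, le_trans ?_ hyr⟩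
    have : (M - 1) * (c + 1) + 1 ≤ M * (c + 1) - c := by
      obtain ⟨q, rfl⟩ : ∃ q, M = q + 1 := ⟨M - 1, by omega⟩
      have : (q + 1) * (c + 1) = q * (c + 1) + (c + 1) := by ring
      simp only [Nat.add_sub_cancel]
      omega
    exact_mod_cast this
  tfae_have 3 → 1 := by
    rintro ⟨n, z, hz, hn⟩
    exact key (genMove_of_large h hM hc hz hn)
  tfae_finish

end Pool.Agent.Y148.OD
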