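import Pool.Agent.Y148.OD.Core3

/-!
# Zero-cycles: finite-dimensionality from one moving generic zero-cycle, second version
-/

set_option autoImplicit false

namespace Pool.Agent.Y148.OD

open MvPolynomial

variable {Ω : Type} [Field Ω] {τ : Type} {A : Type} [AddCommGroup A]

/-- The zero-cycles on `W` are equivalent to zero-cycles on `V` of bounded transcendence degree. -/
def Bdd (k : Subfield Ω) (V W : Set (τ → Ω)) (cl : (τ → Ω) → A) (q : ℕ) : Prop :=
  ∀ (ι : Type) [Fintype ι] (b : ι → τ → Ω), (∀ i, b i ∈ W) → ∃ u : ι → τ → Ω, (∀ i, u i ∈ V) ∧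
    ∑ i, cl (u i) = ∑ i, cl (b i) ∧ rk k (coords u) ≤ (q : ℕ∞)

/-- Generic zero-cycles of large degree move in families of almost maximal dimension, if the
zero-cycles on the hyperplane section `l = 0` are bounded. -/
theorem exists_big_orbit' [IsAlgClosed Ω] [Uncountable Ω] [Fintype τ] {k : Subfield Ω}
    {V : Set (τ → Ω)} {M : ℕ} (h : Setup k V M) {cl : (τ → Ω) → A} (hc : Cls k V cl) {p : ℕ}
    (hgen : GenMove k V M cl p) {l : τ → Ω} (hl : ∀ a, l a ∈ k) {q : ℕ}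
    (hB : Bdd k V (Sec V l) cl q)
    {m : ℕ} (hm : p ≤ m) {z : Fin m → τ → Ω} (hz : ∀ i, z i ∈ V)
    (hzr : ((M * m : ℕ) : ℕ∞) ≤ rk k (coords z)) :
    ∃ y : Fin m → τ → Ω, (∀ i, y i ∈ V) ∧ ∑ i, cl (y i) = ∑ i, cl (z i) ∧
      ((M * m - (q + M * p) : ℕ) : ℕ∞) ≤ rk (adj k (coords z)) (coords y) := by
  classical
  obtain ⟨d, rfl⟩ : ∃ d, m = d + p := ⟨m - p, by omega⟩
  obtain ⟨b, hb, a', ha', hsum⟩ := eff_section (eff_move h hc hgen l hl) d _
    ⟨z, hz, rfl⟩
  obtain ⟨b, hb, rfl⟩ := hb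
  obtain ⟨x, hx, hxs, hxr⟩ := hB (Fin d) b hb
  obtain ⟨w, hw, rfl⟩ := ha'
  set u : Fin d ⊕ Fin p → τ → Ω := Sum.elim x w with hu
  have huV : ∀ i, u i ∈ V := by
    rintro (i | i)
    · exact hx i
    · exact hw i
  have husum : ∑ i, cl (u i) = ∑ i, cl (z i) := by
    rw [hsum, Fintype.sum_sum_type, ← hxs]
    rfl
  have hkc := h.countable
  set K := adj k (coords u) with hK
  have hKc : Countable K := countable_adj (countable_coords u)
  set L := adj K (coords z) with hL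
  have hLc : Countable L := countable_adj (countable_coords z)
  have hru : rk k (coords u) ≤ ((q + M * p : ℕ) : ℕ∞) := by
    rw [hu, coords_sum_elim]
    refine (rk_union_le _ _ _).trans ?_
    have h1 := rk_coords_le h hw
    rw [Fintype.card_fin] at h1
    exact_mod_cast add_le_add hxr h1
  have hrz : ((M * (d + p) - (q + M * p) : ℕ) : ℕ∞) ≤ rk K (coords z) := by
    have h1 : ((M * (d + p) : ℕ) : ℕ∞) ≤ rk k (coords u) + rk K (coords z) := by
      rw [hK, ← rk_adj_union]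
      exact hzr.trans (rk_mono _ Set.subset_union_right)
    by_cases h0 : M * (d + p) ≤ q + M * p
    · rw [Nat.sub_eq_zero_of_le h0]
      simp
    · refine cancel_aux (p := q + M * p) ?_ hru
      rw [Nat.add_sub_cancel' (by omega)]
      exact h1
  obtain ⟨y, hy, -, hysum, hyr⟩ := hc.orbit_ext (κ := Fin d ⊕ Fin p)
    (ι := Fin (d + p)) (by simp) (le_adj_left k (coords u)) (le_adj_left K (coords z))
    hLc huV (fun i a => subset_adj _ _ ⟨i, a, rfl⟩) hz Set.univ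
    (fun i hi => absurd (Set.mem_univ i) hi) husum
  refine ⟨y, hy, hysum, ?_⟩
  rw [cof_univ, cof_univ] at hyr
  refine hrz.trans (hyr.trans (rk_anti ?_ _))
  exact adj_le ((le_adj_left k (coords u)).trans (le_adj_left K (coords z))) (subset_adj _ _)

/-- **Every zero-cycle of large degree moves in a family of almost maximal dimension.** -/
theorem exists_big_fibre' [IsAlgClosed Ω] [Uncountable Ω] [Fintype τ] {k : Subfield Ω}
    {V : Set (τ → Ω)} {M : ℕ} (h : Setup k V M) (hM : 1 ≤ M) {cl : (τ → Ω) → A}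
    (hc : Cls k V cl) {p : ℕ}
    (hgen : GenMove k V M cl p) {l : τ → Ω} (hl : ∀ a, l a ∈ k) {q : ℕ}
    (hB : Bdd k V (Sec V l) cl q)
    {m : ℕ} (hm : p ≤ m) {z₀ : Fin m → τ → Ω} (hz₀ : ∀ i, z₀ i ∈ V) {L : Subfield Ω}
    (hL : Countable L) :
    ∃ y : Fin m → τ → Ω, (∀ i, y i ∈ V) ∧ ∑ i, cl (y i) = ∑ i, cl (z₀ i) ∧
      ((M * m : ℕ) : ℕ∞) ≤ rk L (coords y) + ((M * (q + M * p) : ℕ) : ℕ∞) := by
  classical
  obtain ⟨z, hz, hzr⟩ := h.exists_family h.countable m
  obtain ⟨y, hy, hysum, hyr⟩ := exists_big_orbit' h hc hgen hl hB hm hz hzr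
  have hkc := h.countable
  set K := adj k (coords z) with hK
  have hKc : Countable K := countable_adj (countable_coords z)
  obtain ⟨J, -, hJ1, -, hJ2⟩ := exists_max h hM (le_adj_left k (coords z)) hKc hy Finset.univ
  have hJcard : m ≤ (q + M * p) + J.card := by
    rw [Finset.coe_univ, cof_univ, Finset.card_univ, Fintype.card_fin] at hJ2
    have h1 : ((M * m - (q + M * p) : ℕ) : ℕ∞) ≤ (((M - 1) * m + J.card : ℕ) : ℕ∞) :=
      hyr.trans hJ2
    have h2 : M * m - (q + M * p) ≤ (M - 1) * m + J.card := by exact_mod_cast h1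
    have h3 : M * m = (M - 1) * m + m := by
      obtain ⟨x, rfl⟩ : ∃ x, M = x + 1 := ⟨M - 1, by omega⟩
      simp only [Nat.add_sub_cancel]
      ring
    omega
  -- specialise
  let κ : Type := Fin m ⊕ {i : Fin m // i ∈ J}
  let ι : Type := {i : Fin m // ¬ i ∈ J}
  let e : {i : Fin m // i ∈ J} ⊕ {i : Fin m // ¬ i ∈ J} ≃ Fin m := Equiv.sumCompl (· ∈ J)
  let W : (κ → τ → Ω) → (ι → τ → Ω) → Prop := fun zu t =>
    (∀ i, zu i ∈ V) ∧ (∀ i, t i ∈ V) ∧
      ∑ i : Fin m, cl (zu (Sum.inl i)) =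
        ∑ i, cl ((Sum.elim (fun i => zu (Sum.inr i)) t :
          {i : Fin m // i ∈ J} ⊕ {i : Fin m // ¬ i ∈ J} → τ → Ω) i)
  have hcardJ : Fintype.card {i : Fin m // i ∈ J} = J.card := Fintype.card_coe J
  have hWst : ∀ (zu : κ → τ → Ω) (t : ι → τ → Ω) (zu' : κ → τ → Ω) (t' : ι → τ → Ω), W zu t →
      (∀ i, zu' i ≠ 0) → (∀ i, t' i ≠ 0) →
      (∀ P : MvPolynomial ((κ ⊕ ι) × τ) k, aeval (fun p => Sum.elim zu t p.1 p.2) P = 0 →
        aeval (fun p => Sum.elim zu' t' p.1 p.2) P = 0) → W zu' t' := by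
    rintro zu t zu' t' ⟨h1, h2, h3⟩ h4 h5 h6
    obtain ⟨e1, e2, e3⟩ := hc.stab (Fin m) ({i : Fin m // i ∈ J} ⊕ {i : Fin m // ¬ i ∈ J})
      (Fintype.card_congr e.symm) (fun i => zu (Sum.inl i))
      (Sum.elim (fun i => zu (Sum.inr i)) t) (fun i => zu' (Sum.inl i))
      (Sum.elim (fun i => zu' (Sum.inr i)) t') (fun i => h1 _)
      (by rintro (i | i); exacts [h1 _, h2 _]) h3 (fun i => h4 _)
      (by rintro (i | i); exacts [h4 _, h5 _])
      (fun P hP => by
        have h7 := h6 (rename (fun q : (Fin m ⊕ ({i : Fin m // i ∈ J} ⊕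
            {i : Fin m // ¬ i ∈ J})) × τ => (((Equiv.sumAssoc _ _ _).symm q.1 : κ ⊕ ι), q.2)) P)
        rw [aeval_rename, aeval_rename] at h7
        have h8 := h7 (by
          rw [← hP]
          congr 1
          congr 1
          funext q
          obtain ⟨i | i | i, a⟩ := q <;> rfl)
        rw [← h8]
        congr 1
        congr 1
        funext q
        obtain ⟨i | i | i, a⟩ := q <;> rfl)
    refine ⟨?_, fun i => e2 (Sum.inr i), e3⟩
    rintro (i | i)
    · exact e1 i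
    · exact e2 (Sum.inl i)
  have hWsc : ∀ (zu : κ → τ → Ω) (t : ι → τ → Ω) (c : ι → Ω), (∀ i, c i ≠ 0) → W zu t →
      W zu (fun i a => c i * t i a) := by
    rintro zu t c hc0 ⟨h1, h2, h3⟩
    refine ⟨h1, fun i => hc.smul_mem (c i) (t i) (hc0 i) (h2 i), ?_⟩
    rw [h3, Fintype.sum_sum_type, Fintype.sum_sum_type]
    congr 1
    exact Finset.sum_congr rfl fun i _ => (hc.smul_cl (c i) (t i) (hc0 i) (h2 i)).symm
  obtain ⟨n₀, hn₀⟩ : ∃ n₀, n₀ = J.card := ⟨_, rfl⟩
  obtain ⟨u₁, hu₁, hu₁r⟩ := h.exists_family hL J.card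
  let e' : {i : Fin m // i ∈ J} ≃ Fin J.card :=
    (Fintype.equivFin _).trans (finCongr hcardJ)
  let u₀ : {i : Fin m // i ∈ J} → τ → Ω := fun i => u₁ (e' i)
  have hgenr : ((M * Fintype.card κ : ℕ) : ℕ∞) ≤
      rk k (coords (Sum.elim z (fun i : {i : Fin m // i ∈ J} => y i) : κ → τ → Ω)) := by
    rw [coords_sum_elim, rk_adj_union]
    have h1 : Fintype.card κ = m + J.card := by
      rw [Fintype.card_sum, Fintype.card_fin, hcardJ]
    have h2 : coords (fun i : {i : Fin m // i ∈ J} => y i) = cof (J : Set (Fin m)) y := by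
      ext c
      constructor
      · rintro ⟨i, a, ha⟩
        exact ⟨i, i.2, a, ha⟩
      · rintro ⟨i, hi, a, ha⟩
        exact ⟨⟨i, hi⟩, a, ha⟩
    rw [h1, h2]
    calc ((M * (m + J.card) : ℕ) : ℕ∞) = ((M * m : ℕ) : ℕ∞) + ((M * J.card : ℕ) : ℕ∞) := by
          push_cast
          ring
      _ ≤ _ := add_le_add hzr hJ1
  obtain ⟨t₀, -, ht₀⟩ := h.specialise W hWst hWsc
    (z := Sum.elim z (fun i : {i : Fin m // i ∈ J} => y i))
    (by rintro (i | i); exacts [hz i, hy i]) hgenr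
    (y := fun i : {i : Fin m // ¬ i ∈ J} => y i) (fun i => hc.ne_zero _ (hy i))
    ⟨by rintro (i | i); exacts [hz i, hy i], fun i => hy i, by
      show ∑ i : Fin m, cl (z i) = _
      rw [← hysum, ← Equiv.sum_comp e (fun i => cl (y i))]
      refine Finset.sum_congr rfl fun i _ => ?_
      rcases i with i | i <;> rfl⟩
    (z₀ := Sum.elim z₀ u₀) (by rintro (i | i); exacts [hz₀ i, hu₁ _])
  obtain ⟨h1, h2, h3⟩ := ht₀
  have hut : ∀ i, Sum.elim u₀ t₀ i ∈ V := by
    rintro (i | i)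
    · exact hu₁ _
    · exact h2 i
  refine ⟨fun i => Sum.elim u₀ t₀ (e.symm i), fun i => hut _, ?_, ?_⟩
  · rw [Equiv.sum_comp e.symm (fun i => cl (Sum.elim u₀ t₀ i))]
    exact h3.symm
  · rw [coords_comp_equiv, coords_sum_elim]
    have h4 : ((M * J.card : ℕ) : ℕ∞) ≤ rk L (coords u₀ ∪ coords t₀) := by
      refine le_trans ?_ (rk_mono _ Set.subset_union_left)
      have : coords u₀ = coords u₁ := coords_comp_equiv e' u₁
      rw [this]
      exact hu₁r
    calc ((M * m : ℕ) : ℕ∞) ≤ ((M * (J.card) + M * (q + M * p) : ℕ) : ℕ∞) := by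
          have : M * m ≤ M * J.card + M * (q + M * p) := by
            have := Nat.mul_le_mul_left M hJcard
            linarith
          exact_mod_cast this
      _ = ((M * J.card : ℕ) : ℕ∞) + ((M * (q + M * p) : ℕ) : ℕ∞) := by push_cast; rfl
      _ ≤ _ := add_le_add h4 le_rfl


/-- **The equivalences.** -/
theorem main_tfae' [IsAlgClosed Ω] [Uncountable Ω] [Fintype τ] {k : Subfield Ω}
    {V : Set (τ → Ω)} {M : ℕ} (h : Setup k V M) (hM : 3 ≤ M) {cl : (τ → Ω) → A}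
    (hc : Cls k V cl) {l : τ → Ω} (hl : ∀ a, l a ∈ k) {q : ℕ}
    (hB : Bdd k V (Sec V l) cl q) :
    List.TFAE
      [∃ c : ℕ, ∀ (m : ℕ) (z : Fin m → τ → Ω), (∀ i, z i ∈ V) → Big V cl z (M * m - c),
       ∃ m : ℕ, ∀ z : Fin m → τ → Ω, (∀ i, z i ∈ V) → Big V cl z (m + 1),
       ∃ (m : ℕ) (z : Fin m → τ → Ω), (∀ i, z i ∈ V) ∧ Big V cl z ((M - 1) * m + 1)] := by
  have hkc := h.countable
  have key : (∃ p, GenMove k V M cl p) →
      ∃ c : ℕ, ∀ (m : ℕ) (z : Fin m → τ → Ω), (∀ i, z i ∈ V) → Big V cl z (M * m - c) := by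
    rintro ⟨p, hgen⟩
    refine ⟨M * (q + M * p), fun m z hz L hL => ?_⟩
    by_cases hm : p ≤ m
    · obtain ⟨y, hy, hys, hyr⟩ := exists_big_fibre' h (by omega) hc hgen hl hB hm hz hL
      refine ⟨y, hy, hys, ?_⟩
      by_cases h0 : M * m ≤ M * (q + M * p)
      · rw [Nat.sub_eq_zero_of_le h0]
        simp
      · have h1 : (((M * m - M * (q + M * p)) + M * (q + M * p) : ℕ) : ℕ∞) ≤
            rk L (coords y) + ((M * (q + M * p) : ℕ) : ℕ∞) := by
          rw [Nat.sub_add_cancel (by omega)]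
          exact hyr
        push_cast at h1 ⊢
        exact (ENat.add_le_add_iff_right (by exact_mod_cast ENat.natCast_ne_top _)).mp h1
    · refine ⟨z, hz, rfl, ?_⟩
      have h1 : M * m ≤ M * (q + M * p) := by
        have : m ≤ q + M * p := by nlinarith
        exact Nat.mul_le_mul_left M this
      rw [Nat.sub_eq_zero_of_le h1]
      simp
  tfae_have 1 → 2 := by
    rintro ⟨c, hc'⟩
    refine ⟨c + 1, fun z hz L hL => ?_⟩
    obtain ⟨y, hy, hys, hyr⟩ := hc' (c + 1) z hz L hL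
    refine ⟨y, hy, hys, le_trans ?_ hyr⟩
    have : c + 1 + 1 ≤ M * (c + 1) - c := by
      have : 3 * (c + 1) ≤ M * (c + 1) := Nat.mul_le_mul_right _ hM
      omega
    exact_mod_cast this
  tfae_have 2 → 1 := by
    rintro ⟨n, hn⟩
    exact key (genMove_of_all h hn)
  tfae_have 1 → 3 := by
    rintro ⟨c, hc'⟩
    obtain ⟨z, hz, -⟩ := h.exists_family hkc (c + 1)
    refine ⟨c + 1, z, hz, fun L hL => ?_⟩
    obtain ⟨y, hy, hys, hyr⟩ := hc' (c + 1) z hz L hL
    refine ⟨y, hy, hys, le_trans ?_ hyr⟩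
    have : (M - 1) * (c + 1) + 1 ≤ M * (c + 1) - c := by
      obtain ⟨q, rfl⟩ : ∃ q, M = q + 1 := ⟨M - 1, by omega⟩
      have : (q + 1) * (c + 1) = q * (c + 1) + (c + 1) := by ring
      simp only [Nat.add_sub_cancel]
      omega
    exact_mod_cast this
  tfae_have 3 → 1 := by
    rintro ⟨n, z, hz, hn⟩
    exact key (genMove_of_large h hM hc hz hn)
  tfae_finish

end Pool.Agent.Y148.OD
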