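import Pool.Agent.Y148.OD.Spec

/-!
# Extension of specialisations to families of points
-/

set_option autoImplicit false

namespace Pool.Agent.Y148.OD

open MvPolynomial

variable {Ω : Type} [Field Ω]

/-- **Extension of specialisations.** -/
theorem extend_spec [IsAlgClosed Ω] [Uncountable Ω] {k : Subfield Ω} (hk : Countable k)
    {σ ρ υ : Type} [Finite σ] [Finite ρ] [Finite υ] (a a' : σ → Ω)
    (hrel : ∀ P : MvPolynomial σ k, aeval a P = 0 → aeval a' P = 0) (W : ρ → υ → Ω)
    (hW : ∀ i, W i ≠ 0) :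
    ∃ (c : ρ → Ω) (W' : ρ → υ → Ω), (∀ i, c i ≠ 0) ∧ (∀ i, W' i ≠ 0) ∧
      ∀ P : MvPolynomial (σ ⊕ (ρ × υ)) k,
        aeval (Sum.elim a fun p => c p.1 * W p.1 p.2) P = 0 →
        aeval (Sum.elim a' fun p => W' p.1 p.2) P = 0 := by
  let φ : MvPolynomial σ k →+* Ω := (aeval a : MvPolynomial σ k →ₐ[k] Ω).toRingHom
  let φ₀ : MvPolynomial σ k →+* Ω := (aeval a' : MvPolynomial σ k →ₐ[k] Ω).toRingHom
  have hsurj : Function.Surjective φ.rangeRestrict := φ.rangeRestrict_surjective
  have hker : RingHom.ker φ.rangeRestrict ≤ RingHom.ker φ₀ := by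
    intro P hP
    rw [RingHom.ker_rangeRestrict] at hP
    exact hrel P hP
  have hAc : Countable φ.range := by
    have := countable_mvPolynomial (σ := σ) (R := k)
    exact hsurj.countable
  let ψ : φ.range →+* Ω := (RingHom.liftOfSurjective φ.rangeRestrict hsurj) ⟨φ₀, hker⟩
  have hψ : ∀ P, ψ (φ.rangeRestrict P) = φ₀ P := fun P =>
    RingHom.liftOfRightInverse_comp_apply _ _ _ ⟨φ₀, hker⟩ P
  have hsub : ∀ P, φ.range.subtype (φ.rangeRestrict P) = φ P := fun P => rfl
  obtain ⟨c, W', hc, hW', hspec⟩ := stmSpec Ω ρ υ φ.range hAc ψ W hW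
  refine ⟨c, W', hc, hW', fun P hP => ?_⟩
  obtain ⟨Q, hQ⟩ := exists_subst_ring φ.range
    (φ.rangeRestrict.comp (C : k →+* MvPolynomial σ k)) P
    (fun p : σ ⊕ (ρ × υ) => match p with
      | Sum.inl i => (Sum.inr (φ.rangeRestrict (X i)) : (ρ × υ) ⊕ φ.range)
      | Sum.inr i => Sum.inl i)
  have h1 := hspec Q
  rw [hQ, hQ] at h1
  have h2 := h1 (by
    rw [← hP, aeval_def]
    congr 1
    · ext x
      simp only [RingHom.comp_apply, hsub]
      simp [φ]
    · funext p
      rcases p with i | i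
      · simp only [Sum.elim_inl, Sum.elim_inr, hsub]
        simp [φ]
      · simp)
  rw [← h2, aeval_def]
  congr 1
  · ext x
    have := hψ (C x)
    simp only [RingHom.comp_apply]
    rw [this]
    simp [φ₀]
  · funext p
    rcases p with i | i
    · simp only [Sum.elim_inl, Sum.elim_inr]
      rw [hψ]
      simp [φ₀]
    · simp

end Pool.Agent.Y148.OD
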