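import Pool.Agent.Y148.OD.CorrDefs
import Pool.Agent.Y148.OD.Ext
import Pool.Agent.Y148.OD.TransN

/-!
# Homomorphisms of groups of zero-cycles given by families of zero-cycles
-/

set_option autoImplicit false

namespace Pool.Agent.Y148.OD

open MvPolynomial

theorem exists_prop {υ Ω : Type} [Field Ω] {p q : MvPolynomial υ Ω} (hq : q ≠ 0)
    (h : ∀ μ ν, coeff μ p * coeff ν q = coeff ν p * coeff μ q) : ∃ c : Ω, p = C c * q := by
  obtain ⟨ν, hν⟩ := ne_zero_iff.mp hq
  refine ⟨coeff ν p / coeff ν q, ?_⟩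
  ext μ
  rw [coeff_C_mul, div_mul_eq_mul_div, eq_div_iff hν]
  exact h μ ν

theorem exists_lift' {σ R S : Type} [CommRing R] [CommRing S] (f : R →+* S)
    {P : MvPolynomial σ S} (h : ∀ m, ∃ c, f c = P.coeff m) :
    ∃ Q : MvPolynomial σ R, MvPolynomial.map f Q = P := by
  classical
  choose g hg using h
  refine ⟨∑ m ∈ P.support, monomial m (g m), ?_⟩
  rw [map_sum]
  conv_rhs => rw [P.as_sum]
  refine Finset.sum_congr rfl fun m _ => ?_
  rw [map_monomial, hg]

theorem exists_field2 {σ υ : Type} (S : Finset (MvPolynomial σ (MvPolynomial υ ℂ))) :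
    ∃ k : Subfield ℂ, Countable k ∧ ∀ G ∈ S, ∃ G' : MvPolynomial σ (MvPolynomial υ k),
      MvPolynomial.map (MvPolynomial.map (algebraMap k ℂ)) G' = G := by
  classical
  set T : Set ℂ := ⋃ G ∈ S, ⋃ m ∈ G.support, (((G.coeff m).coeffs : Finset ℂ) : Set ℂ) with hT
  have hTc : T.Countable := by
    refine Set.Countable.biUnion S.countable_toSet fun G _ => ?_
    exact Set.Countable.biUnion G.support.countable_toSet fun m _ => (Finset.countable_toSet _)
  have : Countable (⊥ : Subfield ℂ) := by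
    have h2 := Subfield.cardinalMk_closure_le_max (∅ : Set ℂ)
    rw [Subfield.closure_empty] at h2
    rw [← Cardinal.mk_le_aleph0_iff]
    refine h2.trans ?_
    simp
  refine ⟨adj ⊥ T, countable_adj hTc, fun G hG => ?_⟩
  refine exists_lift' _ fun m => ?_
  refine exists_lift' (algebraMap (adj ⊥ T) ℂ) (P := G.coeff m) fun n => ?_
  by_cases h0 : (G.coeff m).coeff n = 0
  · exact ⟨0, by rw [h0, map_zero]⟩
  · have hm : m ∈ G.support := by
      rw [mem_support_iff]
      intro h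
      rw [h, coeff_zero] at h0
      exact h0 rfl
    refine ⟨⟨(G.coeff m).coeff n, subset_adj _ _ ?_⟩, rfl⟩
    rw [hT]
    simp only [Set.mem_iUnion]
    exact ⟨G, hG, m, hm, coeff_mem_coeffs n h0⟩

theorem eval_mul_hom {R σ : Type} [CommRing R] [Fintype σ] {P : MvPolynomial σ R} {d : ℕ}
    (hP : P.IsHomogeneous d) (c : R) (v : σ → R) :
    eval (fun a => c * v a) P = c ^ d * eval v P := by
  rw [eval_eq', eval_eq', Finset.mul_sum]
  refine Finset.sum_congr rfl fun m hm => ?_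
  have h1 : ∏ i, (c * v i) ^ m i = c ^ d * ∏ i, v i ^ m i := by
    have h2 : m.degree = d := by
      rw [← hP (mem_support_iff.mp hm)]
      exact DFunLike.congr_fun Finsupp.degree_eq_weight_one m
    rw [← h2, Finsupp.degree_eq_sum, ← Finset.prod_pow_eq_pow_sum, ← Finset.prod_mul_distrib]
    refine Finset.prod_congr rfl fun i _ => ?_
    rw [mul_pow]
  rw [h1]
  ring

theorem value_smul {r s d : ℕ} {G : MvPolynomial (Fin (r + 1)) (MvPolynomial (Fin (s + 1)) ℂ)}
    (hG : G.IsHomogeneous d) (c : ℂ) (v : Fin (r + 1) → ℂ) :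
    value G (c • v) = C (c ^ d) * value G v := by
  have h1 : (fun a => (C ((c • v) a) : MvPolynomial (Fin (s + 1)) ℂ)) =
      fun a => C c * C (v a) := by
    funext a
    rw [← C_mul]
    rfl
  rw [value, h1, eval_mul_hom hG, C_pow]
  rfl

/-- transfer of proportionality to a Chow form under specialisation -/
theorem prop_transfer {r s m : ℕ} {k : Subfield ℂ} {σ ρ : Type}
    {a a' : σ × Fin (r + 1) → ℂ} {W W' : ρ → Fin (s + 1) → ℂ} (hW' : ∀ i, W' i ≠ 0)
    (hrel : ∀ P : MvPolynomial ((σ × Fin (r + 1)) ⊕ (ρ × Fin (s + 1))) k,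
      aeval (Sum.elim a fun p => W p.1 p.2) P = 0 →
      aeval (Sum.elim a' fun p => W' p.1 p.2) P = 0)
    {G : MvPolynomial (Fin (r + 1)) (MvPolynomial (Fin (s + 1)) ℂ)}
    {G' : MvPolynomial (Fin (r + 1)) (MvPolynomial (Fin (s + 1)) k)}
    (hG : MvPolynomial.map (MvPolynomial.map (algebraMap k ℂ)) G' = G) (i : σ) (q : Fin m → ρ)
    {c : ℂ} (h : value G (fun b => a (i, b)) = C c * ∏ j, lin (W (q j))) :
    ∃ c' : ℂ, value G (fun b => a' (i, b)) = C c' * ∏ j, lin (W' (q j)) := by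
  refine exists_prop (Finset.prod_ne_zero_iff.mpr fun j _ =>
    Pool.Agent.Y737.OD.lin_ne_zero _ (hW' (q j))) fun μ ν => ?_
  let R := MvPolynomial ((σ × Fin (r + 1)) ⊕ (ρ × Fin (s + 1))) k
  let Gg : MvPolynomial (Fin (s + 1)) R := eval₂ (MvPolynomial.map (C : k →+* R))
    (fun b => C (X (Sum.inl (i, b)))) G'
  let Lg : MvPolynomial (Fin (s + 1)) R := ∏ j, ∑ b, C (X (Sum.inr (q j, b))) * X b
  have hGg : ∀ x : (σ × Fin (r + 1)) ⊕ (ρ × Fin (s + 1)) → ℂ,
      MvPolynomial.map ((aeval x : R →ₐ[k] ℂ) : R →+* ℂ) Gg =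
        value G fun b => x (Sum.inl (i, b)) := by
    intro x
    have h1 : MvPolynomial.map ((aeval x : R →ₐ[k] ℂ) : R →+* ℂ) Gg =
        eval₂ ((MvPolynomial.map ((aeval x : R →ₐ[k] ℂ) : R →+* ℂ)).comp
          (MvPolynomial.map (C : k →+* R)))
          (fun b => MvPolynomial.map ((aeval x : R →ₐ[k] ℂ) : R →+* ℂ)
            (C (X (Sum.inl (i, b))))) G' := hom_eval₂ _ _ _ _
    rw [h1, value, ← hG, eval_map]
    congr 1
    · refine RingHom.ext fun y => ?_
      show MvPolynomial.map ((aeval x : R →ₐ[k] ℂ) : R →+* ℂ) (MvPolynomial.map (C : k →+* R) y) =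
        MvPolynomial.map (algebraMap k ℂ) y
      rw [MvPolynomial.map_map]
      congr 2
      refine RingHom.ext fun t => ?_
      exact (aeval x : R →ₐ[k] ℂ).commutes t
    · funext b
      rw [map_C]
      congr 1
      exact aeval_X _ _
  have hLg : ∀ x : (σ × Fin (r + 1)) ⊕ (ρ × Fin (s + 1)) → ℂ,
      MvPolynomial.map ((aeval x : R →ₐ[k] ℂ) : R →+* ℂ) Lg =
        ∏ j, lin fun b => x (Sum.inr (q j, b)) := by
    intro x
    simp only [Lg, map_prod, map_sum, map_mul, map_C, map_X, lin]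
    refine Finset.prod_congr rfl fun j _ => Finset.sum_congr rfl fun b _ => ?_
    congr 2
    exact aeval_X _ _
  have hmain : ∀ x : (σ × Fin (r + 1)) ⊕ (ρ × Fin (s + 1)) → ℂ,
      aeval x (coeff μ Gg * coeff ν Lg - coeff ν Gg * coeff μ Lg : R) =
        coeff μ (value G fun b => x (Sum.inl (i, b))) *
          coeff ν (∏ j, lin fun b => x (Sum.inr (q j, b))) -
        coeff ν (value G fun b => x (Sum.inl (i, b))) *
          coeff μ (∏ j, lin fun b => x (Sum.inr (q j, b))) := by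
    intro x
    rw [← hGg, ← hLg, coeff_map, coeff_map, coeff_map, coeff_map, map_sub, map_mul, map_mul]
    rfl
  have h2 := hrel (coeff μ Gg * coeff ν Lg - coeff ν Gg * coeff μ Lg) (by
    rw [hmain]
    simp only [Sum.elim_inl, Sum.elim_inr]
    rw [h, coeff_C_mul, coeff_C_mul]
    ring)
  rw [hmain] at h2
  simp only [Sum.elim_inl, Sum.elim_inr] at h2
  exact sub_eq_zero.mp h2

theorem mem_of_rel {Ω τ : Type} [Field Ω] {k : Subfield Ω} {V : Set (τ → Ω)}
    (hV : ∃ S : Set (MvPolynomial τ k), ∀ v : τ → Ω, v ∈ V ↔ v ≠ 0 ∧ ∀ P ∈ S, aeval v P = 0)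
    {v v' : τ → Ω} (hv : v ∈ V) (hv' : v' ≠ 0)
    (h : ∀ P : MvPolynomial τ k, aeval v P = 0 → aeval v' P = 0) : v' ∈ V := by
  obtain ⟨S, hS⟩ := hV
  rw [hS]
  exact ⟨hv', fun P hP => h P (((hS v).mp hv).2 P hP)⟩

/-- Rational equivalence is stable under specialisation, for closed sets. -/
theorem cls_closed (hStab : StmStab) {r : ℕ} {X : Set (Pt r)} {k : Subfield ℂ} (hk : Countable k)
    (hX : ∃ S : Set (MvPolynomial (Fin (r + 1)) k),
      ∀ v : Fin (r + 1) → ℂ, v ∈ cone X ↔ v ≠ 0 ∧ ∀ P ∈ S, aeval v P = 0) :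
    Cls k (cone X) (cl X) where
  ne_zero := fun v hv => hv.choose
  smul_mem := fun c v hc hv => smul_mem_cone hc hv
  smul_cl := by
    intro c v hc hv
    have h1 := cl_eq_of_rat (X := X) (fun _ : Fin 1 => ⟨c • v, smul_mem_cone hc hv⟩)
      (fun _ : Fin 1 => ⟨v, hv⟩) (Pool.Agent.Y737.OD.const_step _ _ _ _ c⁻¹ (inv_ne_zero hc) (by
        simp only [chow, Fin.prod_univ_one, vlin]
        have h2 : lin (c • v) = C c * lin v := Pool.Agent.Y737.OD.lin_smul c v
        rw [h2, ← mul_assoc, ← C_mul, inv_mul_cancel₀ hc, C_1, one_mul]))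
    simpa using h1
  stab := by
    intro κ ι _ _ hcard z y z' y' hz hy hs hz' hy' hP
    have := uncountable_complex
    set n := Fintype.card κ with hn
    let e : Fin n ≃ κ := (Fintype.equivFinOfCardEq hn.symm).symm
    let e' : Fin n ≃ ι := (Fintype.equivFinOfCardEq hcard.symm).symm
    have h1 : ∑ i, FreeAbelianGroup.of (⟨z (e i), hz _⟩ : cone X) -
        ∑ i, FreeAbelianGroup.of (⟨y (e' i), hy _⟩ : cone X) ∈ ratSub (vlin (cone X)) := by
      refine rat_of_cl_eq _ _ ?_
      show ∑ i, cl X (z (e i)) = ∑ i, cl X (y (e' i))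
      rw [Equiv.sum_comp e (fun i => cl X (z i)), Equiv.sum_comp e' (fun i => cl X (y i)), hs]
    obtain ⟨hx, hy2, h2⟩ := hStab ℂ (Fin (r + 1)) (cone X) k hk hX
      (fun c v hc hv => smul_mem_cone hc hv) n (fun i => ⟨z (e i), hz _⟩)
      (fun i => ⟨y (e' i), hy _⟩) (fun i => z' (e i)) (fun i => y' (e' i)) h1
      (fun i => hz' _) (fun i => hy' _) (fun P hP0 => by
        have h3 := hP (rename (Prod.map (Sum.map e e') id) P)
        rw [aeval_rename, aeval_rename] at h3
        have h4 := h3 (by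
          rw [← hP0]
          congr 1
          congr 1
          funext p
          obtain ⟨i | i, a⟩ := p <;> rfl)
        rw [← h4]
        congr 1
        congr 1
        funext p
        obtain ⟨i | i, a⟩ := p <;> rfl)
    refine ⟨fun i => ?_, fun i => ?_, ?_⟩
    · have := hx (e.symm i)
      rwa [Equiv.apply_symm_apply] at this
    · have := hy2 (e'.symm i)
      rwa [Equiv.apply_symm_apply] at this
    · have h3 := cl_eq_of_rat _ _ h2
      have h4 : ∑ i, cl X (z' (e i)) = ∑ i, cl X (y' (e' i)) := h3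
      rwa [Equiv.sum_comp e (fun i => cl X (z' i)), Equiv.sum_comp e' (fun i => cl X (y' i))] at h4

/-- two zero-cycles with proportional Chow forms have the same class -/
theorem class_of_prop {s m : ℕ} {Y : Set (Pt s)} {w : Fin m → Fin (s + 1) → ℂ}
    (hw : ∀ j, w j ∈ cone Y) (y : Fin m → Y) {c : ℂ} (hc : c ≠ 0)
    (h : (chowForm fun j => (y j : Pt s)) = C c * ∏ j, lin (w j)) :
    ∑ j, cl Y (w j) = γ Y y := by
  have h1 := cl_eq_of_rat (X := Y) (fun j => ⟨w j, hw j⟩) (fun j => vec (y j))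
    (Pool.Agent.Y737.OD.const_step _ _ _ _ c hc (by
      rw [chow_vec, h]
      rfl))
  have h2 : ∑ j, cl Y (w j) = ∑ j, cl Y (vec (y j)) := h1
  rw [h2, ← γ_pt]
  simp only [pt_vec]

end Pool.Agent.Y148.OD
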