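import Pool.Agent.Y148.OD.SurfDefs

/-!
# Homomorphisms of groups of zero-cycles given by families of zero-cycles: the definitions
-/

set_option autoImplicit false

namespace Pool.Agent.Y148.OD

open MvPolynomial

/-- The value at the coordinate vector `v` of a polynomial `G` whose coefficients are forms. -/
noncomputable def value {r s : ℕ} (G : MvPolynomial (Fin (r + 1)) (MvPolynomial (Fin (s + 1)) ℂ))
    (v : Fin (r + 1) → ℂ) : MvPolynomial (Fin (s + 1)) ℂ := eval (fun a => C (v a)) G

/-- `f` is a morphism from `X` to the symmetric product `Sᵐ(Y)`: there are finitely many homogeneous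
polynomials `G` in the coordinates of the points of `X`, with coefficients forms in the variables of
the Chow forms, whose values at `x` are multiples of the Chow form of the zero-cycle `∑ [f x i]` on
`Y`, and not all zero. -/
def IsMorphism {r s m : ℕ} (X : Set (Pt r)) (Y : Set (Pt s)) (f : X → Fin m → Y) : Prop :=
  ∃ S : Finset (MvPolynomial (Fin (r + 1)) (MvPolynomial (Fin (s + 1)) ℂ)),
    (∀ G ∈ S, ∃ d : ℕ, G.IsHomogeneous d) ∧
    (∀ x : X, ∀ G ∈ S, ∃ c : ℂ,
      value G (x : Pt r).rep = C c * chowForm fun i => (f x i : Pt s)) ∧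
    ∀ x : X, ∃ G ∈ S, value G (x : Pt r).rep ≠ 0

/-- The homomorphism `φ` from `B(X)` to `B(Y)` is given by two families of zero-cycles: there are
morphisms `f` and `g` from `X` to symmetric products of `Y` such that `φ` maps the class of
the point `x` to the class of the zero-cycle `f(x) - g(x)`. -/
def IsAlgebraicHom {r s : ℕ} (X : Set (Pt r)) (Y : Set (Pt s)) (φ : B X →+ B Y) : Prop :=
  ∃ (m m' : ℕ) (f : X → Fin m → Y) (g : X → Fin m' → Y), IsMorphism X Y f ∧ IsMorphism X Y g ∧
    ∀ x : X, φ (γ X fun _ : Fin 1 => x) = γ Y (f x) - γ Y (g x)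

/-- The fibre through `x` of the map `φ ∘ γ` on `Xⁿ`. -/
def fibreHom {r s : ℕ} {X : Set (Pt r)} {Y : Set (Pt s)} (φ : B X →+ B Y) {n : ℕ}
    (x : Fin n → X) : Set (Fin n → Pt r) :=
  {y | ∃ hy : ∀ i, y i ∈ X, φ (γ X fun i => ⟨y i, hy i⟩) = φ (γ X x)}

end Pool.Agent.Y148.OD
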