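import Mathlib

/-!
# Transcendence degrees of tuples of vectors

`rk K S`: the transcendence degree over the subfield `K` of the field generated by `S`.
`adj K T`: the subfield generated by `K` and `T`.
`coords y`: the set of the coordinates of a family of vectors.
-/

set_option autoImplicit false

namespace Pool.Agent.Y148.OD

open MvPolynomial

variable {Ω : Type*} [Field Ω]

/-- The rank of the set `S` over the subfield `K`: the largest number of elements of `S` which are
algebraically independent over `K`. -/
noncomputable def rk (K : Subfield Ω) (S : Set Ω) : ℕ∞ :=
  (AlgebraicIndependent.matroid K Ω).eRk S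

/-- The subfield generated by `K` and `T`. -/
def adj (K : Subfield Ω) (T : Set Ω) : Subfield Ω :=
  Subfield.closure ((K : Set Ω) ∪ T)

/-- The coordinates of a family of vectors. -/
def coords {ι τ : Type*} (y : ι → τ → Ω) : Set Ω :=
  {c | ∃ i a, c = y i a}

end Pool.Agent.Y148.OD
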