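import Pool.Agent.Y148.OD.Bridge

/-!
# The dimension of sets of families of points
-/

set_option autoImplicit false

namespace Pool.Agent.Y148.OD

open MvPolynomial

variable {r : ℕ} {ι : Type}

theorem uncountable_complex : Uncountable ℂ := by
  rw [← not_countable_iff]
  intro h
  exact not_countable_complex (Set.countable_univ_iff.mpr h)

/-- the families of vectors of a set of families of points -/
def HasVec (F : Set (ι → Pt r)) (v : ι → Fin (r + 1) → ℂ) : Prop :=
  ∃ hv : ∀ i, v i ≠ 0, (fun i => Projectivization.mk ℂ (v i) (hv i)) ∈ F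

theorem rep_ratio (x : Pt r) {v : Fin (r + 1) → ℂ} (hv : v ≠ 0)
    (h : Projectivization.mk ℂ v hv = x) (a b : Fin (r + 1)) :
    x.rep a / x.rep b = v a / v b := by
  obtain ⟨c, hc, hcv⟩ := exists_rep v hv
  rw [← h, hcv]
  simp only [Pi.smul_apply, smul_eq_mul]
  exact mul_div_mul_left _ _ hc

theorem exists_ne {v : Fin (r + 1) → ℂ} (hv : v ≠ 0) : ∃ b, v b ≠ 0 := by
  by_contra hcon
  push Not at hcon
  exact hv (funext hcon)

theorem countable_ratios [Countable ι] (x : ι → Pt r) : (ratios x).Countable := by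
  have : ratios x = Set.range (fun p : ι × Fin (r + 1) × Fin (r + 1) =>
      (x p.1).rep p.2.1 / (x p.1).rep p.2.2) := by
    ext c
    constructor
    · rintro ⟨i, a, b, h⟩
      exact ⟨(i, a, b), h.symm⟩
    · rintro ⟨⟨i, a, b⟩, h⟩
      exact ⟨i, a, b, h.symm⟩
  rw [this]
  exact Set.countable_range _

theorem dimGE_iff [Fintype ι] (F : Set (ι → Pt r)) (d : ℕ) : DimGE F d ↔
    ∀ L : Subfield ℂ, Countable L → ∃ v : ι → Fin (r + 1) → ℂ, HasVec F v ∧
      ((d + Fintype.card ι : ℕ) : ℕ∞) ≤ rk L (coords v) := by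
  classical
  constructor
  · intro h L hL
    obtain ⟨x, hx, s, hs, hsi, hsc⟩ := h L hL
    have h1 : (d : ℕ∞) ≤ rk L (ratios x) := le_rk_iff.mpr ⟨s, hs, hsi, hsc⟩
    have hL2 : Countable (adj L (ratios x)) := countable_adj (countable_ratios x)
    have := uncountable_complex
    obtain ⟨c, hc⟩ := Pool.Agent.Y141.OD.exists_indep (adj L (ratios x)) hL2 ι
    have hcr : (Fintype.card ι : ℕ∞) ≤ rk (adj L (ratios x)) (Set.range c) := by
      refine le_rk_iff.mpr ⟨Set.range c, subset_rfl, hc.to_subtype_range, ?_⟩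
      rw [← Set.image_univ, Function.Injective.encard_image hc.injective, Set.encard_univ,
        ENat.card_eq_coe_fintype_card]
    choose b hb using fun i => exists_ne (x i).rep_nonzero
    set v : ι → Fin (r + 1) → ℂ := fun i => (c i / (x i).rep (b i)) • (x i).rep with hv
    have hcb : ∀ i, c i / (x i).rep (b i) ≠ 0 := fun i => div_ne_zero (hc.ne_zero i) (hb i)
    have hv0 : ∀ i, v i ≠ 0 := fun i => smul_ne_zero (hcb i) (x i).rep_nonzero
    have hvx : ∀ i, Projectivization.mk ℂ (v i) (hv0 i) = x i := by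
      intro i
      have h2 := mk_smul (x i).rep (x i).rep_nonzero _ (hcb i) (hv0 i)
      rw [Projectivization.mk_rep] at h2
      exact h2
    refine ⟨v, ⟨hv0, ?_⟩, ?_⟩
    · have : (fun i => Projectivization.mk ℂ (v i) (hv0 i)) = x := funext hvx
      rw [this]
      exact hx
    · calc ((d + Fintype.card ι : ℕ) : ℕ∞) = (d : ℕ∞) + (Fintype.card ι : ℕ∞) := by push_cast; rfl
        _ ≤ rk L (ratios x) + rk (adj L (ratios x)) (Set.range c) := add_le_add h1 hcr
        _ = rk L (ratios x ∪ Set.range c) := (rk_adj_union _ _ _).symm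
        _ ≤ rk L (coords v) := rk_le_of_mem ?_
      rintro y (⟨i, a, e, rfl⟩ | ⟨i, rfl⟩)
      · rw [rep_ratio (x i) (hv0 i) (hvx i)]
        exact div_mem (subset_adj _ _ ⟨i, a, rfl⟩) (subset_adj _ _ ⟨i, e, rfl⟩)
      · refine subset_adj _ _ ⟨i, b i, ?_⟩
        rw [hv]
        simp only [Pi.smul_apply, smul_eq_mul]
        rw [div_mul_cancel₀ _ (hb i)]
  · intro h L hL
    obtain ⟨v, ⟨hv0, hvF⟩, hr⟩ := h L hL
    set x : ι → Pt r := fun i => Projectivization.mk ℂ (v i) (hv0 i) with hx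
    choose b hb using fun i => exists_ne (hv0 i)
    set T : Set ℂ := Set.range fun i => v i (b i) with hT
    have h1 : rk L (coords v) ≤ rk L (T ∪ ratios x) := by
      refine rk_le_of_mem ?_
      rintro y ⟨i, a, rfl⟩
      have h2 : v i a = v i (b i) * (v i a / v i (b i)) := by
        rw [mul_div_cancel₀ _ (hb i)]
      rw [h2]
      refine mul_mem (subset_adj _ _ (Or.inl ⟨i, rfl⟩)) (subset_adj _ _ (Or.inr ⟨i, a, b i, ?_⟩))
      exact (rep_ratio (x i) (hv0 i) rfl a (b i)).symm
    have h2 : rk L T ≤ (Fintype.card ι : ℕ∞) := by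
      refine (rk_le_encard _ _).trans ?_
      rw [hT, ← Set.image_univ]
      refine (Set.encard_image_le _ _).trans ?_
      rw [Set.encard_univ, ENat.card_eq_coe_fintype_card]
    have h3 : (d : ℕ∞) ≤ rk L (ratios x) := by
      refine cancel_aux (p := Fintype.card ι) (q := d) ?_ h2
      rw [add_comm]
      exact hr.trans (h1.trans (rk_union_le _ _ _))
    obtain ⟨s, hs, hsi, hsc⟩ := le_rk_iff.mp h3
    exact ⟨x, hvF, s, hs, hsi, hsc⟩

theorem DimGE.mono {F : Set (ι → Pt r)} [Fintype ι] {d e : ℕ} (h : DimGE F d) (hde : e ≤ d) :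
    DimGE F e := by
  rw [dimGE_iff] at h ⊢
  intro L hL
  obtain ⟨v, hv, hr⟩ := h L hL
  refine ⟨v, hv, le_trans ?_ hr⟩
  exact_mod_cast Nat.add_le_add_right hde _

theorem DimGE.le [Fintype ι] {F : Set (ι → Pt r)} {d : ℕ} (h : DimGE F d) :
    d ≤ Fintype.card ι * (r + 1) := by
  rw [dimGE_iff] at h
  obtain ⟨v, -, hr⟩ := h (adj ⊥ ∅) (by
    have : Countable (⊥ : Subfield ℂ) := by
      have h2 := Subfield.cardinalMk_closure_le_max (∅ : Set ℂ)
      rw [Subfield.closure_empty] at h2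
      rw [← Cardinal.mk_le_aleph0_iff]
      refine h2.trans ?_
      simp
    exact countable_adj Set.countable_empty)
  have h1 := hr.trans (rk_le_encard _ _)
  rw [coords_eq_range, ← Set.image_univ] at h1
  have h2 := h1.trans (Set.encard_image_le _ _)
  rw [Set.encard_univ, ENat.card_eq_coe_fintype_card, Fintype.card_prod, Fintype.card_fin] at h2
  have h3 : d + Fintype.card ι ≤ Fintype.card ι * (r + 1) := by exact_mod_cast h2
  omega

theorem dimGE_zero [Fintype ι] {F : Set (ι → Pt r)} (h : F.Nonempty) : DimGE F 0 := by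
  obtain ⟨x, hx⟩ := h
  intro L hL
  refine ⟨x, hx, ∅, Set.empty_subset _, ?_, by simp⟩
  rw [AlgebraicIndepOn]
  exact algebraicIndependent_empty_type_iff.mpr (algebraMap L ℂ).injective

theorem le_dim_iff [Fintype ι] {F : Set (ι → Pt r)} (h : F.Nonempty) (d : ℕ) :
    d ≤ dim F ↔ DimGE F d := by
  have hb : BddAbove {d | DimGE F d} := ⟨Fintype.card ι * (r + 1), fun d hd => DimGE.le hd⟩
  constructor
  · intro hd
    have h1 : dim F ∈ {d | DimGE F d} := Nat.sSup_mem ⟨0, dimGE_zero h⟩ hb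
    exact DimGE.mono h1 hd
  · intro hd
    exact le_csSup hb hd

/-- **The cone over a projective variety.** -/
theorem setup_cone {X : Set (Pt r)} {N : ℕ} (hX : IsVariety X N) :
    ∃ k : Subfield ℂ, Setup k (cone X) (N + 1) := by
  obtain ⟨k, hk, hkc⟩ := cone_closed hX.closed
  set F : Set (Unit → Pt r) := {x : Unit → Pt r | x () ∈ X} with hF
  have hne : F.Nonempty := by
    obtain ⟨x, hx⟩ := hX.irred.1
    exact ⟨fun _ => x, hx⟩
  have hvec : ∀ v : Unit → Fin (r + 1) → ℂ, HasVec F v ↔ v () ∈ cone X := by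
    intro v
    constructor
    · rintro ⟨hv, h⟩
      exact ⟨hv (), h⟩
    · rintro ⟨hv, h⟩
      exact ⟨fun _ => hv, h⟩
  have hco : ∀ v : Unit → Fin (r + 1) → ℂ, coords v = Set.range (v ()) := by
    intro v
    ext c
    constructor
    · rintro ⟨i, a, h⟩
      exact ⟨a, h.symm⟩
    · rintro ⟨a, h⟩
      exact ⟨(), a, h.symm⟩
  refine ⟨k, hk, hkc, cone_prime hX.irred, ?_, ?_⟩
  · have h1 : ¬ DimGE F (N + 1) := by
      rw [← le_dim_iff hne, hX.dim_eq]
      omega
    rw [dimGE_iff] at h1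
    push Not at h1
    obtain ⟨L, hL, h2⟩ := h1
    refine ⟨L, hL, fun v hv => ?_⟩
    have h3 := h2 (fun _ => v) ((hvec _).mpr hv)
    rw [hco] at h3
    have h4 : rk L (Set.range v) < ((N + 1 : ℕ) : ℕ∞) + 1 := by
      have e : ((N + 1 + Fintype.card Unit : ℕ) : ℕ∞) = ((N + 1 : ℕ) : ℕ∞) + 1 := by
        rw [Fintype.card_unit]
        push_cast
        rfl
      rw [← e]
      exact h3
    exact Order.le_of_lt_add_one h4
  · intro L hL
    have h1 : DimGE F N := by
      rw [← le_dim_iff hne, hX.dim_eq]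
    rw [dimGE_iff] at h1
    obtain ⟨v, hv, hr⟩ := h1 L hL
    refine ⟨v (), (hvec v).mp hv, ?_⟩
    rw [hco, Fintype.card_unit] at hr
    exact hr

end Pool.Agent.Y148.OD
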