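import Pool.Agent.Y148.OD.Hybrid

/-!
# Specialisations
-/

set_option autoImplicit false

namespace Pool.Agent.Y148.OD

open MvPolynomial

variable {Ω : Type} [Field Ω] {τ : Type}

/-- substitution of elements of a subring for some of the variables -/
theorem exists_subst_ring {σ σ' : Type} {k : Subfield Ω} (A : Subring Ω) (j : k →+* A)
    (P : MvPolynomial σ k) (f : σ → σ' ⊕ A) : ∃ Q : MvPolynomial σ' A, ∀ (g : A →+* Ω)
      (w : σ' → Ω), eval₂ g w Q = eval₂ (g.comp j) (fun s => Sum.elim w g (f s)) P := by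
  refine ⟨eval₂ (C.comp j) (fun s => Sum.elim X C (f s)) P, fun g w => ?_⟩
  have h1 : eval₂ g w (eval₂ (C.comp j) (fun s => Sum.elim X C (f s)) P) =
      eval₂ ((eval₂Hom g w).comp (C.comp j))
        (fun s => (eval₂Hom g w) (Sum.elim X C (f s))) P :=
    hom_eval₂ P _ (eval₂Hom g w) _
  rw [h1]
  congr 1
  · ext x
    simp
  · funext s
    rcases f s with a | c
    · simp
    · simp

theorem countable_mvPolynomial {σ R : Type} [Finite σ] [CommRing R] [Countable R] :
    Countable (MvPolynomial σ R) := by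
  rw [← Cardinal.mk_le_aleph0_iff]
  refine (MvPolynomial.cardinalMk_le_max (σ := σ) (R := R)).trans ?_
  simp

/-- **Extension of specialisations of generic points.** -/
theorem Setup.specialise [IsAlgClosed Ω] [Uncountable Ω] [Finite τ] {k : Subfield Ω}
    {V : Set (τ → Ω)} {M : ℕ} (h : Setup k V M) {κ ι : Type} [Fintype κ] [Finite ι]
    (W : (κ → τ → Ω) → (ι → τ → Ω) → Prop)
    (hW : ∀ (z : κ → τ → Ω) (y : ι → τ → Ω) (z' : κ → τ → Ω) (y' : ι → τ → Ω), W z y → (∀ i, z' i ≠ 0) → (∀ i, y' i ≠ 0) →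
      (∀ P : MvPolynomial ((κ ⊕ ι) × τ) k, aeval (fun p => Sum.elim z y p.1 p.2) P = 0 →
        aeval (fun p => Sum.elim z' y' p.1 p.2) P = 0) → W z' y')
    (hs : ∀ z y (c : ι → Ω), (∀ i, c i ≠ 0) → W z y → W z (fun i a => c i * y i a))
    {z : κ → τ → Ω} (hz : ∀ i, z i ∈ V)
    (hr : ((M * Fintype.card κ : ℕ) : ℕ∞) ≤ rk k (coords z)) {y : ι → τ → Ω} (hy : ∀ i, y i ≠ 0)
    (hzy : W z y) {z₀ : κ → τ → Ω} (hz₀ : ∀ i, z₀ i ∈ V) :
    ∃ y₀ : ι → τ → Ω, (∀ i, y₀ i ≠ 0) ∧ W z₀ y₀ := by
  have hk := h.countable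
  let φ : MvPolynomial (κ × τ) k →+* Ω := (aeval (fun p => z p.1 p.2) :
    MvPolynomial (κ × τ) k →ₐ[k] Ω).toRingHom
  let φ₀ : MvPolynomial (κ × τ) k →+* Ω := (aeval (fun p => z₀ p.1 p.2) :
    MvPolynomial (κ × τ) k →ₐ[k] Ω).toRingHom
  have hsurj : Function.Surjective φ.rangeRestrict := φ.rangeRestrict_surjective
  have hker : RingHom.ker φ.rangeRestrict ≤ RingHom.ker φ₀ := by
    intro P hP
    rw [RingHom.ker_rangeRestrict] at hP
    exact h.generic hz hr P hP hz₀
  have hAc : Countable φ.range := by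
    have := countable_mvPolynomial (σ := κ × τ) (R := k)
    exact hsurj.countable
  let ψ : φ.range →+* Ω := (RingHom.liftOfSurjective φ.rangeRestrict hsurj) ⟨φ₀, hker⟩
  have hψ : ∀ P, ψ (φ.rangeRestrict P) = φ₀ P := fun P =>
    RingHom.liftOfRightInverse_comp_apply _ _ _ ⟨φ₀, hker⟩ P
  have hsub : ∀ P, φ.range.subtype (φ.rangeRestrict P) = φ P := fun P => rfl
  obtain ⟨c, y', hc, hy', hrel⟩ := stmSpec Ω ι τ φ.range hAc ψ y hy
  refine ⟨y', hy', hW z _ z₀ y' (hs z y c hc hzy) ?_ hy' ?_⟩
  · intro i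
    obtain ⟨S, hS⟩ := h.closed
    exact ((hS _).mp (hz₀ i)).1
  · intro P hP
    obtain ⟨Q, hQ⟩ := exists_subst_ring φ.range
      (φ.rangeRestrict.comp (C : k →+* MvPolynomial (κ × τ) k)) P
      (fun p : (κ ⊕ ι) × τ => match p.1 with
        | Sum.inl i => (Sum.inr (φ.rangeRestrict (X (i, p.2))) : (ι × τ) ⊕ φ.range)
        | Sum.inr i => Sum.inl (i, p.2))
    have h1 := hrel Q
    rw [hQ, hQ] at h1
    have h2 := h1 (by
      rw [← hP, aeval_def]
      congr 1
      · ext x
        simp only [RingHom.comp_apply, hsub]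
        simp [φ]
      · funext p
        obtain ⟨i | i, a⟩ := p
        · simp only [Sum.elim_inl, Sum.elim_inr, hsub]
          simp [φ]
        · simp)
    rw [← h2, aeval_def]
    congr 1
    · ext x
      have := hψ (C x)
      simp only [RingHom.comp_apply]
      rw [this]
      simp [φ₀]
    · funext p
      obtain ⟨i | i, a⟩ := p
      · simp only [Sum.elim_inl, Sum.elim_inr]
        rw [hψ]
        simp [φ₀]
      · simp

theorem rk_le_of_isAlgebraic {K : Subfield Ω} {S T : Set Ω}
    (h : ∀ x ∈ S, IsAlgebraic (Algebra.adjoin K T) x) : rk K S ≤ rk K T := by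
  have h1 : S ⊆ (AlgebraicIndependent.matroid K Ω).closure T := by
    intro x hx
    rw [AlgebraicIndependent.matroid_closure_eq]
    exact h x hx
  calc rk K S ≤ (AlgebraicIndependent.matroid K Ω).eRk
        ((AlgebraicIndependent.matroid K Ω).closure T) := Matroid.eRk_mono _ h1
    _ = rk K T := Matroid.eRk_closure_eq _ _

/-- **Moving a point onto a hyperplane.** -/
theorem exists_move [IsAlgClosed Ω] [Uncountable Ω] [Finite τ] [Fintype τ] {K : Subfield Ω}
    (hK : Countable K) {ι : Type} [Fintype ι] {y : ι → τ → Ω} (hy : ∀ i, y i ≠ 0)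
    (hr : (Fintype.card ι : ℕ∞) < rk K (coords y)) (l : τ → K) :
    ∃ (i₀ : ι) (c : ι → Ω) (y' : ι → τ → Ω), (∀ i, c i ≠ 0) ∧ (∀ i, y' i ≠ 0) ∧
      (∀ P : MvPolynomial (ι × τ) K, aeval (fun p => c p.1 * y p.1 p.2) P = 0 →
        aeval (fun p => y' p.1 p.2) P = 0) ∧ ∑ a, (l a : Ω) * y' i₀ a = 0 := by
  classical
  by_cases h0 : ∃ i, ∑ a, (l a : Ω) * y i a = 0
  · obtain ⟨i, hi⟩ := h0
    refine ⟨i, fun _ => 1, y, fun _ => one_ne_zero, hy, fun P hP => ?_, hi⟩
    simpa using hP
  · push Not at h0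
    -- a transcendental ratio
    obtain ⟨i₀, a₀, ht⟩ : ∃ i a, ¬ IsAlgebraic K (y i a / ∑ b, (l b : Ω) * y i b) := by
      by_contra hcon
      push Not at hcon
      apply absurd hr
      rw [not_lt]
      set T : Set Ω := Set.range (fun i => ∑ b, (l b : Ω) * y i b) with hT
      have h1 : rk K (coords y) ≤ rk K T := by
        apply rk_le_of_isAlgebraic
        rintro x ⟨i, a, rfl⟩
        have h2 : y i a = (y i a / ∑ b, (l b : Ω) * y i b) * ∑ b, (l b : Ω) * y i b := by
          rw [div_mul_cancel₀ _ (h0 i)]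
        rw [h2]
        refine IsAlgebraic.mul ?_ ?_
        · exact (hcon i a).extendScalars (FaithfulSMul.algebraMap_injective K _)
        · exact isAlgebraic_algebraMap
            (⟨_, Algebra.subset_adjoin ⟨i, rfl⟩⟩ : Algebra.adjoin K T)
      refine h1.trans ((rk_le_encard _ _).trans ?_)
      rw [hT, ← Set.image_univ]
      refine (Set.encard_image_le _ _).trans ?_
      rw [Set.encard_univ, ENat.card_eq_coe_fintype_card]
    set L : Ω := ∑ b, (l b : Ω) * y i₀ b with hL
    have hya : y i₀ a₀ ≠ 0 := by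
      intro h
      apply ht
      rw [h, zero_div]
      exact isAlgebraic_zero
    set s : Ω := L / y i₀ a₀ with hs
    have hstr : Transcendental K s := by
      intro h
      apply ht
      have := h.inv
      rwa [hs, inv_div] at this
    let φ : Polynomial K →+* Ω := (Polynomial.aeval s : Polynomial K →ₐ[K] Ω).toRingHom
    let φ₀ : Polynomial K →+* Ω := (Polynomial.aeval (0 : Ω) : Polynomial K →ₐ[K] Ω).toRingHom
    have hsurj : Function.Surjective φ.rangeRestrict := φ.rangeRestrict_surjective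
    have hker : RingHom.ker φ.rangeRestrict ≤ RingHom.ker φ₀ := by
      intro P hP
      rw [RingHom.ker_rangeRestrict] at hP
      have h1 : Polynomial.aeval s P = 0 := hP
      have h2 : P = 0 := (transcendental_iff.mp hstr) P h1
      rw [h2]
      exact Ideal.zero_mem _
    have hAc : Countable φ.range := by
      have : Countable (Polynomial K) := by
        rw [← Cardinal.mk_le_aleph0_iff]
        refine (Polynomial.cardinalMk_le_max (R := K)).trans ?_
        simp
      exact hsurj.countable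
    let ψ : φ.range →+* Ω := (RingHom.liftOfSurjective φ.rangeRestrict hsurj) ⟨φ₀, hker⟩
    have hψ : ∀ P, ψ (φ.rangeRestrict P) = φ₀ P := fun P =>
      RingHom.liftOfRightInverse_comp_apply _ _ _ ⟨φ₀, hker⟩ P
    have hsub : ∀ P, φ.range.subtype (φ.rangeRestrict P) = φ P := fun P => rfl
    obtain ⟨c, y', hc, hy', hrel⟩ := stmSpec Ω ι τ φ.range hAc ψ y hy
    refine ⟨i₀, c, y', hc, hy', fun P hP => ?_, ?_⟩
    · obtain ⟨Q, hQ⟩ := exists_subst_ring φ.range
        (φ.rangeRestrict.comp (Polynomial.C : K →+* Polynomial K)) P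
        (fun p : ι × τ => (Sum.inl p : (ι × τ) ⊕ φ.range))
      have h1 := hrel Q
      rw [hQ, hQ] at h1
      have h2 := h1 (by
        rw [← hP, aeval_def]
        congr 1
        ext x
        simp only [RingHom.comp_apply, hsub]
        simp [φ])
      rw [← h2, aeval_def]
      congr 1
      ext x
      have := hψ (Polynomial.C x)
      simp only [RingHom.comp_apply]
      rw [this]
      simp [φ₀]
    · have h1 := hrel (∑ a, C (φ.rangeRestrict (Polynomial.C (l a))) * X (i₀, a) -
        C (φ.rangeRestrict Polynomial.X) * X (i₀, a₀))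
      simp only [eval₂_sub, eval₂_sum, eval₂_mul, eval₂_C, eval₂_X, hψ] at h1
      have h2 := h1 (by
        have e1 : ∀ a, φ.range.subtype (φ.rangeRestrict (Polynomial.C (l a))) = (l a : Ω) := by
          intro a
          rw [hsub]
          simp [φ]
          rfl
        have e2 : φ.range.subtype (φ.rangeRestrict Polynomial.X) = s := by
          rw [hsub]
          simp [φ]
        simp only [e1, e2]
        have e3 : ∑ a, (l a : Ω) * (c i₀ * y i₀ a) = c i₀ * L := by
          rw [hL, Finset.mul_sum]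
          exact Finset.sum_congr rfl fun a _ => by ring
        rw [e3, hs]
        field_simp
        ring)
      have e4 : ∀ x, φ₀ (Polynomial.C (l x)) = (l x : Ω) := by
        intro x
        simp [φ₀]
        rfl
      have e5 : φ₀ Polynomial.X = 0 := by simp [φ₀]
      simpa only [e4, e5, zero_mul, sub_zero] using h2

end Pool.Agent.Y148.OD
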