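import Pool.Agent.Y148.OD.Defs

/-!
# Statements of the lemmas (jobs) of project OD
-/

set_option autoImplicit false

namespace Pool.Agent.Y148.OD

open MvPolynomial

/-- OD-1. Additivity of the transcendence degree. -/
def StmUnion : Prop := ∀ (Ω : Type) [Field Ω] (K : Subfield Ω) (S T : Set Ω),
  rk K (S ∪ T) = rk K T + rk (adj K T) S

/-- OD-2. Homomorphisms of countable fields into an uncountable algebraically closed field can be
extended to countable extensions. -/
def StmHom : Prop := ∀ (Ω : Type) [Field Ω] [IsAlgClosed Ω] [Uncountable Ω] (E F : Type) [Field E]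
  [Field F] [Countable F] (f : E →+* F) (g : E →+* Ω), ∃ h : F →+* Ω, h.comp f = g

/-- OD-3. Generic specialisations: every finite family `y` has the same polynomial relations over
`K` as a family `y'` whose transcendence degree over `L` is that of `y` over `K`. -/
def StmGeneric : Prop := ∀ (Ω : Type) [Field Ω] [IsAlgClosed Ω] [Uncountable Ω] (σ : Type)
  [Finite σ] (K L : Subfield Ω), K ≤ L → Countable L → ∀ y : σ → Ω, ∃ y' : σ → Ω,
    (∀ P : MvPolynomial σ K, aeval y P = 0 ↔ aeval y' P = 0) ∧
      rk L (Set.range y') = rk K (Set.range y)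

/-- OD-4. Extension of specialisations to projective points: for a homomorphism `ψ` from a countable
subring `A` of `Ω` to `Ω` and nonzero vectors `y i` there are multiples `c i * y i` and nonzero
vectors `y' i` such that all polynomial relations over `A` between the coordinates of the `c i * y i`
hold, after applying `ψ` to the coefficients, for the `y' i`. -/
def StmSpec : Prop := ∀ (Ω : Type) [Field Ω] [IsAlgClosed Ω] [Uncountable Ω] (ι τ : Type)
  [Finite ι] [Finite τ] (A : Subring Ω), Countable A → ∀ (ψ : A →+* Ω) (y : ι → τ → Ω),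
    (∀ i, y i ≠ 0) → ∃ (c : ι → Ω) (y' : ι → τ → Ω), (∀ i, c i ≠ 0) ∧ (∀ i, y' i ≠ 0) ∧
      ∀ P : MvPolynomial (ι × τ) A, eval₂ A.subtype (fun p => c p.1 * y p.1 p.2) P = 0 →
        eval₂ ψ (fun p => y' p.1 p.2) P = 0

/-- OD-5. Points of maximal transcendence degree are generic: `V` is the set of the nonzero zeros of
finitely many polynomials over `K`, the polynomials over `Ω` vanishing on `V` form a prime ideal and
the transcendence degree of the vectors in `V` over some countable subfield is at most `M`. -/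
def StmPoint : Prop := ∀ (Ω : Type) [Field Ω] [IsAlgClosed Ω] [Uncountable Ω] (τ : Type) [Finite τ]
  (V : Set (τ → Ω)) (M : ℕ) (K : Subfield Ω), Countable K →
    (∃ S : Set (MvPolynomial τ K), ∀ v : τ → Ω, v ∈ V ↔ v ≠ 0 ∧ ∀ P ∈ S, aeval v P = 0) →
    V.Nonempty →
    (∀ P Q : MvPolynomial τ Ω, (∀ v ∈ V, eval v P * eval v Q = 0) →
      (∀ v ∈ V, eval v P = 0) ∨ (∀ v ∈ V, eval v Q = 0)) →
    (∃ L : Subfield Ω, Countable L ∧ ∀ v ∈ V, rk L (Set.range v) ≤ M) →
    (∀ v ∈ V, rk K (Set.range v) ≤ M) ∧
    ∀ v ∈ V, (M : ℕ∞) ≤ rk K (Set.range v) → ∀ P : MvPolynomial τ K, aeval v P = 0 →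
      ∀ w ∈ V, aeval w P = 0

end Pool.Agent.Y148.OD
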