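import Pool.Agent.Y148.OD.Stm2
import Pool.Agent.Y148.OD.Stm3
import Pool.Agent.Y914.OD.Rat
import Pool.Agent.Y809.OD.Place
import Pool.Agent.Y809.OD.Newton
import Pool.Agent.Y809.OD.Reduce
import Pool.Agent.Y710.OD.Chain
import Pool.Agent.Y737.OD.Stab
import Pool.Agent.Y434.OD.Res
import Pool.Agent.Y758.OD.Space
import Pool.Agent.Y73.OD.Ld
import Pool.Agent.Y165.OD.Moving
import Pool.Agent.Y71.OD.Curve
import Pool.Agent.Y899.OD.Comp

/-!
# The lemmas of project OD, assembled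
-/

set_option autoImplicit false

namespace Pool.Agent.Y148.OD

theorem stmStab : StmStab :=
  Pool.Agent.Y737.OD.stab_of Pool.Agent.Y914.OD.stmRat Pool.Agent.Y809.OD.place
    (Pool.Agent.Y710.OD.chain_of Pool.Agent.Y809.OD.newton Pool.Agent.Y809.OD.reduce)

theorem stmComp : StmComp := Pool.Agent.Y899.OD.comp

theorem stmCurve : StmCurve :=
  Pool.Agent.Y71.OD.curve_of (Pool.Agent.Y165.OD.moving_of Pool.Agent.Y73.OD.stmLD
    (Pool.Agent.Y758.OD.space_of Pool.Agent.Y434.OD.Res.stmRes))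

end Pool.Agent.Y148.OD
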