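import Pool.Agent.Y148.OD.SC

/-!
# Semicontinuity of the dimension of the orbits, second part
-/

set_option autoImplicit false

namespace Pool.Agent.Y148.OD

open MvPolynomial

variable {Ω : Type} [Field Ω] {τ : Type} {A : Type} [AddCommGroup A]

theorem coords_cons {n : ℕ} (v : τ → Ω) (u : Fin n → τ → Ω) :
    coords (Fin.cons v u : Fin (n + 1) → τ → Ω) = coords u ∪ Set.range v := by
  ext c
  constructor
  · rintro ⟨i, a, ha⟩
    revert ha
    refine Fin.cases (fun ha => ?_) (fun i ha => ?_) i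
    · exact Or.inr ⟨a, ha.symm⟩
    · exact Or.inl ⟨i, a, ha⟩
  · rintro (⟨i, a, ha⟩ | ⟨a, ha⟩)
    · exact ⟨i.succ, a, ha⟩
    · exact ⟨0, a, ha.symm⟩

/-- **Generic hyperplanes through a point.** -/
theorem exists_hypers [IsAlgClosed Ω] [Uncountable Ω] [Fintype τ] {K : Subfield Ω}
    (hK : Countable K) {ι : Type} [Fintype ι] {y : ι → τ → Ω} (hy : ∀ i, y i ≠ 0) (R : ℕ) :
    ∀ b : ℕ, ((b + R + Fintype.card ι : ℕ) : ℕ∞) ≤ rk K (coords y) →
      ∃ (i : Fin R → ι) (u : Fin R → τ → Ω), (∀ j, ∑ a, u j a * y (i j) a = 0) ∧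
        ((R * Fintype.card τ : ℕ) : ℕ∞) ≤ rk K (coords u) ∧
        ((b + Fintype.card ι : ℕ) : ℕ∞) ≤ rk (adj K (coords u)) (coords y) := by
  induction R with
  | zero =>
    intro b hb
    refine ⟨Fin.elim0, Fin.elim0, fun j => j.elim0, by simp, ?_⟩
    have h1 : adj K (coords (Fin.elim0 : Fin 0 → τ → Ω)) ≤ K := by
      refine adj_le le_rfl ?_
      rintro c ⟨i, -⟩
      exact i.elim0
    exact hb.trans (rk_anti h1 _)
  | succ R ih =>
    intro b hb
    obtain ⟨i, u, hu1, hu2, hu3⟩ := ih (b + 1) (by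
      have e : b + 1 + R + Fintype.card ι = b + (R + 1) + Fintype.card ι := by ring
      rw [e]
      exact hb)
    have hKc : Countable (adj K (coords u)) := countable_adj (countable_coords u)
    obtain ⟨i₀, v, hv1, hv2, hv3⟩ := exists_hyper hKc hy (by
      refine lt_of_lt_of_le ?_ hu3
      exact_mod_cast (by omega : Fintype.card ι < b + 1 + Fintype.card ι))
    refine ⟨Fin.cons i₀ i, Fin.cons v u, fun j => ?_, ?_, ?_⟩
    · refine Fin.cases ?_ (fun j => ?_) j
      · simpa using hv1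
      · simpa using hu1 j
    · rw [coords_cons, rk_adj_union]
      calc (((R + 1) * Fintype.card τ : ℕ) : ℕ∞) =
            ((R * Fintype.card τ : ℕ) : ℕ∞) + ((Fintype.card τ : ℕ) : ℕ∞) := by
            push_cast
            ring
        _ ≤ _ := add_le_add hu2 hv2
    · rw [coords_cons, ← adj_adj]
      have h1 := hu3.trans hv3
      have h2 : ((b + Fintype.card ι : ℕ) : ℕ∞) + 1 ≤
          rk (adj (adj K (coords u)) (Set.range v)) (coords y) + 1 := by
        refine le_trans (le_of_eq ?_) h1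
        push_cast
        ring
      exact (ENat.add_le_add_iff_right (by simp)).mp h2

theorem exists_nat_rk [IsAlgClosed Ω] [Uncountable Ω] [Finite τ] {k K : Subfield Ω}
    {V : Set (τ → Ω)} {M : ℕ} (h : Setup k V M) (hkK : k ≤ K) {ι : Type}
    [Fintype ι] {y : ι → τ → Ω} (hy : ∀ i, y i ∈ V) : ∃ m : ℕ, (m : ℕ∞) = rk K (coords y) := by
  have h1 : rk K (coords y) ≤ ((M * Fintype.card ι : ℕ) : ℕ∞) :=
    (rk_anti hkK _).trans (rk_coords_le h hy)
  exact ENat.ne_top_iff_exists.mp (ne_top_of_le_ne_top (ENat.natCast_ne_top _) h1)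

/-- A generic pair over a bigger field. -/
theorem exists_generic_pair [IsAlgClosed Ω] [Uncountable Ω] [Finite τ] {k : Subfield Ω}
    {V : Set (τ → Ω)} {M : ℕ} (h : Setup k V M) {cl : (τ → Ω) → A} (hc : Cls k V cl) {n : ℕ}
    {z y : Fin n → τ → Ω} (hz : ∀ i, z i ∈ V) (hy : ∀ i, y i ∈ V)
    (hcl : ∑ i, cl (z i) = ∑ i, cl (y i)) (hzr : ((M * n : ℕ) : ℕ∞) ≤ rk k (coords z)) {b : ℕ}
    (hr : (b : ℕ∞) ≤ rk (adj k (coords z)) (coords y)) {L : Subfield Ω} (hkL : k ≤ L)
    (hL : Countable L) :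
    ∃ z' y' : Fin n → τ → Ω, (∀ i, z' i ∈ V) ∧ (∀ i, y' i ∈ V) ∧
      ∑ i, cl (z' i) = ∑ i, cl (y' i) ∧ ((M * n : ℕ) : ℕ∞) ≤ rk L (coords z') ∧
      (b : ℕ∞) ≤ rk (adj L (coords z')) (coords y') := by
  obtain ⟨x, hx1, hx2⟩ := stmGeneric Ω ((Fin n ⊕ Fin n) × τ) k L hkL hL
    (fun p => Sum.elim z y p.1 p.2)
  set z' : Fin n → τ → Ω := fun i a => x (Sum.inl i, a) with hz'
  set y' : Fin n → τ → Ω := fun i a => x (Sum.inr i, a) with hy'
  have hx : x = fun p : (Fin n ⊕ Fin n) × τ => Sum.elim z' y' p.1 p.2 := by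
    funext p
    obtain ⟨i | i, a⟩ := p <;> rfl
  have hne : ∀ (f f' : Fin n → τ → Ω), (∀ i, f i ≠ 0) → (∀ i a, f' i a = 0 → f i a = 0) →
      ∀ i, f' i ≠ 0 := by
    intro f f' hf hff i h0
    exact hf i (funext fun a => hff i a (congrFun h0 a))
  have hz0 : ∀ i, z' i ≠ 0 := hne z z' (fun i => hc.ne_zero _ (hz i)) (fun i a h0 => by
    have h1 := (hx1 (X (Sum.inl i, a))).mpr (by
      rw [aeval_X]
      exact h0)
    rw [aeval_X] at h1
    exact h1)
  have hy0 : ∀ i, y' i ≠ 0 := hne y y' (fun i => hc.ne_zero _ (hy i)) (fun i a h0 => by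
    have h1 := (hx1 (X (Sum.inr i, a))).mpr (by
      rw [aeval_X]
      exact h0)
    rw [aeval_X] at h1
    exact h1)
  obtain ⟨hzV, hyV, hsum⟩ := hc.stab (Fin n) (Fin n) rfl z y z' y' hz hy hcl hz0 hy0
    (fun P hP => by
      rw [← hx]
      exact (hx1 P).mp hP)
  -- the ranks
  have hsubrk : ∀ (s : Fin n × τ → (Fin n ⊕ Fin n) × τ),
      rk k (Set.range fun q => x (s q)) ≤
        rk k (Set.range fun q => Sum.elim z y (s q).1 (s q).2) := by
    intro s
    refine Pool.Agent.Y141.OD.rk_le k k le_rfl _ _ fun P hP => ?_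
    have h1 := (hx1 (rename s P)).mp (by
      rw [aeval_rename]
      exact hP)
    rw [aeval_rename] at h1
    exact h1
  have htot : rk L (coords z' ∪ coords y') = rk k (coords z ∪ coords y) := by
    rw [← coords_sum_elim, ← coords_sum_elim, coords_eq_range, coords_eq_range, ← hx]
    exact hx2
  have htot' : rk k (coords z' ∪ coords y') = rk k (coords z ∪ coords y) := by
    refine le_antisymm ?_ ?_
    · rw [← coords_sum_elim, ← coords_sum_elim, coords_eq_range, coords_eq_range, ← hx]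
      exact Pool.Agent.Y141.OD.rk_le k k le_rfl _ _ fun P hP => (hx1 P).mp hP
    · rw [← htot]
      exact rk_anti hkL _
  have hz'r : rk k (coords z') ≤ rk k (coords z) := by
    rw [coords_eq_range z', coords_eq_range z]
    exact hsubrk (fun q => (Sum.inl q.1, q.2))
  have hz'r2 : rk k (coords z) ≤ rk k (coords z') := by
    rw [coords_eq_range z', coords_eq_range z]
    refine Pool.Agent.Y141.OD.rk_le k k le_rfl _ _ fun P hP => ?_
    have h1 := (hx1 (rename (fun q : Fin n × τ => ((Sum.inl q.1, q.2) :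
      (Fin n ⊕ Fin n) × τ)) P)).mpr (by
      rw [aeval_rename]
      exact hP)
    rw [aeval_rename] at h1
    exact h1
  obtain ⟨a₁, h₁⟩ := exists_nat_rk h le_rfl hz
  obtain ⟨a₂, h₂⟩ := exists_nat_rk h (le_adj_left k (coords z)) hy
  obtain ⟨a₃, h₃⟩ := exists_nat_rk h le_rfl hzV
  obtain ⟨a₄, h₄⟩ := exists_nat_rk h (le_adj_left k (coords z')) hyV
  obtain ⟨a₅, h₅⟩ := exists_nat_rk h hkL hzV
  obtain ⟨a₆, h₆⟩ := exists_nat_rk h (hkL.trans (le_adj_left L (coords z'))) hyV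
  have hM := rk_coords_le h hzV
  rw [Fintype.card_fin] at hM
  have h6le : rk (adj L (coords z')) (coords y') ≤ rk (adj k (coords z')) (coords y') :=
    rk_anti (adj_le (hkL.trans (le_adj_left _ _)) (subset_adj _ _)) _
  have h5le : rk L (coords z') ≤ rk k (coords z') := rk_anti hkL _
  rw [rk_adj_union, rk_adj_union] at htot htot'
  rw [← h₁, ← h₂, ← h₅, ← h₆] at htot
  rw [← h₁, ← h₂, ← h₃, ← h₄] at htot'
  rw [← h₁, ← h₃] at hz'r hz'r2
  rw [← h₁] at hzr
  rw [← h₂] at hr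
  rw [← h₆, ← h₄] at h6le
  rw [← h₅, ← h₃] at h5le
  rw [← h₃] at hM
  norm_cast at htot htot' hz'r hz'r2 hzr hr h6le h5le hM
  refine ⟨z', y', hzV, hyV, hsum, ?_, ?_⟩
  · rw [← h₅]
    exact_mod_cast (by omega : M * n ≤ a₅)
  · rw [← h₆]
    exact_mod_cast (by omega : b ≤ a₆)

/-- generic multiples of normalised vectors -/
theorem exists_rescale [IsAlgClosed Ω] [Uncountable Ω] [Countable τ] {K : Subfield Ω}
    (hK : Countable K) {ι : Type} [Fintype ι] {y : ι → τ → Ω} (b : ι → τ)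
    (hb : ∀ i, y i (b i) = 1) {R : ℕ} (hr : (R : ℕ∞) ≤ rk K (coords y)) :
    ∃ c : ι → Ω, (∀ i, c i ≠ 0) ∧
      ((R + Fintype.card ι : ℕ) : ℕ∞) ≤ rk K (coords fun i => c i • y i) := by
  have hK1 : Countable (adj K (coords y)) := countable_adj (countable_coords y)
  obtain ⟨c, hc⟩ := Pool.Agent.Y141.OD.exists_indep (adj K (coords y)) hK1 ι
  refine ⟨c, fun i => hc.ne_zero i, ?_⟩
  have h1 : ((Fintype.card ι : ℕ) : ℕ∞) ≤ rk (adj K (coords y)) (Set.range c) := by
    refine le_rk_iff.mpr ⟨Set.range c, subset_rfl, hc.to_subtype_range, ?_⟩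
    rw [← Set.image_univ, Function.Injective.encard_image hc.injective, Set.encard_univ,
      ENat.card_eq_coe_fintype_card]
  calc ((R + Fintype.card ι : ℕ) : ℕ∞) = (R : ℕ∞) + ((Fintype.card ι : ℕ) : ℕ∞) := by
        push_cast
        rfl
    _ ≤ rk K (coords y) + rk (adj K (coords y)) (Set.range c) := add_le_add hr h1
    _ = rk K (coords y ∪ Set.range c) := (rk_adj_union _ _ _).symm
    _ ≤ _ := rk_le_of_mem ?_
  have hci : ∀ i, c i ∈ adj K (coords fun i => c i • y i) := by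
    intro i
    refine subset_adj _ _ ⟨i, b i, ?_⟩
    simp [hb i]
  rintro x (⟨i, a, rfl⟩ | ⟨i, rfl⟩)
  · have h2 : y i a = (c i • y i) a / c i := by
      simp only [Pi.smul_apply, smul_eq_mul]
      rw [mul_div_cancel_left₀ _ (hc.ne_zero i)]
    rw [h2]
    exact div_mem (subset_adj _ _ ⟨i, a, rfl⟩) (hci i)
  · exact hci i

/-- **Semicontinuity.** If the orbit of a generic zero-cycle contains a point of transcendence degree
`R + n`, then all orbits contain points of transcendence degree at least `R + n`. -/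
theorem semicont [IsAlgClosed Ω] [Uncountable Ω] [Fintype τ] {k : Subfield Ω}
    {V : Set (τ → Ω)} {M : ℕ} (h : Setup k V M) {cl : (τ → Ω) → A} (hc : Cls k V cl) {n : ℕ}
    {z y : Fin n → τ → Ω} (hz : ∀ i, z i ∈ V) (hy : ∀ i, y i ∈ V)
    (hcl : ∑ i, cl (z i) = ∑ i, cl (y i)) (hzr : ((M * n : ℕ) : ℕ∞) ≤ rk k (coords z)) {R : ℕ}
    (hr : ((R + n : ℕ) : ℕ∞) ≤ rk (adj k (coords z)) (coords y)) {z₀ : Fin n → τ → Ω}
    (hz₀ : ∀ i, z₀ i ∈ V) : Big V cl z₀ (R + n) := by
  classical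
  intro L hL
  have hk := h.countable
  set L₁ := adj L ((k : Set Ω) ∪ coords z₀) with hL₁
  have hL₁c : Countable L₁ := countable_adj ((Set.countable_coe_iff.mp hk).union
    (countable_coords z₀))
  have hkL₁ : k ≤ L₁ := fun x hx => subset_adj _ _ (Or.inl hx)
  obtain ⟨z', y', hz', hy', hcl', hz'r, hy'r⟩ :=
    exists_generic_pair h hc hz hy hcl hzr hr hkL₁ hL₁c
  set K := adj L₁ (coords z') with hK
  have hKc : Countable K := countable_adj (countable_coords z')
  obtain ⟨i, u, hu0, hur, -⟩ := exists_hypers hKc (y := y') (fun i => hc.ne_zero _ (hy' i)) R 0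
    (by
      rw [Fintype.card_fin, zero_add]
      exact hy'r)
  set L₂ := adj L₁ (coords u) with hL₂
  have hL₂c : Countable L₂ := countable_adj (countable_coords u)
  have hkL₂ : k ≤ L₂ := hkL₁.trans (le_adj_left _ _)
  have hule : rk L₁ (coords u) ≤ ((R * Fintype.card τ : ℕ) : ℕ∞) := by
    rw [coords_eq_range, ← Set.image_univ]
    refine (rk_le_encard _ _).trans ((Set.encard_image_le _ _).trans ?_)
    rw [Set.encard_univ, ENat.card_eq_coe_fintype_card, Fintype.card_prod, Fintype.card_fin]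
  have hz'r2 : ((M * n : ℕ) : ℕ∞) ≤ rk L₂ (coords z') := by
    refine cancel_aux (p := R * Fintype.card τ) (q := M * n) ?_ hule
    rw [← rk_adj_union, Set.union_comm, rk_adj_union]
    calc ((R * Fintype.card τ + M * n : ℕ) : ℕ∞) =
          ((M * n : ℕ) : ℕ∞) + ((R * Fintype.card τ : ℕ) : ℕ∞) := by
          push_cast
          ring
      _ ≤ _ := add_le_add hz'r hur
  have hS : Setup L₂ V M := h.mono hkL₂ hL₂c
  have hc₂ : Cls L₂ V cl := hc.mono hkL₂
  have huL : ∀ j a, u j a ∈ L₂ := fun j a => subset_adj _ _ ⟨j, a, rfl⟩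
  have haev : ∀ (j : Fin R) (zz yy : Fin n → τ → Ω),
      aeval (fun p => Sum.elim zz yy p.1 p.2)
        (∑ a, C (⟨u j a, huL j a⟩ : L₂) * X (Sum.inr (i j), a) :
          MvPolynomial ((Fin n ⊕ Fin n) × τ) L₂) = ∑ a, u j a * yy (i j) a := by
    intro j zz yy
    rw [map_sum]
    refine Finset.sum_congr rfl fun a _ => ?_
    rw [map_mul, aeval_C, aeval_X]
    rfl
  obtain ⟨y₀, hy₀0, hz₀V, hy₀V, hsum₀, hu₀⟩ := hS.specialise
    (fun (zz yy : Fin n → τ → Ω) => (∀ i, zz i ∈ V) ∧ (∀ i, yy i ∈ V) ∧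
      ∑ i, cl (zz i) = ∑ i, cl (yy i) ∧ ∀ j, ∑ a, u j a * yy (i j) a = 0)
    (fun zz yy zz' yy' hzy hzz' hyy' hP => by
      obtain ⟨h1, h2, h3, h4⟩ := hzy
      obtain ⟨e1, e2, e3⟩ := hc₂.stab (Fin n) (Fin n) rfl zz yy zz' yy' h1 h2 h3 hzz' hyy' hP
      refine ⟨e1, e2, e3, fun j => ?_⟩
      rw [← haev j zz' yy']
      exact hP _ (by rw [haev]; exact h4 j))
    (fun zz yy c hc' hzy => by
      obtain ⟨h1, h2, h3, h4⟩ := hzy
      refine ⟨h1, fun i => hc.smul_mem (c i) (yy i) (hc' i) (h2 i), ?_, fun j => ?_⟩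
      · rw [h3]
        exact Finset.sum_congr rfl fun i _ => (hc.smul_cl (c i) (yy i) (hc' i) (h2 i)).symm
      · have : ∑ a, u j a * (c (i j) * yy (i j) a) = c (i j) * ∑ a, u j a * yy (i j) a := by
          rw [Finset.mul_sum]
          exact Finset.sum_congr rfl fun a _ => by ring
        rw [this, h4 j, mul_zero])
    hz' (by rw [Fintype.card_fin]; exact hz'r2) (y := y') (fun i => hc.ne_zero _ (hy' i))
    ⟨hz', hy', hcl', hu0⟩ hz₀
  -- normalise
  have hne : ∀ i, ∃ b, y₀ i b ≠ 0 := by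
    intro i
    by_contra hcon
    push Not at hcon
    exact hy₀0 i (funext hcon)
  choose b hb using hne
  set y₁ : Fin n → τ → Ω := fun i => (y₀ i (b i))⁻¹ • y₀ i with hy₁
  have hb1 : ∀ i, y₁ i (b i) = 1 := fun i => by
    simp only [hy₁, Pi.smul_apply, smul_eq_mul]
    exact inv_mul_cancel₀ (hb i)
  have hu₁ : ∀ j, ∑ a, u j a * y₁ (i j) a = 0 := by
    intro j
    have : ∑ a, u j a * y₁ (i j) a = (y₀ (i j) (b (i j)))⁻¹ * ∑ a, u j a * y₀ (i j) a := by
      rw [Finset.mul_sum]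
      refine Finset.sum_congr rfl fun a _ => ?_
      simp only [hy₁, Pi.smul_apply, smul_eq_mul]
      ring
    rw [this, hu₀ j, mul_zero]
  have hR : (R : ℕ∞) ≤ rk L₁ (coords y₁) := by
    set K₁ := adj L₁ (coords y₁) with hK₁
    -- the coordinates of `u` are determined by all but one of each
    have h1 : rk K₁ (coords u) ≤ ((R * (Fintype.card τ - 1) : ℕ) : ℕ∞) := by
      have h2 : rk K₁ (coords u) ≤ rk K₁
          (Set.range fun q : (j : Fin R) × {a : τ // a ≠ b (i j)} => u q.1 q.2) := by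
        refine rk_le_of_mem ?_
        rintro x ⟨j, a, rfl⟩
        by_cases ha : a = b (i j)
        · have h3 : u j a = - ∑ a' ∈ Finset.univ.erase (b (i j)), u j a' * y₁ (i j) a' := by
            have h4 := hu₁ j
            rw [← Finset.add_sum_erase _ _ (Finset.mem_univ (b (i j))), hb1, mul_one] at h4
            rw [ha]
            exact eq_neg_of_add_eq_zero_left h4
          rw [h3]
          refine neg_mem (sum_mem fun a' ha' => mul_mem (subset_adj _ _ ?_) (le_adj_left _ _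
            (subset_adj _ _ ⟨i j, a', rfl⟩)))
          exact ⟨⟨j, a', (Finset.mem_erase.mp ha').1⟩, rfl⟩
        · exact subset_adj _ _ ⟨⟨j, a, ha⟩, rfl⟩
      refine h2.trans ?_
      rw [← Set.image_univ]
      refine (rk_le_encard _ _).trans ((Set.encard_image_le _ _).trans ?_)
      rw [Set.encard_univ, ENat.card_eq_coe_fintype_card, Fintype.card_sigma]
      have h3 : ∀ j : Fin R, Fintype.card {a : τ // a ≠ b (i j)} = Fintype.card τ - 1 := by
        intro j
        rw [Fintype.card_subtype_compl, Fintype.card_subtype_eq]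
      simp only [h3, Finset.sum_const, Finset.card_univ, Fintype.card_fin, smul_eq_mul]
      exact le_rfl
    have h2 : ((R * Fintype.card τ : ℕ) : ℕ∞) ≤ rk K₁ (coords u) + rk L₁ (coords y₁) := by
      rw [add_comm, ← rk_adj_union]
      exact hur.trans ((rk_anti (le_adj_left _ _) _).trans (rk_mono _ Set.subset_union_right))
    refine cancel_aux (p := R * (Fintype.card τ - 1)) (q := R) ?_ h1
    refine le_trans (le_of_eq ?_) h2
    by_cases hR0 : R = 0
    · simp [hR0]
    · have h3 : 0 < Fintype.card τ := Fintype.card_pos_iff.mpr ⟨b (i ⟨0, Nat.pos_of_ne_zero hR0⟩)⟩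
      obtain ⟨t, ht⟩ : ∃ t, Fintype.card τ = t + 1 := ⟨Fintype.card τ - 1, by omega⟩
      rw [ht]
      simp only [Nat.add_sub_cancel]
      congr 1
  obtain ⟨c, hc0, hcr⟩ := exists_rescale hL₁c b hb1 hR
  rw [Fintype.card_fin] at hcr
  have hy₁V : ∀ i, y₁ i ∈ V := fun i => hc.smul_mem _ _ (inv_ne_zero (hb i)) (hy₀V i)
  refine ⟨fun i => c i • y₁ i, fun i => hc.smul_mem _ _ (hc0 i) (hy₁V i), ?_, ?_⟩
  · rw [hsum₀]
    refine Finset.sum_congr rfl fun i _ => ?_
    rw [hc.smul_cl _ _ (hc0 i) (hy₁V i), hc.smul_cl _ _ (inv_ne_zero (hb i)) (hy₀V i)]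
  · exact hcr.trans (rk_anti (le_adj_left _ _) _)

end Pool.Agent.Y148.OD
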