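import Pool.Agent.Y148.OD.Facts
import Pool.Agent.Y839.OD.Comb
import Pool.Agent.Y246.OD.Dist

/-!
# The lemmas of project OD on pairs, assembled
-/

set_option autoImplicit false

namespace Pool.Agent.Y148.OD

theorem stmDist : StmDist := Pool.Agent.Y246.OD.stmDist Pool.Agent.Y839.OD.stmComb

end Pool.Agent.Y148.OD
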