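import Pool.Agent.Y148.OD.Basic

/-!
# Generic points of powers of a variety
-/

set_option autoImplicit false

namespace Pool.Agent.Y148.OD

open MvPolynomial

variable {Ω : Type} [Field Ω] {τ : Type}

/-- `V` is an irreducible closed cone of dimension `M` without its vertex, defined over `k`. -/
structure Setup (k : Subfield Ω) (V : Set (τ → Ω)) (M : ℕ) : Prop where
  countable : Countable k
  closed : ∃ S : Set (MvPolynomial τ k), ∀ v : τ → Ω, v ∈ V ↔ v ≠ 0 ∧ ∀ P ∈ S, aeval v P = 0
  prime : ∀ P Q : MvPolynomial τ Ω, (∀ v ∈ V, eval v P * eval v Q = 0) →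
      (∀ v ∈ V, eval v P = 0) ∨ (∀ v ∈ V, eval v Q = 0)
  upper : ∃ L : Subfield Ω, Countable L ∧ ∀ v ∈ V, rk L (Set.range v) ≤ M
  lower : ∀ L : Subfield Ω, Countable L → ∃ v ∈ V, (M : ℕ∞) ≤ rk L (Set.range v)

/-- substitution of elements of `K` for some of the variables -/
theorem exists_subst {σ σ' : Type} {k K : Subfield Ω} (h : k ≤ K) (P : MvPolynomial σ k)
    (f : σ → σ' ⊕ K) : ∃ Q : MvPolynomial σ' K, ∀ w : σ' → Ω,
      aeval w Q = aeval (fun s => Sum.elim w (fun c : K => (c : Ω)) (f s)) P := by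
  refine ⟨eval₂ (C.comp (Subfield.inclusion h)) (fun s => Sum.elim X C (f s)) P, fun w => ?_⟩
  have h1 : aeval w (eval₂ (C.comp (Subfield.inclusion h)) (fun s => Sum.elim X C (f s)) P) =
      eval₂ ((aeval w : MvPolynomial σ' K →ₐ[K] Ω).toRingHom.comp (C.comp (Subfield.inclusion h)))
        (fun s => (aeval w : MvPolynomial σ' K →ₐ[K] Ω).toRingHom (Sum.elim X C (f s))) P :=
    hom_eval₂ P _ (aeval w : MvPolynomial σ' K →ₐ[K] Ω).toRingHom _
  rw [h1, aeval_def]
  congr 1
  · ext x
    simp
    rfl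
  · funext s
    rcases f s with a | c
    · simp
    · simp
      try rfl

theorem Setup.nonempty {k : Subfield Ω} {V : Set (τ → Ω)} {M : ℕ} (h : Setup k V M) :
    V.Nonempty := by
  obtain ⟨v, hv, -⟩ := h.lower k h.countable
  exact ⟨v, hv⟩

theorem Setup.point [IsAlgClosed Ω] [Uncountable Ω] [Finite τ] {k : Subfield Ω}
    {V : Set (τ → Ω)} {M : ℕ} (h : Setup k V M) {K : Subfield Ω} (hk : k ≤ K) (hK : Countable K) :
    (∀ v ∈ V, rk K (Set.range v) ≤ M) ∧
    ∀ v ∈ V, (M : ℕ∞) ≤ rk K (Set.range v) → ∀ P : MvPolynomial τ K, aeval v P = 0 →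
      ∀ w ∈ V, aeval w P = 0 := by
  refine stmPoint Ω τ V M K hK ?_ h.nonempty h.prime h.upper
  obtain ⟨S, hS⟩ := h.closed
  refine ⟨MvPolynomial.map (Subfield.inclusion hk) '' S, fun v => ?_⟩
  rw [hS]
  refine and_congr_right fun _ => ?_
  rw [Set.forall_mem_image]
  refine forall₂_congr fun P _ => ?_
  rw [aeval_def, aeval_def, eval₂_map]
  rfl

theorem coords_eq_range {ι : Type} (y : ι → τ → Ω) :
    coords y = Set.range (fun p : ι × τ => y p.1 p.2) := by
  ext c
  simp only [coords, Set.mem_ofPred_eq, Set.mem_range, Prod.exists]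
  exact ⟨fun ⟨i, a, h⟩ => ⟨i, a, h.symm⟩, fun ⟨i, a, h⟩ => ⟨i, a, h.symm⟩⟩

/-- the coordinates of the vectors `y i`, `i ∈ J` -/
def cof {ι : Type} (J : Set ι) (y : ι → τ → Ω) : Set Ω := {c | ∃ i ∈ J, ∃ a, c = y i a}

theorem cof_univ {ι : Type} (y : ι → τ → Ω) : cof Set.univ y = coords y := by
  ext c
  simp [cof, coords]

theorem cof_insert {ι : Type} (J : Set ι) (i : ι) (y : ι → τ → Ω) :
    cof (insert i J) y = Set.range (y i) ∪ cof J y := by
  ext c
  simp only [cof, Set.mem_insert_iff, Set.mem_ofPred_eq, Set.mem_union, Set.mem_range]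
  constructor
  · rintro ⟨j, rfl | h, a, ha⟩
    · exact Or.inl ⟨a, ha.symm⟩
    · exact Or.inr ⟨j, h, a, ha⟩
  · rintro (⟨a, ha⟩ | ⟨j, h, a, ha⟩)
    · exact ⟨i, Or.inl rfl, a, ha.symm⟩
    · exact ⟨j, Or.inr h, a, ha⟩

theorem cof_union {ι : Type} (J J' : Set ι) (y : ι → τ → Ω) :
    cof (J ∪ J') y = cof J y ∪ cof J' y := by
  ext c
  simp only [cof, Set.mem_union, Set.mem_ofPred_eq]
  constructor
  · rintro ⟨i, h | h, a, ha⟩
    · exact Or.inl ⟨i, h, a, ha⟩
    · exact Or.inr ⟨i, h, a, ha⟩
  · rintro (⟨i, h, a, ha⟩ | ⟨i, h, a, ha⟩)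
    · exact ⟨i, Or.inl h, a, ha⟩
    · exact ⟨i, Or.inr h, a, ha⟩

theorem cof_empty {ι : Type} (y : ι → τ → Ω) : cof (∅ : Set ι) y = ∅ := by
  ext c
  simp [cof]

theorem cof_mono {ι : Type} {J J' : Set ι} (h : J ⊆ J') (y : ι → τ → Ω) :
    cof J y ⊆ cof J' y := by
  rintro c ⟨i, hi, a, ha⟩
  exact ⟨i, h hi, a, ha⟩

theorem cof_subset_coords {ι : Type} (J : Set ι) (y : ι → τ → Ω) : cof J y ⊆ coords y := by
  rintro c ⟨i, hi, a, ha⟩
  exact ⟨i, a, ha⟩

theorem rk_empty (K : Subfield Ω) : rk K ∅ = 0 := Matroid.eRk_empty _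

/-- a bound for the rank of a finite family of vectors of bounded rank -/
theorem rk_cof_le {ι : Type} [DecidableEq ι] {K : Subfield Ω} {y : ι → τ → Ω} {b : ℕ}
    (J : Finset ι) (h : ∀ i ∈ J, rk K (Set.range (y i)) ≤ b) :
    rk K (cof (J : Set ι) y) ≤ (b * J.card : ℕ) := by
  induction J using Finset.induction_on with
  | empty => simp [cof_empty, rk_empty]
  | insert i J hi ih =>
    rw [Finset.coe_insert, cof_insert, Finset.card_insert_of_notMem hi]
    refine (rk_union_le _ _ _).trans ?_
    have h1 := h i (Finset.mem_insert_self _ _)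
    have h2 := ih fun j hj => h j (Finset.mem_insert_of_mem hj)
    calc _ ≤ (b : ℕ∞) + (b * J.card : ℕ) := add_le_add h1 h2
      _ = _ := by push_cast; ring

theorem cancel_aux {a r : ℕ∞} {p q : ℕ} (h1 : ((p + q : ℕ) : ℕ∞) ≤ a + r) (h2 : a ≤ (p : ℕ∞)) :
    (q : ℕ∞) ≤ r := by
  rcases eq_or_ne r ⊤ with rfl | hr
  · exact le_top
  · lift r to ℕ using hr
    lift a to ℕ using ne_top_of_le_ne_top (ENat.natCast_ne_top p) h2
    norm_cast at *
    omega

/-- **Generic points of powers.** If the family `z` of points of `V` has maximal transcendence degree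
over `k`, all polynomial relations over `k` between its coordinates hold for all families of points
of `V`. -/
theorem Setup.generic [IsAlgClosed Ω] [Uncountable Ω] [Finite τ] {k : Subfield Ω}
    {V : Set (τ → Ω)} {M : ℕ} (h : Setup k V M) {ι : Type} [Fintype ι] {z : ι → τ → Ω}
    (hz : ∀ i, z i ∈ V) (hr : ((M * Fintype.card ι : ℕ) : ℕ∞) ≤ rk k (coords z))
    (P : MvPolynomial (ι × τ) k) (hP : aeval (fun p => z p.1 p.2) P = 0) {x : ι → τ → Ω}
    (hx : ∀ i, x i ∈ V) : aeval (fun p => x p.1 p.2) P = 0 := by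
  classical
  have hk := h.countable
  set L : Subfield Ω := adj k (coords x) with hL
  have hLc : Countable L := countable_adj (countable_coords x)
  obtain ⟨y, hy1, hy2⟩ := stmGeneric Ω (ι × τ) k L (le_adj_left _ _) hLc (fun p => z p.1 p.2)
  set z' : ι → τ → Ω := fun i a => y (i, a) with hz'
  have hyz : y = fun p : ι × τ => z' p.1 p.2 := by funext p; rfl
  have hrel : ∀ Q : MvPolynomial (ι × τ) k, aeval (fun p => z p.1 p.2) Q = 0 →
      aeval (fun p => z' p.1 p.2) Q = 0 := fun Q hQ => by
    rw [← hyz]; exact (hy1 Q).mp hQ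
  have hrk : ((M * Fintype.card ι : ℕ) : ℕ∞) ≤ rk L (coords z') := by
    rw [coords_eq_range z', ← hyz, hy2, ← coords_eq_range z]
    exact hr
  -- the vectors `z' i` are in `V`
  have hz'V : ∀ i, z' i ∈ V := by
    intro i
    obtain ⟨S, hS⟩ := h.closed
    rw [hS]
    obtain ⟨hne, hzS⟩ := (hS (z i)).mp (hz i)
    constructor
    · intro h0
      apply hne
      funext a
      have h1 : aeval (fun p : ι × τ => y p) (X (i, a) : MvPolynomial (ι × τ) k) = 0 := by
        rw [aeval_X]
        exact congrFun h0 a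
      have h2 := (hy1 (X (i, a))).mpr h1
      rw [aeval_X] at h2
      exact h2
    · intro Q hQ
      have h1 : aeval (fun p => z p.1 p.2) (rename (fun a => (i, a)) Q) = 0 := by
        rw [aeval_rename]
        exact hzS Q hQ
      have h2 := hrel _ h1
      rw [aeval_rename] at h2
      exact h2
  -- replace the vectors one after the other
  have key : ∀ J : Finset ι, aeval (fun p : ι × τ =>
      (if p.1 ∈ J then x p.1 p.2 else z' p.1 p.2)) P = 0 := by
    intro J
    induction J using Finset.induction_on with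
    | empty => simpa using hrel P hP
    | insert i J hi ih =>
      set T : Set Ω := cof {j | j ≠ i} z' with hT
      set K : Subfield Ω := adj L T with hK
      have hTc : T.Countable := (countable_coords z').mono (cof_subset_coords _ _)
      have hKc : Countable K := countable_adj hTc
      have hkL : k ≤ L := le_adj_left _ _
      have hkK : k ≤ K := hkL.trans (le_adj_left _ _)
      -- rank of `z' i` over `K`
      have hTr : rk L T ≤ ((M * (Fintype.card ι - 1) : ℕ) : ℕ∞) := by
        have h1 := rk_cof_le (K := L) (y := z') (b := M) (Finset.univ.erase i)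
          (fun j _ => (h.point hkL hLc).1 _ (hz'V j))
        rw [Finset.card_erase_of_mem (Finset.mem_univ _), Finset.card_univ] at h1
        convert h1 using 2
        rw [hT]
        congr 1
        ext j
        simp
      have hcoords : coords z' = Set.range (z' i) ∪ T := by
        rw [← cof_univ, hT, ← cof_insert]
        congr 1
        ext j
        simp [em]
      have hcard : 0 < Fintype.card ι := Fintype.card_pos_iff.mpr ⟨i⟩
      have hri : (M : ℕ∞) ≤ rk K (Set.range (z' i)) := by
        rw [hcoords, rk_union] at hrk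
        refine cancel_aux (p := M * (Fintype.card ι - 1)) (q := M) ?_ hTr
        have : M * (Fintype.card ι - 1) + M = M * Fintype.card ι := by
          obtain ⟨n, hn⟩ : ∃ n, Fintype.card ι = n + 1 := ⟨Fintype.card ι - 1, by omega⟩
          rw [hn]
          simp
          ring
        rw [this]
        exact hrk
      -- the polynomial in the `i`-th vector
      have hmem : ∀ p : ι × τ, p.1 ≠ i →
          (if p.1 ∈ J then x p.1 p.2 else z' p.1 p.2) ∈ K := by
        intro p hp
        split_ifs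
        · exact le_adj_left _ _ (subset_adj _ _ ⟨p.1, p.2, rfl⟩)
        · exact subset_adj _ _ ⟨p.1, hp, p.2, rfl⟩
      obtain ⟨Q, hQ⟩ := exists_subst hkK P (fun p : ι × τ => if hp : p.1 = i then
        (Sum.inl p.2 : τ ⊕ K) else Sum.inr ⟨_, hmem p hp⟩)
      have hQz : aeval (z' i) Q = 0 := by
        rw [hQ, ← ih]
        congr 1
        congr 1
        funext p
        by_cases hp : p.1 = i
        · simp only [dif_pos hp, Sum.elim_inl]
          rw [hp, if_neg hi]
        · simp only [dif_neg hp, Sum.elim_inr]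
      have hQx := (h.point hkK hKc).2 _ (hz'V i) hri Q hQz (x i) (hx i)
      rw [hQ] at hQx
      rw [← hQx]
      congr 1
      congr 1
      funext p
      by_cases hp : p.1 = i
      · simp only [dif_pos hp, Sum.elim_inl]
        rw [hp, if_pos (Finset.mem_insert_self _ _)]
      · rw [dif_neg hp, Sum.elim_inr]
        simp only [Finset.mem_insert, hp, false_or]
  simpa using key Finset.univ

end Pool.Agent.Y148.OD
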