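import Pool.Agent.Y255.OD.Union
import Pool.Agent.Y809.OD.Hom
import Pool.Agent.Y141.OD.Generic
import Pool.Agent.Y815.OD.Spec
import Pool.Agent.Y125.OD.Point

/-!
# The basic lemmas
-/

set_option autoImplicit false

namespace Pool.Agent.Y148.OD

theorem stmUnion : StmUnion := Pool.Agent.Y255.OD.stmUnion

theorem stmHom : StmHom := Pool.Agent.Y809.OD.hom

theorem stmGeneric : StmGeneric := Pool.Agent.Y141.OD.generic

theorem stmSpec : StmSpec := Pool.Agent.Y815.OD.spec_of_hom stmHom

theorem stmPoint : StmPoint := Pool.Agent.Y125.OD.point_of stmHom stmGeneric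

end Pool.Agent.Y148.OD
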