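import Pool.Agent.Y148.OD.Spec

/-!
# Generic subfamilies of a family of points
-/

set_option autoImplicit false

namespace Pool.Agent.Y148.OD

open MvPolynomial

variable {Ω : Type} [Field Ω] {τ : Type}

theorem rk_cof_union (K : Subfield Ω) {ι : Type} (I J : Set ι) (y : ι → τ → Ω) :
    rk K (cof (I ∪ J) y) = rk K (cof J y) + rk (adj K (cof J y)) (cof I y) := by
  rw [cof_union, rk_union]

/-- **Generic subfamilies.** In a family of points of a variety whose cone has dimension `M` there is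
a largest generic subfamily `J`, and the other members have transcendence degree at most `M - 1` over
it. -/
theorem exists_max [IsAlgClosed Ω] [Uncountable Ω] [Finite τ] {k : Subfield Ω}
    {V : Set (τ → Ω)} {M : ℕ} (h : Setup k V M) (hM : 1 ≤ M) {K : Subfield Ω} (hk : k ≤ K)
    (hK : Countable K) {ι : Type} [Fintype ι] [DecidableEq ι] {y : ι → τ → Ω}
    (hy : ∀ i, y i ∈ V) (I : Finset ι) :
    ∃ J ⊆ I, ((M * J.card : ℕ) : ℕ∞) ≤ rk K (cof (J : Set ι) y) ∧
      (∀ J' ⊆ I, ((M * J'.card : ℕ) : ℕ∞) ≤ rk K (cof (J' : Set ι) y) → J'.card ≤ J.card) ∧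
      rk K (cof (I : Set ι) y) ≤ (((M - 1) * I.card + J.card : ℕ) : ℕ∞) := by
  classical
  obtain ⟨J, hJ, hJmax⟩ := Finset.exists_max_image
    (I.powerset.filter fun J : Finset ι => ((M * J.card : ℕ) : ℕ∞) ≤ rk K (cof (J : Set ι) y))
    Finset.card ⟨∅, by simp⟩
  rw [Finset.mem_filter, Finset.mem_powerset] at hJ
  refine ⟨J, hJ.1, hJ.2, fun J' h1 h2 => hJmax J' (by
    rw [Finset.mem_filter, Finset.mem_powerset]; exact ⟨h1, h2⟩), ?_⟩
  set K' := adj K (cof (J : Set ι) y) with hK'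
  have hkK' : k ≤ K' := hk.trans (le_adj_left _ _)
  have hK'c : Countable K' :=
    countable_adj ((countable_coords y).mono (cof_subset_coords _ _))
  have hi : ∀ i ∈ I \ J, rk K' (Set.range (y i)) ≤ ((M - 1 : ℕ) : ℕ∞) := by
    intro i hi
    rw [Finset.mem_sdiff] at hi
    by_contra hcon
    rw [not_le] at hcon
    have h1 : (M : ℕ∞) ≤ rk K' (Set.range (y i)) := by
      have := Order.add_one_le_of_lt hcon
      have e : ((M - 1 : ℕ) : ℕ∞) + 1 = (M : ℕ∞) := by
        have : M - 1 + 1 = M := by omega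
        exact_mod_cast this
      rwa [e] at this
    have h2 : insert i J ∈ I.powerset.filter
        (fun J : Finset ι => ((M * J.card : ℕ) : ℕ∞) ≤ rk K (cof (J : Set ι) y)) := by
      rw [Finset.mem_filter, Finset.mem_powerset]
      refine ⟨Finset.insert_subset hi.1 hJ.1, ?_⟩
      rw [Finset.coe_insert, cof_insert, rk_union, Finset.card_insert_of_notMem hi.2]
      calc ((M * (J.card + 1) : ℕ) : ℕ∞) = ((M * J.card : ℕ) : ℕ∞) + (M : ℕ∞) := by
            push_cast
            ring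
        _ ≤ _ := add_le_add hJ.2 h1
    have h3 := hJmax _ h2
    rw [Finset.card_insert_of_notMem hi.2] at h3
    omega
  have h1 : rk K' (cof ((I \ J : Finset ι) : Set ι) y) ≤ (((M - 1) * (I \ J).card : ℕ) : ℕ∞) :=
    rk_cof_le _ hi
  have h2 : rk K (cof (J : Set ι) y) ≤ ((M * J.card : ℕ) : ℕ∞) :=
    rk_cof_le _ fun i _ => (h.point hk hK).1 _ (hy i)
  have h3 : (I : Set ι) = ((I \ J : Finset ι) : Set ι) ∪ (J : Set ι) := by
    rw [← Finset.coe_union, Finset.sdiff_union_of_subset hJ.1]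
  rw [h3, rk_cof_union]
  refine (add_le_add h2 h1).trans ?_
  have h4 : (I \ J).card + J.card = I.card := Finset.card_sdiff_add_card_eq_card hJ.1
  have h5 : M * J.card + (M - 1) * (I \ J).card = (M - 1) * I.card + J.card := by
    obtain ⟨m, rfl⟩ : ∃ m, M = m + 1 := ⟨M - 1, by omega⟩
    rw [← h4]
    simp
    ring
  exact_mod_cast h5.le

theorem add_cancel_aux {a b : ℕ∞} {p q r : ℕ} (h : ((p : ℕ) : ℕ∞) ≤ a + b) (ha : a ≤ (q : ℕ∞))
    (hb : b ≤ (r : ℕ∞)) : p ≤ q + r := by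
  have := h.trans (add_le_add ha hb)
  exact_mod_cast this

/-- **A family of large transcendence degree has a generic subfamily which moves.** -/
theorem exists_moving [IsAlgClosed Ω] [Uncountable Ω] [Finite τ] {k : Subfield Ω}
    {V : Set (τ → Ω)} {M : ℕ} (h : Setup k V M) (hM : 3 ≤ M) {K : Subfield Ω} (hk : k ≤ K)
    (hK : Countable K) {ι : Type} [Fintype ι] [DecidableEq ι] {y : ι → τ → Ω}
    (hy : ∀ i, y i ∈ V)
    (hr : (((M - 1) * Fintype.card ι + 1 : ℕ) : ℕ∞) ≤ rk K (coords y)) :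
    ∃ J : Finset ι, ((M * J.card : ℕ) : ℕ∞) ≤ rk K (cof (J : Set ι) y) ∧
      ((J.card + 1 : ℕ) : ℕ∞) ≤
        rk (adj K (cof ((Jᶜ : Finset ι) : Set ι) y)) (cof (J : Set ι) y) := by
  obtain ⟨J, -, hJ, hmax, -⟩ := exists_max h (by omega) hk hK hy Finset.univ
  refine ⟨J, hJ, ?_⟩
  by_contra hcon
  rw [not_le] at hcon
  have h1 : rk (adj K (cof ((Jᶜ : Finset ι) : Set ι) y)) (cof (J : Set ι) y) ≤
      ((J.card : ℕ) : ℕ∞) := by
    have hcon' : rk (adj K (cof ((Jᶜ : Finset ι) : Set ι) y)) (cof (J : Set ι) y) <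
        ((J.card : ℕ) : ℕ∞) + 1 := by
      rw [Nat.cast_add, Nat.cast_one] at hcon
      exact hcon
    exact Order.le_of_lt_add_one hcon'
  obtain ⟨J', hJ's, hJ', -, hJ'r⟩ := exists_max h (by omega) hk hK hy Jᶜ
  have h2 : J'.card ≤ J.card := hmax J' (Finset.subset_univ _) hJ'
  have h3 : coords y = cof (((J : Finset ι) : Set ι) ∪ ((Jᶜ : Finset ι) : Set ι)) y := by
    rw [← cof_univ]
    congr 1
    rw [← Finset.coe_union, Finset.union_compl, Finset.coe_univ]
  rw [h3, rk_cof_union] at hr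
  have h4 := add_cancel_aux hr hJ'r h1
  rw [Finset.card_compl] at h4
  have h5 : J.card ≤ Fintype.card ι := Finset.card_le_univ _
  obtain ⟨m, rfl⟩ : ∃ m, M = m + 3 := ⟨M - 3, by omega⟩
  obtain ⟨d, hd⟩ : ∃ d, Fintype.card ι = J.card + d := ⟨Fintype.card ι - J.card, by omega⟩
  rw [hd] at h4
  simp at h4
  nlinarith

end Pool.Agent.Y148.OD
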