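import Pool.Agent.Y148.OD.Hybrid

/-!
# Statements of the lemmas (jobs) on generic hyperplanes through distinct points
-/

set_option autoImplicit false

namespace Pool.Agent.Y148.OD

open MvPolynomial

/-- OD-20. A generic linear combination of elements `η a` of `K₁` is transcendental over each
subfield `F` of `K₁` over which the `η a` are not all algebraic, even after adjunction of the
coefficients. -/
def StmComb : Prop := ∀ (Ω : Type) [Field Ω] [CharZero Ω] (ι₀ : Type) [Fintype ι₀]
  (K₁ : Subfield Ω) (η t : ι₀ → Ω), (∀ a, η a ∈ K₁) → AlgebraicIndependent K₁ t →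
    ∀ F : Subfield Ω, F ≤ K₁ → rk F (Set.range η) ≠ 0 →
      ((Fintype.card ι₀ + 1 : ℕ) : ℕ∞) ≤ rk F (Set.range t ∪ {∑ a, t a * η a})

/-- OD-21. Generic hyperplanes `u j` through distinct points `y j`: if the points `y j`, `j ∈ B`, have
for all `B` the transcendence degree at most `|B|` over the field generated by the other points, there
are `R` of the points, `R` the transcendence degree of all the points, and hyperplanes through
them which are independent generic hyperplanes over `K`. -/
def StmDist : Prop := ∀ (Ω : Type) [Field Ω] [IsAlgClosed Ω] [Uncountable Ω] [CharZero Ω]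
  (τ ι : Type) [Fintype τ] [Fintype ι] (K : Subfield Ω), Countable K →
    ∀ (y : ι → τ → Ω) (b : ι → τ), (∀ i, y i (b i) = 1) →
      (∀ B : Finset ι, rk (adj K (cof ((B : Set ι)ᶜ) y)) (cof (B : Set ι) y) ≤
        ((B.card : ℕ) : ℕ∞)) →
      ∀ R : ℕ, (R : ℕ∞) ≤ rk K (coords y) →
        ∃ (A : Finset ι) (u : ι → τ → Ω), A.card = R ∧ (∀ j ∈ A, ∑ a, u j a * y j a = 0) ∧
          ((R * Fintype.card τ : ℕ) : ℕ∞) ≤ rk K (cof (A : Set ι) u)

end Pool.Agent.Y148.OD
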