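import Pool.Agent.Y148.OD.Gen
import Pool.Agent.Y148.OD.Stm4

/-!
# Pairs of zero-cycles with the same class
-/

set_option autoImplicit false

namespace Pool.Agent.Y148.OD

open MvPolynomial

variable {Ω : Type} [Field Ω] {τ : Type} {A : Type} [AddCommGroup A]

/-- The nonzero vectors form a cone of dimension `card τ`. -/
theorem setup_univ [IsAlgClosed Ω] [Uncountable Ω] [CharZero Ω] [Fintype τ] {K : Subfield Ω}
    (hK : Countable K) (a₁ : τ) : Setup K {v : τ → Ω | v ≠ 0} (Fintype.card τ) where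
  countable := hK
  closed := ⟨∅, fun v => by simp⟩
  prime := by
    intro P Q h
    have h1 : P * Q * X a₁ = 0 := by
      apply MvPolynomial.funext
      intro v
      rw [map_mul, map_mul, map_zero, eval_X]
      by_cases hv : v = 0
      · rw [hv]
        simp
      · rw [h v hv, zero_mul]
    rcases mul_eq_zero.1 h1 with h2 | h2
    · rcases mul_eq_zero.1 h2 with h3 | h3
      · left
        intro v _
        rw [h3, map_zero]
      · right
        intro v _
        rw [h3, map_zero]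
    · exact absurd h2 (X_ne_zero a₁)
  upper := by
    refine ⟨K, hK, fun v _ => (rk_le_encard _ _).trans ?_⟩
    rw [← Set.image_univ]
    refine (Set.encard_image_le _ _).trans ?_
    rw [Set.encard_univ, ENat.card_eq_coe_fintype_card]
  lower := by
    intro L hL
    obtain ⟨c, hc⟩ := Pool.Agent.Y141.OD.exists_indep L hL τ
    refine ⟨c, fun h0 => hc.ne_zero a₁ (congrFun h0 a₁), ?_⟩
    refine le_rk_iff.mpr ⟨Set.range c, subset_rfl, hc.to_subtype_range, ?_⟩
    rw [← Set.image_univ, Function.Injective.encard_image hc.injective, Set.encard_univ,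
      ENat.card_eq_coe_fintype_card]

theorem Big.anti {V : Set (τ → Ω)} {cl : (τ → Ω) → A} {m : ℕ} {z : Fin m → τ → Ω} {r s : ℕ}
    (h : Big V cl z r) (hs : s ≤ r) : Big V cl z s := by
  intro L hL
  obtain ⟨y, h1, h2, h3⟩ := h L hL
  exact ⟨y, h1, h2, le_trans (by exact_mod_cast hs) h3⟩

/-- The exact rank of an orbit. -/
theorem exists_exact {V : Set (τ → Ω)} {cl : (τ → Ω) → A} {m : ℕ} {z : Fin m → τ → Ω}
    (hz : ∀ i, z i ∈ V) {s : ℕ} (hs : ¬ Big V cl z (s + 1)) :
    ∃ R : ℕ, R ≤ s ∧ Big V cl z R ∧ ¬ Big V cl z (R + 1) := by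
  by_contra hcon
  push Not at hcon
  have key : ∀ R : ℕ, R ≤ s → Big V cl z (R + 1) := by
    intro R
    induction R with
    | zero => exact fun h => hcon 0 h (fun L hL => ⟨z, hz, rfl, by simp⟩)
    | succ R ih => exact fun h => hcon (R + 1) h (ih (by omega))
  exact hs (key s le_rfl)

/-- The rank of a member of an orbit is at most the exact rank of the orbit. -/
theorem rk_le_of_not_big [IsAlgClosed Ω] [Uncountable Ω] [Finite τ] {k : Subfield Ω}
    {V : Set (τ → Ω)} {cl : (τ → Ω) → A} (hc : Cls k V cl) {N : ℕ} {K : Subfield Ω} (hkK : k ≤ K)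
    (hK : Countable K) {u y z : Fin N → τ → Ω} (hu : ∀ i, u i ∈ V) (huK : ∀ i a, u i a ∈ K)
    (hy : ∀ i, y i ∈ V) (hcl : ∑ i, cl (u i) = ∑ i, cl (y i))
    (hz : ∑ i, cl (y i) = ∑ i, cl (z i)) {R : ℕ} (hR : ¬ Big V cl z (R + 1)) :
    rk K (coords y) ≤ (R : ℕ∞) := by
  by_contra hcon
  rw [not_le] at hcon
  apply hR
  intro L hL
  set L' := adj K (L : Set Ω) with hL'
  have hL'c : Countable L' := countable_adj (Set.countable_coe_iff.mp hL)
  obtain ⟨y', hy', -, hsum, hr⟩ := hc.orbit_ext (κ := Fin N) (ι := Fin N) rfl hkK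
    (le_adj_left K (L : Set Ω)) hL'c hu huK hy Set.univ
    (fun i hi => absurd (Set.mem_univ i) hi) hcl
  rw [cof_univ, cof_univ] at hr
  refine ⟨y', hy', by rw [hsum, hz], ?_⟩
  have h1 : ((R + 1 : ℕ) : ℕ∞) ≤ rk K (coords y) := by
    have := Order.add_one_le_of_lt hcon
    exact_mod_cast this
  exact h1.trans (hr.trans (rk_anti (fun x hx => subset_adj K _ hx) _))

/-- A normalised vector of `V` has rank at most `M - 1`. -/
theorem rk_normal_le [IsAlgClosed Ω] [Uncountable Ω] [Finite τ] {k : Subfield Ω}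
    {V : Set (τ → Ω)} {M : ℕ} (h : Setup k V (M + 1))
    (hsm : ∀ (c : Ω) (v : τ → Ω), c ≠ 0 → v ∈ V → c • v ∈ V) {v : τ → Ω} (hv : v ∈ V) {b : τ}
    (hb : v b = 1) : rk k (Set.range v) ≤ (M : ℕ∞) := by
  have hk := h.countable
  have hc : Countable (adj k (Set.range fun a => v a / v b)) :=
    countable_adj (Set.countable_range _)
  obtain ⟨c, hc0, hc1⟩ := exists_transc hc
  have hb0 : v b ≠ 0 := by rw [hb]; exact one_ne_zero
  have h1 := (rk_smul_ge hb0 hc0 hc1).trans
    ((h.point le_rfl hk).1 _ (hsm (c / v b) v (div_ne_zero hc0 hb0) hv))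
  have h2 : rk k (Set.range fun a => v a / v b) + 1 ≤ (M : ℕ∞) + 1 := by exact_mod_cast h1
  have h3 := (ENat.add_le_add_iff_right (by simp)).mp h2
  have h4 : (fun a => v a / v b) = v := by
    funext a
    rw [hb, div_one]
  rwa [h4] at h3

/-- Normalising lowers the rank by at most the number of the vectors. -/
theorem rk_le_normal {K : Subfield Ω} {ι : Type} [Fintype ι] {y : ι → τ → Ω} (b : ι → τ)
    (hb : ∀ i, y i (b i) ≠ 0) :
    rk K (coords y) ≤ rk K (coords fun i => (y i (b i))⁻¹ • y i) + ((Fintype.card ι : ℕ) : ℕ∞) := by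
  set T : Set Ω := Set.range fun i => y i (b i) with hT
  have h1 : rk K (coords y) ≤ rk K (coords (fun i => (y i (b i))⁻¹ • y i) ∪ T) := by
    refine rk_le_of_mem ?_
    rintro x ⟨i, a, rfl⟩
    have h2 : y i a = ((y i (b i))⁻¹ • y i) a * y i (b i) := by
      simp only [Pi.smul_apply, smul_eq_mul]
      rw [mul_comm, ← mul_assoc, mul_inv_cancel₀ (hb i), one_mul]
    rw [h2]
    exact mul_mem (subset_adj _ _ (Or.inl ⟨i, a, rfl⟩)) (subset_adj _ _ (Or.inr ⟨i, rfl⟩))
  refine h1.trans ((rk_union_le _ _ _).trans (add_le_add le_rfl ?_))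
  rw [hT, ← Set.image_univ]
  refine (rk_le_encard _ _).trans ((Set.encard_image_le _ _).trans ?_)
  rw [Set.encard_univ, ENat.card_eq_coe_fintype_card]

end Pool.Agent.Y148.OD
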