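import Pool.Agent.Y148.OD.Pair

/-!
# Pairs of zero-cycles with the same class, second part
-/

set_option autoImplicit false

namespace Pool.Agent.Y148.OD

open MvPolynomial

variable {Ω : Type} [Field Ω] {τ : Type} {A : Type} [AddCommGroup A]

theorem coords_sub_eq {ι : Type} (B : Finset ι) (y : ι → τ → Ω) :
    coords (fun i : {i // i ∈ B} => y i) = cof (B : Set ι) y := by
  ext c
  constructor
  · rintro ⟨i, a, ha⟩
    exact ⟨i, i.2, a, ha⟩
  · rintro ⟨i, hi, a, ha⟩
    exact ⟨⟨i, hi⟩, a, ha⟩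

theorem cof_congr {ι : Type} {J : Set ι} {y y' : ι → τ → Ω} (h : ∀ i ∈ J, y i = y' i) :
    cof J y = cof J y' := by
  ext c
  constructor
  · rintro ⟨i, hi, a, ha⟩
    exact ⟨i, hi, a, by rw [← h i hi]; exact ha⟩
  · rintro ⟨i, hi, a, ha⟩
    exact ⟨i, hi, a, by rw [h i hi]; exact ha⟩

/-- If all orbits are small, the members `y i`, `i ∈ B`, of a normalised zero-cycle `y` have rank at
most `|B|` over the others. -/
theorem rk_sub_le [IsAlgClosed Ω] [Uncountable Ω] [Finite τ] {k : Subfield Ω}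
    {V : Set (τ → Ω)} {cl : (τ → Ω) → A} (hc : Cls k V cl)
    (hsmall : ∀ (n : ℕ) (z : Fin n → τ → Ω), (∀ i, z i ∈ V) → ¬ Big V cl z (2 * n + 1))
    {N : ℕ} {K : Subfield Ω} (hkK : k ≤ K) (hK : Countable K) {u y : Fin N → τ → Ω}
    (hu : ∀ i, u i ∈ V) (huK : ∀ i a, u i a ∈ K) (hy : ∀ i, y i ∈ V) (b : Fin N → τ)
    (hb : ∀ i, y i (b i) = 1) (hcl : ∑ i, cl (u i) = ∑ i, cl (y i)) (B : Finset (Fin N)) :
    rk (adj K (cof ((B : Set (Fin N))ᶜ) y)) (cof (B : Set (Fin N)) y) ≤ ((B.card : ℕ) : ℕ∞) := by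
  classical
  by_contra hcon
  rw [not_le] at hcon
  set K₁ := adj K (cof ((B : Set (Fin N))ᶜ) y) with hK₁
  have hK₁c : Countable K₁ := countable_adj ((countable_coords y).mono (cof_subset_coords _ _))
  have hKK₁ : K ≤ K₁ := le_adj_left _ _
  have h1 : ((B.card + 1 : ℕ) : ℕ∞) ≤ rk K₁ (coords fun i : {i // i ∈ B} => y i) := by
    rw [coords_sub_eq]
    have := Order.add_one_le_of_lt hcon
    exact_mod_cast this
  obtain ⟨c, hc0, hcr⟩ := exists_rescale hK₁c (fun i : {i // i ∈ B} => b i)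
    (fun i => hb i) h1
  set y₁ : Fin N → τ → Ω := fun i => if h : i ∈ B then c ⟨i, h⟩ • y i else y i with hy₁
  have hy₁B : ∀ i : {i // i ∈ B}, y₁ i = c i • y i := by
    intro i
    simp only [hy₁]
    rw [dif_pos i.2]
  have hy₁o : ∀ i ∉ B, y₁ i = y i := by
    intro i hi
    simp only [hy₁]
    rw [dif_neg hi]
  have hy₁V : ∀ i, y₁ i ∈ V := by
    intro i
    by_cases h : i ∈ B
    · rw [hy₁B ⟨i, h⟩]
      exact hc.smul_mem _ _ (hc0 _) (hy i)
    · rw [hy₁o i h]
      exact hy i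
  have hcl₁ : ∀ i, cl (y₁ i) = cl (y i) := by
    intro i
    by_cases h : i ∈ B
    · rw [hy₁B ⟨i, h⟩]
      exact hc.smul_cl _ _ (hc0 _) (hy i)
    · rw [hy₁o i h]
  have h2 : ((2 * B.card + 1 : ℕ) : ℕ∞) ≤ rk K₁ (cof (B : Set (Fin N)) y₁) := by
    have e1 : cof (B : Set (Fin N)) y₁ = coords fun i : {i // i ∈ B} => c i • y i := by
      rw [← coords_sub_eq]
      congr 1
      funext i
      exact hy₁B i
    rw [e1]
    refine le_trans ?_ hcr
    rw [Fintype.card_coe]
    exact_mod_cast (by omega : 2 * B.card + 1 ≤ B.card + 1 + B.card)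
  have hcardB : Fintype.card {i : Fin N // i ∈ B} = B.card := Fintype.card_coe B
  let e : Fin B.card ≃ {i : Fin N // i ∈ B} :=
    ((Fintype.equivFin _).trans (finCongr hcardB)).symm
  have hsumB : ∀ x : Fin N → τ → Ω, ∑ i, cl (x (e i)) = ∑ i ∈ B, cl (x i) := by
    intro x
    rw [Equiv.sum_comp e (fun i => cl (x i))]
    exact Finset.sum_coe_sort B (fun i => cl (x i))
  apply hsmall B.card (fun i => y (e i)) (fun i => hy _)
  intro L hL
  set L' := adj K₁ (L : Set Ω) with hL'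
  have hL'c : Countable L' := countable_adj (Set.countable_coe_iff.mp hL)
  obtain ⟨y', hy', hout, hsum', hr'⟩ := hc.orbit_ext (κ := Fin N) (ι := Fin N) rfl
    (hkK.trans hKK₁) (le_adj_left K₁ (L : Set Ω)) hL'c hu (fun i a => hKK₁ (huK i a)) hy₁V
    (B : Set (Fin N)) (fun i hi a => by
      rw [hy₁o i (by simpa using hi)]
      exact subset_adj _ _ ⟨i, by simpa using hi, a, rfl⟩)
    (by rw [hcl]; exact (Finset.sum_congr rfl fun i _ => (hcl₁ i).symm))
  refine ⟨fun i => y' (e i), fun i => hy' _, ?_, ?_⟩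
  · rw [hsumB, hsumB]
    have h3 : ∑ i ∈ B, cl (y' i) + ∑ i ∈ Bᶜ, cl (y' i) = ∑ i ∈ B, cl (y i) +
        ∑ i ∈ Bᶜ, cl (y i) := by
      rw [Finset.sum_add_sum_compl, Finset.sum_add_sum_compl, hsum']
      exact Finset.sum_congr rfl fun i _ => hcl₁ i
    have h4 : ∑ i ∈ Bᶜ, cl (y' i) = ∑ i ∈ Bᶜ, cl (y i) := by
      refine Finset.sum_congr rfl fun i hi => ?_
      rw [Finset.mem_compl] at hi
      rw [hout i (by simpa using hi), hcl₁]
    rw [h4] at h3
    exact add_right_cancel h3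
  · have h5 : coords (fun i => y' (e i)) = cof (B : Set (Fin N)) y' := by
      rw [coords_comp_equiv e (fun i : {i // i ∈ B} => y' i), coords_sub_eq]
    rw [h5]
    exact h2.trans (hr'.trans (rk_anti (fun x hx => subset_adj _ _ hx) _))

/-- **Moving points of a zero-cycle to a hyperplane.** If independent generic hyperplanes pass through
the points `y j`, `j ∈ A`, of a zero-cycle equivalent to `Z`, there is a zero-cycle equivalent to `Z`
whose points with index in `A` lie on the hyperplane `l = 0`. -/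
theorem exists_on_section [IsAlgClosed Ω] [Uncountable Ω] [CharZero Ω] [Fintype τ]
    {k : Subfield Ω} {V : Set (τ → Ω)} {cl : (τ → Ω) → A} (hc : Cls k V cl) {N : ℕ}
    {K : Subfield Ω} (hkK : k ≤ K) (hK : Countable K) {Z y : Fin N → τ → Ω}
    (hZ : ∀ i, Z i ∈ V) (hZK : ∀ i a, Z i a ∈ K) (hy : ∀ i, y i ∈ V)
    (hcl : ∑ i, cl (Z i) = ∑ i, cl (y i)) (B : Finset (Fin N)) (u : Fin N → τ → Ω)
    (hu : ∀ j ∈ B, ∑ a, u j a * y j a = 0)
    (hur : ((B.card * Fintype.card τ : ℕ) : ℕ∞) ≤ rk K (cof (B : Set (Fin N)) u))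
    {l : τ → Ω} (a₁ : τ) (hl : l a₁ ≠ 0) :
    ∃ y₀ : Fin N → τ → Ω, (∀ i, y₀ i ∈ V) ∧ ∑ i, cl (Z i) = ∑ i, cl (y₀ i) ∧
      ∀ j ∈ B, ∑ a, l a * y₀ j a = 0 := by
  classical
  have hS := setup_univ (Ω := Ω) (τ := τ) hK a₁
  have hu0 : ∀ j : {j // j ∈ B}, u j ≠ 0 := by
    intro j h0
    -- the rank would be too small
    have h1 : rk K (cof (B : Set (Fin N)) u) ≤ (((B.card - 1) * Fintype.card τ : ℕ) : ℕ∞) := by
      have h2 : rk K (cof (B : Set (Fin N)) u) ≤
          rk K (cof ((B.erase j : Finset (Fin N)) : Set (Fin N)) u) := by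
        refine rk_le_of_mem ?_
        rintro x ⟨i, hi, a, rfl⟩
        by_cases hij : i = j
        · rw [hij, h0]
          exact zero_mem _
        · exact subset_adj _ _ ⟨i, by simpa using ⟨hi, hij⟩, a, rfl⟩
      refine h2.trans ?_
      have h3 := rk_cof_le (K := K) (y := u) (b := Fintype.card τ) (B.erase j) (fun i _ => by
        rw [← Set.image_univ]
        refine (rk_le_encard _ _).trans ((Set.encard_image_le _ _).trans ?_)
        rw [Set.encard_univ, ENat.card_eq_coe_fintype_card])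
      rw [Finset.card_erase_of_mem j.2] at h3
      rw [mul_comm (B.card - 1)]
      exact h3
    have h2 : B.card * Fintype.card τ ≤ (B.card - 1) * Fintype.card τ := by
      exact_mod_cast hur.trans h1
    have h3 : 0 < B.card := Finset.card_pos.mpr ⟨j, j.2⟩
    have h4 : 0 < Fintype.card τ := Fintype.card_pos_iff.mpr ⟨a₁⟩
    have h5 : B.card ≤ B.card - 1 := Nat.le_of_mul_le_mul_right h2 h4
    omega
  have hKc : Cls K V cl := hc.mono hkK
  obtain ⟨y₀, hy₀0, hy₀V, hsum, hly⟩ := hS.specialise (κ := {j // j ∈ B}) (ι := Fin N)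
    (fun uu yy => (∀ i, yy i ∈ V) ∧ ∑ i, cl (Z i) = ∑ i, cl (yy i) ∧
      ∀ j : {j // j ∈ B}, ∑ a, uu j a * yy j a = 0)
    (by
      intro uu yy uu' yy' h _ hyy' hP
      obtain ⟨h1, h2, h3⟩ := h
      obtain ⟨-, e2, e3⟩ := hKc.stab (Fin N) (Fin N) rfl Z yy Z yy' hZ h1 h2
        (fun i => hc.ne_zero _ (hZ i)) hyy' (fun P hPz => by
          obtain ⟨Q, hQ⟩ := exists_subst (le_refl K) P (fun p : (Fin N ⊕ Fin N) × τ =>
            match p.1 with
            | Sum.inl i => (Sum.inr ⟨Z i p.2, hZK i p.2⟩ :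
                (({j // j ∈ B} ⊕ Fin N) × τ) ⊕ K)
            | Sum.inr i => Sum.inl (Sum.inr i, p.2))
          have h4 := hP Q (by
            rw [hQ, ← hPz]
            congr 1
            congr 1
            funext p
            obtain ⟨i | i, a⟩ := p <;> rfl)
          rw [hQ] at h4
          rw [← h4]
          congr 1
          congr 1
          funext p
          obtain ⟨i | i, a⟩ := p <;> rfl)
      refine ⟨e2, e3, fun j => ?_⟩
      have h4 := hP (∑ a, X (Sum.inl j, a) * X (Sum.inr j.1, a)) (by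
        rw [map_sum, ← h3 j]
        exact Finset.sum_congr rfl fun a _ => by rw [map_mul, aeval_X, aeval_X]; rfl)
      rw [map_sum] at h4
      rw [← h4]
      exact Finset.sum_congr rfl fun a _ => by rw [map_mul, aeval_X, aeval_X]; rfl)
    (by
      intro uu yy c hc' h
      obtain ⟨h1, h2, h3⟩ := h
      refine ⟨fun i => hc.smul_mem (c i) (yy i) (hc' i) (h1 i), ?_, fun j => ?_⟩
      · rw [h2]
        exact Finset.sum_congr rfl fun i _ => (hc.smul_cl (c i) (yy i) (hc' i) (h1 i)).symm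
      · have : ∑ a, uu j a * (c j * yy j a) = c j * ∑ a, uu j a * yy j a := by
          rw [Finset.mul_sum]
          exact Finset.sum_congr rfl fun a _ => by ring
        rw [this, h3 j, mul_zero])
    (z := fun j : {j // j ∈ B} => u j) hu0 (by
      rw [Fintype.card_coe, coords_sub_eq, mul_comm]
      exact hur)
    (y := y) (fun i => hc.ne_zero _ (hy i)) ⟨hy, hcl, fun j => hu j j.2⟩
    (z₀ := fun _ => l) (fun _ h0 => hl (congrFun h0 a₁))
  exact ⟨y₀, hy₀V, hsum, fun j hj => hly ⟨j, hj⟩⟩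

end Pool.Agent.Y148.OD
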