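import Pool.Agent.Y148.OD.Pair2

/-!
# Pairs of zero-cycles with the same class, third part
-/

set_option autoImplicit false

namespace Pool.Agent.Y148.OD

open MvPolynomial

variable {Ω : Type} [Field Ω] {τ : Type} {A : Type} [AddCommGroup A]

/-- If all orbits are small, two zero-cycles with the same class have together rank at most
`4 N + q`. -/
theorem pair_bound (hDist : StmDist) [IsAlgClosed Ω] [Uncountable Ω] [CharZero Ω] [Fintype τ]
    {k : Subfield Ω} {V : Set (τ → Ω)} (h : Setup k V 3) {cl : (τ → Ω) → A} (hc : Cls k V cl)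
    (hsmall : ∀ (n : ℕ) (z : Fin n → τ → Ω), (∀ i, z i ∈ V) → ¬ Big V cl z (2 * n + 1))
    {l : τ → Ω} {a₁ : τ} (hl : l a₁ ≠ 0) {q : ℕ} (hB : Bdd k V (Sec V l) cl q)
    {N : ℕ} {Z Y : Fin N → τ → Ω} (hZ : ∀ i, Z i ∈ V) (hY : ∀ i, Y i ∈ V)
    (hZY : ∑ i, cl (Z i) = ∑ i, cl (Y i)) :
    rk k (coords Z ∪ coords Y) ≤ ((4 * N + q : ℕ) : ℕ∞) := by
  classical
  have hkc := h.countable
  obtain ⟨R, hR2, hRb, hRn⟩ := exists_exact hZ (hsmall N Z hZ)
  set K := adj k (coords Z) with hK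
  have hKc : Countable K := countable_adj (countable_coords Z)
  have hkK : k ≤ K := le_adj_left _ _
  have hZK : ∀ i a, Z i a ∈ K := fun i a => subset_adj _ _ ⟨i, a, rfl⟩
  by_cases hRN : R < N
  · rw [rk_adj_union]
    have h1 := rk_coords_le h hZ
    rw [Fintype.card_fin] at h1
    have h2 := rk_le_of_not_big hc hkK hKc hZ hZK hY hZY hZY.symm hRn
    refine (add_le_add h1 h2).trans ?_
    exact_mod_cast (by omega : 3 * N + R ≤ 4 * N + q)
  rw [not_lt] at hRN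
  obtain ⟨y, hy, hys, hyr⟩ := hRb K hKc
  have hcoord : ∀ i, ∃ a, y i a ≠ 0 := fun i => exists_coord (hy i) hc.ne_zero
  choose b hb using hcoord
  set y₁ : Fin N → τ → Ω := fun i => (y i (b i))⁻¹ • y i with hy₁
  have hy₁V : ∀ i, y₁ i ∈ V := fun i => hc.smul_mem _ _ (inv_ne_zero (hb i)) (hy i)
  have hcl₁ : ∀ i, cl (y₁ i) = cl (y i) := fun i => hc.smul_cl _ _ (inv_ne_zero (hb i)) (hy i)
  have hb₁ : ∀ i, y₁ i (b i) = 1 := by
    intro i
    simp only [hy₁, Pi.smul_apply, smul_eq_mul]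
    exact inv_mul_cancel₀ (hb i)
  have hs₁ : ∑ i, cl (Z i) = ∑ i, cl (y₁ i) := by
    rw [← hys]
    exact Finset.sum_congr rfl fun i _ => (hcl₁ i).symm
  have hr₁ : ((R - N : ℕ) : ℕ∞) ≤ rk K (coords y₁) := by
    have h1 := hyr.trans (rk_le_normal (K := K) b hb)
    rw [Fintype.card_fin] at h1
    refine cancel_aux (p := N) ?_ le_rfl
    rw [Nat.add_sub_cancel' hRN, add_comm]
    exact h1
  obtain ⟨B, u, hcard, hu, hur⟩ := hDist Ω τ (Fin N) K hKc y₁ b hb₁
    (fun B => rk_sub_le hc hsmall hkK hKc hZ hZK hy₁V b hb₁ hs₁ B) (R - N) hr₁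
  obtain ⟨y₀, hy₀V, hs₀, hly₀⟩ := exists_on_section hc hkK hKc hZ hZK hy₁V hs₁ B u hu
    (by rw [hcard]; exact hur) a₁ hl
  obtain ⟨w, hwV, hws, hwr⟩ := hB {i // i ∈ B} (fun i => y₀ i)
    (fun i => ⟨hy₀V i, hly₀ i i.2⟩)
  have hcoord₀ : ∀ i, ∃ a, y₀ i a ≠ 0 := fun i => exists_coord (hy₀V i) hc.ne_zero
  choose c hc₀ using hcoord₀
  set v : Fin N → τ → Ω := fun i => (y₀ i (c i))⁻¹ • y₀ i with hv
  have hvV : ∀ i, v i ∈ V := fun i => hc.smul_mem _ _ (inv_ne_zero (hc₀ i)) (hy₀V i)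
  have hvcl : ∀ i, cl (v i) = cl (y₀ i) :=
    fun i => hc.smul_cl _ _ (inv_ne_zero (hc₀ i)) (hy₀V i)
  have hvr : ∀ i, rk k (Set.range (v i)) ≤ ((2 : ℕ) : ℕ∞) := fun i =>
    rk_normal_le (M := 2) h hc.smul_mem (hvV i) (b := c i) (by
      simp only [hv, Pi.smul_apply, smul_eq_mul]
      exact inv_mul_cancel₀ (hc₀ i))
  set X' : Fin N → τ → Ω := fun i => if h : i ∈ B then w ⟨i, h⟩ else v i with hX'
  have hXB : ∀ i : {i // i ∈ B}, X' i = w i := fun i => by
    simp only [hX']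
    rw [dif_pos i.2]
  have hXo : ∀ i ∉ B, X' i = v i := fun i hi => by
    simp only [hX']
    rw [dif_neg hi]
  have hXV : ∀ i, X' i ∈ V := by
    intro i
    by_cases hi : i ∈ B
    · rw [hXB ⟨i, hi⟩]
      exact hwV _
    · rw [hXo i hi]
      exact hvV i
  have hXs : ∑ i, cl (X' i) = ∑ i, cl (Z i) := by
    rw [hs₀, ← Finset.sum_add_sum_compl B, ← Finset.sum_add_sum_compl B (fun i => cl (y₀ i))]
    congr 1
    · rw [← Finset.sum_coe_sort B (fun i => cl (X' i)),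
        ← Finset.sum_coe_sort B (fun i => cl (y₀ i))]
      rw [← hws]
      exact Finset.sum_congr rfl fun i _ => by rw [hXB i]
    · refine Finset.sum_congr rfl fun i hi => ?_
      rw [hXo i (Finset.mem_compl.mp hi), hvcl]
  have hXr : rk k (coords X') ≤ ((q + 2 * (N - (R - N)) : ℕ) : ℕ∞) := by
    have h1 : coords X' ⊆ coords w ∪ cof ((Bᶜ : Finset (Fin N)) : Set (Fin N)) v := by
      rintro x ⟨i, a, rfl⟩
      by_cases hi : i ∈ B
      · left
        rw [hXB ⟨i, hi⟩]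
        exact ⟨⟨i, hi⟩, a, rfl⟩
      · right
        rw [hXo i hi]
        exact ⟨i, by simpa using hi, a, rfl⟩
    have h2 := rk_cof_le (K := k) (y := v) (b := 2) Bᶜ (fun i _ => hvr i)
    rw [Finset.card_compl, Fintype.card_fin, hcard] at h2
    refine (rk_mono _ h1).trans ((rk_union_le _ _ _).trans ((add_le_add hwr h2).trans ?_))
    have : (N - (R - N)) * 2 = 2 * (N - (R - N)) := mul_comm _ _
    exact_mod_cast (by omega : q + 2 * (N - (R - N)) ≤ q + 2 * (N - (R - N)))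
  set K' := adj k (coords X') with hK'
  have hK'c : Countable K' := countable_adj (countable_coords X')
  have hkK' : k ≤ K' := le_adj_left _ _
  have hXK : ∀ i a, X' i a ∈ K' := fun i a => subset_adj _ _ ⟨i, a, rfl⟩
  have h1 := rk_le_of_not_big hc hkK' hK'c hXV hXK hZ hXs rfl hRn
  have h2 := rk_le_of_not_big hc hkK' hK'c hXV hXK hY (hXs.trans hZY) hZY.symm hRn
  calc rk k (coords Z ∪ coords Y) ≤ rk k (coords X' ∪ (coords Z ∪ coords Y)) :=
        rk_mono _ Set.subset_union_right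
    _ = rk k (coords X') + rk K' (coords Z ∪ coords Y) := rk_adj_union _ _ _
    _ ≤ ((q + 2 * (N - (R - N)) : ℕ) : ℕ∞) + ((R : ℕ∞) + (R : ℕ∞)) :=
        add_le_add hXr ((rk_union_le _ _ _).trans (add_le_add h1 h2))
    _ ≤ _ := by exact_mod_cast (by omega : q + 2 * (N - (R - N)) + (R + R) ≤ 4 * N + q)

end Pool.Agent.Y148.OD
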