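import Pool.Agent.Y148.OD.Pair3

/-!
# Pairs of zero-cycles with the same class, fourth part: the equivalences
-/

set_option autoImplicit false

namespace Pool.Agent.Y148.OD

open MvPolynomial

variable {Ω : Type} [Field Ω] {τ : Type} {A : Type} [AddCommGroup A]

/-- The pairs of zero-cycles of degree `n` with the same class have rank at least `r`. -/
def BigPair (V : Set (τ → Ω)) (cl : (τ → Ω) → A) (n r : ℕ) : Prop :=
  ∀ L : Subfield Ω, Countable L → ∃ Z Y : Fin n → τ → Ω, (∀ i, Z i ∈ V) ∧ (∀ i, Y i ∈ V) ∧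
    ∑ i, cl (Z i) = ∑ i, cl (Y i) ∧ (r : ℕ∞) ≤ rk L (coords Z ∪ coords Y)

/-- The fibre of the difference map through `(x, y)` has rank at least `r`. -/
def BigDiff (V : Set (τ → Ω)) (cl : (τ → Ω) → A) {n m : ℕ} (x : Fin n → τ → Ω)
    (y : Fin m → τ → Ω) (r : ℕ) : Prop :=
  ∀ L : Subfield Ω, Countable L → ∃ (x' : Fin n → τ → Ω) (y' : Fin m → τ → Ω),
    (∀ i, x' i ∈ V) ∧ (∀ i, y' i ∈ V) ∧
    ∑ i, cl (x' i) - ∑ i, cl (y' i) = ∑ i, cl (x i) - ∑ i, cl (y i) ∧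
    (r : ℕ∞) ≤ rk L (coords x' ∪ coords y')

/-- The zero-cycles of degree `n` whose orbit has rank at least `s` have rank at least `r`. -/
def BigLocus (V : Set (τ → Ω)) (cl : (τ → Ω) → A) (n s r : ℕ) : Prop :=
  ∀ L : Subfield Ω, Countable L → ∃ z : Fin n → τ → Ω, (∀ i, z i ∈ V) ∧ Big V cl z s ∧
    (r : ℕ∞) ≤ rk L (coords z)

theorem coords_append {m n : ℕ} (x : Fin m → τ → Ω) (y : Fin n → τ → Ω) :
    coords (Fin.append x y) = coords x ∪ coords y := by
  ext c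
  constructor
  · rintro ⟨i, a, ha⟩
    revert ha
    refine Fin.addCases (fun i ha => ?_) (fun i ha => ?_) i
    · rw [Fin.append_left] at ha
      exact Or.inl ⟨i, a, ha⟩
    · rw [Fin.append_right] at ha
      exact Or.inr ⟨i, a, ha⟩
  · rintro (⟨i, a, ha⟩ | ⟨i, a, ha⟩)
    · exact ⟨Fin.castAdd n i, a, by rw [Fin.append_left]; exact ha⟩
    · exact ⟨Fin.natAdd m i, a, by rw [Fin.append_right]; exact ha⟩

theorem append_mem {V : Set (τ → Ω)} {m n : ℕ} {x : Fin m → τ → Ω} {y : Fin n → τ → Ω}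
    (hx : ∀ i, x i ∈ V) (hy : ∀ i, y i ∈ V) (i : Fin (m + n)) : Fin.append x y i ∈ V := by
  refine Fin.addCases (fun i => ?_) (fun i => ?_) i
  · rw [Fin.append_left]; exact hx i
  · rw [Fin.append_right]; exact hy i

theorem sum_append {cl : (τ → Ω) → A} {m n : ℕ} (x : Fin m → τ → Ω) (y : Fin n → τ → Ω) :
    ∑ i, cl (Fin.append x y i) = ∑ i, cl (x i) + ∑ i, cl (y i) := by
  rw [Fin.sum_univ_add]
  simp

theorem rk_add_le {L : Subfield Ω} {S T : Set Ω} {r s : ℕ} (h : (r : ℕ∞) ≤ rk L S)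
    (h' : (s : ℕ∞) ≤ rk (adj L S) T) : ((r + s : ℕ) : ℕ∞) ≤ rk L (S ∪ T) := by
  rw [rk_adj_union]
  exact_mod_cast add_le_add h h'

theorem countable_pair [Countable τ] {L : Subfield Ω} (hL : Countable L) {m n : ℕ}
    (x : Fin m → τ → Ω) (y : Fin n → τ → Ω) : Countable (adj L (coords x ∪ coords y)) :=
  countable_adj ((countable_coords x).union (countable_coords y))

theorem BigPair.add [Countable τ] {V : Set (τ → Ω)} {cl : (τ → Ω) → A} {m n r s : ℕ}
    (h : BigPair V cl m r) (h' : BigPair V cl n s) : BigPair V cl (m + n) (r + s) := by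
  intro L hL
  obtain ⟨Z, Y, hZ, hY, hs, hr⟩ := h L hL
  obtain ⟨Z', Y', hZ', hY', hs', hr'⟩ := h' (adj L (coords Z ∪ coords Y)) (countable_pair hL Z Y)
  refine ⟨Fin.append Z Z', Fin.append Y Y', append_mem hZ hZ', append_mem hY hY', ?_, ?_⟩
  · rw [sum_append, sum_append, hs, hs']
  · refine (rk_add_le hr hr').trans (le_of_eq ?_)
    rw [coords_append, coords_append]
    congr 1
    ext c
    simp only [Set.mem_union]
    tauto

theorem BigPair.mul [Countable τ] {V : Set (τ → Ω)} {cl : (τ → Ω) → A} {n r : ℕ}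
    (h : BigPair V cl n r) (s : ℕ) : BigPair V cl (n * s) (r * s) := by
  induction s with
  | zero =>
    intro L hL
    haveI : IsEmpty (Fin (n * 0)) := by rw [Nat.mul_zero]; infer_instance
    exact ⟨isEmptyElim, isEmptyElim, isEmptyElim, isEmptyElim,
      Finset.sum_congr rfl fun i _ => isEmptyElim i, by simp⟩
  | succ s ih => exact ih.add h

/-- If all orbits are small, the pairs of zero-cycles of degree `n` with the same class have rank at
most `4 n`. -/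
theorem not_bigPair (hDist : StmDist) [IsAlgClosed Ω] [Uncountable Ω] [CharZero Ω] [Fintype τ]
    {k : Subfield Ω} {V : Set (τ → Ω)} (h : Setup k V 3) {cl : (τ → Ω) → A} (hc : Cls k V cl)
    (hsmall : ∀ (n : ℕ) (z : Fin n → τ → Ω), (∀ i, z i ∈ V) → ¬ Big V cl z (2 * n + 1))
    {l : τ → Ω} {a₁ : τ} (hl : l a₁ ≠ 0) {q : ℕ} (hB : Bdd k V (Sec V l) cl q) (n : ℕ) :
    ¬ BigPair V cl n (4 * n + 1) := by
  intro hbp
  obtain ⟨Z, Y, hZ, hY, hs, hr⟩ := hbp.mul (q + 1) k h.countable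
  have h1 := hr.trans (pair_bound hDist h hc hsmall hl hB hZ hY hs)
  have h2 : (4 * n + 1) * (q + 1) ≤ 4 * (n * (q + 1)) + q := by exact_mod_cast h1
  nlinarith

/-- A large fibre of the difference map gives a large set of pairs. -/
theorem bigPair_of_bigDiff [Countable τ] {V : Set (τ → Ω)} {cl : (τ → Ω) → A} {n m r : ℕ}
    {x : Fin n → τ → Ω} {y : Fin m → τ → Ω} (h : BigDiff V cl x y r) :
    BigPair V cl (n + m) (r + r) := by
  intro L hL
  obtain ⟨x₁, y₁, hx₁, hy₁, hs₁, hr₁⟩ := h L hL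
  obtain ⟨x₂, y₂, hx₂, hy₂, hs₂, hr₂⟩ := h (adj L (coords x₁ ∪ coords y₁))
    (countable_pair hL x₁ y₁)
  refine ⟨Fin.append x₁ y₂, Fin.append x₂ y₁, append_mem hx₁ hy₂, append_mem hx₂ hy₁, ?_, ?_⟩
  · rw [sum_append, sum_append]
    have h1 : ∑ i, cl (x₁ i) - ∑ i, cl (y₁ i) = ∑ i, cl (x₂ i) - ∑ i, cl (y₂ i) := by
      rw [hs₁, hs₂]
    rw [sub_eq_sub_iff_add_eq_add] at h1
    exact h1
  · refine (rk_add_le hr₁ hr₂).trans (le_of_eq ?_)
    rw [coords_append, coords_append]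
    congr 1
    ext c
    simp only [Set.mem_union]
    tauto

/-- A large locus of large orbits gives a large set of pairs. -/
theorem bigPair_of_bigLocus [Countable τ] {V : Set (τ → Ω)} {cl : (τ → Ω) → A} {n r s : ℕ}
    (h : BigLocus V cl n s r) : BigPair V cl n (r + s) := by
  intro L hL
  obtain ⟨z, hz, hb, hr⟩ := h L hL
  obtain ⟨y, hy, hs, hr'⟩ := hb (adj L (coords z)) (countable_adj (countable_coords z))
  exact ⟨z, y, hz, hy, hs.symm, rk_add_le hr hr'⟩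

theorem BigPair.anti {V : Set (τ → Ω)} {cl : (τ → Ω) → A} {n r s : ℕ}
    (h : BigPair V cl n r) (hs : s ≤ r) : BigPair V cl n s := by
  intro L hL
  obtain ⟨Z, Y, h1, h2, h3, h4⟩ := h L hL
  exact ⟨Z, Y, h1, h2, h3, le_trans (by exact_mod_cast hs) h4⟩

/-- **The equivalences with pairs** for surfaces. -/
theorem pair_tfae (hComp : StmComp) (hCurve : StmCurve) (hDist : StmDist) [IsAlgClosed Ω]
    [Uncountable Ω] [CharZero Ω] [Fintype τ] {k : Subfield Ω} {V : Set (τ → Ω)}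
    (h : Setup k V 3) {cl : (τ → Ω) → A} (hc : Cls k V cl)
    (hrat : ∀ (n : ℕ) (x y : Fin n → V), ∑ i, FreeAbelianGroup.of (x i) -
        ∑ i, FreeAbelianGroup.of (y i) ∈ ratSub (vlin V) → ∑ i, cl (x i) = ∑ i, cl (y i)) :
    List.TFAE
      [∃ c : ℕ, ∀ (m : ℕ) (z : Fin m → τ → Ω), (∀ i, z i ∈ V) → Big V cl z (3 * m - c),
       ∃ m : ℕ, ∀ z : Fin m → τ → Ω, (∀ i, z i ∈ V) → Big V cl z (m + 1),
       ∃ (n m : ℕ) (x : Fin n → τ → Ω) (y : Fin m → τ → Ω), (∀ i, x i ∈ V) ∧ (∀ i, y i ∈ V) ∧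
        BigDiff V cl x y (2 * (n + m) + 1),
       ∃ n : ℕ, BigPair V cl n (4 * n + 1),
       ∃ n i : ℕ, BigLocus V cl n (i + n) (2 * n - i + 1 + n)] := by
  have hgen := general_tfae hComp hCurve h (by omega) hc hrat
  have h12 := hgen.out 0 1
  have h13 := hgen.out 0 2
  tfae_have 1 ↔ 2 := by
    rw [h12]
    have e : ∀ m : ℕ, (3 - 2) * m + 1 = m + 1 := fun m => by omega
    simp only [e]
  tfae_have 1 → 3 := by
    intro h1
    obtain ⟨m, z, hz, hb⟩ := h13.mp h1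
    refine ⟨m, 0, z, Fin.elim0, hz, fun i => i.elim0, fun L hL => ?_⟩
    obtain ⟨y, hy, hs, hr⟩ := hb L hL
    refine ⟨y, Fin.elim0, hy, fun i => i.elim0, by rw [hs], ?_⟩
    exact hr.trans (rk_mono _ Set.subset_union_left)
  tfae_have 3 → 4 := by
    rintro ⟨n, m, x, y, -, -, hd⟩
    exact ⟨n + m, (bigPair_of_bigDiff hd).anti (by omega)⟩
  tfae_have 4 → 1 := by
    rintro ⟨n, hn⟩
    by_contra hcon
    have hsmall : ∀ (n : ℕ) (z : Fin n → τ → Ω), (∀ i, z i ∈ V) → ¬ Big V cl z (2 * n + 1) := by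
      intro n z hz hb
      exact hcon (h13.mpr ⟨n, z, hz, hb⟩)
    classical
    obtain ⟨w₀, hw₀⟩ := h.nonempty
    obtain ⟨a₁, ha₁⟩ := exists_coord hw₀ hc.ne_zero
    obtain ⟨k', q, hk'c, hkk', hB⟩ := exists_bdd hComp hCurve h hc hrat
      (l := Pi.single a₁ 1) (single_mem k a₁) ⟨w₀, hw₀, by rw [sum_single]; exact ha₁⟩
    exact not_bigPair hDist (h.mono hkk' hk'c) (hc.mono hkk') hsmall
      (l := Pi.single a₁ 1) (a₁ := a₁) (by rw [Pi.single_eq_same]; exact one_ne_zero) hB n hn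
  tfae_have 1 → 5 := by
    rintro ⟨c, hc'⟩
    refine ⟨c + 1, c + 2, fun L hL => ?_⟩
    obtain ⟨z, hz, hr⟩ := h.exists_family hL (c + 1)
    refine ⟨z, hz, (hc' (c + 1) z hz).anti (by omega), le_trans ?_ hr⟩
    exact_mod_cast (by omega : 2 * (c + 1) - (c + 2) + 1 + (c + 1) ≤ 3 * (c + 1))
  tfae_have 5 → 4 := by
    rintro ⟨n, i, hi⟩
    exact ⟨n, (bigPair_of_bigLocus hi).anti (by omega)⟩
  tfae_finish

end Pool.Agent.Y148.OD
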