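import Pool.Agent.Y148.OD.Section

/-!
# Semicontinuity of the dimension of the orbits
-/

set_option autoImplicit false

namespace Pool.Agent.Y148.OD

open MvPolynomial

variable {Ω : Type} [Field Ω] {τ : Type} {A : Type} [AddCommGroup A]

theorem lt_add_one_of {a b : ℕ∞} {n : ℕ} (h : a + b < (n : ℕ∞) + 1) (ha : (n : ℕ∞) ≤ a) : b = 0 := by
  have h1 : a ≠ ⊤ := by
    rintro rfl
    simp at h
  lift a to ℕ using h1
  have h2 : b ≠ ⊤ := by
    rintro rfl
    simp at h
  lift b to ℕ using h2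
  norm_cast at *
  omega

theorem rk_pair_eq_zero {K : Subfield Ω} {a b : Ω} (ha : rk K {a} = 0) (hb : rk K {b} = 0) :
    rk K {a, b} = 0 := by
  have h1 : ({a, b} : Set Ω) = {a} ∪ {b} := rfl
  have h2 := rk_union_le K {a} {b}
  rw [← h1, ha, hb, zero_add] at h2
  exact le_antisymm h2 zero_le

/-- Either of two linear forms through a point is generic. -/
theorem hyper_aux {ι₀ : Type} [Fintype ι₀] {K K₁ : Subfield Ω} (hKK : K ≤ K₁)
    {η : ι₀ → Ω} (hη : ∀ i, η i ∈ K₁) {a₁ : ι₀} (ha₁ : (1 : ℕ∞) ≤ rk K {η a₁})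
    {c : Option ι₀ → Ω} (hc : AlgebraicIndependent K₁ c) :
    ∃ t : ι₀ → Ω, ((Fintype.card ι₀ : ℕ) : ℕ∞) ≤ rk K₁ (Set.range t) ∧
      ((Fintype.card ι₀ + 1 : ℕ) : ℕ∞) ≤ rk K (Set.range t ∪ {∑ a, t a * η a}) := by
  classical
  set t : ι₀ → Ω := fun a => c (some a) with ht
  set t' : ι₀ → Ω := fun a => if a = a₁ then c none else c (some a) with ht'
  have hinj : ∀ s : ι₀ → Option ι₀, Function.Injective s →
      ((Fintype.card ι₀ : ℕ) : ℕ∞) ≤ rk K₁ (Set.range fun a => c (s a)) := by
    intro s hs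
    have h1 : AlgebraicIndependent K₁ (c ∘ s) := hc.comp s hs
    refine le_rk_iff.mpr ⟨Set.range (c ∘ s), subset_rfl, h1.to_subtype_range, ?_⟩
    rw [← Set.image_univ, Function.Injective.encard_image h1.injective, Set.encard_univ,
      ENat.card_eq_coe_fintype_card]
  have hrt : ((Fintype.card ι₀ : ℕ) : ℕ∞) ≤ rk K₁ (Set.range t) :=
    hinj some (Option.some_injective _)
  have hrt' : ((Fintype.card ι₀ : ℕ) : ℕ∞) ≤ rk K₁ (Set.range t') := by
    have h1 := hinj (fun a => if a = a₁ then none else some a) (by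
      intro a b hab
      by_cases h1 : a = a₁ <;> by_cases h2 : b = a₁ <;> simp_all)
    convert h1 using 3
    funext a
    by_cases h : a = a₁ <;> simp [ht', h]
  by_contra hcon
  push Not at hcon
  have e1 := hcon t hrt
  have e2 := hcon t' hrt'
  have hz : ∀ s : ι₀ → Ω, ((Fintype.card ι₀ : ℕ) : ℕ∞) ≤ rk K₁ (Set.range s) →
      rk K (Set.range s ∪ {∑ a, s a * η a}) < ((Fintype.card ι₀ + 1 : ℕ) : ℕ∞) →
      rk (adj K (Set.range s)) {∑ a, s a * η a} = 0 := by
    intro s h1 h2
    rw [rk_adj_union] at h2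
    refine lt_add_one_of (n := Fintype.card ι₀) (by exact_mod_cast h2) (h1.trans (rk_anti hKK _))
  have z1 := hz t hrt e1
  have z2 := hz t' hrt' e2
  have hsub : Set.range t ⊆ Set.range c := by
    rintro _ ⟨a, rfl⟩
    exact ⟨some a, rfl⟩
  have hsub' : Set.range t' ⊆ Set.range c := by
    rintro _ ⟨a, rfl⟩
    by_cases h : a = a₁
    · exact ⟨none, by simp [ht', h]⟩
    · exact ⟨some a, by simp [ht', h]⟩
  set K₂ := adj K (Set.range c) with hK₂
  have z3 : rk K₂ {∑ a, t a * η a, ∑ a, t' a * η a} = 0 := by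
    refine rk_pair_eq_zero ?_ ?_
    · exact le_antisymm ((rk_anti (adj_le (le_adj_left _ _)
        (hsub.trans (subset_adj K _))) _).trans z1.le) zero_le
    · exact le_antisymm ((rk_anti (adj_le (le_adj_left _ _)
        (hsub'.trans (subset_adj K _))) _).trans z2.le) zero_le
  -- the upper bound
  have h1 : rk K (Set.range c ∪ {∑ a, t a * η a, ∑ a, t' a * η a}) ≤
      ((Fintype.card ι₀ + 1 : ℕ) : ℕ∞) := by
    rw [rk_adj_union, z3, add_zero]
    refine (rk_le_encard _ _).trans ?_
    rw [← Set.image_univ]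
    refine (Set.encard_image_le _ _).trans ?_
    rw [Set.encard_univ, ENat.card_eq_coe_fintype_card, Fintype.card_option]
  -- the lower bound
  have h2 : ((Fintype.card ι₀ + 2 : ℕ) : ℕ∞) ≤ rk K ({η a₁} ∪ Set.range c) := by
    rw [rk_adj_union]
    have h3 : ((Fintype.card ι₀ + 1 : ℕ) : ℕ∞) ≤ rk (adj K {η a₁}) (Set.range c) := by
      have h4 : ((Fintype.card ι₀ + 1 : ℕ) : ℕ∞) ≤ rk K₁ (Set.range c) := by
        refine le_rk_iff.mpr ⟨Set.range c, subset_rfl, hc.to_subtype_range, ?_⟩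
        rw [← Set.image_univ, Function.Injective.encard_image hc.injective, Set.encard_univ,
          ENat.card_eq_coe_fintype_card, Fintype.card_option]
      refine h4.trans (rk_anti (adj_le hKK ?_) _)
      intro x hx
      rw [Set.mem_singleton_iff.mp hx]
      exact hη a₁
    calc ((Fintype.card ι₀ + 2 : ℕ) : ℕ∞) = 1 + ((Fintype.card ι₀ + 1 : ℕ) : ℕ∞) := by
          push_cast
          ring
      _ ≤ _ := add_le_add ha₁ h3
  have h3 : rk K ({η a₁} ∪ Set.range c) ≤
      rk K (Set.range c ∪ {∑ a, t a * η a, ∑ a, t' a * η a}) := by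
    refine rk_le_of_mem ?_
    set S := Set.range c ∪ {∑ a, t a * η a, ∑ a, t' a * η a} with hS
    rintro x (hx | hx)
    · rw [Set.mem_singleton_iff.mp hx]
      have h4 : ∑ a, t a * η a - ∑ a, t' a * η a = (c (some a₁) - c none) * η a₁ := by
        rw [← Finset.sum_sub_distrib, Finset.sum_eq_single a₁]
        · simp only [ht, ht', if_true]
          ring
        · intro b _ hb
          simp [ht, ht', hb]
        · intro h
          exact absurd (Finset.mem_univ _) h
      have h5 : c (some a₁) - c none ≠ 0 := by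
        rw [sub_ne_zero]
        intro h
        have := hc.injective h
        simp at this
      have h6 : η a₁ = (∑ a, t a * η a - ∑ a, t' a * η a) / (c (some a₁) - c none) := by
        rw [h4, mul_div_cancel_left₀ _ h5]
      rw [h6]
      refine div_mem (sub_mem (subset_adj _ _ ?_) (subset_adj _ _ ?_))
        (sub_mem (subset_adj _ _ ?_) (subset_adj _ _ ?_))
      · exact Or.inr (Or.inl rfl)
      · exact Or.inr (Or.inr rfl)
      · exact Or.inl ⟨_, rfl⟩
      · exact Or.inl ⟨_, rfl⟩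
    · exact subset_adj _ _ (Or.inl hx)
  have h4 := h2.trans (h3.trans h1)
  have h5 : Fintype.card ι₀ + 2 ≤ Fintype.card ι₀ + 1 := by exact_mod_cast h4
  omega

/-- **A generic hyperplane through a point.** -/
theorem exists_hyper [IsAlgClosed Ω] [Uncountable Ω] [Fintype τ] {K : Subfield Ω}
    (hK : Countable K) {ι : Type} [Fintype ι] {y : ι → τ → Ω} (hy : ∀ i, y i ≠ 0)
    (hr : (Fintype.card ι : ℕ∞) < rk K (coords y)) :
    ∃ (i₀ : ι) (u : τ → Ω), ∑ a, u a * y i₀ a = 0 ∧
      ((Fintype.card τ : ℕ) : ℕ∞) ≤ rk K (Set.range u) ∧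
      rk K (coords y) ≤ rk (adj K (Set.range u)) (coords y) + 1 := by
  classical
  have hne : ∀ i, ∃ b, y i b ≠ 0 := by
    intro i
    by_contra hcon
    push Not at hcon
    exact hy i (funext hcon)
  choose b hb using hne
  -- a transcendental ratio
  obtain ⟨i₀, a₀, ht⟩ : ∃ i a, ¬ IsAlgebraic K (y i a / y i (b i)) := by
    by_contra hcon
    push Not at hcon
    apply absurd hr
    rw [not_lt]
    set T : Set Ω := Set.range (fun i => y i (b i)) with hT
    have h1 : rk K (coords y) ≤ rk K T := by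
      apply rk_le_of_isAlgebraic
      rintro x ⟨i, a, rfl⟩
      have h2 : y i a = (y i a / y i (b i)) * y i (b i) := by
        rw [div_mul_cancel₀ _ (hb i)]
      rw [h2]
      refine IsAlgebraic.mul ?_ ?_
      · exact (hcon i a).extendScalars (FaithfulSMul.algebraMap_injective K _)
      · exact isAlgebraic_algebraMap
          (⟨_, Algebra.subset_adjoin ⟨i, rfl⟩⟩ : Algebra.adjoin K T)
    refine h1.trans ((rk_le_encard _ _).trans ?_)
    rw [hT, ← Set.image_univ]
    refine (Set.encard_image_le _ _).trans ?_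
    rw [Set.encard_univ, ENat.card_eq_coe_fintype_card]
  have ha₀ : a₀ ≠ b i₀ := by
    rintro rfl
    apply ht
    rw [div_self (hb i₀)]
    exact isAlgebraic_one
  set K₁ := adj K (coords y) with hK₁
  have hK₁c : Countable K₁ := countable_adj (countable_coords y)
  let ι₀ : Type := {a : τ // a ≠ b i₀}
  have hcard : Fintype.card ι₀ + 1 = Fintype.card τ := by
    have h1 : Fintype.card ι₀ = Fintype.card τ - 1 := by
      rw [Fintype.card_subtype_compl, Fintype.card_subtype_eq]
    have h2 : 0 < Fintype.card τ := Fintype.card_pos_iff.mpr ⟨a₀⟩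
    omega
  obtain ⟨c, hc⟩ := Pool.Agent.Y141.OD.exists_indep K₁ hK₁c (Option ι₀)
  have hyK : ∀ i a, y i a ∈ K₁ := fun i a => subset_adj _ _ ⟨i, a, rfl⟩
  obtain ⟨t, ht1, ht2⟩ := hyper_aux (le_adj_left K (coords y)) (η := fun a : ι₀ =>
    y i₀ a / y i₀ (b i₀)) (fun a => div_mem (hyK _ _) (hyK _ _)) (a₁ := ⟨a₀, ha₀⟩) (by
      rw [Order.one_le_iff_pos]
      rw [pos_iff_ne_zero]
      intro h0
      apply ht
      by_contra hcon
      have h1 : (AlgebraicIndependent.matroid K Ω).Indep {y i₀ a₀ / y i₀ (b i₀)} := by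
        rw [AlgebraicIndependent.matroid_indep_iff]
        rw [AlgebraicIndepOn, algebraicIndependent_unique_type_iff]
        exact hcon
      have h2 := h1.encard_le_eRk_of_subset (subset_refl _)
      have h3 : rk K {y i₀ a₀ / y i₀ (b i₀)} = 0 := h0
      rw [rk] at h3
      rw [h3] at h2
      simp at h2) hc
  set u : τ → Ω := fun a => if h : a ≠ b i₀ then t ⟨a, h⟩ else
    - ∑ a' : ι₀, t a' * (y i₀ a' / y i₀ (b i₀)) with hu
  have hub : u (b i₀) = - ∑ a' : ι₀, t a' * (y i₀ a' / y i₀ (b i₀)) := by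
    simp [hu]
  have hua : ∀ a : ι₀, u a = t a := by
    intro a
    simp [hu, a.2]
  have hsum : ∀ f : τ → Ω, ∑ a, f a = f (b i₀) + ∑ a : ι₀, f a := by
    intro f
    rw [← Finset.add_sum_erase _ _ (Finset.mem_univ (b i₀))]
    congr 1
    refine (Finset.sum_subtype _ (fun a => ?_) _)
    simp
  refine ⟨i₀, u, ?_, ?_, ?_⟩
  · rw [hsum, hub]
    have h1 : ∑ a : ι₀, u a * y i₀ a =
        (∑ a' : ι₀, t a' * (y i₀ a' / y i₀ (b i₀))) * y i₀ (b i₀) := by
      rw [Finset.sum_mul]
      refine Finset.sum_congr rfl fun a _ => ?_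
      rw [hua]
      field_simp [hb i₀]
    rw [h1]
    ring
  · rw [hcard] at ht2
    refine ht2.trans (rk_le_of_mem ?_)
    rintro x (⟨a, rfl⟩ | hx)
    · rw [← hua]
      exact subset_adj _ _ ⟨_, rfl⟩
    · rw [Set.mem_singleton_iff.mp hx]
      have : ∑ a : ι₀, t a * (y i₀ a / y i₀ (b i₀)) = - u (b i₀) := by rw [hub, neg_neg]
      rw [this]
      exact neg_mem (subset_adj _ _ ⟨_, rfl⟩)
  · have h1 : rk K (Set.range u ∪ coords y) = rk K (Set.range u) +
        rk (adj K (Set.range u)) (coords y) := rk_adj_union _ _ _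
    have h2 : rk K (Set.range u ∪ coords y) = rk K (coords y) + rk K₁ (Set.range u) :=
      rk_union _ _ _
    have h3 : rk K (Set.range u) ≤ ((Fintype.card ι₀ + 1 : ℕ) : ℕ∞) := by
      rw [hcard]
      refine (rk_le_encard _ _).trans ?_
      rw [← Set.image_univ]
      refine (Set.encard_image_le _ _).trans ?_
      rw [Set.encard_univ, ENat.card_eq_coe_fintype_card]
    have h4 : ((Fintype.card ι₀ : ℕ) : ℕ∞) ≤ rk K₁ (Set.range u) := by
      refine ht1.trans (rk_mono _ ?_)
      rintro _ ⟨a, rfl⟩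
      exact ⟨a, hua a⟩
    have h5 : rk K (coords y) + ((Fintype.card ι₀ : ℕ) : ℕ∞) ≤
        ((Fintype.card ι₀ + 1 : ℕ) : ℕ∞) + rk (adj K (Set.range u)) (coords y) := by
      calc _ ≤ rk K (coords y) + rk K₁ (Set.range u) := add_le_add le_rfl h4
        _ = rk K (Set.range u) + rk (adj K (Set.range u)) (coords y) := by rw [← h2, h1]
        _ ≤ _ := add_le_add h3 le_rfl
    have h6 : rk K (coords y) + ((Fintype.card ι₀ : ℕ) : ℕ∞) ≤
        (rk (adj K (Set.range u)) (coords y) + 1) + ((Fintype.card ι₀ : ℕ) : ℕ∞) := by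
      refine h5.trans (le_of_eq ?_)
      push_cast
      ring
    exact (ENat.add_le_add_iff_right (by exact_mod_cast ENat.natCast_ne_top _)).mp h6

end Pool.Agent.Y148.OD
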