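import Pool.Agent.Y148.OD.Chow
import Pool.Agent.Y148.OD.Stm

/-!
# Statements of the lemmas (jobs) of project OD, second part: rational equivalence
-/

set_option autoImplicit false

namespace Pool.Agent.Y148.OD

open MvPolynomial

/-- OD-6. Description of rational equivalence by one family after adding a zero-cycle. -/
def StmRat : Prop := ∀ (Ω : Type) [Field Ω] (τ : Type) [Fintype τ] (P : Type)
  (ℓ : P → MvPolynomial τ Ω), (∀ p, ℓ p ≠ 0) → ∀ (n : ℕ) (x y : Fin n → P),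
    (∑ i, FreeAbelianGroup.of (x i) - ∑ i, FreeAbelianGroup.of (y i) ∈ ratSub ℓ ↔
      ∃ (m : ℕ) (w : Fin m → P), RatStep ℓ (n + m) (Fin.append x w) (Fin.append y w))

/-- OD-7. Extension of a homomorphism to a place of a countable algebraically closed field. -/
def StmPlace : Prop := ∀ (Ω : Type) [Field Ω] [IsAlgClosed Ω] [Uncountable Ω] (A : Subring Ω),
  Countable A → ∀ (ψ : A →+* Ω) (T : Set Ω), T.Countable →
    ∃ (K : Subfield Ω) (O : ValuationSubring K) (θ : O →+* Ω), Countable K ∧ IsAlgClosed K ∧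
      T ⊆ (K : Set Ω) ∧ (∀ u : O, θ u = 0 ↔ ¬ IsUnit u) ∧
      ∀ a : A, ∃ (u : O), ((u : K) : Ω) = (a : Ω) ∧ θ u = ψ a

/-- One step of the Newton polygon from the vertex `j` to the vertex `j'`: `w i` is the size of the
`i`-th coefficient, the substitution of `c s` for `s` makes the coefficients `j` and `j'` dominant. -/
def Step {K Γ : Type} [Field K] [LinearOrderedCommGroupWithZero Γ] (v : Valuation K Γ) (w : ℕ → Γ)
    (j j' : ℕ) : Prop :=
  j < j' ∧ ∃ c : K, c ≠ 0 ∧ v c ^ j * w j = v c ^ j' * w j' ∧ w j ≠ 0 ∧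
    (∀ i, v c ^ i * w i ≤ v c ^ j * w j) ∧ ∀ i, i < j ∨ j' < i → v c ^ i * w i < v c ^ j * w j

/-- OD-8. The Newton polygon. -/
def StmNewton : Prop := ∀ (K Γ : Type) [Field K] [IsAlgClosed K]
  [LinearOrderedCommGroupWithZero Γ] (v : Valuation K Γ) (w : ℕ → Γ) (e : ℕ),
    (∀ i, ∃ a : K, v a = w i) → w 0 ≠ 0 → w e ≠ 0 → (∀ i, e < i → w i = 0) →
      Relation.ReflTransGen (Step v w) 0 e

/-- OD-9. Reduction of families of Chow forms of points of a closed cone `V` defined over `k`: the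
reduction of a family is a family, and its lowest and its highest coefficient are linked. -/
def StmReduce : Prop := ∀ (Ω : Type) [Field Ω] [IsAlgClosed Ω] [Uncountable Ω] (τ : Type)
  [Fintype τ] (V : Set (τ → Ω)) (k : Subfield Ω),
    (∃ S : Set (MvPolynomial τ k), ∀ v : τ → Ω, v ∈ V ↔ v ≠ 0 ∧ ∀ P ∈ S, aeval v P = 0) →
    (∀ (c : Ω) (v : τ → Ω), c ≠ 0 → v ∈ V → c • v ∈ V) →
    ∀ (K : Subfield Ω) (O : ValuationSubring K) (θ : O →+* Ω), Countable K →
      (∀ a : k, ∃ u : O, ((u : K) : Ω) = (a : Ω) ∧ θ u = (a : Ω)) →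
      ∀ (n : ℕ) (G : Polynomial (MvPolynomial τ O)),
        (∀ s : Ω, IsCyc (vlin V) n ((G.map (MvPolynomial.map
          ((algebraMap K Ω).comp (algebraMap O K)))).eval (C s))) →
        ∀ G' : Polynomial (MvPolynomial τ Ω), G' = G.map (MvPolynomial.map θ) → G' ≠ 0 →
          IsCyc (vlin V) n G'.leadingCoeff ∧ IsCyc (vlin V) n G'.trailingCoeff ∧
            Link (vlin V) n G'.trailingCoeff G'.leadingCoeff

/-- Two nonzero multiples of Chow forms are forms of rationally equivalent zero-cycles. -/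
def FormEq {Ω τ : Type} [Field Ω] [Fintype τ] {P : Type} (ℓ : P → MvPolynomial τ Ω) (n : ℕ)
    (f g : MvPolynomial τ Ω) : Prop :=
  ∃ (c c' : Ω) (x y : Fin n → P), c ≠ 0 ∧ c' ≠ 0 ∧ f = C c * chow ℓ x ∧ g = C c' * chow ℓ y ∧
    ∑ i, FreeAbelianGroup.of (x i) - ∑ i, FreeAbelianGroup.of (y i) ∈ ratSub ℓ

/-- OD-10. Specialisation of families: the ends of a family have rationally equivalent reductions.
The `r` and `r'` are elements of `K` which make the ends of the family primitive. -/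
def StmChain : Prop := ∀ (Ω : Type) [Field Ω] [IsAlgClosed Ω] [Uncountable Ω] (τ : Type)
  [Fintype τ] (V : Set (τ → Ω)) (k : Subfield Ω),
    (∃ S : Set (MvPolynomial τ k), ∀ v : τ → Ω, v ∈ V ↔ v ≠ 0 ∧ ∀ P ∈ S, aeval v P = 0) →
    (∀ (c : Ω) (v : τ → Ω), c ≠ 0 → v ∈ V → c • v ∈ V) →
    ∀ (K : Subfield Ω) (O : ValuationSubring K) (θ : O →+* Ω), Countable K → IsAlgClosed K →
      (∀ u : O, θ u = 0 ↔ ¬ IsUnit u) →
      (∀ a : k, ∃ u : O, ((u : K) : Ω) = (a : Ω) ∧ θ u = (a : Ω)) →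
      ∀ (n : ℕ) (F : Polynomial (MvPolynomial τ K)),
        (∀ s : Ω, IsCyc (vlin V) n ((F.map (MvPolynomial.map (algebraMap K Ω))).eval (C s))) →
        ∀ f g : MvPolynomial τ O, MvPolynomial.map θ f ≠ 0 → MvPolynomial.map θ g ≠ 0 →
          (∃ r : K, r ≠ 0 ∧ F.coeff 0 = C r * MvPolynomial.map (algebraMap O K) f) →
          (∃ r : K, r ≠ 0 ∧ F.leadingCoeff = C r * MvPolynomial.map (algebraMap O K) g) →
          FormEq (vlin V) n (MvPolynomial.map θ f) (MvPolynomial.map θ g)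

/-- OD-11. Rational equivalence is stable under specialisation. -/
def StmStab : Prop := ∀ (Ω : Type) [Field Ω] [IsAlgClosed Ω] [Uncountable Ω] (τ : Type)
  [Fintype τ] (V : Set (τ → Ω)) (k : Subfield Ω), Countable k →
    (∃ S : Set (MvPolynomial τ k), ∀ v : τ → Ω, v ∈ V ↔ v ≠ 0 ∧ ∀ P ∈ S, aeval v P = 0) →
    (∀ (c : Ω) (v : τ → Ω), c ≠ 0 → v ∈ V → c • v ∈ V) →
    ∀ (n : ℕ) (x y : Fin n → V) (x' y' : Fin n → τ → Ω),
      ∑ i, FreeAbelianGroup.of (x i) - ∑ i, FreeAbelianGroup.of (y i) ∈ ratSub (vlin V) →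
      (∀ i, x' i ≠ 0) → (∀ i, y' i ≠ 0) →
      (∀ P : MvPolynomial ((Fin n ⊕ Fin n) × τ) k,
        aeval (fun p => Sum.elim (fun i => (x i : τ → Ω)) (fun i => (y i : τ → Ω)) p.1 p.2) P = 0 →
        aeval (fun p => Sum.elim x' y' p.1 p.2) P = 0) →
      ∃ (hx : ∀ i, x' i ∈ V) (hy : ∀ i, y' i ∈ V),
        ∑ i, FreeAbelianGroup.of (⟨x' i, hx i⟩ : V) -
          ∑ i, FreeAbelianGroup.of (⟨y' i, hy i⟩ : V) ∈ ratSub (vlin V)

end Pool.Agent.Y148.OD
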