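import Mathlib

/-!
# Zero-cycles on projective varieties: the definitions
-/

set_option autoImplicit false

namespace Pool.Agent.Y148.OD

open MvPolynomial

/-- The points of the complex projective space of dimension `r`. -/
abbrev Pt (r : ℕ) : Type := Projectivization ℂ (Fin (r + 1) → ℂ)

/-- `X` is a Zariski closed subset of projective space: the set of the common zeros of finitely many
homogeneous polynomials. -/
def IsClosedSet {r : ℕ} (X : Set (Pt r)) : Prop :=
  ∃ S : Finset (MvPolynomial (Fin (r + 1)) ℂ), (∀ P ∈ S, ∃ d : ℕ, P.IsHomogeneous d) ∧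
    ∀ x : Pt r, x ∈ X ↔ ∀ P ∈ S, eval x.rep P = 0

/-- `X` is irreducible: not empty and not the union of two smaller closed subsets. -/
def IsIrred {r : ℕ} (X : Set (Pt r)) : Prop :=
  X.Nonempty ∧ ∀ Y Z : Set (Pt r), IsClosedSet Y → IsClosedSet Z → X ⊆ Y ∪ Z → X ⊆ Y ∨ X ⊆ Z

/-- The ratios of the homogeneous coordinates of the points `x i`. -/
def ratios {ι : Type} {r : ℕ} (x : ι → Pt r) : Set ℂ :=
  {c | ∃ (i : ι) (a b : Fin (r + 1)), c = (x i).rep a / (x i).rep b}

/-- The set `F` of families of points has dimension at least `d`: for every countable subfield `L` of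
the complex numbers it contains a family such that `d` of the ratios of homogeneous coordinates of its
points are algebraically independent over `L`.  (For closed sets and countable unions of closed sets
this is the usual dimension.) -/
def DimGE {ι : Type} {r : ℕ} (F : Set (ι → Pt r)) (d : ℕ) : Prop :=
  ∀ L : Subfield ℂ, Countable L → ∃ x ∈ F, ∃ s : Set ℂ, s ⊆ ratios x ∧
    AlgebraicIndepOn L id s ∧ s.encard = (d : ℕ∞)

/-- The dimension of a set of families of points (a countable union of closed sets). -/
noncomputable def dim {ι : Type} {r : ℕ} (F : Set (ι → Pt r)) : ℕ := sSup {d | DimGE F d}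

/-- `X` is an irreducible closed subset of dimension `N`. -/
structure IsVariety {r : ℕ} (X : Set (Pt r)) (N : ℕ) : Prop where
  closed : IsClosedSet X
  irred : IsIrred X
  dim_eq : dim {x : Unit → Pt r | x () ∈ X} = N

/-- The Chow form `∏ (∑_a x_{i,a} U_a)` of the zero-cycle `∑ [x i]`. -/
noncomputable def chowForm {r n : ℕ} (x : Fin n → Pt r) : MvPolynomial (Fin (r + 1)) ℂ :=
  ∏ i, ∑ a, C ((x i).rep a) * X a

/-- The zero-cycles `∑ [x i]` and `∑ [y i]` on `X` are the values at `0` and `∞` of a morphism from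
the projective line to the symmetric product `Sⁿ(X)`, given by a polynomial `F` in one variable whose
values at `s` are multiples (possibly zero, at common zeros of the coefficients) of Chow forms of
zero-cycles on `X`, with constant coefficient the form of `∑ [x i]` and leading coefficient the form
of `∑ [y i]`, up to nonzero factors. -/
def Joined {r : ℕ} (X : Set (Pt r)) (n : ℕ) (x y : Fin n → X) : Prop :=
  ∃ F : Polynomial (MvPolynomial (Fin (r + 1)) ℂ),
    (∃ c : ℂ, c ≠ 0 ∧ F.coeff 0 = C c * chowForm fun i => (x i : Pt r)) ∧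
    (∃ c : ℂ, c ≠ 0 ∧ F.leadingCoeff = C c * chowForm fun i => (y i : Pt r)) ∧
    ∀ s : ℂ, ∃ (c : ℂ) (z : Fin n → X), F.eval (C s) = C c * chowForm fun i => (z i : Pt r)

/-- The group `B(X)` of zero-cycles on `X` modulo rational equivalence. -/
abbrev B {r : ℕ} (X : Set (Pt r)) : Type :=
  FreeAbelianGroup X ⧸ AddSubgroup.closure {e : FreeAbelianGroup X |
    ∃ (n : ℕ) (x y : Fin n → X), Joined X n x y ∧
      e = ∑ i, FreeAbelianGroup.of (x i) - ∑ i, FreeAbelianGroup.of (y i)}

/-- The class in `B(X)` of the effective zero-cycle `∑ [x i]`. -/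
def γ {r : ℕ} (X : Set (Pt r)) {n : ℕ} (x : Fin n → X) : B X :=
  QuotientAddGroup.mk (∑ i, FreeAbelianGroup.of (x i))

/-- The fibre through `x` of the map `γ` (on `Xⁿ`, which is finite over `Sⁿ(X)`). -/
def fibre {r : ℕ} (X : Set (Pt r)) {n : ℕ} (x : Fin n → X) : Set (Fin n → Pt r) :=
  {y | ∃ hy : ∀ i, y i ∈ X, γ X (fun i => ⟨y i, hy i⟩) = γ X x}

/-- `d_n = dim Sⁿ(X) - min (dimensions of the fibres)`, `N = dim X`. -/
noncomputable def dn {r : ℕ} (X : Set (Pt r)) (N n : ℕ) : ℕ :=
  N * n - sInf {d | ∃ x : Fin n → X, d = dim (fibre X x)}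

end Pool.Agent.Y148.OD
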