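import Pool.Agent.Y148.OD.SC2

/-!
# Terminal subvarieties and the dimension of the orbits
-/

set_option autoImplicit false

namespace Pool.Agent.Y148.OD

open MvPolynomial

variable {Ω : Type} [Field Ω] {τ : Type} {A : Type} [AddCommGroup A]

/-- `E` is an irreducible closed cone over `k`, of dimension `m`, contained in `V`, whose generic
zero-cycles do not move in `E`. -/
structure Terminal (k : Subfield Ω) (V E : Set (τ → Ω)) (m : ℕ) (cl : (τ → Ω) → A) : Prop where
  sub : E ⊆ V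
  setup : Setup k E m
  smul : ∀ (c : Ω) (v : τ → Ω), c ≠ 0 → v ∈ E → c • v ∈ E
  not_move : ∀ p, ¬ GenMove k E m cl p

theorem GenMove.anti {k K : Subfield Ω} (h : k ≤ K) {V : Set (τ → Ω)} {M : ℕ}
    {cl : (τ → Ω) → A} {p : ℕ} (hg : GenMove K V M cl p) : GenMove k V M cl p := by
  obtain ⟨z, y, hz, hy, hcl, hr1, hr2⟩ := hg
  exact ⟨z, y, hz, hy, hcl, hr1.trans (rk_anti h _), lt_of_lt_of_le hr2
    (rk_anti (adj_le (h.trans (le_adj_left _ _)) (subset_adj _ _)) _)⟩

theorem Terminal.mono {k K : Subfield Ω} (h : k ≤ K) (hK : Countable K) {V E : Set (τ → Ω)}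
    {m : ℕ} {cl : (τ → Ω) → A} (hE : Terminal k V E m cl) : Terminal K V E m cl where
  sub := hE.sub
  setup := hE.setup.mono h hK
  smul := hE.smul
  not_move := fun p hp => hE.not_move p (hp.anti h)

theorem Bdd.mono {k K : Subfield Ω} (h : k ≤ K) {V W : Set (τ → Ω)} {cl : (τ → Ω) → A} {q : ℕ}
    (hB : Bdd k V W cl q) : Bdd K V W cl q := by
  intro ι _ b hb
  obtain ⟨u, hu, hus, hur⟩ := hB ι b hb
  exact ⟨u, hu, hus, (rk_anti h _).trans hur⟩

/-- Realising an orbit in a closed subcone generically over a bigger field. -/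
theorem Cls.orbit_sub [IsAlgClosed Ω] [Uncountable Ω] [Finite τ] {k : Subfield Ω}
    {V E : Set (τ → Ω)} {cl : (τ → Ω) → A} (hc : Cls k V cl) (hEV : E ⊆ V)
    (hE : ∃ S : Set (MvPolynomial τ k), ∀ v : τ → Ω, v ∈ E ↔ v ≠ 0 ∧ ∀ P ∈ S, aeval v P = 0)
    {κ ι : Type} [Fintype κ] [Fintype ι]
    (hcard : Fintype.card κ = Fintype.card ι) {K L : Subfield Ω} (hk : k ≤ K) (hKL : K ≤ L)
    (hL : Countable L) {u : κ → τ → Ω} (hu : ∀ i, u i ∈ V) (huK : ∀ i a, u i a ∈ K)
    {y : ι → τ → Ω} (hy : ∀ i, y i ∈ E) (hcl : ∑ i, cl (u i) = ∑ i, cl (y i)) :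
    ∃ y' : ι → τ → Ω, (∀ i, y' i ∈ E) ∧ ∑ i, cl (y' i) = ∑ i, cl (y i) ∧
      rk K (coords y) ≤ rk L (coords y') := by
  obtain ⟨x, hx1, hx2⟩ := stmGeneric Ω (ι × τ) K L hKL hL (fun p => y p.1 p.2)
  set y' : ι → τ → Ω := fun i a => x (i, a) with hy'
  have hxy : x = fun p : ι × τ => y' p.1 p.2 := rfl
  have hne : ∀ i, y' i ≠ 0 := by
    intro i h0
    apply hc.ne_zero _ (hEV (hy i))
    funext a
    have h1 := (hx1 (X (i, a))).mpr (by
      rw [aeval_X]
      exact congrFun h0 a)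
    rw [aeval_X] at h1
    exact h1
  obtain ⟨-, hV, hsum⟩ := hc.stab κ ι hcard u y u y' hu (fun i => hEV (hy i)) hcl
    (fun i => hc.ne_zero _ (hu i)) hne
    (fun P hP => by
      obtain ⟨Q, hQ⟩ := exists_subst hk P (fun p : (κ ⊕ ι) × τ => match p.1 with
        | Sum.inl i => (Sum.inr ⟨u i p.2, huK i p.2⟩ : (ι × τ) ⊕ K)
        | Sum.inr i => Sum.inl (i, p.2))
      have h1 := (hx1 Q).mp (by
        rw [hQ, ← hP]
        congr 1
        congr 1
        funext p
        obtain ⟨i | i, a⟩ := p <;> rfl)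
      rw [hQ] at h1
      rw [← h1]
      congr 1
      congr 1
      funext p
      obtain ⟨i | i, a⟩ := p <;> rfl)
  refine ⟨y', fun i => ?_, by rw [← hsum, hcl], ?_⟩
  · obtain ⟨S, hS⟩ := closed_mono hk hE
    rw [hS]
    refine ⟨hne i, fun P hP => ?_⟩
    have h1 := (hx1 (rename (fun a => (i, a)) P)).mp (by
      rw [aeval_rename]
      exact ((hS _).mp (hy i)).2 P hP)
    rw [aeval_rename] at h1
    exact h1
  · rw [coords_eq_range y', ← hxy, hx2, ← coords_eq_range y]

/-- **Generic orbits are small** if there is a terminal subvariety of dimension `m - 1`. -/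
theorem Terminal.orbit_le [IsAlgClosed Ω] [Uncountable Ω] [Fintype τ] {k : Subfield Ω}
    {V : Set (τ → Ω)} {M : ℕ} (h : Setup k V M) {cl : (τ → Ω) → A} (hc : Cls k V cl)
    {E : Set (τ → Ω)} {m : ℕ} (hE : Terminal k V E m cl) {n : ℕ} {z y : Fin n → τ → Ω}
    (hz : ∀ i, z i ∈ V) (hy : ∀ i, y i ∈ V) (hcl : ∑ i, cl (z i) = ∑ i, cl (y i))
    (hzr : ((M * n : ℕ) : ℕ∞) ≤ rk k (coords z)) :
    rk (adj k (coords z)) (coords y) + ((m * n : ℕ) : ℕ∞) ≤ (((M + 1) * n : ℕ) : ℕ∞) := by
  classical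
  have hk := h.countable
  obtain ⟨v, hv, hvr⟩ := hE.setup.lower k hk
  have hmM : m ≤ M := by
    have h1 := hvr.trans ((h.point le_rfl hk).1 v (hE.sub hv))
    exact_mod_cast h1
  by_contra hcon
  rw [not_le] at hcon
  obtain ⟨Y, hY⟩ := exists_nat_rk h (le_adj_left k (coords z)) hy
  rw [← hY] at hcon
  have hcon' : (M + 1) * n < Y + m * n := by exact_mod_cast hcon
  obtain ⟨d, rfl⟩ : ∃ d, M = m + d := ⟨M - m, by omega⟩
  have hYn : d * n + 1 + n ≤ Y := by
    have : (m + d + 1) * n = m * n + d * n + n := by ring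
    rw [this] at hcon'
    omega
  obtain ⟨e, he, her⟩ := hE.setup.exists_family hk n
  have heV : ∀ i, e i ∈ V := fun i => hE.sub (he i)
  have hbig := semicont h hc hz hy hcl hzr (R := d * n + 1) (by
    rw [← hY]
    exact_mod_cast hYn) heV
  have hK₀c : Countable (adj k (coords e)) := countable_adj (countable_coords e)
  obtain ⟨w, hw, hws, hwr⟩ := hbig (adj k (coords e)) hK₀c
  set K := adj k (coords w) with hK
  set L := adj K (coords e) with hL
  have hKc : Countable K := countable_adj (countable_coords w)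
  have hLc : Countable L := countable_adj (countable_coords e)
  obtain ⟨e', he', hes, her'⟩ := hc.orbit_sub hE.sub hE.setup.closed (κ := Fin n) (ι := Fin n) rfl
    (le_adj_left k (coords w)) (le_adj_left K (coords e)) hLc hw
    (fun i a => subset_adj _ _ ⟨i, a, rfl⟩) he hws
  have h1 : ((n + 1 : ℕ) : ℕ∞) ≤ rk K (coords e) := by
    have h2 : rk k (coords w) ≤ (((m + d) * n : ℕ) : ℕ∞) := by
      have := rk_coords_le h hw
      rwa [Fintype.card_fin] at this
    refine cancel_aux (p := (m + d) * n) (q := n + 1) ?_ h2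
    rw [hK, ← rk_adj_union, Set.union_comm, rk_adj_union]
    calc (((m + d) * n + (n + 1) : ℕ) : ℕ∞) =
          ((m * n : ℕ) : ℕ∞) + ((d * n + 1 + n : ℕ) : ℕ∞) := by
          push_cast
          ring
      _ ≤ _ := add_le_add her hwr
  have h2 : ((n + 1 : ℕ) : ℕ∞) ≤ rk (adj k (coords e)) (coords e') :=
    h1.trans (her'.trans (rk_anti (adj_le ((le_adj_left k (coords w)).trans
      (le_adj_left K (coords e))) (subset_adj _ _)) _))
  rcases n with _ | p
  · have h3 : coords e' = ∅ := by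
      ext c
      constructor
      · rintro ⟨i, -⟩
        exact i.elim0
      · intro hc
        exact hc.elim
    rw [h3, rk_empty] at h2
    simp at h2
  · refine hE.not_move p ⟨e, e', he, he', hes.symm, her, lt_of_lt_of_le ?_ h2⟩
    exact_mod_cast Nat.lt_succ_self _

theorem arith_aux (M n j : ℕ) (hM : 2 ≤ M) (hj : j ≤ n) :
    (M - 1) * (n - j) + j + ((M - 2) * j + 1) = (M - 1) * n + 1 := by
  obtain ⟨d, rfl⟩ : ∃ d, n = j + d := ⟨n - j, by omega⟩
  obtain ⟨x, rfl⟩ : ∃ x, M = x + 2 := ⟨M - 2, by omega⟩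
  have e1 : x + 2 - 1 = x + 1 := by omega
  have e2 : x + 2 - 2 = x := by omega
  have e3 : j + d - j = d := by omega
  rw [e1, e2, e3]
  ring

/-- **All orbits are small** if there is a terminal subvariety of dimension at least two. -/
theorem Terminal.not_big [IsAlgClosed Ω] [Uncountable Ω] [Fintype τ] {k : Subfield Ω}
    {V : Set (τ → Ω)} {M : ℕ} (h : Setup k V M) {cl : (τ → Ω) → A} (hc : Cls k V cl)
    {E : Set (τ → Ω)} {m : ℕ} (hm : 3 ≤ m) (hE : Terminal k V E m cl) {n : ℕ}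
    {z : Fin n → τ → Ω} (hz : ∀ i, z i ∈ V) : ¬ Big V cl z ((M - 1) * n + 1) := by
  classical
  intro hbig
  have hkc := h.countable
  obtain ⟨v, hv, hvr⟩ := hE.setup.lower k hkc
  have hmM : m ≤ M := by
    have h1 := hvr.trans ((h.point le_rfl hkc).1 v (hE.sub hv))
    exact_mod_cast h1
  set K := adj k (coords z) with hK
  have hKc : Countable K := countable_adj (countable_coords z)
  have hkK : k ≤ K := le_adj_left _ _
  obtain ⟨y, hy, hysum, hyr⟩ := hbig K hKc
  obtain ⟨J, -, hJ1, hJmax, -⟩ := exists_max h (by omega) hkK hKc hy Finset.univ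
  obtain ⟨J', -, hJ'1, -, hJ'r⟩ := exists_max h (by omega) hkK hKc hy Jᶜ
  have hJJ' : J'.card ≤ J.card := hJmax J' (Finset.subset_univ _) hJ'1
  set K' := adj K (cof ((Jᶜ : Finset (Fin n)) : Set (Fin n)) y) with hK'
  have hK'c : Countable K' := countable_adj ((countable_coords y).mono (cof_subset_coords _ _))
  set L := adj K' (coords y) with hL
  have hLc : Countable L := countable_adj (countable_coords y)
  have hKK' : K ≤ K' := le_adj_left _ _
  have hK'L : K' ≤ L := le_adj_left _ _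
  -- the rank of the generic subfamily over the others
  have hJr : (((M - 2) * J.card + 1 : ℕ) : ℕ∞) ≤ rk K' (cof (J : Set (Fin n)) y) := by
    have h3 : coords y = cof (((J : Finset (Fin n)) : Set (Fin n)) ∪
        ((Jᶜ : Finset (Fin n)) : Set (Fin n))) y := by
      rw [← cof_univ]
      congr 1
      rw [← Finset.coe_union, Finset.union_compl, Finset.coe_univ]
    rw [h3, rk_cof_union] at hyr
    have h4 : rk K (cof ((Jᶜ : Finset (Fin n)) : Set (Fin n)) y) ≤
        (((M - 1) * (Jᶜ).card + J.card : ℕ) : ℕ∞) :=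
      hJ'r.trans (by exact_mod_cast Nat.add_le_add_left hJJ' _)
    refine cancel_aux (p := (M - 1) * (Jᶜ).card + J.card) ?_ h4
    refine le_trans (le_of_eq ?_) hyr
    congr 1
    rw [Finset.card_compl, Fintype.card_fin]
    have h5 : J.card ≤ n := by
      have := Finset.card_le_univ J
      rwa [Fintype.card_fin] at this
    exact arith_aux M n J.card (by omega) h5
  obtain ⟨y', hy', hout, hsum', hr'⟩ := hc.orbit_ext (κ := Fin n) (ι := Fin n) rfl
    (hkK.trans hKK') hK'L hLc hz (fun i a => hKK' (subset_adj _ _ ⟨i, a, rfl⟩)) hy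
    (J : Set (Fin n)) (fun i hi a => subset_adj _ _ ⟨i, by
      rw [Finset.mem_coe, Finset.mem_compl]
      exact hi, a, rfl⟩) hysum.symm
  have hcardJ : Fintype.card {i : Fin n // i ∈ J} = J.card := Fintype.card_coe J
  let e : Fin J.card ≃ {i : Fin n // i ∈ J} :=
    ((Fintype.equivFin _).trans (finCongr hcardJ)).symm
  have hcof : ∀ x : Fin n → τ → Ω, coords (fun i => x (e i)) = cof (J : Set (Fin n)) x := by
    intro x
    rw [coords_comp_equiv e (fun i => x i)]
    ext c
    constructor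
    · rintro ⟨i, a, ha⟩
      exact ⟨i, i.2, a, ha⟩
    · rintro ⟨i, hi, a, ha⟩
      exact ⟨⟨i, hi⟩, a, ha⟩
  have hsumJ : ∀ x : Fin n → τ → Ω, ∑ i, cl (x (e i)) = ∑ i ∈ J, cl (x i) := by
    intro x
    rw [Equiv.sum_comp e (fun i => cl (x i))]
    exact Finset.sum_coe_sort J (fun i => cl (x i))
  have hle := hE.orbit_le h hc (z := fun i => y (e i)) (y := fun i => y' (e i))
    (fun i => hy _) (fun i => hy' _) (by
      rw [hsumJ, hsumJ]
      have h1 : ∑ i ∈ J, cl (y' i) + ∑ i ∈ Jᶜ, cl (y' i) = ∑ i ∈ J, cl (y i) +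
          ∑ i ∈ Jᶜ, cl (y i) := by
        rw [Finset.sum_add_sum_compl, Finset.sum_add_sum_compl, hsum']
      have h2 : ∑ i ∈ Jᶜ, cl (y' i) = ∑ i ∈ Jᶜ, cl (y i) := by
        refine Finset.sum_congr rfl fun i hi => ?_
        rw [hout i (by rw [Finset.mem_compl] at hi; exact hi)]
      rw [h2] at h1
      exact (add_right_cancel h1).symm)
    (by
      rw [hcof]
      exact hJ1.trans (rk_anti hkK _))
  rw [hcof, hcof] at hle
  have h1 : (((M - 2) * J.card + 1 : ℕ) : ℕ∞) ≤ rk (adj k (cof (J : Set (Fin n)) y))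
      (cof (J : Set (Fin n)) y') := by
    refine hJr.trans (hr'.trans (rk_anti ?_ _))
    exact adj_le ((hkK.trans hKK').trans hK'L)
      ((cof_subset_coords _ _).trans (subset_adj _ _))
  have h2 : (((M - 2) * J.card + 1 : ℕ) : ℕ∞) + ((m * J.card : ℕ) : ℕ∞) ≤
      (((M + 1) * J.card : ℕ) : ℕ∞) := (add_le_add h1 le_rfl).trans hle
  have h3 : (M - 2) * J.card + 1 + m * J.card ≤ (M + 1) * J.card := by exact_mod_cast h2
  have h4 : 3 * J.card ≤ m * J.card := Nat.mul_le_mul_right _ hm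
  obtain ⟨x, rfl⟩ : ∃ x, M = x + 2 := ⟨M - 2, by omega⟩
  have e2 : x + 2 - 2 = x := by omega
  rw [e2] at h3
  nlinarith

end Pool.Agent.Y148.OD
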