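import Pool.Agent.Y148.OD.Dim
import Pool.Agent.Y737.OD.Stab

/-!
# Zero-cycles on projective varieties and their cones
-/

set_option autoImplicit false

namespace Pool.Agent.Y148.OD

open MvPolynomial

variable {r : ℕ} {X : Set (Pt r)}

/-- the point with a coordinate vector -/
noncomputable def pt (v : cone X) : X :=
  ⟨Projectivization.mk ℂ v.1 v.2.choose, v.2.choose_spec⟩

/-- a coordinate vector of a point -/
noncomputable def vec (x : X) : cone X := ⟨(x : Pt r).rep, rep_mem_cone x.2⟩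

theorem pt_vec (x : X) : pt (vec x) = x := Subtype.ext (Projectivization.mk_rep _)

open Classical in
/-- the class of the point with the coordinate vector `v` -/
noncomputable def cl (X : Set (Pt r)) (v : Fin (r + 1) → ℂ) : B X :=
  if h : v ∈ cone X then QuotientAddGroup.mk (FreeAbelianGroup.of (pt ⟨v, h⟩)) else 0

theorem cl_coe (v : cone X) : cl X v = QuotientAddGroup.mk (FreeAbelianGroup.of (pt v)) := by
  rw [cl, dif_pos v.2]

theorem sum_cl {ι : Type} [Fintype ι] (v : ι → cone X) :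
    ∑ i, cl X (v i) = QuotientAddGroup.mk (∑ i, FreeAbelianGroup.of (pt (v i))) := by
  have h := map_sum (QuotientAddGroup.mk' (AddSubgroup.closure {e : FreeAbelianGroup X |
    ∃ (n : ℕ) (x y : Fin n → X), Joined X n x y ∧
      e = ∑ i, FreeAbelianGroup.of (x i) - ∑ i, FreeAbelianGroup.of (y i)}))
    (fun i => FreeAbelianGroup.of (pt (v i))) Finset.univ
  rw [show (QuotientAddGroup.mk (∑ i, FreeAbelianGroup.of (pt (v i))) : B X) = _ from h]
  exact Finset.sum_congr rfl fun i _ => cl_coe (v i)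

theorem lin_pt (v : cone X) : ∃ c : ℂ, c ≠ 0 ∧
    vlin (cone X) v = C c * vlin (cone X) (vec (pt v)) := by
  obtain ⟨a, ha, h⟩ := exists_rep v.1 v.2.choose
  refine ⟨a⁻¹, inv_ne_zero ha, ?_⟩
  have h1 : vlin (cone X) (vec (pt v)) = C a * vlin (cone X) v := by
    have h2 : ((vec (pt v) : cone X) : Fin (r + 1) → ℂ) = fun b => a * v.1 b := by
      show (Projectivization.mk ℂ v.1 _).rep = _
      rw [h]
      rfl
    rw [vlin, h2, Pool.Agent.Y737.OD.lin_smul]
    rfl
  rw [h1, ← mul_assoc, ← C_mul, inv_mul_cancel₀ ha, C_1, one_mul]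

theorem chow_pt {n : ℕ} (x : Fin n → cone X) : ∃ c : ℂ, c ≠ 0 ∧
    chow (vlin (cone X)) x = C c * chowForm fun i => (pt (x i) : Pt r) := by
  choose c hc h using fun i => lin_pt (x i)
  refine ⟨∏ i, c i, Finset.prod_ne_zero_iff.mpr fun i _ => hc i, ?_⟩
  rw [chow, chowForm, map_prod, ← Finset.prod_mul_distrib]
  exact Finset.prod_congr rfl fun i _ => h i

theorem chow_vec {n : ℕ} (x : Fin n → X) :
    chow (vlin (cone X)) (fun i => vec (x i)) = chowForm fun i => (x i : Pt r) := rfl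

theorem joined_of_ratStep {n : ℕ} {x y : Fin n → cone X} (h : RatStep (vlin (cone X)) n x y) :
    Joined X n (fun i => pt (x i)) (fun i => pt (y i)) := by
  obtain ⟨c, c', hc, hc', F, h0, hl, hF⟩ := h
  obtain ⟨a, ha, hxa⟩ := chow_pt x
  obtain ⟨b, hb, hyb⟩ := chow_pt y
  refine ⟨F, ⟨c * a, mul_ne_zero hc ha, ?_⟩, ⟨c' * b, mul_ne_zero hc' hb, ?_⟩, fun s => ?_⟩
  · rw [h0, hxa, ← mul_assoc, ← C_mul]
  · rw [hl, hyb, ← mul_assoc, ← C_mul]
  · obtain ⟨d, z, hz⟩ := hF s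
    obtain ⟨e, he, hze⟩ := chow_pt z
    refine ⟨d * e, fun i => pt (z i), ?_⟩
    rw [hz, hze, ← mul_assoc, ← C_mul]

theorem ratStep_of_joined {n : ℕ} {x y : Fin n → X} (h : Joined X n x y) :
    RatStep (vlin (cone X)) n (fun i => vec (x i)) (fun i => vec (y i)) := by
  obtain ⟨F, ⟨c, hc, h0⟩, ⟨c', hc', hl⟩, hF⟩ := h
  refine ⟨c, c', hc, hc', F, h0, hl, fun s => ?_⟩
  obtain ⟨d, z, hz⟩ := hF s
  exact ⟨d, fun i => vec (z i), hz⟩

/-- rationally equivalent zero-cycles have the same class -/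
theorem cl_eq_of_rat {n : ℕ} (x y : Fin n → cone X)
    (h : ∑ i, FreeAbelianGroup.of (x i) - ∑ i, FreeAbelianGroup.of (y i) ∈
      ratSub (vlin (cone X))) : ∑ i, cl X (x i) = ∑ i, cl X (y i) := by
  let φ : FreeAbelianGroup (cone X) →+ B X := FreeAbelianGroup.lift fun v => cl X v
  have hφ : ∀ {m : ℕ} (z : Fin m → cone X),
      φ (∑ i, FreeAbelianGroup.of (z i)) = ∑ i, cl X (z i) := by
    intro m z
    rw [map_sum]
    exact Finset.sum_congr rfl fun i _ => FreeAbelianGroup.lift_apply_of _ _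
  have h1 : ratSub (vlin (cone X)) ≤ φ.ker := by
    rw [ratSub, AddSubgroup.closure_le]
    rintro e ⟨m, u, w, huw, rfl⟩
    show φ _ = 0
    rw [map_sub, hφ, hφ, sub_eq_zero, sum_cl, sum_cl, QuotientAddGroup.eq, neg_add_eq_sub]
    rw [← neg_sub]
    exact neg_mem (AddSubgroup.subset_closure ⟨m, _, _, joined_of_ratStep huw, rfl⟩)
  have h2 := h1 h
  have h3 : φ _ = 0 := h2
  rw [map_sub, hφ, hφ, sub_eq_zero] at h3
  exact h3

/-- zero-cycles with the same class are rationally equivalent -/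
theorem rat_of_cl_eq {n : ℕ} (x y : Fin n → cone X)
    (h : ∑ i, cl X (x i) = ∑ i, cl X (y i)) :
    ∑ i, FreeAbelianGroup.of (x i) - ∑ i, FreeAbelianGroup.of (y i) ∈
      ratSub (vlin (cone X)) := by
  let ψ : FreeAbelianGroup X →+ FreeAbelianGroup (cone X) :=
    FreeAbelianGroup.lift fun x => FreeAbelianGroup.of (vec x)
  have hψ : ∀ {m : ℕ} (z : Fin m → X),
      ψ (∑ i, FreeAbelianGroup.of (z i)) = ∑ i, FreeAbelianGroup.of (vec (z i)) := by
    intro m z
    rw [map_sum]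
    exact Finset.sum_congr rfl fun i _ => FreeAbelianGroup.lift_apply_of _ _
  rw [sum_cl, sum_cl, QuotientAddGroup.eq, neg_add_eq_sub, ← neg_sub, neg_mem_iff] at h
  have h1 : AddSubgroup.closure {e : FreeAbelianGroup X |
      ∃ (n : ℕ) (x y : Fin n → X), Joined X n x y ∧
        e = ∑ i, FreeAbelianGroup.of (x i) - ∑ i, FreeAbelianGroup.of (y i)} ≤
      (ratSub (vlin (cone X))).comap ψ := by
    rw [AddSubgroup.closure_le]
    rintro e ⟨m, u, w, huw, rfl⟩
    show ψ _ ∈ ratSub (vlin (cone X))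
    rw [map_sub, hψ, hψ]
    exact AddSubgroup.subset_closure ⟨m, _, _, ratStep_of_joined huw, rfl⟩
  have h2 := h1 h
  have h3 : ψ _ ∈ ratSub (vlin (cone X)) := h2
  rw [map_sub, hψ, hψ] at h3
  have h4 : ∀ z : Fin n → cone X, ∑ i, FreeAbelianGroup.of (z i) -
      ∑ i, FreeAbelianGroup.of (vec (pt (z i))) ∈ ratSub (vlin (cone X)) := by
    intro z
    obtain ⟨c, hc, hz⟩ := chow_pt z
    refine Pool.Agent.Y737.OD.const_step (vlin (cone X)) n z (fun i => vec (pt (z i))) c⁻¹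
      (inv_ne_zero hc) ?_
    rw [chow_vec, hz, ← mul_assoc, ← C_mul, inv_mul_cancel₀ hc, C_1, one_mul]
  have h5 : ∑ i, FreeAbelianGroup.of (x i) - ∑ i, FreeAbelianGroup.of (y i) =
      (∑ i, FreeAbelianGroup.of (x i) - ∑ i, FreeAbelianGroup.of (vec (pt (x i)))) +
      (∑ i, FreeAbelianGroup.of (vec (pt (x i))) - ∑ i, FreeAbelianGroup.of (vec (pt (y i)))) -
      (∑ i, FreeAbelianGroup.of (y i) - ∑ i, FreeAbelianGroup.of (vec (pt (y i)))) := by
    abel
  rw [h5]
  exact sub_mem (add_mem (h4 x) h3) (h4 y)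

/-- **Rational equivalence is stable under specialisation.** -/
theorem cls_cone (hStab : StmStab) {k : Subfield ℂ} {N : ℕ} (h : Setup k (cone X) N) :
    Cls k (cone X) (cl X) where
  ne_zero := fun v hv => hv.choose
  smul_mem := fun c v hc hv => smul_mem_cone hc hv
  smul_cl := by
    intro c v hc hv
    have h1 := cl_eq_of_rat (X := X) (fun _ : Fin 1 => ⟨c • v, smul_mem_cone hc hv⟩)
      (fun _ : Fin 1 => ⟨v, hv⟩) (Pool.Agent.Y737.OD.const_step _ _ _ _ c⁻¹ (inv_ne_zero hc) (by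
        simp only [chow, Fin.prod_univ_one, vlin]
        have h2 : lin (c • v) = C c * lin v := Pool.Agent.Y737.OD.lin_smul c v
        rw [h2, ← mul_assoc, ← C_mul, inv_mul_cancel₀ hc, C_1, one_mul]))
    simpa using h1
  stab := by
    intro κ ι _ _ hcard z y z' y' hz hy hs hz' hy' hP
    have := uncountable_complex
    set n := Fintype.card κ with hn
    let e : Fin n ≃ κ := (Fintype.equivFinOfCardEq hn.symm).symm
    let e' : Fin n ≃ ι := (Fintype.equivFinOfCardEq hcard.symm).symm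
    have h1 : ∑ i, FreeAbelianGroup.of (⟨z (e i), hz _⟩ : cone X) -
        ∑ i, FreeAbelianGroup.of (⟨y (e' i), hy _⟩ : cone X) ∈ ratSub (vlin (cone X)) := by
      refine rat_of_cl_eq _ _ ?_
      show ∑ i, cl X (z (e i)) = ∑ i, cl X (y (e' i))
      rw [Equiv.sum_comp e (fun i => cl X (z i)), Equiv.sum_comp e' (fun i => cl X (y i)), hs]
    obtain ⟨hx, hy2, h2⟩ := hStab ℂ (Fin (r + 1)) (cone X) k h.countable h.closed
      (fun c v hc hv => smul_mem_cone hc hv) n (fun i => ⟨z (e i), hz _⟩)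
      (fun i => ⟨y (e' i), hy _⟩) (fun i => z' (e i)) (fun i => y' (e' i)) h1
      (fun i => hz' _) (fun i => hy' _) (fun P hP0 => by
        have h3 := hP (rename (Prod.map (Sum.map e e') id) P)
        rw [aeval_rename, aeval_rename] at h3
        have h4 := h3 (by
          rw [← hP0]
          congr 1
          congr 1
          funext p
          obtain ⟨i | i, a⟩ := p <;> rfl)
        rw [← h4]
        congr 1
        congr 1
        funext p
        obtain ⟨i | i, a⟩ := p <;> rfl)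
    refine ⟨fun i => ?_, fun i => ?_, ?_⟩
    · have := hx (e.symm i)
      rwa [Equiv.apply_symm_apply] at this
    · have := hy2 (e'.symm i)
      rwa [Equiv.apply_symm_apply] at this
    · have h3 := cl_eq_of_rat _ _ h2
      have h4 : ∑ i, cl X (z' (e i)) = ∑ i, cl X (y' (e' i)) := h3
      rwa [Equiv.sum_comp e (fun i => cl X (z' i)), Equiv.sum_comp e' (fun i => cl X (y' i))] at h4

theorem γ_pt {n : ℕ} (z : Fin n → cone X) : γ X (fun i => pt (z i)) = ∑ i, cl X (z i) := by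
  rw [sum_cl]
  rfl

theorem hasVec_fibre {n : ℕ} (x : Fin n → X) (v : Fin n → Fin (r + 1) → ℂ) :
    HasVec (fibre X x) v ↔ (∀ i, v i ∈ cone X) ∧ ∑ i, cl X (v i) = γ X x := by
  constructor
  · rintro ⟨hv, hy, h⟩
    have hvc : ∀ i, v i ∈ cone X := fun i => ⟨hv i, hy i⟩
    refine ⟨hvc, ?_⟩
    rw [← h]
    exact (γ_pt fun i => ⟨v i, hvc i⟩).symm
  · rintro ⟨hv, h⟩
    refine ⟨fun i => (hv i).choose, fun i => (hv i).choose_spec, ?_⟩
    rw [← h]
    exact γ_pt fun i => ⟨v i, hv i⟩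

theorem fibre_nonempty {n : ℕ} (x : Fin n → X) : (fibre X x).Nonempty :=
  ⟨fun i => (x i : Pt r), fun i => (x i).2, rfl⟩

theorem big_iff {n : ℕ} {z : Fin n → Fin (r + 1) → ℂ} {x : Fin n → X}
    (h : ∑ i, cl X (z i) = γ X x) (d : ℕ) :
    Big (cone X) (cl X) z (d + n) ↔ d ≤ dim (fibre X x) := by
  rw [le_dim_iff (fibre_nonempty x), dimGE_iff]
  refine forall₂_congr fun L _ => exists_congr fun v => ?_
  rw [hasVec_fibre, h, Fintype.card_fin, and_assoc]

theorem Big.mono {Ω τ A : Type} [Field Ω] [AddCommGroup A] {V : Set (τ → Ω)} {cl : (τ → Ω) → A}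
    {m : ℕ} {z : Fin m → τ → Ω} {a b : ℕ} (h : Big V cl z a) (hab : b ≤ a) : Big V cl z b := by
  intro L hL
  obtain ⟨y, hy, hys, hyr⟩ := h L hL
  exact ⟨y, hy, hys, le_trans (by exact_mod_cast hab) hyr⟩

theorem le_sInf_iff {n : ℕ} (hX : X.Nonempty) (s : ℕ) :
    s ≤ sInf {d | ∃ x : Fin n → X, d = dim (fibre X x)} ↔
      ∀ x : Fin n → X, s ≤ dim (fibre X x) := by
  obtain ⟨x₀, hx₀⟩ := hX
  constructor
  · intro h x
    exact h.trans (Nat.sInf_le ⟨x, rfl⟩)
  · intro h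
    obtain ⟨x, hx⟩ := Nat.sInf_mem (s := {d | ∃ x : Fin n → X, d = dim (fibre X x)})
      ⟨_, fun _ => ⟨x₀, hx₀⟩, rfl⟩
    rw [hx]
    exact h x

/-- Translation of the equivalences. -/
theorem tfae_of (hX : X.Nonempty)
    (h : List.TFAE
      [∃ c : ℕ, ∀ (m : ℕ) (z : Fin m → Fin (r + 1) → ℂ), (∀ i, z i ∈ cone X) →
          Big (cone X) (cl X) z (3 * m - c),
       ∃ m : ℕ, ∀ z : Fin m → Fin (r + 1) → ℂ, (∀ i, z i ∈ cone X) →
          Big (cone X) (cl X) z (m + 1),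
       ∃ (m : ℕ) (z : Fin m → Fin (r + 1) → ℂ), (∀ i, z i ∈ cone X) ∧
          Big (cone X) (cl X) z ((3 - 1) * m + 1)]) :
    List.TFAE [∃ c, ∀ n, dn X 2 n ≤ c, ∃ n, dn X 2 n < 2 * n,
      ∃ (n : ℕ) (x : Fin n → X), n < dim (fibre X x)] := by
  have hz : ∀ {n : ℕ} (z : Fin n → Fin (r + 1) → ℂ) (hz : ∀ i, z i ∈ cone X),
      ∑ i, cl X (z i) = γ X fun i => pt ⟨z i, hz i⟩ := fun z hz =>
    (γ_pt fun i => ⟨z i, hz i⟩).symm
  have hx : ∀ {n : ℕ} (x : Fin n → X), ∑ i, cl X (vec (x i)) = γ X x := by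
    intro n x
    rw [← γ_pt]
    simp only [pt_vec]
  have key : ∀ (n s : ℕ), s ≤ sInf {d | ∃ x : Fin n → X, d = dim (fibre X x)} ↔
      ∀ z : Fin n → Fin (r + 1) → ℂ, (∀ i, z i ∈ cone X) → Big (cone X) (cl X) z (s + n) := by
    intro n s
    rw [le_sInf_iff hX]
    constructor
    · intro h z hzc
      exact (big_iff (hz z hzc) s).mpr (h _)
    · intro h x
      exact (big_iff (hx x) s).mp (h _ fun i => (vec (x i)).2)
  tfae_have 1 → 3 := by
    intro h1
    have h2 : ∃ (m : ℕ) (z : Fin m → Fin (r + 1) → ℂ), (∀ i, z i ∈ cone X) ∧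
        Big (cone X) (cl X) z ((3 - 1) * m + 1) := by
      refine (h.out 0 2).mp ?_
      obtain ⟨c, hc⟩ := h1
      refine ⟨c, fun m z hzc => ?_⟩
      have h3 := (key m (2 * m - c)).mp (by
        have := hc m
        rw [dn] at this
        omega) z hzc
      exact h3.mono (by omega)
    obtain ⟨m, z, hzc, hb⟩ := h2
    refine ⟨m, _, (big_iff (hz z hzc) (m + 1)).mp (hb.mono (by omega))⟩
  tfae_have 3 → 2 := by
    rintro ⟨n, x, hn⟩
    have h0 : ∃ (m : ℕ) (z : Fin m → Fin (r + 1) → ℂ), (∀ i, z i ∈ cone X) ∧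
        Big (cone X) (cl X) z ((3 - 1) * m + 1) := by
      refine ⟨n, fun i => vec (x i), fun i => (vec (x i)).2, ?_⟩
      have h1 : n + 1 ≤ dim (fibre X x) := hn
      exact ((big_iff (hx x) (n + 1)).mpr h1).mono (by omega)
    have h0' : ∃ m : ℕ, ∀ z : Fin m → Fin (r + 1) → ℂ, (∀ i, z i ∈ cone X) →
        Big (cone X) (cl X) z (m + 1) := (h.out 2 1).mp h0
    obtain ⟨m, hm⟩ := h0'
    have h1 := (key m 1).mpr (fun z hzc => (hm z hzc).mono (by omega))
    refine ⟨m, ?_⟩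
    have h2 : m ≠ 0 := by
      rintro rfl
      obtain ⟨x₀, hx₀⟩ := hX
      have h3 := (le_sInf_iff ⟨x₀, hx₀⟩ 1).mp h1 (fun _ => ⟨x₀, hx₀⟩)
      have h4 := ((le_dim_iff (fibre_nonempty _) 1).mp h3).le
      simp at h4
    rw [dn]
    omega
  tfae_have 2 → 1 := by
    rintro ⟨n, hn⟩
    have h0 : ∃ m : ℕ, ∀ z : Fin m → Fin (r + 1) → ℂ, (∀ i, z i ∈ cone X) →
        Big (cone X) (cl X) z (m + 1) := by
      refine ⟨n, fun z hzc => ?_⟩
      have h1 := (key n 1).mp (by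
        rw [dn] at hn
        omega) z hzc
      exact h1.mono (by omega)
    have h0' : ∃ c : ℕ, ∀ (m : ℕ) (z : Fin m → Fin (r + 1) → ℂ), (∀ i, z i ∈ cone X) →
        Big (cone X) (cl X) z (3 * m - c) := (h.out 1 0).mp h0
    obtain ⟨c, hc⟩ := h0'
    refine ⟨c, fun m => ?_⟩
    have h1 := (key m (2 * m - c)).mpr (fun z hzc => by
      by_cases h2 : 2 * m ≤ c
      · rw [Nat.sub_eq_zero_of_le h2]
        have h3 := (big_iff (hz z hzc) 0).mpr (Nat.zero_le _)
        exact h3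
      · exact (hc m z hzc).mono (by omega))
    rw [dn]
    omega
  tfae_finish

/-- **The criteria.** -/
theorem surface_tfae (hComp : StmComp) (hCurve : StmCurve) (hStab : StmStab)
    (hX : IsVariety X 2) :
    List.TFAE [∃ c, ∀ n, dn X 2 n ≤ c, ∃ n, dn X 2 n < 2 * n,
      ∃ (n : ℕ) (x : Fin n → X), n < dim (fibre X x)] := by
  have := uncountable_complex
  obtain ⟨k, hk⟩ := setup_cone hX
  have hc := cls_cone hStab hk
  obtain ⟨w₀, hw₀⟩ := hk.nonempty
  obtain ⟨a₁, ha₁⟩ := exists_ne (hc.ne_zero _ hw₀)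
  set l : Fin (r + 1) → ℂ := Pi.single a₁ 1 with hl
  have hlv : ∀ v : Fin (r + 1) → ℂ, ∑ a, l a * v a = v a₁ := by
    intro v
    rw [Finset.sum_eq_single a₁]
    · simp [hl]
    · intro b _ hb
      simp [hl, Pi.single_eq_of_ne hb]
    · intro h
      exact absurd (Finset.mem_univ _) h
  have hlk : ∀ a, l a ∈ k := by
    intro a
    by_cases h : a = a₁
    · rw [h, hl, Pi.single_eq_same]
      exact one_mem k
    · rw [hl, Pi.single_eq_of_ne h]
      exact zero_mem k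
  obtain ⟨k', q, hk'c, hkk', hB⟩ := exists_bdd hComp hCurve hk hc
    (fun n x y h => cl_eq_of_rat x y h) hlk ⟨w₀, hw₀, by rw [hlv]; exact ha₁⟩
  have hk' := hk.mono hkk' hk'c
  have hc' := hc.mono hkk'
  exact tfae_of hX.irred.1 (main_tfae' hk' (by norm_num) hc' (fun a => hkk' (hlk a)) hB)

end Pool.Agent.Y148.OD
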